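import Pool.Agent.Lib.MP_629a14_nt.Ml.Psi

/-! Basic properties of the kernels. -/

set_option autoImplicit false

namespace Pool.Agent.Lib.MP_629a14_nt.Ml

open Finset

variable {ι : Type} [Fintype ι] [DecidableEq ι] {n : ι → ℕ} [∀ i, NeZero (n i)]

private theorem ker_norm_sq (x : Gp n) : ‖psi x - 1‖ ^ 2 = 2 * (1 - (psi x).re) := by
  have h1 : Complex.normSq (psi x) = 1 := by
    rw [Complex.normSq_eq_norm_sq, norm_psi]
    norm_num
  rw [← Complex.normSq_eq_norm_sq, Complex.normSq_apply, Complex.sub_re, Complex.sub_im,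
    Complex.one_re, Complex.one_im]
  rw [Complex.normSq_apply] at h1
  linear_combination h1

theorem QQ_nonneg {J : ℕ} (a : Fin J → Gp n) (s : Gp n) : 0 ≤ QQ a s := by
  unfold QQ
  exact sum_nonneg fun j _ => sub_nonneg.2 (re_psi_le _)

theorem QQ_zero {J : ℕ} (a : Fin J → Gp n) : QQ a 0 = 0 := by
  unfold QQ
  refine sum_eq_zero fun j _ => ?_
  rw [mul_zero, psi_zero]
  simp

theorem QQ_neg {J : ℕ} (a : Fin J → Gp n) (s : Gp n) : QQ a (-s) = QQ a s := by
  unfold QQ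
  refine sum_congr rfl fun j _ => ?_
  rw [mul_neg, psi_neg, Complex.conj_re]

/-- `|1 - z w|^2 ≤ 2 |1 - z|^2 + 2 |1 - w|^2` on the unit circle and `1 - Re z = |1 - z|^2 / 2`. -/
theorem QQ_add_le {J : ℕ} (a : Fin J → Gp n) (s t : Gp n) :
    QQ a (s + t) ≤ 2 * QQ a s + 2 * QQ a t := by
  unfold QQ
  rw [mul_sum, mul_sum, ← sum_add_distrib]
  refine sum_le_sum fun j _ => ?_
  rw [mul_add, psi_add]
  have h1 := ker_norm_sq (a j * s)
  have h2 := ker_norm_sq (a j * t)
  have h3 : ‖psi (a j * s) * psi (a j * t) - 1‖ ^ 2 =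
      2 * (1 - (psi (a j * s) * psi (a j * t)).re) := by
    rw [← psi_add]
    exact ker_norm_sq _
  have h4 : ‖psi (a j * s) * psi (a j * t) - 1‖ ≤
      ‖psi (a j * s) - 1‖ + ‖psi (a j * t) - 1‖ := by
    have e : psi (a j * s) * psi (a j * t) - 1 =
        psi (a j * s) * (psi (a j * t) - 1) + (psi (a j * s) - 1) := by ring
    rw [e]
    refine (norm_add_le _ _).trans ?_
    rw [norm_mul, norm_psi, one_mul, add_comm]
  have h5 := norm_nonneg (psi (a j * s) * psi (a j * t) - 1)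
  have h6 := norm_nonneg (psi (a j * s) - 1)
  have h7 := norm_nonneg (psi (a j * t) - 1)
  nlinarith [sq_nonneg (‖psi (a j * s) - 1‖ - ‖psi (a j * t) - 1‖), mul_self_le_mul_self h5 h4]

theorem QQ_two_le {J : ℕ} (a : Fin J → Gp n) (s : Gp n) : QQ a (s + s) ≤ 4 * QQ a s := by
  have := QQ_add_le a s s
  linarith

/-- For odd moduli. -/
theorem half_add_half (hodd : ∀ i, Odd (n i)) (s : Gp n) : half * s + half * s = s := by
  funext i
  rw [Pi.add_apply, Pi.mul_apply]
  unfold half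
  have h1 : Nat.Coprime 2 (n i) := Nat.coprime_two_left.2 (hodd i)
  have h2 := ZMod.coe_mul_inv_eq_one 2 h1
  have h3 : (2 : ZMod (n i)) * (2 : ZMod (n i))⁻¹ = 1 := by exact_mod_cast h2
  linear_combination (s i) * h3

theorem QQ_half_mul {J : ℕ} (a : Fin J → Gp n) (s : Gp n) :
    QQ a (half * s) = QQ (fun j => half * a j) s := by
  unfold QQ
  refine sum_congr rfl fun j _ => ?_
  rw [show a j * (half * s) = half * a j * s by ring]

/-- `s = half * s + half * s`, `QQ_two_le` and `QQ_half_mul`. -/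
theorem QQ_le_half (hodd : ∀ i, Odd (n i)) {J : ℕ} (a : Fin J → Gp n) (s : Gp n) :
    QQ a s ≤ 4 * QQ (fun j => half * a j) s := by
  have h1 := QQ_two_le a (half * s)
  rw [half_add_half hodd s, QQ_half_mul] at h1
  exact h1

theorem QQ_cons {J : ℕ} (a : Fin J → Gp n) (b s : Gp n) :
    QQ (Fin.cons b a : Fin (J + 1) → Gp n) s = (1 - (psi (b * s)).re) + QQ a s := by
  unfold QQ
  rw [Fin.sum_univ_succ]
  simp only [Fin.cons_zero, Fin.cons_succ]

/-- `|z - 1|^2 = 2 (1 - Re z)` for `|z| = 1`. -/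
theorem norm_psi_sub_sq (x : Gp n) : ‖psi x - 1‖ ^ 2 = 2 * (1 - (psi x).re) := by
  exact ker_norm_sq x

theorem ZZ_pos {J : ℕ} (a : Fin J → Gp n) (lam : ℝ) (E : Finset ι) : 0 < ZZ a lam E := by
  unfold ZZ EH
  refine div_pos (sum_pos (fun s _ => Real.exp_pos _) ⟨0, zero_mem_HS E⟩) (card_HS_pos E)

theorem ZZ_le_one {J : ℕ} (a : Fin J → Gp n) (lam : ℝ) (hlam : 0 ≤ lam) (E : Finset ι) :
    ZZ a lam E ≤ 1 := by
  have hc := card_HS_pos (n := n) E
  unfold ZZ EH
  rw [div_le_one hc]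
  calc ∑ s ∈ (HS E : Finset (Gp n)), Real.exp (-(lam * QQ a s))
      ≤ ∑ s ∈ (HS E : Finset (Gp n)), (1 : ℝ) := by
        refine sum_le_sum fun s _ => ?_
        rw [Real.exp_le_one_iff]
        have := mul_nonneg hlam (QQ_nonneg a s)
        linarith
    _ = _ := by simp

theorem ka_nonneg {J : ℕ} (a : Fin J → Gp n) (lam : ℝ) (E : Finset ι) (s : Gp n) :
    0 ≤ ka a lam E s := by
  unfold ka
  split_ifs
  · exact div_nonneg (Real.exp_pos _).le (mul_nonneg (ZZ_pos a lam E).le (card_HS_pos E).le)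
  · exact le_rfl

theorem ka_of_not_mem {J : ℕ} (a : Fin J → Gp n) (lam : ℝ) (E : Finset ι) {s : Gp n}
    (hs : s ∉ (HS E : Finset (Gp n))) : ka a lam E s = 0 := by
  unfold ka
  rw [if_neg hs]

private theorem ker_sum {J : ℕ} (a : Fin J → Gp n) (lam : ℝ) (E : Finset ι) (Φ : Gp n → ℝ) :
    ∑ s, ka a lam E s * Φ s = EH E (fun s => Real.exp (-(lam * QQ a s)) * Φ s) / ZZ a lam E := by
  classical
  have hZ := (ZZ_pos a lam E).ne'
  have hc := (card_HS_pos (n := n) E).ne'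
  have h1 : ∀ s, ka a lam E s * Φ s = if s ∈ (HS E : Finset (Gp n)) then
      Real.exp (-(lam * QQ a s)) * Φ s / (ZZ a lam E * ((HS E : Finset (Gp n)).card : ℝ)) else 0 := by
    intro s
    unfold ka
    split_ifs
    · ring
    · ring
  rw [sum_congr rfl fun s _ => h1 s, ← sum_filter, ← sum_div]
  have h2 : univ.filter (fun s : Gp n => s ∈ (HS E : Finset (Gp n))) = HS E := by
    ext s
    simp
  rw [h2]
  unfold EH
  rw [div_div, mul_comm (ZZ a lam E)]

theorem ka_sum {J : ℕ} (a : Fin J → Gp n) (lam : ℝ) (E : Finset ι) :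
    ∑ s, ka a lam E s = 1 := by
  have h := ker_sum a lam E (fun _ => 1)
  simp only [mul_one] at h
  rw [h]
  have hZ := (ZZ_pos a lam E).ne'
  unfold ZZ at hZ ⊢
  exact div_self hZ

theorem ka_neg {J : ℕ} (a : Fin J → Gp n) (lam : ℝ) (E : Finset ι) (s : Gp n) :
    ka a lam E (-s) = ka a lam E s := by
  unfold ka
  rw [QQ_neg]
  by_cases h : s ∈ (HS E : Finset (Gp n))
  · rw [if_pos h, if_pos (neg_mem_HS h)]
  · rw [if_neg h, if_neg]
    intro h2
    apply h
    have := neg_mem_HS h2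
    rwa [neg_neg] at this

theorem ka_le {J : ℕ} (a : Fin J → Gp n) (lam : ℝ) (hlam : 0 ≤ lam) (E : Finset ι) (s : Gp n) :
    ka a lam E s ≤ 1 / (ZZ a lam E * ((HS E : Finset (Gp n)).card : ℝ)) := by
  have hZ := ZZ_pos a lam E
  have hc := card_HS_pos (n := n) E
  unfold ka
  split_ifs
  · refine div_le_div_of_nonneg_right ?_ (mul_pos hZ hc).le
    rw [Real.exp_le_one_iff]
    have := mul_nonneg hlam (QQ_nonneg a s)
    linarith
  · positivity

private theorem ker_Hm {J : ℕ} (a : Fin J → Gp n) (lam : ℝ) (s : Gp n) :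
    Hm a lam 1 0 s = Real.exp (-(lam * QQ a s)) := by
  unfold Hm
  rw [one_mul, sub_self, zero_mul, add_zero]

/-- Averages with respect to the kernel as averages over `HS E`. -/
theorem ka_eq_EH {J : ℕ} (a : Fin J → Gp n) (lam : ℝ) (E : Finset ι) (Φ : Gp n → ℝ) :
    ∑ s, ka a lam E s * Φ s = EH E (fun s => Hm a lam 1 0 s * Φ s) / ZZ a lam E := by
  rw [ker_sum]
  have h : ∀ s : Gp n, Hm a lam 1 0 s = Real.exp (-(lam * QQ a s)) := ker_Hm a lam
  simp only [h]

/-- From `GoodK` with `h = 0`, `th = 1`. -/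
theorem ka_PF {c : ι → ℝ} {J : ℕ} {a : Fin J → Gp n} {lam : ℝ} {E : Finset ι} {rho : ℝ}
    (hG : GoodK c a lam E rho) {Φ : Gp n → ℝ} (hΦ : PF c E Φ) :
    |∑ s, ka a lam E s * Φ s - EH E Φ| ≤ rho * EH E Φ := by
  have hZ := ZZ_pos a lam E
  have h1 := hG Φ hΦ 0 (zero_mem_HS E) 1 zero_le_one le_rfl
  have h2 : EH E (Hm a lam 1 0) = ZZ a lam E := by
    unfold ZZ
    congr 1
    funext s
    exact ker_Hm a lam s
  rw [h2] at h1
  rw [ka_eq_EH]
  have h3 : EH E (fun s => Hm a lam 1 0 s * Φ s) / ZZ a lam E - EH E Φ =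
      (EH E (fun s => Hm a lam 1 0 s * Φ s) - ZZ a lam E * EH E Φ) / ZZ a lam E := by
    field_simp
  rw [h3, abs_div, abs_of_pos hZ, div_le_iff₀ hZ]
  calc _ ≤ rho * ZZ a lam E * EH E Φ := h1
    _ = _ := by ring

/-- With `x = lam * QQ a s + log Z` use `x ≤ exp x - 1`, and
`∑ s, ka s * exp (lam * QQ a s) = 1 / Z` (the kernel is `exp (- lam QQ) / (Z card)` on `HS E`). -/
theorem EQ_le {J : ℕ} (a : Fin J → Gp n) (lam : ℝ) (hlam : 0 < lam) (E : Finset ι) :
    ∑ s, ka a lam E s * QQ a s ≤ Real.log (1 / ZZ a lam E) / lam := by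
  have hZ := ZZ_pos a lam E
  have hc := card_HS_pos (n := n) E
  rw [le_div_iff₀ hlam, one_div, Real.log_inv]
  have h1 : ∀ s, ka a lam E s * (lam * QQ a s + Real.log (ZZ a lam E)) ≤
      ka a lam E s * (ZZ a lam E * Real.exp (lam * QQ a s) - 1) := by
    intro s
    refine mul_le_mul_of_nonneg_left ?_ (ka_nonneg a lam E s)
    have h2 := Real.add_one_le_exp (lam * QQ a s + Real.log (ZZ a lam E))
    rw [Real.exp_add, Real.exp_log hZ] at h2
    linarith
  have h2 := sum_le_sum fun s (_ : s ∈ (univ : Finset (Gp n))) => h1 s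
  have h3 : ∑ s, ka a lam E s * (lam * QQ a s + Real.log (ZZ a lam E)) =
      lam * (∑ s, ka a lam E s * QQ a s) + Real.log (ZZ a lam E) := by
    have e : ∀ s, ka a lam E s * (lam * QQ a s + Real.log (ZZ a lam E)) =
        lam * (ka a lam E s * QQ a s) + ka a lam E s * Real.log (ZZ a lam E) := fun s => by ring
    rw [sum_congr rfl fun s _ => e s, sum_add_distrib, ← mul_sum, ← sum_mul, ka_sum, one_mul]
  have h4 : ∑ s, ka a lam E s * (ZZ a lam E * Real.exp (lam * QQ a s) - 1) = 0 := by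
    have e : ∀ s, ka a lam E s * (ZZ a lam E * Real.exp (lam * QQ a s) - 1) =
        ZZ a lam E * (ka a lam E s * Real.exp (lam * QQ a s)) - ka a lam E s := fun s => by ring
    rw [sum_congr rfl fun s _ => e s, sum_sub_distrib, ← mul_sum, ka_sum, ker_sum]
    have h5 : (fun s : Gp n => Real.exp (-(lam * QQ a s)) * Real.exp (lam * QQ a s)) =
        fun _ => 1 := by
      funext s
      rw [← Real.exp_add, neg_add_cancel, Real.exp_zero]
    rw [h5, EH_const, mul_one_div, div_self hZ.ne', sub_self]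
  rw [h3, h4] at h2
  linarith

end Pool.Agent.Lib.MP_629a14_nt.Ml
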