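import Pool.Agent.Lib.MP_629a14_nt.Ml.FDefs
import Pool.Agent.Lib.MP_629a14_nt.Ml.Ker

/-! Fourier inversion and Parseval's identity. -/

set_option autoImplicit false

namespace Pool.Agent.Lib.MP_629a14_nt.Ml

open Finset

variable {ι : Type} [Fintype ι] [DecidableEq ι] {n : ι → ℕ} [∀ i, NeZero (n i)]

/-- `sum_psi_HS` with `E = ∅`. -/
theorem sum_psi_univ (b : Gp n) :
    ∑ s : Gp n, psi (b * s) = if b = 0 then (Fintype.card (Gp n) : ℂ) else 0 := by
  classical
  have h := sum_psi_HS (n := n) ∅ b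
  have h1 : (HS (∅ : Finset ι) : Finset (Gp n)) = univ := by
    ext s
    rw [mem_HS]
    simp
  rw [h1] at h
  rw [h]
  have h2 : (∀ i, i ∉ (∅ : Finset ι) → b i = 0) ↔ b = 0 := by
    constructor
    · intro hb
      funext i
      exact hb i (by simp)
    · intro hb i _
      rw [hb]; rfl
  by_cases hb : b = 0
  · rw [if_pos hb, if_pos (h2.2 hb), card_univ]
  · rw [if_neg hb, if_neg (fun hh => hb (h2.1 hh))]

private theorem four_card_ne : (Fintype.card (Gp n) : ℂ) ≠ 0 := by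
  have : 0 < Fintype.card (Gp n) := Fintype.card_pos_iff.2 ⟨0⟩
  exact_mod_cast this.ne'

private theorem four_orth (c : Gp n) :
    ∑ b : Gp n, psi (b * c) = if c = 0 then (Fintype.card (Gp n) : ℂ) else 0 := by
  rw [← sum_psi_univ c]
  exact sum_congr rfl fun b _ => by rw [mul_comm]

/-- Orthogonality with a function. -/
private theorem four_orth_fun (F : Gp n → ℂ) (t : Gp n) :
    ∑ b, ∑ y, F y * psi (b * (y - t)) = (Fintype.card (Gp n) : ℂ) * F t := by
  rw [sum_comm]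
  have h1 : ∀ y : Gp n, ∑ b, F y * psi (b * (y - t)) =
      if y = t then (Fintype.card (Gp n) : ℂ) * F t else 0 := by
    intro y
    rw [← mul_sum, four_orth]
    by_cases hy : y = t
    · subst hy
      simp [mul_comm]
    · rw [if_neg hy, if_neg (sub_ne_zero.2 hy), mul_zero]
  rw [sum_congr rfl fun y _ => h1 y]
  simp

theorem ft_inv (f : Gp n → ℝ) (x : Gp n) : (f x : ℂ) = ∑ b, ft f b * psi (-(b * x)) := by
  have h := four_orth_fun (fun y => (f y : ℂ)) x
  have hN := four_card_ne (n := n)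
  have h2 : ∀ b : Gp n, ft f b * psi (-(b * x)) =
      (∑ y, (f y : ℂ) * psi (b * (y - x))) / (Fintype.card (Gp n) : ℂ) := by
    intro b
    unfold ft
    rw [div_mul_eq_mul_div, sum_mul]
    congr 1
    refine sum_congr rfl fun y _ => ?_
    rw [mul_assoc, ← psi_add]
    congr 2
    ring
  rw [sum_congr rfl fun b _ => h2 b, ← sum_div, h]
  field_simp

/-- General form of Parseval's identity. -/
private theorem four_pars (F : Gp n → ℂ) :
    ∑ b, ‖∑ x, F x * psi (b * x)‖ ^ 2 = (Fintype.card (Gp n) : ℝ) * ∑ x, ‖F x‖ ^ 2 := by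
  have h1 : ∀ b : Gp n, (((‖∑ x, F x * psi (b * x)‖ ^ 2 : ℝ)) : ℂ) =
      ∑ x, (starRingEnd ℂ) (F x) * ∑ y, F y * psi (b * (y - x)) := by
    intro b
    rw [Complex.ofReal_pow, ← Complex.conj_mul', map_sum, sum_mul]
    refine sum_congr rfl fun x _ => ?_
    rw [map_mul, mul_assoc, ← psi_neg, mul_sum, mul_sum, mul_sum]
    refine sum_congr rfl fun y _ => ?_
    have : b * (y - x) = -(b * x) + b * y := by ring
    rw [this, psi_add]
    ring
  have h2 : ((∑ b : Gp n, ‖∑ x, F x * psi (b * x)‖ ^ 2 : ℝ) : ℂ) =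
      (((Fintype.card (Gp n) : ℝ) * ∑ x, ‖F x‖ ^ 2 : ℝ) : ℂ) := by
    rw [Complex.ofReal_sum, sum_congr rfl fun b _ => h1 b, sum_comm]
    push_cast
    rw [mul_sum]
    refine sum_congr rfl fun x _ => ?_
    rw [← mul_sum, four_orth_fun, ← Complex.conj_mul']
    ring
  exact_mod_cast h2

theorem parseval_one (f : Gp n → ℝ) :
    ∑ b, ‖ft f b‖ ^ 2 = (∑ x, f x ^ 2) / (Fintype.card (Gp n) : ℝ) := by
  have h := four_pars (fun x : Gp n => (f x : ℂ))
  have hN : (Fintype.card (Gp n) : ℝ) ≠ 0 := by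
    have : 0 < Fintype.card (Gp n) := Fintype.card_pos_iff.2 ⟨0⟩
    exact_mod_cast this.ne'
  have h2 : ∀ b : Gp n, ‖ft f b‖ ^ 2 =
      ‖∑ x, (f x : ℂ) * psi (b * x)‖ ^ 2 / (Fintype.card (Gp n) : ℝ) ^ 2 := by
    intro b
    unfold ft
    rw [norm_div, div_pow, Complex.norm_natCast]
  rw [sum_congr rfl fun b _ => h2 b, ← sum_div, h]
  have h3 : ∀ x : Gp n, ‖(f x : ℂ)‖ ^ 2 = f x ^ 2 := by
    intro x
    rw [Complex.norm_real, Real.norm_eq_abs, sq_abs]
  rw [sum_congr rfl fun x _ => h3 x]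
  field_simp

/-- `cvm f g m = ∑ b, ft f b * ft g b * psi (-(b * (m + m)))`. -/
theorem cvm_ft (f g : Gp n → ℝ) (m : Gp n) :
    (cvm f g m : ℂ) = ∑ b, ft f b * ft g b * psi (-(b * (m + m))) := by
  have hN := four_card_ne (n := n)
  have h2 : ∀ b : Gp n, ft f b * ft g b * psi (-(b * (m + m))) =
      (∑ x, (f x : ℂ) * ∑ y, (g y : ℂ) * psi (b * (y - (m + m - x)))) /
        (Fintype.card (Gp n) : ℂ) ^ 2 := by
    intro b
    unfold ft
    rw [div_mul_div_comm, div_mul_eq_mul_div, ← sq, sum_mul, sum_mul]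
    congr 1
    refine sum_congr rfl fun x _ => ?_
    rw [mul_sum, sum_mul, mul_sum]
    refine sum_congr rfl fun y _ => ?_
    have : b * (y - (m + m - x)) = b * x + b * y + -(b * (m + m)) := by ring
    rw [this, psi_add, psi_add]
    ring
  rw [sum_congr rfl fun b _ => h2 b, ← sum_div, sum_comm]
  have h3 : ∀ x : Gp n, ∑ b, (f x : ℂ) * ∑ y, (g y : ℂ) * psi (b * (y - (m + m - x))) =
      (Fintype.card (Gp n) : ℂ) * ((f x : ℂ) * (g (m + m - x) : ℂ)) := by
    intro x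
    rw [← mul_sum, four_orth_fun (fun y => (g y : ℂ))]
    ring
  rw [sum_congr rfl fun x _ => h3 x, ← mul_sum]
  unfold cvm
  push_cast
  have h4 : ∑ x, (f x : ℂ) * (g (m + m - x) : ℂ) = ∑ δ, (f (m + δ) : ℂ) * (g (m - δ) : ℂ) := by
    refine (Fintype.sum_equiv (Equiv.addLeft m) _ _ fun δ => ?_).symm
    rw [Equiv.coe_addLeft]
    congr 3
    ring
  rw [h4]
  field_simp

/-- Parseval for the difference; `m ↦ m + m` is a bijection for odd moduli (or use
`∑ m, psi (b * (m + m)) = ∑ m, psi ((b + b) * m)` and `b + b = 0 ↔ b = 0`). -/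
theorem cvm_parseval (hodd : ∀ i, Odd (n i)) {k : ℕ} (f g : Fin k → Gp n → ℝ) :
    (∑ m, (∑ i, (cvm (f i) (f i) m - cvm (g i) (g i) m)) ^ 2) / (Fintype.card (Gp n) : ℝ) =
      ∑ b, ‖∑ i, (ft (f i) b ^ 2 - ft (g i) b ^ 2)‖ ^ 2 := by
  have hN : (Fintype.card (Gp n) : ℝ) ≠ 0 := by
    have : 0 < Fintype.card (Gp n) := Fintype.card_pos_iff.2 ⟨0⟩
    exact_mod_cast this.ne'
  set F : Gp n → ℂ := fun b => ∑ i, (ft (f i) b ^ 2 - ft (g i) b ^ 2) with hF
  have h1 : ∀ m : Gp n, ((∑ i, (cvm (f i) (f i) m - cvm (g i) (g i) m) : ℝ) : ℂ) =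
      ∑ b, F b * psi (-(m + m) * b) := by
    intro m
    push_cast
    simp only [cvm_ft]
    simp only [← sum_sub_distrib]
    rw [sum_comm]
    refine sum_congr rfl fun b _ => ?_
    rw [hF]
    simp only
    rw [sum_mul]
    refine sum_congr rfl fun i _ => ?_
    rw [show -(m + m) * b = -(b * (m + m)) by ring]
    ring
  have h2 : ∀ m : Gp n, (∑ i, (cvm (f i) (f i) m - cvm (g i) (g i) m)) ^ 2 =
      ‖∑ b, F b * psi (-(m + m) * b)‖ ^ 2 := by
    intro m
    rw [← h1, Complex.norm_real, Real.norm_eq_abs, sq_abs]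
  have hbij : Function.Bijective (fun m : Gp n => -(m + m)) := by
    have hinj : Function.Injective (fun m : Gp n => -(m + m)) := by
      intro s t hst
      have h3 : s + s = t + t := neg_injective hst
      have h4 := half_add_half hodd s
      have h5 := half_add_half hodd t
      rw [← h4, ← h5, ← mul_add, ← mul_add, h3]
    exact Finite.injective_iff_bijective.1 hinj
  have h3 : ∑ m : Gp n, ‖∑ b, F b * psi (-(m + m) * b)‖ ^ 2 =
      ∑ t : Gp n, ‖∑ b, F b * psi (t * b)‖ ^ 2 :=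
    Fintype.sum_bijective _ hbij _ _ fun m => rfl
  rw [sum_congr rfl fun m _ => h2 m, h3, four_pars, mul_div_assoc, mul_comm, div_mul_cancel₀ _ hN]

/-- Fourier transform of a smoothed function. -/
theorem ft_av (κ f : Gp n → ℝ) (b : Gp n) :
    ft (av κ f) b = (∑ s, (κ s : ℂ) * psi (-(b * s))) * ft f b := by
  unfold ft av
  rw [mul_div_assoc', sum_mul]
  congr 1
  have h1 : ∀ x : Gp n, ((∑ s, κ s * f (x + s) : ℝ) : ℂ) * psi (b * x) =
      ∑ s, (κ s : ℂ) * ((f (x + s) : ℂ) * psi (b * x)) := by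
    intro x
    push_cast
    rw [sum_mul]
    exact sum_congr rfl fun s _ => by ring
  rw [sum_congr rfl fun x _ => h1 x, sum_comm]
  refine sum_congr rfl fun s _ => ?_
  rw [← mul_sum, mul_assoc]
  refine congrArg (fun z => (κ s : ℂ) * z) ?_
  rw [mul_sum]
  refine Fintype.sum_equiv (Equiv.addRight s) _ _ fun x => ?_
  rw [Equiv.coe_addRight, mul_left_comm, ← psi_add]
  congr 2
  ring

private theorem four_norm_neg (κ : Gp n → ℝ) (b : Gp n) :
    ‖∑ s, (κ s : ℂ) * psi (-(b * s))‖ = ‖∑ s, (κ s : ℂ) * psi (b * s)‖ := by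
  rw [← Complex.norm_conj (∑ s, (κ s : ℂ) * psi (b * s)), map_sum]
  congr 1
  refine sum_congr rfl fun s _ => ?_
  rw [map_mul, Complex.conj_ofReal, psi_neg]

theorem av_ft_le (κ f : Gp n → ℝ) (z : Gp n) (M : ℝ) (hM : ∀ b, ‖ft f b‖ ≤ M) :
    |av κ f z| ≤ M * ∑ b, ‖∑ s, (κ s : ℂ) * psi (b * s)‖ := by
  have h1 : (av κ f z : ℂ) = ∑ b, ft f b * psi (-(b * z)) * ∑ s, (κ s : ℂ) * psi (-(b * s)) := by
    unfold av
    push_cast
    have h2 : ∀ s : Gp n, (κ s : ℂ) * (f (z + s) : ℂ) =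
        ∑ b, ft f b * psi (-(b * z)) * ((κ s : ℂ) * psi (-(b * s))) := by
      intro s
      rw [ft_inv f (z + s), mul_sum]
      refine sum_congr rfl fun b _ => ?_
      rw [show -(b * (z + s)) = -(b * z) + -(b * s) by ring, psi_add]
      ring
    rw [sum_congr rfl fun s _ => h2 s, sum_comm]
    exact sum_congr rfl fun b _ => by rw [mul_sum]
  have h3 : |av κ f z| = ‖(av κ f z : ℂ)‖ := by
    rw [Complex.norm_real, Real.norm_eq_abs]
  rw [h3, h1, mul_sum]
  refine (norm_sum_le _ _).trans (sum_le_sum fun b _ => ?_)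
  rw [norm_mul, norm_mul, norm_psi, mul_one, four_norm_neg]
  exact mul_le_mul_of_nonneg_right (hM b) (norm_nonneg _)

/-- For a character `b = a j` of the kernel. The left side is real
(the kernel is even) and `1 - Re psi (b s) ≤ QQ a s`. -/
theorem ka_hat_near {J : ℕ} (a : Fin J → Gp n) (lam : ℝ) (hlam : 0 < lam) (E : Finset ι)
    (j : Fin J) :
    ‖1 - ∑ s, (ka a lam E s : ℂ) * psi (-(a j * s))‖ ≤ Real.log (1 / ZZ a lam E) / lam := by
  have h1 : ∑ s, (ka a lam E s : ℂ) * psi (-(a j * s)) =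
      ∑ s, (ka a lam E s : ℂ) * psi (a j * s) := by
    refine Fintype.sum_equiv (Equiv.neg _) _ _ fun s => ?_
    rw [Equiv.neg_apply, ka_neg, mul_neg]
  have h2 : ∑ s, (ka a lam E s : ℂ) * psi (-(a j * s)) =
      ((∑ s, ka a lam E s * (psi (a j * s)).re : ℝ) : ℂ) := by
    have h3 : (2 : ℂ) * ∑ s, (ka a lam E s : ℂ) * psi (-(a j * s)) =
        2 * ((∑ s, ka a lam E s * (psi (a j * s)).re : ℝ) : ℂ) := by
      rw [two_mul]
      conv_lhs => rw [h1]
      rw [← h1]
      nth_rewrite 2 [h1]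
      rw [← sum_add_distrib, Complex.ofReal_sum, mul_sum]
      refine sum_congr rfl fun s _ => ?_
      rw [psi_neg, ← mul_add, add_comm, Complex.add_conj]
      push_cast
      ring
    exact mul_left_cancel₀ two_ne_zero h3
  have h4 : (1 : ℂ) - ∑ s, (ka a lam E s : ℂ) * psi (-(a j * s)) =
      ((∑ s, ka a lam E s * (1 - (psi (a j * s)).re) : ℝ) : ℂ) := by
    rw [h2]
    have h5 : ∑ s, ka a lam E s * (1 - (psi (a j * s)).re) =
        1 - ∑ s, ka a lam E s * (psi (a j * s)).re := by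
      simp only [mul_sub, mul_one, sum_sub_distrib, ka_sum]
    rw [h5]
    push_cast
    ring
  rw [h4, Complex.norm_real, Real.norm_eq_abs, abs_of_nonneg
    (sum_nonneg fun s _ => mul_nonneg (ka_nonneg a lam E s) (sub_nonneg.2 (re_psi_le _)))]
  refine le_trans (sum_le_sum (g := fun s => ka a lam E s * QQ a s) fun s _ => ?_)
    (EQ_le a lam hlam E)
  refine mul_le_mul_of_nonneg_left ?_ (ka_nonneg a lam E s)
  unfold QQ
  exact single_le_sum (f := fun j => 1 - (psi (a j * s)).re)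
    (fun i _ => sub_nonneg.2 (re_psi_le _)) (mem_univ j)

theorem ka_hat_le {J : ℕ} (a : Fin J → Gp n) (lam : ℝ) (E : Finset ι) (b : Gp n) :
    ‖∑ s, (ka a lam E s : ℂ) * psi (b * s)‖ ≤ 1 := by
  refine (norm_sum_le _ _).trans ?_
  rw [← ka_sum a lam E]
  refine sum_le_sum fun s _ => le_of_eq ?_
  rw [norm_mul, norm_psi, mul_one, Complex.norm_real, Real.norm_eq_abs,
    abs_of_nonneg (ka_nonneg a lam E s)]

end Pool.Agent.Lib.MP_629a14_nt.Ml
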