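import Pool.Agent.Lib.MP_629a14_nt.Ml.PFour

/-! Closed sets give good kernels. -/

set_option autoImplicit false

namespace Pool.Agent.Lib.MP_629a14_nt.Ml

open Finset

variable {ι : Type} [Fintype ι] [DecidableEq ι] {n : ι → ℕ} [∀ i, NeZero (n i)]

private lemma GoodC_Hm {J : ℕ} (a : Fin J → Gp n) (lam th : ℝ) (h s : Gp n) :
    Hm a lam th h s = Real.exp (-(J * lam)) *
      Real.exp (∑ j, (((lam : ℂ) * ((th : ℂ) + (1 - (th : ℂ)) * psi (a j * h))) * psi (a j * s)).re) := by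
  unfold Hm
  rw [← Real.exp_add]
  congr 1
  have h1 : ∀ j, (((lam : ℂ) * ((th : ℂ) + (1 - (th : ℂ)) * psi (a j * h))) * psi (a j * s)).re =
      lam * (th * (psi (a j * s)).re + (1 - th) * (psi (a j * (s + h))).re) := by
    intro j
    have h2 : psi (a j * (s + h)) = psi (a j * s) * psi (a j * h) := by
      rw [mul_add, psi_add]
    have h3 : ((lam : ℂ) * ((th : ℂ) + (1 - (th : ℂ)) * psi (a j * h))) * psi (a j * s) =
        (lam : ℂ) * ((th : ℂ) * psi (a j * s) + ((1 - th : ℝ) : ℂ) * psi (a j * (s + h))) := by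
      rw [h2]
      push_cast
      ring
    rw [h3, Complex.re_ofReal_mul, Complex.add_re, Complex.re_ofReal_mul, Complex.re_ofReal_mul]
  simp only [h1]
  unfold QQ
  rw [← mul_sum, sum_add_distrib, ← mul_sum, ← mul_sum, sum_sub_distrib, sum_sub_distrib]
  simp only [sum_const, card_univ, Fintype.card_fin, nsmul_eq_mul, mul_one]
  ring

private lemma GoodC_EH_mul (E : Finset ι) (k : ℝ) (f : Gp n → ℝ) :
    EH E (fun s => k * f s) = k * EH E f := by
  unfold EH
  rw [← mul_sum, mul_div_assoc]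

/-- `Hm a lam th h s = exp (-(J lam)) exp (∑_j Re (γ_j psi (a j s)))` with
`γ_j = lam (th + (1 - th) psi (a j h))`, `‖γ_j‖ ≤ lam`; apply `p_four`. -/
theorem goodK_of_clo {c : ι → ℝ} (hc : ∀ i, 0 ≤ c i ∧ c i ≤ 1) {J : ℕ} {a : Fin J → Gp n}
    {L : ℕ} {tau : ℝ} (htau : 0 ≤ tau) {E : Finset ι} (hclo : Clo c a L tau E) (lam : ℝ)
    (hlam : 0 ≤ lam) (rho : ℝ)
    (hrho : tau + Real.exp (J * lam) / 2 ^ L ≤ rho * ZZ a lam E) : GoodK c a lam E rho := by
  intro Φ hΦ h _ th hth0 hth1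
  have hΦ0 : ∀ s, 0 ≤ Φ s := by
    obtain ⟨φ, h1, h2, -⟩ := hΦ
    intro s
    rw [h2]
    exact prod_nonneg fun i _ => h1 i _
  have hE0 : 0 ≤ EH E Φ := EH_nonneg E hΦ0
  have hγ : ∀ j, ‖(lam : ℂ) * ((th : ℂ) + (1 - (th : ℂ)) * psi (a j * h))‖ ≤ lam := by
    intro j
    rw [norm_mul, Complex.norm_real, Real.norm_of_nonneg hlam]
    have h1 : ‖(th : ℂ) + (1 - (th : ℂ)) * psi (a j * h)‖ ≤ 1 := by
      refine (norm_add_le _ _).trans ?_
      have h2 : (1 - (th : ℂ)) = ((1 - th : ℝ) : ℂ) := by push_cast; ring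
      rw [norm_mul, norm_psi, mul_one, h2, Complex.norm_real, Complex.norm_real,
        Real.norm_of_nonneg hth0, Real.norm_of_nonneg (by linarith)]
      linarith
    calc lam * ‖(th : ℂ) + (1 - (th : ℂ)) * psi (a j * h)‖ ≤ lam * 1 :=
          mul_le_mul_of_nonneg_left h1 hlam
      _ = lam := mul_one _
  have hp := p_four hc htau hclo hΦ
    (fun j => (lam : ℂ) * ((th : ℂ) + (1 - (th : ℂ)) * psi (a j * h))) lam hlam hγ
  set X : Gp n → ℝ := fun s =>
    ∑ j, (((lam : ℂ) * ((th : ℂ) + (1 - (th : ℂ)) * psi (a j * h))) * psi (a j * s)).re with hX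
  have e1 : EH E (fun s => Hm a lam th h s * Φ s) =
      Real.exp (-(J * lam)) * EH E (fun s => Real.exp (X s) * Φ s) := by
    rw [← GoodC_EH_mul]
    congr 1
    funext s
    rw [GoodC_Hm, mul_assoc]
  have e2 : EH E (Hm a lam th h) = Real.exp (-(J * lam)) * EH E (fun s => Real.exp (X s)) := by
    rw [← GoodC_EH_mul]
    congr 1
    funext s
    rw [GoodC_Hm]
  rw [e1, e2]
  have e3 : Real.exp (-(J * lam)) * EH E (fun s => Real.exp (X s) * Φ s) -
      Real.exp (-(J * lam)) * EH E (fun s => Real.exp (X s)) * EH E Φ =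
      Real.exp (-(J * lam)) * (EH E (fun s => Real.exp (X s) * Φ s) -
        EH E (fun s => Real.exp (X s)) * EH E Φ) := by ring
  rw [e3, abs_mul, abs_of_pos (Real.exp_pos _)]
  refine (mul_le_mul_of_nonneg_left hp (Real.exp_pos _).le).trans ?_
  have e4 : Real.exp (-(J * lam)) * ((tau * Real.exp (J * lam) + Real.exp (2 * (J * lam)) / 2 ^ L) * EH E Φ) =
      (tau + Real.exp (J * lam) / 2 ^ L) * EH E Φ := by
    have h1 : Real.exp (-(J * lam)) * Real.exp (J * lam) = 1 := by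
      rw [← Real.exp_add, neg_add_cancel, Real.exp_zero]
    have h2 : Real.exp (2 * (J * lam)) = Real.exp (J * lam) * Real.exp (J * lam) := by
      rw [← Real.exp_add]
      congr 1
      ring
    rw [h2]
    linear_combination ((tau + Real.exp (J * lam) / 2 ^ L) * EH E Φ) * h1
  rw [e4]
  exact mul_le_mul_of_nonneg_right hrho hE0

end Pool.Agent.Lib.MP_629a14_nt.Ml
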