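import Pool.Agent.Lib.MP_629a14_nt.Ml.Pun
import Pool.Agent.Lib.MP_629a14_nt.Ml.Ker

/-! Averages of the sieve weight. -/

set_option autoImplicit false

namespace Pool.Agent.Lib.MP_629a14_nt.Ml

open Finset

variable {ι : Type} [Fintype ι] [DecidableEq ι] {n : ι → ℕ} [∀ i, NeZero (n i)]

theorem nuS_nonneg (sv : Finset ι) (x : Gp n) : 0 ≤ nuS sv x := by
  classical
  unfold nuS
  refine prod_nonneg fun i _ => ?_
  split_ifs
  · exact le_refl _
  · have h1 : 1 ≤ n i := Nat.one_le_iff_ne_zero.2 (NeZero.ne (n i))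
    have h2 : (1 : ℝ) ≤ (n i : ℝ) := by exact_mod_cast h1
    exact div_nonneg (by linarith) (by linarith)

/-- The constant function one. -/
theorem pf_one (c : ι → ℝ) (hc : ∀ i, 0 ≤ c i) (E : Finset ι) : PF (n := n) c E (fun _ => 1) := by
  refine ⟨fun _ _ => 1, fun _ _ => zero_le_one, fun s => by simp, fun i _ b hb => ?_⟩
  have h0 : ∑ x, ((1 : ℝ) : ℂ) * ZMod.stdAddChar (b * x) = 0 := by
    have hp := ZMod.isPrimitive_stdAddChar (n i) hb
    have := AddChar.sum_eq_zero_of_ne_one hp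
    simpa [AddChar.mulShift_apply] using this
  rw [h0, norm_zero]
  exact mul_nonneg (hc i) (sum_nonneg fun _ _ => zero_le_one)

/-- The weights of `nuS`. -/
private noncomputable def wNu (n : ι → ℕ) (sv : Finset ι) (i : ι) : ℝ :=
  if i ∈ sv then (n i : ℝ) / ((n i : ℝ) - 1) else 1

private theorem wNu_nonneg (sv : Finset ι) (i : ι) : 0 ≤ wNu n sv i := by
  unfold wNu
  split_ifs
  · have h1 : 1 ≤ n i := Nat.one_le_iff_ne_zero.2 (NeZero.ne (n i))
    have h2 : (1 : ℝ) ≤ (n i : ℝ) := by exact_mod_cast h1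
    exact div_nonneg (by linarith) (by linarith)
  · exact zero_le_one

open Classical in
/-- The punctures of `nuS (y + s)`. -/
private noncomputable def sNu (sv : Finset ι) (y : Gp n) (i : ι) : Finset (ZMod (n i)) :=
  if i ∈ sv then {-y i} else ∅

open Classical in
/-- The punctures of `nuS (y + (s + s))`. -/
private noncomputable def sNuTwo (sv : Finset ι) (y : Gp n) (i : ι) : Finset (ZMod (n i)) :=
  if i ∈ sv then univ.filter (fun x => y i + (x + x) = 0) else ∅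

private theorem nu_eq_pun (sv : Finset ι) (y : Gp n) :
    (fun s => nuS sv (y + s)) = pun (wNu n sv) (sNu sv y) := by
  classical
  funext s
  unfold nuS pun
  rw [← prod_subset (subset_univ sv)
    (f := fun i => if s i ∈ sNu sv y i then (0 : ℝ) else wNu n sv i)]
  · refine prod_congr rfl fun i hi => ?_
    have h1 : (s i ∈ sNu sv y i) ↔ (y + s) i = 0 := by
      unfold sNu
      rw [if_pos hi, mem_singleton, Pi.add_apply]
      constructor
      · intro h
        rw [h, add_neg_cancel]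
      · intro h
        exact (neg_eq_of_add_eq_zero_right h).symm
    by_cases h : (y + s) i = 0
    · rw [if_pos h, if_pos (h1.2 h)]
    · rw [if_neg h, if_neg (fun h2 => h (h1.1 h2))]
      unfold wNu
      rw [if_pos hi]
  · intro i _ hi
    unfold sNu wNu
    simp [hi]

private theorem nu_eq_pun_two (sv : Finset ι) (y : Gp n) :
    (fun s => nuS sv (y + (s + s))) = pun (wNu n sv) (sNuTwo sv y) := by
  classical
  funext s
  unfold nuS pun
  rw [← prod_subset (subset_univ sv)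
    (f := fun i => if s i ∈ sNuTwo sv y i then (0 : ℝ) else wNu n sv i)]
  · refine prod_congr rfl fun i hi => ?_
    have h1 : (s i ∈ sNuTwo sv y i) ↔ (y + (s + s)) i = 0 := by
      unfold sNuTwo
      rw [if_pos hi, mem_filter, Pi.add_apply, Pi.add_apply]
      exact ⟨fun h => h.2, fun h => ⟨mem_univ _, h⟩⟩
    by_cases h : (y + (s + s)) i = 0
    · rw [if_pos h, if_pos (h1.2 h)]
    · rw [if_neg h, if_neg (fun h2 => h (h1.1 h2))]
      unfold wNu
      rw [if_pos hi]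
  · intro i _ hi
    unfold sNuTwo wNu
    simp [hi]

private theorem card_sNu (sv : Finset ι) (y : Gp n) {i : ι} (hi : i ∈ sv) :
    (sNu sv y i).card = 1 := by
  classical
  unfold sNu
  rw [if_pos hi, card_singleton]

private theorem two_ne_zero_of_prime {p : ℕ} (hp : p.Prime) (h8 : 8 ≤ p) : (2 : ZMod p) ≠ 0 := by
  haveI : Fact p.Prime := ⟨hp⟩
  intro h
  have h1 : ((2 : ℕ) : ZMod p) = 0 := by exact_mod_cast h
  rw [ZMod.natCast_eq_zero_iff] at h1
  have := Nat.le_of_dvd (by norm_num) h1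
  omega

private theorem card_sNuTwo (sv : Finset ι) (hsv : ∀ i ∈ sv, (n i).Prime ∧ 8 ≤ n i) (y : Gp n)
    {i : ι} (hi : i ∈ sv) : (sNuTwo sv y i).card = 1 := by
  classical
  have hp := (hsv i hi).1
  haveI : Fact (n i).Prime := ⟨hp⟩
  have h2 : (2 : ZMod (n i)) ≠ 0 := two_ne_zero_of_prime hp (hsv i hi).2
  unfold sNuTwo
  rw [if_pos hi, card_eq_one]
  refine ⟨-(2 : ZMod (n i))⁻¹ * y i, ?_⟩
  ext x
  rw [mem_filter, mem_singleton]
  constructor
  · rintro ⟨_, h⟩
    have h3 : 2 * x = -y i := by linear_combination h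
    have h4 : x = (2 : ZMod (n i))⁻¹ * (2 * x) := by
      rw [← mul_assoc, inv_mul_cancel₀ h2, one_mul]
    rw [h4, h3]
    ring
  · intro h
    refine ⟨mem_univ _, ?_⟩
    have h3 : (2 : ZMod (n i)) * (2 : ZMod (n i))⁻¹ = 1 := mul_inv_cancel₀ h2
    rw [h]
    linear_combination (-y i) * h3

/-- `nuS sv (y + s)` is `pun w S` with `S i = {- y i}`, `w i = n i / (n i - 1)` for `i ∈ sv`. -/
theorem nu_pf (sv : Finset ι) (hsv : ∀ i ∈ sv, (n i).Prime ∧ 8 ≤ n i) (y : Gp n) (E : Finset ι) :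
    PF (cw n sv) E (fun s => nuS sv (y + s)) := by
  rw [nu_eq_pun]
  refine pf_pun sv _ (wNu_nonneg sv) _ ?_ ?_ E
  · intro i hi
    unfold sNu
    rw [if_neg hi]
  · intro i hi
    exact ⟨by rw [card_sNu sv y hi]; norm_num, (hsv i hi).2⟩

private theorem prod_nu_aux (sv : Finset ι) (hsv : ∀ i ∈ sv, (n i).Prime ∧ 8 ≤ n i)
    {E : Finset ι} (hE : E ⊆ sv) (S : ∀ i, Finset (ZMod (n i))) (h0 : ∀ i, i ∉ sv → S i = ∅)
    (h1 : ∀ i ∈ sv, (S i).card = 1) (hz : ∀ i ∈ E, (0 : ZMod (n i)) ∉ S i) :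
    EH E (pun (wNu n sv) S) = mE n E := by
  classical
  rw [EH_pun]
  unfold mE
  rw [← prod_subset (subset_univ E)]
  · refine prod_congr rfl fun i hi => ?_
    rw [if_pos hi, if_neg (hz i hi)]
    unfold wNu
    rw [if_pos (hE hi)]
  · intro i _ hi
    rw [if_neg hi]
    unfold wNu
    by_cases hs : i ∈ sv
    · rw [if_pos hs, h1 i hs]
      have h8 : (8 : ℝ) ≤ (n i : ℝ) := by exact_mod_cast (hsv i hs).2
      have h2 : (n i : ℝ) ≠ 0 := by linarith
      have h3 : (n i : ℝ) - 1 ≠ 0 := by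
        have : (0 : ℝ) < (n i : ℝ) - 1 := by linarith
        exact this.ne'
      field_simp
      push_cast
      ring
    · rw [if_neg hs, h0 i hs]
      simp

theorem nu_EH (sv : Finset ι) (hsv : ∀ i ∈ sv, (n i).Prime ∧ 8 ≤ n i) {E : Finset ι}
    (hE : E ⊆ sv) (y : Gp n) (hy : ∀ i ∈ E, y i ≠ 0) :
    EH E (fun s => nuS sv (y + s)) = mE n E := by
  rw [nu_eq_pun]
  refine prod_nu_aux sv hsv hE _ ?_ (fun i hi => card_sNu sv y hi) ?_
  · intro i hi
    unfold sNu
    rw [if_neg hi]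
  · intro i hi h
    unfold sNu at h
    rw [if_pos (hE hi), mem_singleton] at h
    exact hy i hi (neg_eq_zero.1 h.symm)

/-- `nuS sv (y + (s + s))` is `pun w S` with `S i = {x | y i + (x + x) = 0}`, one element for an odd
prime `n i`. -/
theorem nu_pf_two (sv : Finset ι) (hsv : ∀ i ∈ sv, (n i).Prime ∧ 8 ≤ n i) (y : Gp n)
    (E : Finset ι) : PF (cw n sv) E (fun s => nuS sv (y + (s + s))) := by
  rw [nu_eq_pun_two]
  refine pf_pun sv _ (wNu_nonneg sv) _ ?_ ?_ E
  · intro i hi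
    unfold sNuTwo
    rw [if_neg hi]
  · intro i hi
    exact ⟨by rw [card_sNuTwo sv hsv y hi]; norm_num, (hsv i hi).2⟩

theorem nu_EH_two (sv : Finset ι) (hsv : ∀ i ∈ sv, (n i).Prime ∧ 8 ≤ n i) {E : Finset ι}
    (hE : E ⊆ sv) (y : Gp n) (hy : ∀ i ∈ E, y i ≠ 0) :
    EH E (fun s => nuS sv (y + (s + s))) = mE n E := by
  rw [nu_eq_pun_two]
  refine prod_nu_aux sv hsv hE _ ?_ (fun i hi => card_sNuTwo sv hsv y hi) ?_
  · intro i hi
    unfold sNuTwo
    rw [if_neg hi]
  · intro i hi h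
    unfold sNuTwo at h
    rw [if_pos (hE hi), mem_filter] at h
    exact hy i hi (by simpa using h.2)

theorem nu_av (sv : Finset ι) (hsv : ∀ i ∈ sv, (n i).Prime ∧ 8 ≤ n i) {E : Finset ι}
    (hE : E ⊆ sv) {J : ℕ} {a : Fin J → Gp n} {lam rho : ℝ} (hG : GoodK (cw n sv) a lam E rho)
    (y : Gp n) (hy : ∀ i ∈ E, y i ≠ 0) :
    |av (ka a lam E) (nuS sv) y - mE n E| ≤ rho * mE n E := by
  have h := ka_PF hG (nu_pf sv hsv y E)
  rw [nu_EH sv hsv hE y hy] at h
  exact h

theorem nu_av_two (sv : Finset ι) (hsv : ∀ i ∈ sv, (n i).Prime ∧ 8 ≤ n i) {E : Finset ι}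
    (hE : E ⊆ sv) {J : ℕ} {a : Fin J → Gp n} {lam rho : ℝ} (hG : GoodK (cw n sv) a lam E rho)
    (y : Gp n) (hy : ∀ i ∈ E, y i ≠ 0) :
    |av2 (ka a lam E) (nuS sv) y - mE n E| ≤ rho * mE n E := by
  have h := ka_PF hG (nu_pf_two sv hsv y E)
  rw [nu_EH_two sv hsv hE y hy] at h
  exact h

/-- If `y i = 0` for some `i ∈ E`, `E ⊆ sv`, then `nuS sv (y + s) = 0` on `HS E`. -/
theorem nu_av_zero (sv : Finset ι) {E : Finset ι} (hE : E ⊆ sv) {J : ℕ} (a : Fin J → Gp n)
    (lam : ℝ) (y : Gp n) (hy : ¬ ∀ i ∈ E, y i ≠ 0) : av (ka a lam E) (nuS sv) y = 0 := by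
  classical
  push Not at hy
  obtain ⟨i, hi, h0⟩ := hy
  unfold av
  refine sum_eq_zero fun s _ => ?_
  by_cases hs : s ∈ (HS E : Finset (Gp n))
  · have h1 : nuS sv (y + s) = 0 := by
      unfold nuS
      refine prod_eq_zero (hE hi) ?_
      rw [if_pos]
      rw [Pi.add_apply, h0, (mem_HS E s).1 hs i hi, add_zero]
    rw [h1, mul_zero]
  · rw [ka_of_not_mem a lam E hs, zero_mul]

end Pool.Agent.Lib.MP_629a14_nt.Ml
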