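import Pool.Agent.Lib.MP_629a14_nt.Ml.FDefs
import Pool.Agent.Lib.MP_629a14_nt.Ml.Ker

/-! The kernels are positive definite. -/

set_option autoImplicit false

namespace Pool.Agent.Lib.MP_629a14_nt.Ml

open Finset

variable {ι : Type} [Fintype ι] [DecidableEq ι] {n : ι → ℕ} [∀ i, NeZero (n i)]

private lemma PosD_univ (b : Gp n) :
    ∑ s : Gp n, psi (b * s) = if b = 0 then (Fintype.card (Gp n) : ℂ) else 0 := by
  classical
  have h1 : (HS ∅ : Finset (Gp n)) = univ := by
    ext s
    rw [mem_HS]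
    simp
  have h := sum_psi_HS (n := n) ∅ b
  rw [h1, card_univ] at h
  rw [h]
  congr 1
  rw [eq_iff_iff]
  constructor
  · intro h
    funext i
    exact h i (notMem_empty i)
  · intro h i _
    rw [h]
    rfl

private lemma PosD_card : ((Fintype.card (Gp n) : ℕ) : ℂ) ≠ 0 := by
  have : 0 < Fintype.card (Gp n) := Fintype.card_pos
  exact_mod_cast this.ne'

/-- All Fourier coefficients are nonnegative reals. -/
def PosDef (f : Gp n → ℝ) : Prop := ∀ b : Gp n, ∃ r : ℝ, 0 ≤ r ∧ ft f b = (r : ℂ)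

private lemma PosD_mul (f g : Gp n → ℝ) (b : Gp n) :
    ft (fun x => f x * g x) b = ∑ c, ft f c * ft g (b - c) := by
  classical
  unfold ft
  have h1 : ∀ c : Gp n, (∑ x, (f x : ℂ) * psi (c * x)) / (Fintype.card (Gp n) : ℂ) *
      ((∑ y, (g y : ℂ) * psi ((b - c) * y)) / (Fintype.card (Gp n) : ℂ)) =
      ∑ x, ∑ y, (f x : ℂ) * (g y : ℂ) * psi (b * y) * psi ((x - y) * c) /
        ((Fintype.card (Gp n) : ℂ) * (Fintype.card (Gp n) : ℂ)) := by
    intro c
    rw [div_mul_div_comm, sum_mul_sum, sum_div]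
    refine sum_congr rfl fun x _ => ?_
    rw [sum_div]
    refine sum_congr rfl fun y _ => ?_
    have e : psi (c * x) * psi ((b - c) * y) = psi (b * y) * psi ((x - y) * c) := by
      rw [← psi_add, ← psi_add]
      congr 1
      ring
    rw [mul_mul_mul_comm, e]
    ring
  simp only [h1]
  rw [sum_comm]
  have h2 : ∀ x : Gp n, ∑ c, ∑ y, (f x : ℂ) * (g y : ℂ) * psi (b * y) * psi ((x - y) * c) /
        ((Fintype.card (Gp n) : ℂ) * (Fintype.card (Gp n) : ℂ)) =
      ((f x * g x : ℝ) : ℂ) * psi (b * x) / (Fintype.card (Gp n) : ℂ) := by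
    intro x
    rw [sum_comm]
    have h3 : ∀ y : Gp n, ∑ c, (f x : ℂ) * (g y : ℂ) * psi (b * y) * psi ((x - y) * c) /
        ((Fintype.card (Gp n) : ℂ) * (Fintype.card (Gp n) : ℂ)) =
        if y = x then (f x : ℂ) * (g y : ℂ) * psi (b * y) / (Fintype.card (Gp n) : ℂ) else 0 := by
      intro y
      rw [← sum_div, ← mul_sum, PosD_univ]
      by_cases hxy : y = x
      · subst hxy
        rw [if_pos (sub_self y), if_pos rfl]
        have := PosD_card (n := n)
        field_simp
      · rw [if_neg (fun h => hxy (sub_eq_zero.1 h).symm), if_neg hxy, mul_zero, zero_div]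
    simp only [h3]
    rw [sum_ite_eq' univ x, if_pos (mem_univ x)]
    push_cast
    ring
  simp only [h2]
  rw [sum_div]

/-- `ft (f g) b = ∑ c, ft f c * ft g (b - c)`. -/
theorem PosDef.mul {f g : Gp n → ℝ} (hf : PosDef f) (hg : PosDef g) :
    PosDef (fun x => f x * g x) := by
  intro b
  choose r hr0 hr using hf
  choose r' hr0' hr' using hg
  refine ⟨∑ c, r c * r' (b - c), sum_nonneg fun c _ => mul_nonneg (hr0 c) (hr0' _), ?_⟩
  rw [PosD_mul]
  push_cast
  exact sum_congr rfl fun c _ => by rw [hr, hr']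

private lemma PosD_sum {κ : Type} (s : Finset κ) (c : κ → ℝ) (f : κ → Gp n → ℝ) (b : Gp n) :
    ft (fun x => ∑ i ∈ s, c i * f i x) b = ∑ i ∈ s, (c i : ℂ) * ft (f i) b := by
  unfold ft
  have h1 : ∀ i ∈ s, (c i : ℂ) * ((∑ x, (f i x : ℂ) * psi (b * x)) / (Fintype.card (Gp n) : ℂ)) =
      (∑ x, (c i : ℂ) * ((f i x : ℂ) * psi (b * x))) / (Fintype.card (Gp n) : ℂ) := by
    intro i _
    rw [← mul_sum, mul_div_assoc]
  rw [sum_congr rfl h1, ← sum_div, sum_comm]
  congr 1
  refine sum_congr rfl fun x _ => ?_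
  push_cast
  rw [sum_mul]
  exact sum_congr rfl fun i _ => by ring

theorem PosDef.sum {κ : Type} (s : Finset κ) (c : κ → ℝ) (hc : ∀ i ∈ s, 0 ≤ c i)
    (f : κ → Gp n → ℝ) (hf : ∀ i ∈ s, PosDef (f i)) : PosDef (fun x => ∑ i ∈ s, c i * f i x) := by
  classical
  intro b
  have h : ∀ i ∈ s, ∃ r : ℝ, 0 ≤ r ∧ ft (f i) b = (r : ℂ) := fun i hi => hf i hi b
  choose! r hr0 hr using h
  refine ⟨∑ i ∈ s, c i * r i, sum_nonneg fun i hi => mul_nonneg (hc i hi) (hr0 i hi), ?_⟩
  rw [PosD_sum]
  push_cast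
  exact sum_congr rfl fun i hi => by rw [hr i hi]

theorem posDef_re_psi (a : Gp n) : PosDef (fun s => (psi (a * s)).re) := by
  classical
  intro b
  refine ⟨((if b + a = 0 then 1 else 0) + (if b - a = 0 then 1 else 0)) / 2, ?_, ?_⟩
  · have h1 : (0 : ℝ) ≤ if b + a = 0 then 1 else 0 := by split_ifs <;> norm_num
    have h2 : (0 : ℝ) ≤ if b - a = 0 then 1 else 0 := by split_ifs <;> norm_num
    linarith
  · unfold ft
    have h1 : ∀ s : Gp n, (((psi (a * s)).re : ℝ) : ℂ) * psi (b * s) =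
        (psi ((b + a) * s) + psi ((b - a) * s)) / 2 := by
      intro s
      rw [Complex.re_eq_add_conj, ← psi_neg]
      have e1 : psi ((b + a) * s) = psi (a * s) * psi (b * s) := by
        rw [← psi_add]
        congr 1
        ring
      have e2 : psi ((b - a) * s) = psi (-(a * s)) * psi (b * s) := by
        rw [← psi_add]
        congr 1
        ring
      rw [e1, e2]
      ring
    simp only [h1]
    rw [← sum_div, sum_add_distrib, PosD_univ, PosD_univ]
    have := PosD_card (n := n)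
    push_cast
    split_ifs <;> simp only [Complex.ofReal_one, Complex.ofReal_zero, add_zero, zero_add, zero_div] <;>
      field_simp

open Classical in
theorem posDef_HS (E : Finset ι) :
    PosDef (fun s : Gp n => if s ∈ (HS E : Finset (Gp n)) then (1 : ℝ) else 0) := by
  intro b
  refine ⟨(if (∀ i, i ∉ E → b i = 0) then ((HS E : Finset (Gp n)).card : ℝ) else 0) /
    (Fintype.card (Gp n) : ℝ), ?_, ?_⟩
  · refine div_nonneg ?_ (Nat.cast_nonneg _)
    split_ifs
    · exact Nat.cast_nonneg _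
    · exact le_rfl
  · unfold ft
    have h1 : ∑ x : Gp n, ((if x ∈ (HS E : Finset (Gp n)) then (1 : ℝ) else 0 : ℝ) : ℂ) * psi (b * x) =
        ∑ x ∈ (HS E : Finset (Gp n)), psi (b * x) := by
      rw [← sum_filter_add_sum_filter_not univ (fun x : Gp n => x ∈ (HS E : Finset (Gp n)))]
      have e1 : (univ.filter fun x : Gp n => x ∈ (HS E : Finset (Gp n))) = HS E := by
        ext x
        simp
      rw [e1]
      have e2 : ∑ x ∈ univ.filter (fun x : Gp n => ¬ x ∈ (HS E : Finset (Gp n))),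
          ((if x ∈ (HS E : Finset (Gp n)) then (1 : ℝ) else 0 : ℝ) : ℂ) * psi (b * x) = 0 := by
        refine sum_eq_zero fun x hx => ?_
        rw [if_neg (mem_filter.1 hx).2]
        simp
      rw [e2, add_zero]
      refine sum_congr rfl fun x hx => ?_
      rw [if_pos hx]
      simp
    rw [h1, sum_psi_HS]
    push_cast
    split_ifs <;> simp

private lemma PosD_one : PosDef (fun _ : Gp n => (1 : ℝ)) := by
  classical
  have h := posDef_HS (n := n) ∅
  have e : (fun s : Gp n => if s ∈ (HS ∅ : Finset (Gp n)) then (1 : ℝ) else 0) = fun _ => 1 := by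
    funext s
    rw [if_pos]
    rw [mem_HS]
    simp
  rwa [e] at h

private lemma PosD_pow {f : Gp n → ℝ} (hf : PosDef f) (N : ℕ) : PosDef (fun x => f x ^ N) := by
  induction N with
  | zero =>
    simp only [pow_zero]
    exact PosD_one
  | succ N ih =>
    simp only [pow_succ]
    exact ih.mul hf

/-- Powers by `PosDef.mul`, then the exponential series (nonnegativity passes to the limit). -/
theorem PosDef.exp {f : Gp n → ℝ} (hf : PosDef f) : PosDef (fun x => Real.exp (f x)) := by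
  intro b
  have h : ∀ N : ℕ, ∃ r : ℝ, 0 ≤ r ∧ ft (fun x => f x ^ N) b = (r : ℂ) := fun N => PosD_pow hf N b
  choose r hr0 hr using h
  have hexp : ∀ x : ℝ, HasSum (fun N : ℕ => x ^ N / (N.factorial : ℝ)) (Real.exp x) := by
    intro x
    rw [Real.exp_eq_exp_ℝ]
    exact NormedSpace.expSeries_div_hasSum_exp x
  have h1 : HasSum (fun N : ℕ => ((r N / (N.factorial : ℝ) : ℝ) : ℂ)) (ft (fun x => Real.exp (f x)) b) := by
    have h2 : HasSum (fun N : ℕ => (∑ x, ((f x ^ N / (N.factorial : ℝ) : ℝ) : ℂ) * psi (b * x)) /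
        (Fintype.card (Gp n) : ℂ)) (ft (fun x => Real.exp (f x)) b) := by
      unfold ft
      have h4 : HasSum (fun N : ℕ => ∑ x, ((f x ^ N / (N.factorial : ℝ) : ℝ) : ℂ) * psi (b * x))
          (∑ x, ((Real.exp (f x) : ℝ) : ℂ) * psi (b * x)) :=
        hasSum_sum fun x _ => (Complex.hasSum_ofReal.2 (hexp (f x))).mul_right (psi (b * x))
      exact h4.div_const _
    have h3 : (fun N : ℕ => (∑ x, ((f x ^ N / (N.factorial : ℝ) : ℝ) : ℂ) * psi (b * x)) /
        (Fintype.card (Gp n) : ℂ)) = fun N : ℕ => ((r N / (N.factorial : ℝ) : ℝ) : ℂ) := by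
      funext N
      push_cast
      rw [← hr N]
      unfold ft
      rw [div_right_comm]
      congr 1
      rw [sum_div]
      refine sum_congr rfl fun x _ => ?_
      push_cast
      ring
    rwa [h3] at h2
  refine ⟨(ft (fun x => Real.exp (f x)) b).re, ?_, ?_⟩
  · have h2 := Complex.hasSum_re h1
    simp only [Complex.ofReal_re] at h2
    exact h2.nonneg fun N => div_nonneg (hr0 N) (Nat.cast_nonneg _)
  · have h2 := Complex.hasSum_im h1
    simp only [Complex.ofReal_im] at h2
    have h3 : (ft (fun x => Real.exp (f x)) b).im = 0 := h2.unique hasSum_zero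
    apply Complex.ext
    · simp
    · simp [h3]

private lemma PosD_smul {f : Gp n → ℝ} (hf : PosDef f) (c : ℝ) (hc : 0 ≤ c) :
    PosDef (fun x => c * f x) := by
  have h := PosDef.sum ({()} : Finset Unit) (fun _ => c) (fun _ _ => hc) (fun _ => f) (fun _ _ => hf)
  simpa using h

/-- `ka a lam E s = C * 1_{HS E}(s) * exp (lam ∑ j, Re psi (a j s))`, `C > 0`. -/
theorem posDef_ka {J : ℕ} (a : Fin J → Gp n) (lam : ℝ) (hlam : 0 ≤ lam) (E : Finset ι) :
    PosDef (ka a lam E) := by
  classical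
  have h1 : PosDef (fun s : Gp n => ∑ j, lam * (psi (a j * s)).re) :=
    PosDef.sum univ (fun _ : Fin J => lam) (fun _ _ => hlam) (fun j s => (psi (a j * s)).re)
      fun j _ => posDef_re_psi (a j)
  have h2 := (posDef_HS (n := n) E).mul h1.exp
  have hC : 0 ≤ Real.exp (-(lam * J)) / (ZZ a lam E * ((HS E : Finset (Gp n)).card : ℝ)) :=
    div_nonneg (Real.exp_pos _).le (mul_nonneg (ZZ_pos a lam E).le (Nat.cast_nonneg _))
  have h3 := PosD_smul h2 _ hC
  have e : (fun x : Gp n => Real.exp (-(lam * J)) / (ZZ a lam E * ((HS E : Finset (Gp n)).card : ℝ)) *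
      ((if x ∈ (HS E : Finset (Gp n)) then (1 : ℝ) else 0) *
        Real.exp (∑ j, lam * (psi (a j * x)).re))) = ka a lam E := by
    funext s
    unfold ka
    by_cases hs : s ∈ (HS E : Finset (Gp n))
    · rw [if_pos hs, if_pos hs, one_mul, div_mul_eq_mul_div, ← Real.exp_add]
      congr 2
      unfold QQ
      rw [sum_sub_distrib, ← mul_sum]
      simp
      ring
    · rw [if_neg hs, if_neg hs, zero_mul, mul_zero]
  rwa [e] at h3

/-- The sum of the Fourier coefficients is the value at zero: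
`∑ b, ‖∑ s, κ(s) psi (b s)‖ = card * ka a lam E 0 = (∏_{i ∈ E} n i) / ZZ`. -/
theorem ka_hat_sum {J : ℕ} (a : Fin J → Gp n) (lam : ℝ) (hlam : 0 ≤ lam) (E : Finset ι) :
    ∑ b, ‖∑ s, (ka a lam E s : ℂ) * psi (b * s)‖ ≤ (∏ i ∈ E, (n i : ℝ)) / ZZ a lam E := by
  classical
  have h := posDef_ka a lam hlam E
  choose r hr0 hr using h
  have hcard := PosD_card (n := n)
  have h1 : ∀ b : Gp n, ∑ s, (ka a lam E s : ℂ) * psi (b * s) = (((Fintype.card (Gp n) : ℝ) * r b : ℝ) : ℂ) := by
    intro b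
    have h2 := hr b
    unfold ft at h2
    rw [div_eq_iff hcard] at h2
    rw [h2]
    push_cast
    ring
  have h2 : ∑ b : Gp n, ‖∑ s, (ka a lam E s : ℂ) * psi (b * s)‖ = (Fintype.card (Gp n) : ℝ) * ∑ b, r b := by
    rw [mul_sum]
    refine sum_congr rfl fun b _ => ?_
    rw [h1, Complex.norm_real, Real.norm_eq_abs, abs_of_nonneg (mul_nonneg (Nat.cast_nonneg _) (hr0 b))]
  have h3 : ((∑ b, r b : ℝ) : ℂ) = ((ka a lam E 0 : ℝ) : ℂ) := by
    push_cast
    rw [sum_congr rfl fun b _ => (hr b).symm]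
    unfold ft
    rw [← sum_div, sum_comm]
    have h4 : ∀ x : Gp n, ∑ b, (ka a lam E x : ℂ) * psi (b * x) =
        if x = 0 then (ka a lam E x : ℂ) * (Fintype.card (Gp n) : ℂ) else 0 := by
      intro x
      rw [← mul_sum]
      have h5 : ∑ b : Gp n, psi (b * x) = ∑ b : Gp n, psi (x * b) :=
        sum_congr rfl fun b _ => by rw [mul_comm]
      rw [h5, PosD_univ]
      split_ifs <;> simp
    simp only [h4]
    rw [sum_ite_eq' univ (0 : Gp n), if_pos (mem_univ _)]
    field_simp
  have h4 : ∑ b, r b = ka a lam E 0 := by exact_mod_cast h3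
  rw [h2, h4]
  unfold ka
  rw [if_pos (zero_mem_HS E), QQ_zero, mul_zero, neg_zero, Real.exp_zero]
  have h5 := card_HS_mul (n := n) E
  have h6 := card_HS_pos (n := n) E
  have h7 := ZZ_pos a lam E
  rw [← h5]
  apply le_of_eq
  field_simp

end Pool.Agent.Lib.MP_629a14_nt.Ml
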