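import Pool.Agent.Lib.MP_629a14_nt.Ml.TDefs
import Pool.Agent.Lib.MP_629a14_nt.Ml.GoodC
import Pool.Agent.Lib.MP_629a14_nt.Ml.NuOne
import Pool.Agent.Lib.MP_629a14_nt.Ml.PosD
import Pool.Agent.Lib.MP_629a14_nt.Ml.Four

/-! The smoothed primes are close to the sieve weight of level `w1`. -/

set_option autoImplicit false

namespace Pool.Agent.Lib.MP_629a14_nt.Ml

open Finset

/-- Facts about the index sets. -/
theorem svE_facts (v w w1 M : ℕ) [NeZero M] (hw : w1 ≤ w) :
    svE v w w1 ⊆ svE v w w ∧ (∀ i ∈ svE v w w, (mo v w M i).Prime ∧ v < mo v w M i) ∧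
      (∀ i ∈ svE v w w, i ∉ svE v w w1 → w1 < mo v w M i) ∧
      (∀ i ∈ svE v w w1, mo v w M i ≤ w1) := by
  classical
  unfold svE
  refine ⟨?_, ?_, ?_, ?_⟩
  · intro i hi
    rw [mem_filter] at hi ⊢
    obtain ⟨h1, p, rfl, hp⟩ := hi
    exact ⟨h1, p, rfl, hp.trans hw⟩
  · intro i hi
    rw [mem_filter] at hi
    obtain ⟨-, p, rfl, hp⟩ := hi
    have h := p.2
    unfold PR at h
    rw [mem_filter, mem_Ioc] at h
    exact ⟨h.2, h.1.1⟩
  · intro i hi hi'
    rw [mem_filter] at hi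
    obtain ⟨-, p, rfl, hp⟩ := hi
    by_contra h
    exact hi' (mem_filter.2 ⟨mem_univ _, p, rfl, not_lt.1 h⟩)
  · intro i hi
    rw [mem_filter] at hi
    obtain ⟨-, p, rfl, hp⟩ := hi
    exact hp

private theorem TKer_inj (v w w1 M : ℕ) :
    Set.InjOn (fun i : Ix v w => mo v w M i) (svE v w w1 : Set (Ix v w)) := by
  classical
  intro i hi j hj hij
  rw [mem_coe] at hi hj
  unfold svE at hi hj
  rw [mem_filter] at hi hj
  obtain ⟨-, p, rfl, -⟩ := hi
  obtain ⟨-, q, rfl, -⟩ := hj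
  have h : p.1 = q.1 := hij
  rw [Subtype.ext h]

private theorem TKer_mem (v w w1 M : ℕ) {i : Ix v w} (hi : i ∈ svE v w w1) :
    (mo v w M i).Prime ∧ mo v w M i ∈ Ioc v w1 := by
  classical
  unfold svE at hi
  rw [mem_filter] at hi
  obtain ⟨-, p, rfl, hp⟩ := hi
  have h := p.2
  unfold PR at h
  rw [mem_filter, mem_Ioc] at h
  exact ⟨h.2, mem_Ioc.2 ⟨h.1.1, hp⟩⟩

/-- `∑ 1 / p ^ 2 ≤ ∑_{m > v} 1 / (m (m - 1)) = 1 / v` (distinct primes). -/
theorem svE_sum (v w w1 M : ℕ) [NeZero M] (hv : 1 ≤ v) :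
    ∑ i ∈ svE v w w1, 1 / (mo v w M i : ℝ) ^ 2 ≤ 1 / (v : ℝ) := by
  classical
  have h1 : ∑ i ∈ svE v w w1, 1 / (mo v w M i : ℝ) ^ 2 =
      ∑ m ∈ (svE v w w1).image (fun i => mo v w M i), ((m : ℝ) ^ 2)⁻¹ := by
    rw [sum_image (TKer_inj v w w1 M)]
    exact sum_congr rfl fun i _ => one_div _
  have h2 : (svE v w w1).image (fun i => mo v w M i) ⊆ Ioc v w1 := by
    intro m hm
    rw [mem_image] at hm
    obtain ⟨i, hi, rfl⟩ := hm
    exact (TKer_mem v w w1 M hi).2
  rw [h1]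
  refine (sum_le_sum_of_subset_of_nonneg h2 fun _ _ _ => by positivity).trans ?_
  rw [one_div]
  by_cases h : v ≤ w1
  · have h3 := sum_Ioc_inv_sq_le_sub (α := ℝ) (k := v) (n := w1) (by omega) h
    have h4 : (0 : ℝ) ≤ (w1 : ℝ)⁻¹ := by positivity
    linarith
  · rw [Ioc_eq_empty (by omega), sum_empty]
    positivity

theorem mo_odd (v w M : ℕ) [NeZero M] (hv : 2 ≤ v) (hw : 2 ≤ w) (hM : M.Coprime (primorial w))
    (i : Ix v w) : Odd (mo v w M i) := by
  cases i with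
  | none =>
    change Odd M
    have h2 : 2 ∣ primorial w := by
      unfold primorial
      refine dvd_prod_of_mem _ ?_
      rw [mem_filter, mem_range]
      exact ⟨by omega, Nat.prime_two⟩
    have h3 : M.Coprime 2 := hM.coprime_dvd_right h2
    exact Nat.coprime_two_right.1 h3
  | some p =>
    change Odd p.1
    have h := p.2
    unfold PR at h
    rw [mem_filter, mem_Ioc] at h
    exact h.2.odd_of_ne_two (by omega)

private theorem TKer_cw (v w w1 M : ℕ) [NeZero M] (hv : 8 ≤ v) (i : Ix v w) :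
    0 ≤ cw (mo v w M) (svE v w w) i ∧ cw (mo v w M) (svE v w w) i ≤ 1 := by
  unfold cw
  split_ifs with h
  · have h1 := (TKer_mem v w w M h).2
    rw [mem_Ioc] at h1
    have h2 : (8 : ℝ) ≤ (mo v w M i : ℝ) := by
      have : 8 ≤ mo v w M i := by omega
      exact_mod_cast this
    refine ⟨by positivity, ?_⟩
    rw [div_le_one (by linarith)]
    exact h2
  · norm_num

/-- With `E = svE v w w1`, `tau = 8 / w1`: a word which does not vanish outside `E` has in its support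
outside `E` either the index `none`, with `cw = 0`, or a prime `p > w1`, with `cw = 8 / p ≤ 8 / w1`; all
`cw ≤ 1`. So `Clo` holds for every `L`; let `L` be large in `goodK_of_clo`. -/
theorem t_good (v w w1 M : ℕ) [NeZero M] (hv : 8 ≤ v) (hv1 : v ≤ w1) (hw : w1 ≤ w) {J : ℕ}
    (a : Fin J → Gp (mo v w M)) (lam rho : ℝ) (hlam : 0 ≤ lam)
    (hrho : 8 / (w1 : ℝ) < rho * ZZ a lam (svE v w w1)) :
    GoodK (cw (mo v w M) (svE v w w)) a lam (svE v w w1) rho := by
  classical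
  have hw1 : (0 : ℝ) < (w1 : ℝ) := by
    have : 0 < w1 := by omega
    exact_mod_cast this
  have hclo : ∀ L : ℕ, Clo (cw (mo v w M) (svE v w w)) a L (8 / (w1 : ℝ)) (svE v w w1) := by
    intro L m _
    by_cases h : ∀ i, i ∉ svE v w w1 → (∑ j, m j • a j) i = 0
    · exact Or.inl h
    · right
      push Not at h
      obtain ⟨i, hi, hi'⟩ := h
      have hmem : i ∈ univ.filter (fun i => i ∉ svE v w w1 ∧ (∑ j, m j • a j) i ≠ 0) :=
        mem_filter.2 ⟨mem_univ _, hi, hi'⟩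
      rw [← mul_prod_erase _ _ hmem]
      have h1 : ∏ i ∈ (univ.filter (fun i => i ∉ svE v w w1 ∧ (∑ j, m j • a j) i ≠ 0)).erase i,
          cw (mo v w M) (svE v w w) i ≤ 1 :=
        prod_le_one (fun i _ => (TKer_cw v w w1 M hv i).1) fun i _ => (TKer_cw v w w1 M hv i).2
      have h2 : cw (mo v w M) (svE v w w) i ≤ 8 / (w1 : ℝ) := by
        unfold cw
        split_ifs with h3
        · have h4 := (svE_facts v w w1 M hw).2.2.1 i h3 hi
          have h5 : (w1 : ℝ) ≤ (mo v w M i : ℝ) := by exact_mod_cast h4.le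
          exact div_le_div_of_nonneg_left (by norm_num) hw1 h5
        · positivity
      calc _ ≤ cw (mo v w M) (svE v w w) i * 1 :=
            mul_le_mul_of_nonneg_left h1 (TKer_cw v w w1 M hv i).1
        _ ≤ _ := by rw [mul_one]; exact h2
  have hgap : 0 < rho * ZZ a lam (svE v w w1) - 8 / (w1 : ℝ) := sub_pos.2 hrho
  obtain ⟨L, hL⟩ := pow_unbounded_of_one_lt
    (Real.exp (J * lam) / (rho * ZZ a lam (svE v w w1) - 8 / (w1 : ℝ))) (one_lt_two (α := ℝ))
  refine goodK_of_clo (fun i => TKer_cw v w w1 M hv i) (by positivity) (hclo L) lam hlam rho ?_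
  have h2 : (0 : ℝ) < 2 ^ L := by positivity
  have h3 : Real.exp (J * lam) / 2 ^ L ≤ rho * ZZ a lam (svE v w w1) - 8 / (w1 : ℝ) := by
    rw [div_le_iff₀ h2]
    rw [div_lt_iff₀ hgap] at hL
    linarith
  linarith

/-- Upper bound for the product of the moduli in `E`. -/
theorem prod_svE (v w w1 M : ℕ) [NeZero M] :
    ∏ i ∈ svE v w w1, (mo v w M i : ℝ) ≤ (primorial w1 : ℝ) := by
  classical
  have h1 : ∏ i ∈ svE v w w1, mo v w M i =
      ∏ m ∈ (svE v w w1).image (fun i => mo v w M i), m := by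
    rw [prod_image (TKer_inj v w w1 M)]
  have h2 : (svE v w w1).image (fun i => mo v w M i) ⊆ (range (w1 + 1)).filter Nat.Prime := by
    intro m hm
    rw [mem_image] at hm
    obtain ⟨i, hi, rfl⟩ := hm
    obtain ⟨h3, h4⟩ := TKer_mem v w w1 M hi
    rw [mem_Ioc] at h4
    exact mem_filter.2 ⟨mem_range.2 (by omega), h3⟩
  have h3 : ∏ i ∈ svE v w w1, mo v w M i ≤ primorial w1 := by
    rw [h1]
    unfold primorial
    refine prod_le_prod_of_subset_of_one_le' h2 fun p hp _ => ?_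
    exact (mem_filter.1 hp).2.one_lt.le
  rw [← Nat.cast_prod]
  exact_mod_cast h3

/-- `av κ Λ = av κ nuS(svE w) + av κ (Λ - nuS(svE w))`; the second term is at most
`eps * ∑ b, ‖κ̂(b)‖ ≤ eps * primorial w1 / ZZ` (`av_ft_le`, `ka_hat_sum`, `prod_svE`), the first one is within
`rho mE` of `mE = nuS (svE w1) g` (`nu_av`) as `g` does not vanish on `E`. -/
theorem t_point (v w w1 M : ℕ) [NeZero M] (hv : 8 ≤ v) (hv1 : v ≤ w1) (hw : w1 ≤ w) {J : ℕ}
    (a : Fin J → Gp (mo v w M)) (lam rho eps : ℝ) (hlam : 0 ≤ lam) (heps : 0 ≤ eps)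
    (hG : GoodK (cw (mo v w M) (svE v w w)) a lam (svE v w w1) rho)
    (Λ : Gp (mo v w M) → ℝ)
    (hΛ : ∀ b, ‖ft (fun g => Λ g - nuS (svE v w w) g) b‖ ≤ eps)
    (g : Gp (mo v w M)) (hg : ∀ i ∈ svE v w w1, g i ≠ 0) :
    |av (ka a lam (svE v w w1)) Λ g - nuS (svE v w w1) g| ≤
      rho * nuS (svE v w w1) g + eps * (primorial w1 / ZZ a lam (svE v w w1)) := by
  classical
  have hZ := ZZ_pos a lam (svE v w w1)
  have hm : nuS (svE v w w1) g = mE (mo v w M) (svE v w w1) := by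
    unfold nuS mE
    exact prod_congr rfl fun i hi => if_neg (hg i hi)
  obtain ⟨f1, f2, -, -⟩ := svE_facts v w w1 M hw
  have h1 := nu_av (svE v w w) (fun i hi => ⟨(f2 i hi).1, by have := (f2 i hi).2; omega⟩) f1 hG g hg
  have h2 := av_ft_le (ka a lam (svE v w w1)) (fun g => Λ g - nuS (svE v w w) g) g eps hΛ
  have h3 : av (ka a lam (svE v w w1)) (fun g => Λ g - nuS (svE v w w) g) g =
      av (ka a lam (svE v w w1)) Λ g - av (ka a lam (svE v w w1)) (nuS (svE v w w)) g := by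
    unfold av
    rw [← sum_sub_distrib]
    exact sum_congr rfl fun s _ => mul_sub _ _ _
  have h4 := ka_hat_sum a lam hlam (svE v w w1)
  have h5 : eps * ∑ b, ‖∑ s, (ka a lam (svE v w w1) s : ℂ) * psi (b * s)‖ ≤
      eps * (primorial w1 / ZZ a lam (svE v w w1)) := by
    refine mul_le_mul_of_nonneg_left (h4.trans ?_) heps
    exact div_le_div_of_nonneg_right (prod_svE v w w1 M) hZ.le
  rw [hm]
  have h6 : av (ka a lam (svE v w w1)) Λ g - mE (mo v w M) (svE v w w1) =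
      (av (ka a lam (svE v w w1)) (nuS (svE v w w)) g - mE (mo v w M) (svE v w w1)) +
        av (ka a lam (svE v w w1)) (fun g => Λ g - nuS (svE v w w) g) g := by
    rw [h3]
    ring
  rw [h6]
  refine (abs_add_le _ _).trans (add_le_add h1 (h2.trans h5))

end Pool.Agent.Lib.MP_629a14_nt.Ml
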