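import Pool.Agent.Lib.MP_629a14_nt.Ml.TFreq
import Pool.Agent.Lib.MP_629a14_nt.Rob.Sup

/-! The primes and the sieve weight have nearly the same Fourier transform. -/

set_option autoImplicit false

namespace Pool.Agent.Lib.MP_629a14_nt.Ml

open Finset Pool.Agent.Lib.MP_629a14_nt Pool.Agent.Lib.MP_629a14_nt.Rob

/-- Detect `x ≡ r` modulo `primorial v` by additive characters: the sum is an average over `c` modulo
`primorial v` of `ee (- c r / primorial v) * gh w N (α + c / primorial v)`; use `sup_le`. -/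
theorem gh_class (v w : ℕ) (hw : 3 ≤ w) : ∃ N₀ : ℕ, ∀ N : ℕ, N₀ ≤ N → ∀ (r : ℕ) (α : ℝ),
    ‖∑ x ∈ (Icc 1 N).filter (fun x => x ≡ r [MOD primorial v]), (gg w N x : ℂ) * ee (x * α)‖ ≤
      2 / w * N := by
  obtain ⟨N₀, h0⟩ := sup_le w hw
  refine ⟨N₀, fun N hN r α => ?_⟩
  have hP : 0 < primorial v := primorial_pos v
  have hPr : (0 : ℝ) < primorial v := by exact_mod_cast hP
  have key : ((primorial v : ℕ) : ℂ) *
      ∑ x ∈ (Icc 1 N).filter (fun x => x ≡ r [MOD primorial v]), (gg w N x : ℂ) * ee (x * α) =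
      ∑ c ∈ range (primorial v), ee (-((c : ℝ) * (r / primorial v))) *
        gh w N (α + c / primorial v) := by
    simp_rw [gh_eq, mul_sum]
    rw [sum_comm, sum_filter]
    refine sum_congr rfl fun x hx => ?_
    have h1 := sum_ee_range (primorial v) hP ((x : ℤ) - r)
    have h2 : ∀ c ∈ range (primorial v), ee (-((c : ℝ) * (r / primorial v))) *
        ((gg w N x : ℂ) * ee (x * (α + c / primorial v))) =
        ((gg w N x : ℂ) * ee (x * α)) *
          ee ((c : ℝ) * ((((x : ℤ) - (r : ℤ) : ℤ) : ℝ) / primorial v)) := by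
      intro c _
      rw [show ((c : ℝ) * ((((x : ℤ) - (r : ℤ) : ℤ) : ℝ) / primorial v)) =
        -((c : ℝ) * (r / primorial v)) + x * (c / primorial v) by push_cast; ring,
        mul_add (x : ℝ), ee_add, ee_add]
      ring
    rw [sum_congr rfl h2, ← mul_sum, h1]
    by_cases h : x ≡ r [MOD primorial v]
    · rw [if_pos h, if_pos]
      · ring
      · have := (Nat.modEq_iff_dvd.1 h)
        rw [← neg_sub, Int.dvd_neg]
        exact this
    · rw [if_neg h, if_neg, mul_zero]
      intro h3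
      apply h
      rw [Nat.modEq_iff_dvd, ← neg_sub, Int.dvd_neg]
      exact h3
  have h3 : (primorial v : ℝ) *
      ‖∑ x ∈ (Icc 1 N).filter (fun x => x ≡ r [MOD primorial v]), (gg w N x : ℂ) * ee (x * α)‖ ≤
      primorial v * (2 / w * N) := by
    calc (primorial v : ℝ) * ‖∑ x ∈ (Icc 1 N).filter (fun x => x ≡ r [MOD primorial v]),
          (gg w N x : ℂ) * ee (x * α)‖ = ‖((primorial v : ℕ) : ℂ) *
          ∑ x ∈ (Icc 1 N).filter (fun x => x ≡ r [MOD primorial v]),
            (gg w N x : ℂ) * ee (x * α)‖ := by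
          rw [norm_mul, Complex.norm_natCast]
      _ ≤ ∑ c ∈ range (primorial v), ‖ee (-((c : ℝ) * (r / primorial v))) *
        gh w N (α + c / primorial v)‖ := by
          rw [key]
          exact norm_sum_le _ _
      _ ≤ ∑ c ∈ range (primorial v), (2 / w * N : ℝ) := by
          refine sum_le_sum fun c _ => ?_
          rw [norm_mul, norm_ee, one_mul]
          exact h0 N hN _
      _ = primorial v * (2 / w * N) := by
          rw [sum_const, card_range, nsmul_eq_mul]
  exact le_of_mul_le_mul_left h3 hPr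

private theorem TSup_tot (s : Finset ℕ) (hs : ∀ p ∈ s, p.Prime) :
    (∏ p ∈ s, p).totient = ∏ p ∈ s, (p - 1) := by
  classical
  induction s using Finset.induction_on with
  | empty => simp
  | insert a s ha ih =>
    rw [prod_insert ha, prod_insert ha, Nat.totient_mul, ih (fun p hp => hs p (mem_insert_of_mem hp)),
      Nat.totient_prime (hs a (mem_insert_self a s))]
    refine Nat.Coprime.prod_right fun p hp => ?_
    rw [Nat.coprime_primes (hs a (mem_insert_self a s)) (hs p (mem_insert_of_mem hp))]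
    rintro rfl
    exact ha hp

private theorem TSup_cop (v w : ℕ) : (primorial v).Coprime (∏ p ∈ PR v w, p) := by
  refine Nat.Coprime.prod_right fun p hp => ?_
  unfold primorial
  refine Nat.Coprime.prod_left fun q hq => ?_
  unfold PR at hp
  rw [mem_filter, mem_Ioc] at hp
  rw [mem_filter, mem_range] at hq
  rw [Nat.coprime_primes hq.2 hp.2]
  omega

/-- For `x ∈ fib` and `r` coprime to `primorial v`: `nuS` of the residues is `den v * nu w x`. -/
theorem nuS_red (v w M r : ℕ) [NeZero M] (hvw : v ≤ w) (hM : M.Coprime (primorial w))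
    (hr : r.Coprime (primorial v)) {x : ℕ} (hx : x ∈ fib v w M r) :
    nuS (svE v w w) (red v w M x) = den v * nu w x := by
  classical
  unfold fib at hx
  rw [mem_filter] at hx
  have hxc : x.Coprime (primorial v) := by
    have h1 := hx.2.gcd_eq
    unfold Nat.Coprime at hr ⊢
    rw [h1, hr]
  have hPR : ∀ p ∈ PR v w, p.Prime := fun p hp => by
    unfold PR at hp
    exact (mem_filter.1 hp).2
  have hsv : svE v w w = (univ : Finset {p : ℕ // p ∈ PR v w}).map Function.Embedding.some := by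
    ext i
    unfold svE
    rw [mem_filter, mem_map]
    constructor
    · rintro ⟨-, p, rfl, -⟩
      exact ⟨p, mem_univ _, rfl⟩
    · rintro ⟨p, -, rfl⟩
      refine ⟨mem_univ _, p, rfl, ?_⟩
      have := p.2
      unfold PR at this
      rw [mem_filter, mem_Ioc] at this
      exact this.1.2
  have h1 : nuS (svE v w w) (red v w M x) =
      ∏ p ∈ PR v w, (if p ∣ x then (0 : ℝ) else (p : ℝ) / ((p : ℝ) - 1)) := by
    unfold nuS
    rw [hsv, prod_map, ← prod_coe_sort (PR v w)]
    refine prod_congr rfl fun p _ => ?_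
    have h2 : (red v w M x (Function.Embedding.some p) = 0) ↔ p.1 ∣ x := by
      unfold red
      exact ZMod.natCast_eq_zero_iff x p.1
    by_cases h : p.1 ∣ x
    · rw [if_pos (h2.2 h), if_pos h]
    · rw [if_neg (fun h' => h (h2.1 h')), if_neg h]
      rfl
  rw [h1]
  unfold nu den
  have hsp := primorial_split v w hvw
  by_cases hc : Nat.Coprime x (primorial w)
  · rw [if_pos hc]
    have h2 : ∀ p ∈ PR v w, ¬ p ∣ x := by
      intro p hp hpx
      have h3 : p ∣ primorial w := by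
        rw [hsp]
        exact (dvd_prod_of_mem (fun p => p) hp).mul_left _
      have h4 := Nat.dvd_gcd hpx h3
      rw [hc] at h4
      exact (hPR p hp).one_lt.ne' (Nat.dvd_one.1 h4)
    rw [prod_congr rfl fun p hp => if_neg (h2 p hp), prod_div_distrib]
    rw [hsp, Nat.totient_mul (TSup_cop v w), TSup_tot _ hPR]
    have h5 : ((∏ p ∈ PR v w, (p - 1) : ℕ) : ℝ) = ∏ p ∈ PR v w, ((p : ℝ) - 1) := by
      rw [Nat.cast_prod]
      refine prod_congr rfl fun p hp => ?_
      rw [Nat.cast_sub (hPR p hp).one_lt.le, Nat.cast_one]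
    have h6 : ∏ p ∈ PR v w, ((p : ℝ) - 1) ≠ 0 := by
      refine prod_ne_zero_iff.2 fun p hp => ?_
      have : (1 : ℝ) < p := by exact_mod_cast (hPR p hp).one_lt
      linarith
    have h7 : ((primorial v).totient : ℝ) ≠ 0 := by
      exact_mod_cast (Nat.totient_pos.2 (primorial_pos v)).ne'
    have h8 : ((primorial v : ℕ) : ℝ) ≠ 0 := by exact_mod_cast (primorial_pos v).ne'
    push_cast at h5 ⊢
    rw [h5]
    field_simp
  · rw [if_neg hc, mul_zero]
    have h2 : ∃ p ∈ PR v w, p ∣ x := by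
      by_contra hcon
      push Not at hcon
      apply hc
      rw [hsp]
      refine Nat.Coprime.mul_right hxc (Nat.Coprime.prod_right fun p hp => ?_)
      exact ((hPR p hp).coprime_iff_not_dvd.2 (hcon p hp)).symm
    obtain ⟨p, hp, hpx⟩ := h2
    exact prod_eq_zero hp (if_pos hpx)

/-- `card * (ft (push ua) b - ft nuS b) = ∑_{x ∈ fib} (ua x - nuS (red x)) ee (x theta b)`
(`ft_push`, `sum_fib`, `psi_red`, `nuS_red`) `= den v * (∑_{x ∈ fib} gg w X x ee - small primes)`; the
primes up to `X ^ (1/4)` contribute at most `X ^ (1/4) log X ≤ X / w` for large `X`. With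
`card = X / primorial v` the result is `≤ primorial v * den v * 3 / w = 3 φ(primorial v) / w`. -/
theorem t_sup (v w : ℕ) (hw : 3 ≤ w) (hvw : v ≤ w) : ∃ N₀ : ℕ, ∀ (M : ℕ) [NeZero M],
    M.Coprime (primorial w) → N₀ ≤ XX w M → ∀ r : ℕ, r.Coprime (primorial v) →
    ∀ b : Gp (mo v w M),
    ‖ft (fun g => push v w M r (ua v (XX w M)) g - nuS (svE v w w) g) b‖ ≤
      3 * ((primorial v).totient : ℝ) / w := by
  classical
  obtain ⟨N₁, h1⟩ := gh_class v w hw
  refine ⟨max N₁ (16 * w ^ 2), fun M _ hM hX r hr b => ?_⟩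
  have hX1 : N₁ ≤ XX w M := (le_max_left _ _).trans hX
  have hX2 : 16 * w ^ 2 ≤ XX w M := (le_max_right _ _).trans hX
  have hcl := h1 (XX w M) hX1 r (theta v w M b)
  have hcard := card_Gp_mul v w M hvw
  obtain ⟨X, hXd⟩ : ∃ X : ℕ, X = XX w M := ⟨_, rfl⟩
  rw [← hXd] at hX1 hX2 hcl hcard ⊢
  obtain ⟨θ, hθ⟩ : ∃ θ : ℝ, θ = theta v w M b := ⟨_, rfl⟩
  rw [← hθ] at hcl
  have hw0 : (0 : ℝ) < w := by exact_mod_cast (by omega : 0 < w)
  have hXr : (16 : ℝ) * w ^ 2 ≤ X := by exact_mod_cast hX2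
  have hX0 : (0 : ℝ) < X := by nlinarith
  have hX1' : (1 : ℝ) ≤ X := by
    have : (3 : ℝ) ≤ w := by exact_mod_cast hw
    nlinarith
  have hlog : 0 ≤ Real.log X := Real.log_nonneg hX1'
  have hP : (0 : ℝ) < primorial v := by exact_mod_cast primorial_pos v
  have hφ : (0 : ℝ) < (primorial v).totient := by
    exact_mod_cast Nat.totient_pos.2 (primorial_pos v)
  have hden : 0 ≤ den v := by unfold den; positivity
  -- the numerator
  have hnum : ∑ g, (((push v w M r (ua v X) g - nuS (svE v w w) g : ℝ)) : ℂ) * psi (b * g) =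
      (den v : ℂ) * (∑ x ∈ fib v w M r, (gg w X x : ℂ) * ee (x * θ) -
        ∑ x ∈ fib v w M r, (if x.Prime ∧ ¬ ⌊(X : ℝ) ^ (1 / 4 : ℝ)⌋₊ < x then (Real.log X : ℂ) else 0) *
          ee (x * θ)) := by
    have e1 : ∑ g, (((push v w M r (ua v X) g - nuS (svE v w w) g : ℝ)) : ℂ) * psi (b * g) =
        ∑ g, (push v w M r (ua v X) g : ℂ) * psi (b * g) -
          ∑ g, (nuS (svE v w w) g : ℂ) * psi (b * g) := by
      rw [← sum_sub_distrib]
      refine sum_congr rfl fun g _ => ?_
      push_cast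
      ring
    rw [e1, sum_push v w M r (ua v X) (fun g => psi (b * g)),
      ← sum_fib v w M r hvw hM (fun g => (nuS (svE v w w) g : ℂ) * psi (b * g)),
      ← sum_sub_distrib, ← sum_sub_distrib, mul_sum]
    refine sum_congr rfl fun x hx => ?_
    rw [nuS_red v w M r hvw hM hr hx, psi_red, ← hθ]
    unfold ua gg
    by_cases hp : x.Prime
    · by_cases hq : ⌊(X : ℝ) ^ (1 / 4 : ℝ)⌋₊ < x
      · rw [if_pos ⟨hp, hq⟩, if_pos hp, if_neg (fun h => h.2 hq)]
        push_cast
        ring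
      · rw [if_neg (fun h => hq h.2), if_pos hp, if_pos ⟨hp, hq⟩]
        push_cast
        ring
    · rw [if_neg (fun h => hp h.1), if_neg hp, if_neg (fun h => hp h.1)]
      push_cast
      ring
  have hsmall : ‖∑ x ∈ fib v w M r,
      (if x.Prime ∧ ¬ ⌊(X : ℝ) ^ (1 / 4 : ℝ)⌋₊ < x then (Real.log X : ℂ) else 0) * ee (x * θ)‖ ≤
      (X : ℝ) ^ (1 / 4 : ℝ) * Real.log X := by
    calc _ ≤ ∑ x ∈ fib v w M r, ‖(if x.Prime ∧ ¬ ⌊(X : ℝ) ^ (1 / 4 : ℝ)⌋₊ < x then
          (Real.log X : ℂ) else 0) * ee (x * θ)‖ := norm_sum_le _ _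
      _ = ∑ x ∈ fib v w M r, (if x.Prime ∧ ¬ ⌊(X : ℝ) ^ (1 / 4 : ℝ)⌋₊ < x then
          Real.log X else 0) := by
          refine sum_congr rfl fun x _ => ?_
          rw [norm_mul, norm_ee, mul_one]
          split_ifs
          · rw [Complex.norm_real, Real.norm_eq_abs, abs_of_nonneg hlog]
          · exact norm_zero
      _ ≤ ∑ x ∈ Icc 1 ⌊(X : ℝ) ^ (1 / 4 : ℝ)⌋₊, Real.log X := by
          rw [← sum_filter]
          refine sum_le_sum_of_subset_of_nonneg ?_ (fun _ _ _ => hlog)
          intro x hx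
          rw [mem_filter] at hx
          rw [mem_Icc]
          exact ⟨hx.2.1.one_lt.le, not_lt.1 hx.2.2⟩
      _ ≤ (X : ℝ) ^ (1 / 4 : ℝ) * Real.log X := by
          rw [sum_const, Nat.card_Icc, nsmul_eq_mul, Nat.add_sub_cancel]
          exact mul_le_mul_of_nonneg_right (Nat.floor_le (by positivity)) hlog
  have hsm2 : (X : ℝ) ^ (1 / 4 : ℝ) * Real.log X ≤ 1 / w * X := by
    have e1 := Real.log_le_rpow_div hX0.le (by norm_num : (0 : ℝ) < 1 / 4)
    have e2 : (X : ℝ) ^ (1 / 4 : ℝ) * (X : ℝ) ^ (1 / 4 : ℝ) = Real.sqrt X := by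
      rw [← Real.rpow_add hX0, Real.sqrt_eq_rpow]
      norm_num
    have e3 : 4 * (w : ℝ) ≤ Real.sqrt X := by
      refine Real.le_sqrt_of_sq_le ?_
      linarith [mul_pow (4 : ℝ) (w : ℝ) 2]
    have e4 : Real.sqrt X * Real.sqrt X = X := Real.mul_self_sqrt hX0.le
    have e5 : 0 ≤ Real.sqrt X := Real.sqrt_nonneg _
    calc (X : ℝ) ^ (1 / 4 : ℝ) * Real.log X ≤
          (X : ℝ) ^ (1 / 4 : ℝ) * ((X : ℝ) ^ (1 / 4 : ℝ) / (1 / 4)) := by gcongr
      _ = 4 * Real.sqrt X := by rw [← e2]; ring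
      _ ≤ 1 / w * X := by
          rw [div_mul_eq_mul_div, one_mul, le_div_iff₀ hw0]
          calc 4 * Real.sqrt X * w = (4 * w) * Real.sqrt X := by ring
            _ ≤ Real.sqrt X * Real.sqrt X := by gcongr
            _ = X := e4
  have hfib : fib v w M r = (Icc 1 X).filter (fun x => x ≡ r [MOD primorial v]) := by
    unfold fib
    rw [hXd]
  have hcr : (Fintype.card (Gp (mo v w M)) : ℝ) * primorial v = X := by exact_mod_cast hcard
  have hc0 : (0 : ℝ) < Fintype.card (Gp (mo v w M)) := by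
    exact_mod_cast Fintype.card_pos
  unfold ft
  rw [norm_div, Complex.norm_natCast, hnum, div_le_iff₀ hc0, norm_mul, Complex.norm_real,
    Real.norm_eq_abs, abs_of_nonneg hden]
  have hfin : ‖∑ x ∈ fib v w M r, (gg w X x : ℂ) * ee (x * θ) -
        ∑ x ∈ fib v w M r, (if x.Prime ∧ ¬ ⌊(X : ℝ) ^ (1 / 4 : ℝ)⌋₊ < x then (Real.log X : ℂ) else 0) *
          ee (x * θ)‖ ≤ 3 / w * X := by
    calc _ ≤ _ := norm_sub_le _ _
      _ ≤ 2 / w * X + 1 / w * X := by
          refine add_le_add ?_ (hsmall.trans hsm2)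
          rw [hfib]
          exact hcl
      _ = 3 / w * X := by ring
  calc den v * _ ≤ den v * (3 / w * X) := mul_le_mul_of_nonneg_left hfin hden
    _ = 3 * ((primorial v).totient : ℝ) / w * Fintype.card (Gp (mo v w M)) := by
        rw [← hcr]
        unfold den
        field_simp

end Pool.Agent.Lib.MP_629a14_nt.Ml
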