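import Pool.Agent.Lib.MP_629a14_nt.Ml.TCrt

/-! From midpoints in the product group to sums of two primes. -/

set_option autoImplicit false

namespace Pool.Agent.Lib.MP_629a14_nt.Ml

open Finset

private theorem tcount_dvd (v w M : ℕ) (i : Ix v w) : mo v w M i ∣ XX w M := by
  cases i with
  | none => exact dvd_mul_left _ _
  | some p =>
    obtain ⟨p, hp⟩ := p
    change p ∣ primorial w * M
    apply Dvd.dvd.mul_right
    unfold PR at hp
    rw [mem_filter, mem_Ioc] at hp
    unfold primorial
    apply dvd_prod_of_mem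
    rw [mem_filter, mem_range]
    exact ⟨by omega, hp.2⟩

private theorem tcount_den_nonneg (v : ℕ) : 0 ≤ den v := by
  unfold den
  positivity

private theorem tcount_den_le (v : ℕ) : den v ≤ 1 := by
  unfold den
  have h := primorial_pos v
  rw [div_le_one (by exact_mod_cast h)]
  exact_mod_cast Nat.totient_le _

open Classical in
private theorem tcount_sum {k : ℕ} (v X : ℕ) (χ : ℕ → Fin k) (a b : ℕ) :
    ∑ i, uc v X χ i a * uc v X χ i b ≤
      if (a.Prime ∧ b.Prime ∧ χ a = χ b) then (den v * Real.log X) ^ 2 else 0 := by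
  rw [sum_eq_single (χ a)]
  · unfold uc
    by_cases ha : a.Prime ∧ ⌊((X : ℕ) : ℝ) ^ (1 / 4 : ℝ)⌋₊ < a ∧ χ a = χ a
    · rw [if_pos ha]
      by_cases hb : b.Prime ∧ ⌊((X : ℕ) : ℝ) ^ (1 / 4 : ℝ)⌋₊ < b ∧ χ b = χ a
      · rw [if_pos hb, if_pos ⟨ha.1, hb.1, hb.2.2.symm⟩, sq]
      · rw [if_neg hb, mul_zero]
        split_ifs
        · positivity
        · exact le_rfl
    · rw [if_neg ha, zero_mul]
      split_ifs
      · positivity
      · exact le_rfl
  · intro i _ hi
    unfold uc
    rw [if_neg (fun h => hi h.2.2.symm), zero_mul]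
  · intro h
    exact absurd (mem_univ _) h

private theorem tcount_even (v : ℕ) (hv : 2 ≤ v) : 2 ∣ primorial v := by
  unfold primorial
  apply dvd_prod_of_mem
  rw [mem_filter, mem_range]
  exact ⟨by omega, Nat.prime_two⟩

/-- `∑ i, cvm A_i A_i m * card` is `(den v log X) ^ 2` times the number of pairs `(x, y)` of primes
`> X ^ (1/4)` in `fib` with `χ x = χ y` and `red x + red y = m + m` (substitute `g = m + δ`,
`g' = m - δ`; odd moduli: `δ` is determined by `g`, and `push_red`). Let `n1 ∈ [1, X]` be the element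
with `n1 ≡ 2 r` modulo `primorial v` and `red n1 = m + m` (`crt_unique` with `2 r`); then
`x + y ≡ n1` modulo `X` and `2 ≤ x + y ≤ 2 X`, so `x + y = n1` or `x + y = n1 + X`. So one of these two
numbers, which are even (`2 ∣ primorial v ∣ X`), has at least half of
`c1 card / (den v log X) ^ 2 ≥ c1 (X / primorial v) / log X ^ 2` pairs. -/
theorem t_count (v w M r : ℕ) [NeZero M] (hv : 2 ≤ v) (hvw : v ≤ w)
    (hM : M.Coprime (primorial w)) {k : ℕ} (χ : ℕ → Fin k) (c1 : ℝ) (hc1 : 0 < c1)
    (hX : 2 ≤ XX w M)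
    (m : Gp (mo v w M)) (hm : c1 ≤ ∑ i, cvm (push v w M r (uc v (XX w M) χ i))
      (push v w M r (uc v (XX w M) χ i)) m) :
    ∃ t : ℕ, t ∈ Icc 1 (2 * XX w M) ∧ Even t ∧ t ≡ 2 * r [MOD primorial v] ∧
      red v w M t = m + m ∧
      c1 / 2 * ((XX w M : ℝ) / primorial v) / Real.log (XX w M) ^ 2 ≤ (mono χ t : ℝ) := by
  classical
  set X := XX w M with hXdef
  choose x hx using fun g => (crt_unique v w M r hvw hM g).exists
  have hA : ∀ (i : Fin k) g, push v w M r (uc v X χ i) g = uc v X χ i (x g) := by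
    intro i g
    conv_lhs => rw [← (hx g).2]
    exact push_red v w M r hvw hM _ (hx g).1
  have hxI : ∀ g, 1 ≤ x g ∧ x g ≤ X ∧ x g ≡ r [MOD primorial v] := by
    intro g
    have := (hx g).1
    unfold fib at this
    rw [mem_filter, mem_Icc] at this
    exact ⟨this.1.1, this.1.2, this.2⟩
  have hxinj : Function.Injective x := by
    intro g g' h
    rw [← (hx g).2, ← (hx g').2, h]
  set S : Finset (Gp (mo v w M)) := univ.filter (fun δ =>
    (x (m + δ)).Prime ∧ (x (m - δ)).Prime ∧ χ (x (m + δ)) = χ (x (m - δ))) with hS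
  have hNpos : (0 : ℝ) < (Fintype.card (Gp (mo v w M)) : ℝ) := by
    exact_mod_cast Fintype.card_pos
  have hNX : (Fintype.card (Gp (mo v w M)) : ℝ) = (X : ℝ) / primorial v := by
    have h := card_Gp_mul v w M hvw
    have hp : (primorial v : ℝ) ≠ 0 := by
      exact_mod_cast (primorial_pos v).ne'
    rw [eq_div_iff hp]
    exact_mod_cast h
  have hlog : 0 < Real.log X := Real.log_pos (by exact_mod_cast hX)
  have h1 : c1 * (Fintype.card (Gp (mo v w M)) : ℝ) ≤ (S.card : ℝ) * Real.log X ^ 2 := by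
    have h2 : ∑ i, cvm (push v w M r (uc v X χ i)) (push v w M r (uc v X χ i)) m ≤
        ((S.card : ℝ) * (den v * Real.log X) ^ 2) / (Fintype.card (Gp (mo v w M)) : ℝ) := by
      unfold cvm
      rw [← sum_div, sum_comm]
      apply div_le_div_of_nonneg_right _ hNpos.le
      calc ∑ δ, ∑ i, push v w M r (uc v X χ i) (m + δ) * push v w M r (uc v X χ i) (m - δ)
          ≤ ∑ δ, (if ((x (m + δ)).Prime ∧ (x (m - δ)).Prime ∧ χ (x (m + δ)) = χ (x (m - δ)))
              then (den v * Real.log X) ^ 2 else 0) := by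
            refine sum_le_sum fun δ _ => ?_
            simp only [hA]
            exact tcount_sum v X χ _ _
        _ = (S.card : ℝ) * (den v * Real.log X) ^ 2 := by
            rw [← sum_filter, sum_const, nsmul_eq_mul]
    have h3 := hm.trans h2
    rw [le_div_iff₀ hNpos] at h3
    refine h3.trans ?_
    apply mul_le_mul_of_nonneg_left _ (Nat.cast_nonneg _)
    have h4 : den v * Real.log X ≤ Real.log X := by
      have := mul_le_mul_of_nonneg_right (tcount_den_le v) hlog.le
      linarith
    exact pow_le_pow_left₀ (mul_nonneg (tcount_den_nonneg v) hlog.le) h4 2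
  obtain ⟨n1, hn1, _⟩ := crt_unique v w M (2 * r) hvw hM (m + m)
  have hn1I : 1 ≤ n1 ∧ n1 ≤ X ∧ n1 ≡ 2 * r [MOD primorial v] := by
    have := hn1.1
    unfold fib at this
    rw [mem_filter, mem_Icc] at this
    exact ⟨this.1.1, this.1.2, this.2⟩
  have hpX : primorial v ∣ X := by
    rw [hXdef]
    unfold XX
    rw [primorial_split v w hvw, mul_assoc]
    exact dvd_mul_right _ _
  have hredX : ∀ a : ℕ, red v w M (a + X) = red v w M a := by
    intro a
    funext i
    unfold red
    have h : ((X : ℕ) : ZMod (mo v w M i)) = 0 := by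
      rw [ZMod.natCast_eq_zero_iff]
      exact tcount_dvd v w M i
    rw [Nat.cast_add, h, add_zero]
  have hsum : ∀ δ : Gp (mo v w M), x (m + δ) + x (m - δ) = n1 ∨
      x (m + δ) + x (m - δ) = n1 + X := by
    intro δ
    have a1 := hxI (m + δ)
    have a2 := hxI (m - δ)
    have hred : red v w M (x (m + δ) + x (m - δ)) = m + m := by
      have : red v w M (x (m + δ) + x (m - δ)) = red v w M (x (m + δ)) + red v w M (x (m - δ)) := by
        funext i
        rw [Pi.add_apply]
        unfold red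
        rw [Nat.cast_add]
      rw [this, (hx _).2, (hx _).2]
      abel
    have hmod : x (m + δ) + x (m - δ) ≡ 2 * r [MOD primorial v] := by
      have := a1.2.2.add a2.2.2
      rwa [← two_mul] at this
    obtain ⟨z, hz, hzu⟩ := crt_unique v w M (2 * r) hvw hM (m + m)
    have hn1z : n1 = z := hzu n1 hn1
    by_cases hle : x (m + δ) + x (m - δ) ≤ X
    · left
      rw [hn1z]
      apply hzu
      refine ⟨?_, hred⟩
      unfold fib
      rw [mem_filter, mem_Icc]
      exact ⟨⟨by omega, hle⟩, hmod⟩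
    · right
      push Not at hle
      have h5 : x (m + δ) + x (m - δ) - X = z := by
        apply hzu
        refine ⟨?_, ?_⟩
        · unfold fib
          rw [mem_filter, mem_Icc]
          refine ⟨⟨by omega, by omega⟩, ?_⟩
          have h6 : x (m + δ) + x (m - δ) - X + X ≡ 2 * r + 0 [MOD primorial v] := by
            rw [Nat.sub_add_cancel hle.le, add_zero]
            exact hmod
          exact Nat.ModEq.add_right_cancel ((Nat.modEq_zero_iff_dvd).2 hpX) h6
        · rw [← hredX, Nat.sub_add_cancel hle.le]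
          exact hred
      omega
  have hcount : ∀ t : ℕ, (((S.filter (fun δ => x (m + δ) + x (m - δ) = t)).card : ℕ)) ≤ mono χ t := by
    intro t
    unfold mono
    apply card_le_card_of_injOn (fun δ => x (m + δ))
    · intro δ hδ
      rw [mem_coe, mem_filter, hS, mem_filter] at hδ
      rw [mem_coe, mem_filter, mem_range]
      obtain ⟨⟨_, b1, b2, b3⟩, b4⟩ := hδ
      have h7 : t - x (m + δ) = x (m - δ) := by omega
      refine ⟨?_, b1, ?_, ?_⟩
      · show x (m + δ) < t + 1
        omega
      · show (t - x (m + δ)).Prime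
        rw [h7]; exact b2
      · show χ (x (m + δ)) = χ (t - x (m + δ))
        rw [h7]; exact b3
    · intro δ _ δ' _ h
      have := hxinj h
      exact add_left_cancel this
  have hSle : S.card ≤ mono χ n1 + mono χ (n1 + X) := by
    have h8 : S ⊆ (S.filter (fun δ => x (m + δ) + x (m - δ) = n1)) ∪
        (S.filter (fun δ => x (m + δ) + x (m - δ) = n1 + X)) := by
      intro δ hδ
      rcases hsum δ with h | h
      · exact mem_union.2 (Or.inl (mem_filter.2 ⟨hδ, h⟩))
      · exact mem_union.2 (Or.inr (mem_filter.2 ⟨hδ, h⟩))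
    calc S.card ≤ _ := card_le_card h8
      _ ≤ _ := card_union_le _ _
      _ ≤ _ := add_le_add (hcount _) (hcount _)
  have hfin : ∀ a : ℕ, (S.card : ℝ) / 2 ≤ a →
      c1 / 2 * ((X : ℝ) / primorial v) / Real.log X ^ 2 ≤ (a : ℝ) := by
    intro a ha
    rw [← hNX, div_le_iff₀ (by positivity)]
    have h9 : (S.card : ℝ) / 2 * Real.log X ^ 2 ≤ (a : ℝ) * Real.log X ^ 2 := by gcongr
    linarith
  have h2dvd : ∀ t : ℕ, t ≡ 2 * r [MOD primorial v] → Even t := by
    intro t ht
    have h10 : t ≡ 2 * r [MOD 2] := ht.of_dvd (tcount_even v hv)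
    rw [even_iff_two_dvd]
    have h11 : 2 * r ≡ 0 [MOD 2] := (Nat.modEq_zero_iff_dvd).2 (dvd_mul_right _ _)
    exact (Nat.modEq_zero_iff_dvd).1 (h10.trans h11)
  by_cases hcase : (S.card : ℝ) / 2 ≤ mono χ n1
  · refine ⟨n1, ?_, h2dvd n1 hn1I.2.2, hn1I.2.2, hn1.2, hfin _ hcase⟩
    rw [mem_Icc]
    omega
  · have hmod2 : n1 + X ≡ 2 * r [MOD primorial v] := by
      have := hn1I.2.2.add ((Nat.modEq_zero_iff_dvd).2 hpX)
      simpa using this
    refine ⟨n1 + X, ?_, h2dvd _ hmod2, hmod2, ?_, hfin _ ?_⟩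
    · rw [mem_Icc]
      omega
    · rw [hredX]
      exact hn1.2
    · push Not at hcase
      have h12 : (S.card : ℝ) ≤ (mono χ n1 : ℝ) + (mono χ (n1 + X) : ℝ) := by exact_mod_cast hSle
      linarith

open Classical in
/-- Different `m` give different `t` (`m + m = m' + m'` implies `m = m'` for odd moduli), and different
residues `r` (odd, since coprime to `primorial v`) give different classes `2 r` modulo `primorial v`
(`primorial v = 2 *` odd). Use `card = XX / primorial v` (`card_Gp_mul`). -/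
theorem t_total (v w M : ℕ) [NeZero M] (hv : 2 ≤ v) (hvw : v ≤ w)
    (hM : M.Coprime (primorial w)) {k : ℕ} (χ : ℕ → Fin k) (c1 : ℝ) (hc1 : 0 < c1)
    (hX : 2 ≤ XX w M)
    (h : ∀ r : ℕ, r.Coprime (primorial v) →
      (3 / 8) * (Fintype.card (Gp (mo v w M)) : ℝ) ≤
      ((univ.filter (fun m : Gp (mo v w M) => c1 ≤
        ∑ i, cvm (push v w M r (uc v (XX w M) χ i))
          (push v w M r (uc v (XX w M) χ i)) m)).card : ℝ)) :
    (3 / 8) * den v * (XX w M : ℝ) ≤
      (((Icc 1 (2 * XX w M)).filter (fun t => Even t ∧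
        c1 / 2 * ((XX w M : ℝ) / primorial v) / Real.log (XX w M) ^ 2 ≤
          (mono χ t : ℝ))).card : ℝ) := by
  set X := XX w M with hXdef
  set P := primorial v with hP
  have hPpos : 0 < P := primorial_pos v
  set G : ℕ → Finset (Gp (mo v w M)) := fun r => univ.filter (fun m : Gp (mo v w M) => c1 ≤
        ∑ i, cvm (push v w M r (uc v X χ i)) (push v w M r (uc v X χ i)) m) with hG
  have hex : ∀ (r : ℕ) (m : Gp (mo v w M)), ∃ t : ℕ, m ∈ G r → t ∈ Icc 1 (2 * X) ∧ Even t ∧
      t ≡ 2 * r [MOD P] ∧ red v w M t = m + m ∧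
      c1 / 2 * ((X : ℝ) / P) / Real.log X ^ 2 ≤ (mono χ t : ℝ) := by
    intro r m
    by_cases hm : m ∈ G r
    · have hm' : c1 ≤ ∑ i, cvm (push v w M r (uc v X χ i)) (push v w M r (uc v X χ i)) m := by
        rw [hG] at hm
        exact (mem_filter.1 hm).2
      obtain ⟨t, ht⟩ := t_count v w M r hv hvw hM χ c1 hc1 hX m hm'
      exact ⟨t, fun _ => ht⟩
    · exact ⟨0, fun h => absurd h hm⟩
  choose T hT using hex
  set R : Finset ℕ := (range P).filter (fun r => P.Coprime r) with hR
  have hRcard : R.card = P.totient := by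
    rw [hR]
    rfl
  have hPw : P ∣ primorial w := by
    rw [primorial_split v w hvw]
    exact dvd_mul_right _ _
  have h2P : 2 ∣ P := tcount_even v hv
  -- all moduli are odd
  have hodd : ∀ i, Odd (mo v w M i) := by
    intro i
    cases i with
    | none =>
      change Odd M
      have h1 : M.Coprime 2 := hM.coprime_dvd_right (h2P.trans hPw)
      exact (Nat.coprime_two_right).1 h1
    | some p =>
      obtain ⟨p, hp⟩ := p
      change Odd p
      unfold PR at hp
      rw [mem_filter, mem_Ioc] at hp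
      exact hp.2.odd_of_ne_two (by omega)
  have hdouble : ∀ a b : Gp (mo v w M), a + a = b + b → a = b := by
    intro a b hab
    funext i
    have h1 := congrFun hab i
    rw [Pi.add_apply, Pi.add_apply, ← two_mul, ← two_mul] at h1
    have hu : IsUnit (2 : ZMod (mo v w M i)) := by
      have := (ZMod.isUnit_iff_coprime 2 (mo v w M i)).2 (Nat.coprime_two_left.2 (hodd i))
      simpa using this
    exact hu.mul_left_cancel h1
  -- odd part of the primorial
  have hPhalf : ∃ Q, P = 2 * Q ∧ Odd Q := by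
    obtain ⟨Q, hQ⟩ := h2P
    refine ⟨Q, hQ, ?_⟩
    by_contra hno
    rw [Nat.not_odd_iff_even, even_iff_two_dvd] at hno
    obtain ⟨Q', hQ'⟩ := hno
    have hsq : Squarefree P := by
      rw [hP]
      unfold primorial
      apply Finset.squarefree_prod_of_pairwise_isCoprime
      · intro p hp q hq hpq
        rw [mem_coe, mem_filter] at hp hq
        exact Nat.coprime_iff_isRelPrime.1 ((Nat.coprime_primes hp.2 hq.2).2 hpq)
      · intro p hp
        rw [mem_filter] at hp
        exact hp.2.prime.squarefree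
    have h1 : 2 * 2 ∣ P := ⟨Q', by rw [hQ, hQ']; ring⟩
    have h2 := hsq 2 h1
    rw [Nat.isUnit_iff] at h2
    omega
  obtain ⟨Q, hQ, hQodd⟩ := hPhalf
  have hinj : Set.InjOn (fun z : (_ : ℕ) × Gp (mo v w M) => T z.1 z.2) (R.sigma G : Finset _) := by
    rintro ⟨r, m⟩ hz ⟨r', m'⟩ hz' heq
    rw [mem_coe, mem_sigma] at hz hz'
    obtain ⟨z1, z2⟩ := hz
    obtain ⟨z1', z2'⟩ := hz'
    simp only at z1 z2 z1' z2' heq
    have t1 := hT r m z2
    have t2 := hT r' m' z2'
    rw [← heq] at t2
    have hmm : m = m' := hdouble _ _ (t1.2.2.2.1.symm.trans t2.2.2.2.1)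
    have hrr : 2 * r ≡ 2 * r' [MOD P] := t1.2.2.1.symm.trans t2.2.2.1
    have hr1 : r ≡ r' [MOD Q] := by
      rw [hQ] at hrr
      exact Nat.ModEq.mul_left_cancel' (by norm_num) hrr
    rw [hR, mem_filter, mem_range] at z1 z1'
    have hro : Odd r := by
      have h1 : Nat.Coprime 2 r := z1.2.coprime_dvd_left h2P
      exact (Nat.coprime_two_left).1 h1
    have hro' : Odd r' := by
      have h1 : Nat.Coprime 2 r' := z1'.2.coprime_dvd_left h2P
      exact (Nat.coprime_two_left).1 h1
    have hr2 : r ≡ r' [MOD 2] := by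
      have e1 := Nat.odd_iff.1 hro
      have e2 := Nat.odd_iff.1 hro'
      unfold Nat.ModEq
      rw [e1, e2]
    have hcop : Nat.Coprime 2 Q := Nat.coprime_two_left.2 hQodd
    have hr3 : r ≡ r' [MOD 2 * Q] := (Nat.modEq_and_modEq_iff_modEq_mul hcop).1 ⟨hr2, hr1⟩
    rw [← hQ] at hr3
    have hr4 : r = r' := Nat.ModEq.eq_of_lt_of_lt hr3 z1.1 z1'.1
    subst hr4
    subst hmm
    rfl
  have hle : (R.sigma G).card ≤ ((Icc 1 (2 * X)).filter (fun t => Even t ∧
        c1 / 2 * ((X : ℝ) / P) / Real.log X ^ 2 ≤ (mono χ t : ℝ))).card := by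
    apply card_le_card_of_injOn (fun z : (_ : ℕ) × Gp (mo v w M) => T z.1 z.2)
    · rintro ⟨r, m⟩ hz
      rw [mem_coe, mem_sigma] at hz
      have t1 := hT r m hz.2
      rw [mem_coe, mem_filter]
      exact ⟨t1.1, t1.2.1, t1.2.2.2.2⟩
    · exact hinj
  have hNX : (Fintype.card (Gp (mo v w M)) : ℝ) * P = (X : ℝ) := by
    have h := card_Gp_mul v w M hvw
    exact_mod_cast h
  calc (3 / 8) * den v * (X : ℝ) = ∑ r ∈ R, (3 / 8) * (Fintype.card (Gp (mo v w M)) : ℝ) := by
        rw [sum_const, hRcard, nsmul_eq_mul, ← hNX]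
        unfold den
        rw [← hP]
        have hP0 : (P : ℝ) ≠ 0 := by exact_mod_cast hPpos.ne'
        field_simp
    _ ≤ ∑ r ∈ R, ((G r).card : ℝ) := by
        refine sum_le_sum fun r hr => ?_
        rw [hR, mem_filter] at hr
        exact h r hr.2.symm
    _ = ((R.sigma G).card : ℝ) := by
        rw [card_sigma]
        push_cast
        rfl
    _ ≤ _ := by exact_mod_cast hle

end Pool.Agent.Lib.MP_629a14_nt.Ml
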