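import Pool.Agent.Lib.MP_629a14_nt.Ml.TCore
import Pool.Agent.Lib.MP_629a14_nt.Ml.TCount
import Pool.Agent.Lib.MP_629a14_nt.Sm.PhiBad
import Pool.Agent.Lib.MP_629a14_nt.Rob.M3Third
import Pool.Agent.Lib.MP_629a14_nt.En.WLog

/-! The lower bound for all `N`. -/

set_option autoImplicit false

namespace Pool.Agent.Lib.MP_629a14_nt.Ml

open Finset

/-- `den v = ∏_{p ≤ v} (1 - 1/p) ≥ c / log v` (`mert_three`; finitely many `v` are absorbed in the
constant), with `v = k ^ 600`. -/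
theorem den_lower : ∃ c : ℝ, 0 < c ∧ ∀ k : ℕ, 2 ≤ k → c / Real.log k ≤ den (k ^ 600) := by
  obtain ⟨C, hC, h⟩ := En.wlog
  refine ⟨1 / (600 * C), by positivity, fun k hk => ?_⟩
  have hk1 : (1 : ℝ) < k := by exact_mod_cast (by omega : 1 < k)
  have hlog : 0 < Real.log k := Real.log_pos hk1
  have h2 : 2 ≤ k ^ 600 := hk.trans (Nat.le_self_pow (by norm_num) k)
  have h1 := h (k ^ 600) h2
  have h3 : Real.log ((k ^ 600 : ℕ) : ℝ) = 600 * Real.log k := by
    push_cast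
    rw [Real.log_pow]
    norm_num
  rw [h3] at h1
  have hW : (0 : ℝ) < (primorial (k ^ 600) : ℝ) := by exact_mod_cast primorial_pos _
  have hT : (0 : ℝ) < ((primorial (k ^ 600)).totient : ℝ) := by
    exact_mod_cast Nat.totient_pos.2 (primorial_pos _)
  unfold den
  rw [div_le_iff₀ hT] at h1
  rw [div_div, div_le_div_iff₀ (by positivity) hW]
  linarith

/-- For `N` large choose `M ≡ 1` modulo `primorial w`, with `2 * XX w M ≤ N` and `N / 3 ≤ XX w M`
(the admissible values of `XX` are spaced by `(primorial w) ^ 2`). -/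
theorem exists_M (w N₁ : ℕ) (hw : 2 ≤ w) : ∃ N₀ : ℕ, ∀ N : ℕ, N₀ ≤ N → ∃ M : ℕ, M ≠ 0 ∧
    M.Coprime (primorial w) ∧ N₁ ≤ XX w M ∧ 2 * XX w M ≤ N ∧ (N : ℝ) / 3 ≤ (XX w M : ℝ) := by
  obtain ⟨P, hP⟩ : ∃ P, P = primorial w := ⟨_, rfl⟩
  have hP0 : 0 < P := by rw [hP]; exact primorial_pos w
  refine ⟨6 * P ^ 2 + 3 * N₁ + 6 * P + 6, fun N hN => ?_⟩
  have hP2 : 0 < P ^ 2 := by positivity
  set q := (N / 2 - P) / P ^ 2 with hq
  have h1 : P ^ 2 * q ≤ N / 2 - P := Nat.mul_div_le _ _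
  have h2 : N / 2 - P < P ^ 2 * (q + 1) := Nat.lt_mul_div_succ _ hP2
  have hX : XX w (1 + P * q) = P + P ^ 2 * q := by
    unfold XX
    rw [← hP]
    ring
  have h5 : P ^ 2 * (q + 1) = P ^ 2 * q + P ^ 2 := by ring
  rw [h5] at h2
  have h3 : N ≤ 3 * (P + P ^ 2 * q) := by omega
  refine ⟨1 + P * q, by omega, ?_, ?_, ?_, ?_⟩
  · rw [← hP]
    simp
  · rw [hX]
    omega
  · rw [hX]
    omega
  · rw [hX, div_le_iff₀ (by norm_num)]
    have h4 : (N : ℝ) ≤ 3 * ((P + P ^ 2 * q : ℕ) : ℝ) := by exact_mod_cast h3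
    linarith

private theorem TFin_den_pos (v : ℕ) : 0 < den v := by
  unfold den
  have h1 : (0 : ℝ) < (primorial v : ℝ) := by exact_mod_cast primorial_pos _
  have h2 : (0 : ℝ) < ((primorial v).totient : ℝ) := by
    exact_mod_cast Nat.totient_pos.2 (primorial_pos _)
  positivity

open Classical in
/-- Lower bound. With `t_core`, `t_total` and `exists_M` at least `(1/8) den(v) N` even `t ≤ N` have
`mono χ t ≥ c' N / log N ^ 2`; remove the `t` with `t / φ(t) > K` (`phiBad` with `ε = den(v) / 16`) and the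
`t ≤ √N`; for the others `t ^ 2 / (φ(t) log t ^ 2) ≤ K t / log t ^ 2 ≤ 4 K N / log N ^ 2`. -/
theorem mono_lower (k : ℕ) (hk : 2 ≤ k) : ∃ c : ℝ, 0 < c ∧ ∃ N₀ : ℕ, ∀ N : ℕ, N₀ ≤ N →
    ∀ χ : ℕ → Fin k,
    den (k ^ 600) / 32 * (N : ℝ) ≤ (((Icc 1 N).filter (fun t : ℕ => Even t ∧
      c * ((t : ℝ) ^ 2 / ((t.totient : ℝ) * Real.log t ^ 2)) ≤ (mono χ t : ℝ))).card : ℝ) := by
  obtain ⟨v, hv⟩ : ∃ v, v = k ^ 600 := ⟨_, rfl⟩
  obtain ⟨c1, hc1, w, N₁, hvw, hcore⟩ := t_core k hk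
  rw [← hv] at hvw hcore ⊢
  have hv2 : 2 ≤ v := by rw [hv]; exact hk.trans (Nat.le_self_pow (by norm_num) k)
  have hw2 : 2 ≤ w := hv2.trans hvw
  have hden := TFin_den_pos v
  obtain ⟨K, hK1, hK⟩ := Pool.Agent.Lib.MP_629a14_nt.Sm.phiBad (den v / 16) (by positivity)
  obtain ⟨N₂, hN₂⟩ := exists_M w (max N₁ 2) hw2
  obtain ⟨N₃, hN₃⟩ := exists_nat_gt ((32 / den v) ^ 2)
  have hW : (0 : ℝ) < (primorial v : ℝ) := by exact_mod_cast primorial_pos _
  have hK0 : 0 < K := by linarith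
  refine ⟨c1 / (24 * K * primorial v), by positivity, N₂ + N₃ + 4, fun N hN χ => ?_⟩
  obtain ⟨M, hM0, hM, hX1, hX2, hX3⟩ := hN₂ N (by omega)
  haveI : NeZero M := ⟨hM0⟩
  obtain ⟨X, hX⟩ : ∃ X, X = XX w M := ⟨_, rfl⟩
  have htot := t_total v w M hv2 hvw hM χ c1 hc1 (le_trans (le_max_right _ _) hX1)
    (fun r hr => hcore M hM (le_trans (le_max_left _ _) hX1) r hr χ)
  rw [← hX] at hX1 hX2 hX3 htot
  have hX0 : 2 ≤ X := le_trans (le_max_right _ _) hX1
  set S := (Icc 1 (2 * X)).filter (fun t => Even t ∧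
        c1 / 2 * ((X : ℝ) / primorial v) / Real.log X ^ 2 ≤ (mono χ t : ℝ)) with hS
  set B1 := (Icc 1 N).filter (fun n : ℕ => K < (n : ℝ) / n.totient) with hB1
  set B2 := Icc 1 (Nat.sqrt N) with hB2
  set G := (Icc 1 N).filter (fun t : ℕ => Even t ∧
      c1 / (24 * K * primorial v) * ((t : ℝ) ^ 2 / ((t.totient : ℝ) * Real.log t ^ 2)) ≤
        (mono χ t : ℝ)) with hG
  have hNr : (4 : ℝ) ≤ (N : ℝ) := by exact_mod_cast (by omega : 4 ≤ N)
  have hlogN : 0 < Real.log N := Real.log_pos (by linarith)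
  have hsub : S ⊆ G ∪ (B1 ∪ B2) := by
    intro t ht
    rw [hS, mem_filter, mem_Icc] at ht
    obtain ⟨⟨ht1, ht2⟩, hev, hm⟩ := ht
    rw [mem_union, mem_union]
    by_cases hb1 : t ∈ B1
    · exact Or.inr (Or.inl hb1)
    by_cases hb2 : t ∈ B2
    · exact Or.inr (Or.inr hb2)
    left
    rw [hG, mem_filter, mem_Icc]
    refine ⟨⟨ht1, by omega⟩, hev, le_trans ?_ hm⟩
    have htN : t ≤ N := by omega
    have hb1' : (t : ℝ) / t.totient ≤ K := by
      by_contra hcon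
      exact hb1 (mem_filter.2 ⟨mem_Icc.2 ⟨ht1, htN⟩, not_le.1 hcon⟩)
    have hb2' : Nat.sqrt N < t := by
      by_contra hcon
      exact hb2 (mem_Icc.2 ⟨ht1, not_lt.1 hcon⟩)
    have ht0 : (0 : ℝ) < t := by exact_mod_cast ht1
    have hphi : (0 : ℝ) < (t.totient : ℝ) := by exact_mod_cast Nat.totient_pos.2 ht1
    have htNr : (t : ℝ) ≤ N := by exact_mod_cast htN
    have hsq : (N : ℝ) ≤ (t : ℝ) ^ 2 := by
      have h1 : N < t ^ 2 := by
        rw [pow_two]
        exact Nat.sqrt_lt.1 hb2'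
      exact_mod_cast h1.le
    have hlogt : Real.log N ≤ 2 * Real.log t := by
      have h1 := Real.log_le_log (by linarith) hsq
      rw [Real.log_pow] at h1
      exact_mod_cast h1
    have hlt0 : 0 < Real.log t := by linarith
    have h2 : (t : ℝ) ^ 2 / ((t.totient : ℝ) * Real.log t ^ 2) ≤ 4 * K * N / Real.log N ^ 2 := by
      have e : (t : ℝ) ^ 2 / ((t.totient : ℝ) * Real.log t ^ 2) =
          ((t : ℝ) / t.totient) * (t / Real.log t ^ 2) := by
        field_simp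
      rw [e]
      have h3 : (t : ℝ) / Real.log t ^ 2 ≤ 4 * N / Real.log N ^ 2 := by
        rw [div_le_div_iff₀ (by positivity) (by positivity)]
        have h4 : Real.log N ^ 2 ≤ 4 * Real.log t ^ 2 := by nlinarith
        calc (t : ℝ) * Real.log N ^ 2 ≤ N * (4 * Real.log t ^ 2) :=
              mul_le_mul htNr h4 (by positivity) (by positivity)
          _ = _ := by ring
      calc ((t : ℝ) / t.totient) * (t / Real.log t ^ 2) ≤ K * (4 * N / Real.log N ^ 2) :=
            mul_le_mul hb1' h3 (by positivity) hK0.le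
        _ = _ := by ring
    have hXr : (2 : ℝ) ≤ X := by exact_mod_cast hX0
    have hXN : (X : ℝ) ≤ N := by exact_mod_cast (by omega : X ≤ N)
    have hlX : 0 < Real.log X := Real.log_pos (by linarith)
    have hlXN : Real.log X ≤ Real.log N := Real.log_le_log (by linarith) hXN
    calc c1 / (24 * K * primorial v) * ((t : ℝ) ^ 2 / ((t.totient : ℝ) * Real.log t ^ 2))
        ≤ c1 / (24 * K * primorial v) * (4 * K * N / Real.log N ^ 2) :=
          mul_le_mul_of_nonneg_left h2 (by positivity)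
      _ = c1 / 2 * ((N : ℝ) / 3 / primorial v) / Real.log N ^ 2 := by
          field_simp
          ring
      _ ≤ c1 / 2 * ((X : ℝ) / primorial v) / Real.log N ^ 2 := by
          refine div_le_div_of_nonneg_right ?_ (by positivity)
          refine mul_le_mul_of_nonneg_left ?_ (by positivity)
          exact div_le_div_of_nonneg_right hX3 hW.le
      _ ≤ c1 / 2 * ((X : ℝ) / primorial v) / Real.log X ^ 2 := by
          refine div_le_div_of_nonneg_left (by positivity) (by positivity) ?_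
          exact pow_le_pow_left₀ hlX.le hlXN 2
  have hcard : (S.card : ℝ) ≤ G.card + (B1.card + B2.card) := by
    have h1 := card_le_card hsub
    have h2 := card_union_le G (B1 ∪ B2)
    have h3 := card_union_le B1 B2
    exact_mod_cast (by omega : S.card ≤ G.card + (B1.card + B2.card))
  have hB1c : (B1.card : ℝ) ≤ den v / 16 * N := hK N
  have hB2c : (B2.card : ℝ) ≤ den v / 32 * N := by
    rw [hB2, Nat.card_Icc, Nat.add_sub_cancel]
    have h1 : ((Nat.sqrt N : ℕ) : ℝ) ^ 2 ≤ N := by exact_mod_cast Nat.sqrt_le' N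
    have h2 : (32 / den v) ^ 2 ≤ (N : ℝ) := by
      refine hN₃.le.trans ?_
      exact_mod_cast (by omega : N₃ ≤ N)
    have h3 : ((Nat.sqrt N : ℕ) : ℝ) * (32 / den v) ≤ N := by
      have h4 : (0 : ℝ) ≤ (Nat.sqrt N : ℕ) := Nat.cast_nonneg _
      have h5 : 0 ≤ 32 / den v := by positivity
      nlinarith [sq_nonneg (((Nat.sqrt N : ℕ) : ℝ) - 32 / den v)]
    rw [mul_div_assoc'] at h3
    rw [div_le_iff₀ hden] at h3
    linarith
  have hSc : den v / 8 * N ≤ (S.card : ℝ) := by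
    refine le_trans ?_ htot
    have h1 : den v * ((N : ℝ) / 3) ≤ den v * X := mul_le_mul_of_nonneg_left hX3 hden.le
    linarith
  linarith

end Pool.Agent.Lib.MP_629a14_nt.Ml
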