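import Pool.Agent.Lib.MP_629a14_nt.Ml.TFreq
import Pool.Agent.Lib.MP_629a14_nt.Rob.GHat

/-! Restriction estimate for the colour classes. -/

set_option autoImplicit false

namespace Pool.Agent.Lib.MP_629a14_nt.Ml

open Finset Pool.Agent.Lib.MP_629a14_nt Pool.Agent.Lib.MP_629a14_nt.Rob
open Pool.Agent.Lib.MP_60b32f_nt (hq)

private theorem TRes_core {ι : Type*} [DecidableEq ι] {N Q : ℕ} (hN : 3 ≤ N)
    (hQ : Q = ⌊(N : ℝ) ^ (1 / 4 : ℝ)⌋₊) (A : Finset ℕ)
    (hA : ∀ p ∈ A, p.Prime ∧ Q < p) (hA2 : A ⊆ Icc 1 N)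
    (hAc : (A.card : ℝ) ≤ 2 * (N / Real.log N))
    (R : Finset ι) (x : ι → ℝ)
    (hsep : ∀ r ∈ R, ∀ s ∈ R, r ≠ s → ∀ n : ℤ, 1 / (N : ℝ) ≤ |x r - x s - n|) :
    ∑ b ∈ R, (‖∑ n ∈ A, ee (n * x b)‖ * (Real.log N / N)) ^ 2 ≤
      (72 : ℝ) ^ 2 * (R.card : ℝ) ^ (1 / 3 : ℝ) := by
  rcases R.eq_empty_or_nonempty with h0 | hne
  · rw [h0]
    simp
  have hNr : (3 : ℝ) ≤ N := by exact_mod_cast hN
  have hN0 : (0 : ℝ) < N := by linarith
  have hL : 0 < Real.log N := Real.log_pos (by linarith)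
  set y : ℝ := (N : ℝ) ^ (1 / 4 : ℝ) with hy
  have hy0 : 0 ≤ y := Real.rpow_nonneg hN0.le _
  have hy1 : 1 ≤ y := Real.one_le_rpow (by linarith) (by norm_num)
  have hy4 : y ^ 4 = N := by
    rw [hy, ← Real.rpow_natCast, ← Real.rpow_mul hN0.le]
    norm_num
  have hQ1 : 0 < Q := by
    rw [hQ, Nat.floor_pos]
    exact hy1
  have hQy : (Q : ℝ) ≤ y := by rw [hQ]; exact Nat.floor_le hy0
  have hyQ : y < Q + 1 := by rw [hQ]; exact Nat.lt_floor_add_one y
  have hQ4 : (Q : ℝ) ^ 4 ≤ N := by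
    rw [← hy4]
    exact pow_le_pow_left₀ (by positivity) hQy 4
  set M : ℕ := 2 * N with hM
  have hMr : (M : ℝ) = 2 * N := by rw [hM]; push_cast; ring
  have hM0 : (0 : ℝ) < M := by rw [hMr]; positivity
  set P : ℕ := 2 * R.card with hP
  have hRc : 1 ≤ R.card := card_pos.2 hne
  have hP1 : 1 ≤ P := by omega
  have hres := restriction R x (δ := 1 / (M : ℝ)) (by positivity) (by
    intro r hr s hs hrs n
    refine le_trans ?_ (hsep r hr s hs hrs n)
    rw [hMr]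
    exact one_div_le_one_div_of_le hN0 (by linarith)) (N := N) (W := M) (P := P) (Q := Q) hQ1 (by
    rw [mul_one_div, div_le_one hM0, hMr]
    linarith) (by omega) (by rw [one_div_one_div]) (by omega) A hA2 hA
  have hhq := hq_primorial P Q hP1
  have hQlog : (1 / 4) * Real.log N ≤ Real.log (Q + 1) := by
    have h1 : Real.log y = (1 / 4) * Real.log N := by rw [hy, Real.log_rpow hN0]
    rw [← h1]
    exact Real.log_le_log (by linarith) hyQ.le
  set Z : ℝ := ∑ r ∈ R, ‖∑ n ∈ A, ee (n * x r)‖ ^ 2 with hZ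
  have hZ0 : 0 ≤ Z := sum_nonneg fun _ _ => by positivity
  set c : ℝ := (R.card : ℝ) ^ (1 / 3 : ℝ) with hc
  have hc0 : 0 ≤ c := Real.rpow_nonneg (by positivity) _
  have hPc : (P : ℝ) ^ (1 / 3 : ℝ) ≤ 2 * c := by
    rw [hP]
    push_cast
    rw [Real.mul_rpow (by norm_num) (by positivity)]
    refine mul_le_mul_of_nonneg_right ?_ hc0
    calc (2 : ℝ) ^ (1 / 3 : ℝ) ≤ (2 : ℝ) ^ (1 : ℝ) :=
          Real.rpow_le_rpow_of_exponent_le (by norm_num) (by norm_num)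
      _ = 2 := Real.rpow_one 2
  have hH0 : 0 ≤ hq (primorial P) Q := by unfold hq; positivity
  have h1 : Z * ((1 / 4) * Real.log N) ≤ 640 * c * N * A.card := by
    have hPn : 0 ≤ (P : ℝ) ^ (1 / 3 : ℝ) := Real.rpow_nonneg (by positivity) _
    calc Z * ((1 / 4) * Real.log N) ≤ Z * (16 * (P : ℝ) ^ (1 / 3 : ℝ) * hq (primorial P) Q) := by
          refine mul_le_mul_of_nonneg_left (hQlog.trans hhq) hZ0
      _ = 16 * (P : ℝ) ^ (1 / 3 : ℝ) * (Z * hq (primorial P) Q) := by ring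
      _ ≤ 16 * (2 * c) * (10 * M * A.card) := by gcongr
      _ = 640 * c * N * A.card := by rw [hMr]; ring
  have h2 : ∑ b ∈ R, (‖∑ n ∈ A, ee (n * x b)‖ * (Real.log N / N)) ^ 2 =
      Z * (Real.log N / N) ^ 2 := by
    rw [hZ, sum_mul]
    refine sum_congr rfl fun h _ => ?_
    rw [mul_pow]
  rw [h2]
  have h3 : Z * (Real.log N / N) ^ 2 = (Z * ((1 / 4) * Real.log N)) * (4 * Real.log N / N ^ 2) := by
    field_simp
  rw [h3]
  calc (Z * ((1 / 4) * Real.log N)) * (4 * Real.log N / N ^ 2)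
      ≤ (640 * c * N * (2 * (N / Real.log N))) * (4 * Real.log N / N ^ 2) := by
        refine mul_le_mul_of_nonneg_right (h1.trans ?_) (by positivity)
        gcongr
    _ = 5120 * c := by
        field_simp
        ring
    _ ≤ (72 : ℝ) ^ 2 * c := by
        refine mul_le_mul_of_nonneg_right (by norm_num) hc0

/-- As `TT_hyp` in `Decomp.lean` (copy its proof): `restriction` with the index type
`Gp (mo v w M)`, `x = theta`, `δ = 1 / (2 X)`, `N = X`, `W = 2 X`, `Q = ⌊X ^ (1/4)⌋₊`, `P = 2 card R`, and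
`hq_primorial`, `card_primes_le`; `X = XX w M`. -/
theorem t_res : ∃ (C : ℝ) (N₀ : ℕ), 1 ≤ C ∧ ∀ (v w M : ℕ) [NeZero M], v ≤ w →
    M.Coprime (primorial w) → N₀ ≤ XX w M → ∀ A : Finset ℕ, A ⊆ Icc 1 (XX w M) →
    (∀ p ∈ A, p.Prime ∧ ⌊(XX w M : ℝ) ^ (1 / 4 : ℝ)⌋₊ < p) → ∀ R : Finset (Gp (mo v w M)),
    ∑ b ∈ R, (‖∑ x ∈ A, ee (x * theta v w M b)‖ * (Real.log (XX w M) / (XX w M))) ^ 2 ≤
      C ^ 2 * (R.card : ℝ) ^ (1 / 3 : ℝ) := by
  classical
  obtain ⟨N₀, hN₀⟩ := card_primes_le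
  refine ⟨72, max N₀ 3, by norm_num, ?_⟩
  intro v w M hMz hvw hM hX A hA hAp R
  have hX3 : 3 ≤ XX w M := le_of_max_le_right hX
  have hcard := hN₀ (XX w M) (le_of_max_le_left hX)
  refine TRes_core hX3 rfl A hAp hA ?_ R (theta v w M) ?_
  · refine le_trans ?_ hcard
    have hsub : A ⊆ (Icc 1 (XX w M)).filter Nat.Prime := by
      intro p hp
      rw [mem_filter]
      exact ⟨hA hp, (hAp p hp).1⟩
    exact_mod_cast card_le_card hsub
  · intro r _ s _ hrs n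
    exact theta_sep v w M hvw hM r s hrs n

/-- `ft (push uc) b = (card)⁻¹ den(v) log X ∑_{x ∈ A} ee (x theta b)` with
`A = {x ∈ fib : prime, > X^(1/4), χ x = i}`, `card = X / primorial v`, so that
`‖ft‖ = φ(primorial v) * (log X / X) * ‖∑‖`. -/
theorem t_hyp : ∃ (C : ℝ) (N₀ : ℕ), 1 ≤ C ∧ ∀ (v w M r : ℕ) [NeZero M], v ≤ w →
    M.Coprime (primorial w) → N₀ ≤ XX w M → ∀ (k : ℕ) (χ : ℕ → Fin k) (i : Fin k)
    (R : Finset (Gp (mo v w M))),
    ∑ b ∈ R, ‖ft (push v w M r (uc v (XX w M) χ i)) b‖ ^ 2 ≤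
      (C * (primorial v).totient) ^ 2 * (R.card : ℝ) ^ (1 / 3 : ℝ) := by
  classical
  obtain ⟨C, N₀, hC, hmain⟩ := t_res
  refine ⟨C, max N₀ 3, hC, ?_⟩
  intro v w M r hMz hvw hM hX k χ i R
  have hX3 : 3 ≤ XX w M := le_of_max_le_right hX
  have hXr : (3 : ℝ) ≤ XX w M := by exact_mod_cast hX3
  have hX0 : (0 : ℝ) < XX w M := by linarith
  have hL : 0 ≤ Real.log (XX w M) := Real.log_natCast_nonneg _
  set A : Finset ℕ := (fib v w M r).filter
    (fun x => x.Prime ∧ ⌊(XX w M : ℝ) ^ (1 / 4 : ℝ)⌋₊ < x ∧ χ x = i) with hAdef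
  have hA1 : A ⊆ Icc 1 (XX w M) := by
    intro x hx
    rw [hAdef, mem_filter] at hx
    have := hx.1
    unfold fib at this
    rw [mem_filter] at this
    exact this.1
  have hA2 : ∀ p ∈ A, p.Prime ∧ ⌊(XX w M : ℝ) ^ (1 / 4 : ℝ)⌋₊ < p := by
    intro x hx
    rw [hAdef, mem_filter] at hx
    exact ⟨hx.2.1, hx.2.2.1⟩
  have h1 := hmain v w M hvw hM (le_of_max_le_left hX) A hA1 hA2 R
  have hP0 : (0 : ℝ) < primorial v := by exact_mod_cast primorial_pos v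
  have hcm := card_Gp_mul v w M hvw
  have hcmr : (Fintype.card (Gp (mo v w M)) : ℝ) * primorial v = XX w M := by exact_mod_cast hcm
  have hc0 : (0 : ℝ) < Fintype.card (Gp (mo v w M)) := by
    by_contra hcon
    push Not at hcon
    have : (Fintype.card (Gp (mo v w M)) : ℝ) * primorial v ≤ 0 := mul_nonpos_of_nonpos_of_nonneg hcon hP0.le
    linarith
  have key : ∀ b, ‖ft (push v w M r (uc v (XX w M) χ i)) b‖ =
      (primorial v).totient * (‖∑ x ∈ A, ee (x * theta v w M b)‖ *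
        (Real.log (XX w M) / (XX w M))) := by
    intro b
    rw [ft_push]
    have h2 : ∑ x ∈ fib v w M r, ((uc v (XX w M) χ i x : ℝ) : ℂ) * ee (x * theta v w M b) =
        ((den v * Real.log (XX w M) : ℝ) : ℂ) * ∑ x ∈ A, ee (x * theta v w M b) := by
      rw [hAdef, sum_filter, mul_sum]
      refine sum_congr rfl fun x _ => ?_
      unfold uc
      split_ifs with h3
      · rfl
      · simp
    rw [h2, norm_div, norm_mul, Complex.norm_real, Real.norm_eq_abs, Complex.norm_natCast]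
    have hd0 : 0 ≤ den v := by unfold den; positivity
    rw [abs_of_nonneg (mul_nonneg hd0 hL)]
    unfold den
    generalize ‖∑ x ∈ A, ee (x * theta v w M b)‖ = S
    generalize Real.log (XX w M) = L
    rw [← hcmr]
    field_simp
  calc ∑ b ∈ R, ‖ft (push v w M r (uc v (XX w M) χ i)) b‖ ^ 2
      = ((primorial v).totient : ℝ) ^ 2 * ∑ b ∈ R, (‖∑ x ∈ A, ee (x * theta v w M b)‖ *
        (Real.log (XX w M) / (XX w M))) ^ 2 := by
        rw [mul_sum]
        refine sum_congr rfl fun b _ => ?_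
        rw [key b, mul_pow]
    _ ≤ ((primorial v).totient : ℝ) ^ 2 * (C ^ 2 * (R.card : ℝ) ^ (1 / 3 : ℝ)) :=
        mul_le_mul_of_nonneg_left h1 (by positivity)
    _ = (C * (primorial v).totient) ^ 2 * (R.card : ℝ) ^ (1 / 3 : ℝ) := by ring

end Pool.Agent.Lib.MP_629a14_nt.Ml
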