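import Pool.Agent.Lib.MP_629a14_nt.Ml.KShift
import Pool.Agent.Lib.MP_629a14_nt.Ml.NuOne

/-! Averages of vector valued functions under small shifts. -/

set_option autoImplicit false

namespace Pool.Agent.Lib.MP_629a14_nt.Ml

open Finset

variable {ι : Type} [Fintype ι] [DecidableEq ι] {n : ι → ℕ} [∀ i, NeZero (n i)]

private theorem avSh_reindex (κ f : Gp n → ℝ) (z h : Gp n) :
    av κ f (z + h) - av κ f z = ∑ s, (κ (s + -h) - κ s) * f (z + s) := by
  have h1 : ∑ s, κ s * f (z + h + s) = ∑ s, κ (s + -h) * f (z + s) := by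
    refine Fintype.sum_equiv (Equiv.addRight h) _ _ (fun s => ?_)
    rw [Equiv.coe_addRight, add_neg_cancel_right, add_assoc, add_comm h s]
  unfold av
  rw [h1, ← sum_sub_distrib]
  exact sum_congr rfl fun s _ => by ring

private theorem avSh_reindex_two (hodd : ∀ i, Odd (n i)) (κ f : Gp n → ℝ) (z h : Gp n) :
    av2 κ f (z + h) - av2 κ f z = ∑ s, (κ (s + -(half * h)) - κ s) * f (z + (s + s)) := by
  have h1 : ∑ s, κ s * f (z + h + (s + s)) = ∑ s, κ (s + -(half * h)) * f (z + (s + s)) := by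
    refine Fintype.sum_equiv (Equiv.addRight (half * h)) _ _ (fun s => ?_)
    have h2 : z + h + (s + s) = z + ((s + half * h) + (s + half * h)) := by
      nth_rewrite 1 [← half_add_half hodd h]
      abel
    rw [Equiv.coe_addRight, add_neg_cancel_right, h2]
  unfold av2
  rw [h1, ← sum_sub_distrib]
  exact sum_congr rfl fun s _ => by ring

omit [Fintype ι] [∀ i, NeZero (n i)] in
private theorem avSh_cw_nonneg (sv : Finset ι) (i : ι) : 0 ≤ cw n sv i := by
  unfold cw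
  split_ifs
  · positivity
  · exact le_rfl

/-- Weighted sum bound for several functions. -/
private theorem avSh_sum_le {k : ℕ} {α : Type} [Fintype α] (w : α → ℝ) (F : Fin k → α → ℝ)
    (B : α → ℝ) (hF : ∀ i x, 0 ≤ F i x) (hF1 : ∀ x, ∑ i, F i x ≤ B x) :
    ∑ i, |∑ s, w s * F i s| ≤ ∑ s, |w s| * B s := by
  calc ∑ i, |∑ s, w s * F i s| ≤ ∑ i, ∑ s, |w s| * F i s := by
        refine sum_le_sum fun i _ => ?_
        refine (abs_sum_le_sum_abs _ _).trans (le_of_eq ?_)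
        exact sum_congr rfl fun s _ => by rw [abs_mul, abs_of_nonneg (hF i s)]
    _ = ∑ s, |w s| * ∑ i, F i s := by
        rw [sum_comm]
        exact sum_congr rfl fun s _ => by rw [mul_sum]
    _ ≤ ∑ s, |w s| * B s :=
        sum_le_sum fun s _ => mul_le_mul_of_nonneg_left (hF1 s) (abs_nonneg _)

/-- `av κ f (z + h) = ∑ s, κ(s - h) f(z + s)`, so the inner sum is at most
`∑ s, |κ(s - h) - κ(s)| (nuS (z + s) + 1)`; use `shift_av` with the shifts `- h t` (`QQ_neg`) and the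
functions `nuS (z + s)` (`nu_pf`, `nu_EH`) and `1` (`pf_one`, `EH_const`). -/
theorem av_shift (sv : Finset ι) (hsv : ∀ i ∈ sv, (n i).Prime ∧ 8 ≤ n i) {E : Finset ι}
    (hE : E ⊆ sv) {J : ℕ} {a : Fin J → Gp n} {lam rho : ℝ} (hG : GoodK (cw n sv) a lam E rho)
    (hlam : 0 ≤ lam) (hr0 : 0 ≤ rho) (hr1 : rho ≤ 1) {k : ℕ} (F : Fin k → Gp n → ℝ)
    (D : Gp n → ℝ) (hF : ∀ i x, 0 ≤ F i x) (hF1 : ∀ x, ∑ i, F i x ≤ nuS sv x)
    (hD : ∀ x, 0 ≤ D x ∧ D x ≤ 1) (z : Gp n) (hz : ∀ i ∈ E, z i ≠ 0)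
    {τ : Type} [Fintype τ] (p : τ → ℝ) (hp : ∀ t, 0 ≤ p t)
    (hp1 : ∑ t, p t = 1) (h : τ → Gp n) (hh : ∀ t, p t ≠ 0 → h t ∈ (HS E : Finset (Gp n)))
    (q : ℝ) (hq : ∑ t, p t * (lam * QQ a (h t)) ≤ q) :
    ∑ t, p t * ((∑ i, |av (ka a lam E) (F i) (z + h t) - av (ka a lam E) (F i) z|) +
      |av (ka a lam E) D (z + h t) - av (ka a lam E) D z|) ≤
      3 * Real.sqrt (q + 4 * rho) * (mE n E + 1) := by
  have hh' : ∀ t, p t ≠ 0 → -(h t) ∈ (HS E : Finset (Gp n)) := fun t ht => neg_mem_HS (hh t ht)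
  have hq' : ∑ t, p t * (lam * QQ a (-(h t))) ≤ q := by
    simpa only [QQ_neg] using hq
  have s1 := shift_av hG hlam hr0 hr1 (nu_pf sv hsv z E) p hp hp1 (fun t => -(h t)) hh' q hq'
  have s2 := shift_av hG hlam hr0 hr1 (pf_one (n := n) (cw n sv) (avSh_cw_nonneg sv) E) p hp hp1
    (fun t => -(h t)) hh' q hq'
  rw [nu_EH sv hsv hE z hz] at s1
  rw [EH_const] at s2
  have key : ∀ t, (∑ i, |av (ka a lam E) (F i) (z + h t) - av (ka a lam E) (F i) z|) +
      |av (ka a lam E) D (z + h t) - av (ka a lam E) D z| ≤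
      (∑ s, |ka a lam E (s + -(h t)) - ka a lam E s| * nuS sv (z + s)) +
      ∑ s, |ka a lam E (s + -(h t)) - ka a lam E s| * 1 := by
    intro t
    refine add_le_add ?_ ?_
    · have := avSh_sum_le (fun s => ka a lam E (s + -(h t)) - ka a lam E s)
        (fun i s => F i (z + s)) (fun s => nuS sv (z + s)) (fun i s => hF i _) (fun s => hF1 _)
      refine le_trans (le_of_eq ?_) this
      exact sum_congr rfl fun i _ => by rw [avSh_reindex]
    · rw [avSh_reindex]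
      refine (abs_sum_le_sum_abs _ _).trans ?_
      refine sum_le_sum fun s _ => ?_
      rw [abs_mul, abs_of_nonneg (hD _).1]
      exact mul_le_mul_of_nonneg_left (hD _).2 (abs_nonneg _)
  calc _ ≤ ∑ t, p t * ((∑ s, |ka a lam E (s + -(h t)) - ka a lam E s| * nuS sv (z + s)) +
      ∑ s, |ka a lam E (s + -(h t)) - ka a lam E s| * 1) :=
        sum_le_sum fun t _ => mul_le_mul_of_nonneg_left (key t) (hp t)
    _ = (∑ t, p t * ∑ s, |ka a lam E (s + -(h t)) - ka a lam E s| * nuS sv (z + s)) +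
      ∑ t, p t * ∑ s, |ka a lam E (s + -(h t)) - ka a lam E s| * 1 := by
        rw [← sum_add_distrib]
        exact sum_congr rfl fun t _ => by rw [mul_add]
    _ ≤ 3 * Real.sqrt (q + 4 * rho) * mE n E + 3 * Real.sqrt (q + 4 * rho) * 1 :=
        add_le_add s1 s2
    _ = _ := by ring

/-- `av2 κ f (z + h) = ∑ u, κ(u - half h) f(z + (u + u))` (odd moduli, `half_add_half`); use
`shift_av` with the shifts `- half * h t` and `nu_pf_two`, `nu_EH_two`. -/
theorem av2_shift (hodd : ∀ i, Odd (n i)) (sv : Finset ι)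
    (hsv : ∀ i ∈ sv, (n i).Prime ∧ 8 ≤ n i) {E : Finset ι}
    (hE : E ⊆ sv) {J : ℕ} {a : Fin J → Gp n} {lam rho : ℝ} (hG : GoodK (cw n sv) a lam E rho)
    (hlam : 0 ≤ lam) (hr0 : 0 ≤ rho) (hr1 : rho ≤ 1) {k : ℕ} (F : Fin k → Gp n → ℝ)
    (hF : ∀ i x, 0 ≤ F i x) (hF1 : ∀ x, ∑ i, F i x ≤ nuS sv x)
    (z : Gp n) (hz : ∀ i ∈ E, z i ≠ 0)
    {τ : Type} [Fintype τ] (p : τ → ℝ) (hp : ∀ t, 0 ≤ p t)
    (hp1 : ∑ t, p t = 1) (h : τ → Gp n) (hh : ∀ t, p t ≠ 0 → h t ∈ (HS E : Finset (Gp n)))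
    (q : ℝ) (hq : ∑ t, p t * (lam * QQ a (half * h t)) ≤ q) :
    ∑ t, p t * ∑ i, |av2 (ka a lam E) (F i) (z + h t) - av2 (ka a lam E) (F i) z| ≤
      3 * Real.sqrt (q + 4 * rho) * mE n E := by
  have hh' : ∀ t, p t ≠ 0 → -(half * h t) ∈ (HS E : Finset (Gp n)) :=
    fun t ht => neg_mem_HS (mul_mem_HS half (hh t ht))
  have hq' : ∑ t, p t * (lam * QQ a (-(half * h t))) ≤ q := by
    simpa only [QQ_neg] using hq
  have s1 := shift_av hG hlam hr0 hr1 (nu_pf_two sv hsv z E) p hp hp1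
    (fun t => -(half * h t)) hh' q hq'
  rw [nu_EH_two sv hsv hE z hz] at s1
  refine le_trans (sum_le_sum fun t _ => mul_le_mul_of_nonneg_left ?_ (hp t)) s1
  have := avSh_sum_le (fun s => ka a lam E (s + -(half * h t)) - ka a lam E s)
    (fun i s => F i (z + (s + s))) (fun s => nuS sv (z + (s + s))) (fun i s => hF i _)
    (fun s => hF1 _)
  refine le_trans (le_of_eq ?_) this
  exact sum_congr rfl fun i _ => by rw [avSh_reindex_two hodd]

/-- For bounded functions: `∑ x, κ(x) G(z + x + h) - ∑ x, κ(x) G(z + x)`. -/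
theorem bdd_shift (sv : Finset ι) {E : Finset ι}
    {J : ℕ} {a : Fin J → Gp n} {lam rho : ℝ} (hG : GoodK (cw n sv) a lam E rho)
    (hlam : 0 ≤ lam) (hr0 : 0 ≤ rho) (hr1 : rho ≤ 1) (G : Gp n → ℝ) (M : ℝ)
    (hM : ∀ x, |G x| ≤ M) (z : Gp n)
    {τ : Type} [Fintype τ] (p : τ → ℝ) (hp : ∀ t, 0 ≤ p t)
    (hp1 : ∑ t, p t = 1) (h : τ → Gp n) (hh : ∀ t, p t ≠ 0 → h t ∈ (HS E : Finset (Gp n)))
    (q : ℝ) (hq : ∑ t, p t * (lam * QQ a (h t)) ≤ q) :
    |(∑ t, p t * av (ka a lam E) G (z + h t)) - av (ka a lam E) G z| ≤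
      M * (3 * Real.sqrt (q + 4 * rho)) := by
  have hM0 : 0 ≤ M := (abs_nonneg _).trans (hM 0)
  have hh' : ∀ t, p t ≠ 0 → -(h t) ∈ (HS E : Finset (Gp n)) := fun t ht => neg_mem_HS (hh t ht)
  have hq' : ∑ t, p t * (lam * QQ a (-(h t))) ≤ q := by
    simpa only [QQ_neg] using hq
  have s2 := shift_av hG hlam hr0 hr1 (pf_one (n := n) (cw n sv) (avSh_cw_nonneg sv) E) p hp hp1
    (fun t => -(h t)) hh' q hq'
  rw [EH_const] at s2
  have e1 : (∑ t, p t * av (ka a lam E) G (z + h t)) - av (ka a lam E) G z =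
      ∑ t, p t * (av (ka a lam E) G (z + h t) - av (ka a lam E) G z) := by
    simp only [mul_sub, sum_sub_distrib]
    rw [← sum_mul, hp1, one_mul]
  rw [e1]
  calc |∑ t, p t * (av (ka a lam E) G (z + h t) - av (ka a lam E) G z)|
      ≤ ∑ t, p t * |av (ka a lam E) G (z + h t) - av (ka a lam E) G z| := by
        refine (abs_sum_le_sum_abs _ _).trans (le_of_eq ?_)
        exact sum_congr rfl fun t _ => by rw [abs_mul, abs_of_nonneg (hp t)]
    _ ≤ ∑ t, p t * (M * ∑ s, |ka a lam E (s + -(h t)) - ka a lam E s| * 1) := by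
        refine sum_le_sum fun t _ => mul_le_mul_of_nonneg_left ?_ (hp t)
        rw [avSh_reindex, mul_sum]
        refine (abs_sum_le_sum_abs _ _).trans ?_
        refine sum_le_sum fun s _ => ?_
        rw [abs_mul, mul_one, mul_comm M]
        exact mul_le_mul_of_nonneg_left (hM _) (abs_nonneg _)
    _ = M * ∑ t, p t * ∑ s, |ka a lam E (s + -(h t)) - ka a lam E s| * 1 := by
        rw [mul_sum]
        exact sum_congr rfl fun t _ => by ring
    _ ≤ M * (3 * Real.sqrt (q + 4 * rho) * 1) := mul_le_mul_of_nonneg_left s2 hM0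
    _ = _ := by ring

end Pool.Agent.Lib.MP_629a14_nt.Ml
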