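import Pool.Agent.Lib.MP_629a14_nt.Ml.Defs

/-! Weighted Cauchy-Schwarz inequality for the midpoint configuration. -/

set_option autoImplicit false

namespace Pool.Agent.Lib.MP_629a14_nt.Ml

open Finset

/-- `(∑ F A)^2 ≤ n^2 ∑ A^2` if `F ≥ 0` and `∑ F ≤ n`. -/
private theorem gcs_in {k : ℕ} (F A : Fin k → ℝ) (n : ℝ) (hF : ∀ i, 0 ≤ F i)
    (h : ∑ i, F i ≤ n) : (∑ i, F i * A i) ^ 2 ≤ n ^ 2 * ∑ i, A i ^ 2 := by
  refine (sum_mul_sq_le_sq_mul_sq univ F A).trans ?_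
  refine mul_le_mul_of_nonneg_right ?_ (sum_nonneg fun i _ => sq_nonneg _)
  have h0 : 0 ≤ ∑ i, F i := sum_nonneg fun i _ => hF i
  calc ∑ i, F i ^ 2 ≤ (∑ i, F i) ^ 2 := sum_sq_le_sq_sum_of_nonneg fun i _ => hF i
    _ ≤ n ^ 2 := pow_le_pow_left₀ h0 h 2

/-- `0 ≤ ∑ F G ≤ n m`. -/
private theorem gcs_pr {k : ℕ} (F G : Fin k → ℝ) (n m : ℝ) (hF : ∀ i, 0 ≤ F i)
    (hG : ∀ i, 0 ≤ G i) (h : ∑ i, F i ≤ n) (h' : ∑ i, G i ≤ m) :
    0 ≤ ∑ i, F i * G i ∧ ∑ i, F i * G i ≤ n * m := by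
  refine ⟨sum_nonneg fun i _ => mul_nonneg (hF i) (hG i), ?_⟩
  have h0 : 0 ≤ ∑ i, F i := sum_nonneg fun i _ => hF i
  have h0' : 0 ≤ ∑ i, G i := sum_nonneg fun i _ => hG i
  calc ∑ i, F i * G i ≤ ∑ i, F i * ∑ j, G j := by
        refine sum_le_sum fun i _ => mul_le_mul_of_nonneg_left ?_ (hF i)
        exact single_le_sum (fun j _ => hG j) (mem_univ i)
    _ = (∑ i, F i) * ∑ j, G j := by rw [sum_mul]
    _ ≤ n * m := mul_le_mul h h' h0' (h0.trans h)

/-- Cauchy-Schwarz for double sums. -/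
private theorem gcs_two {S U : Type} [Fintype S] [Fintype U] (x f g : S → U → ℝ)
    (hf : ∀ s u, 0 ≤ f s u) (hg : ∀ s u, 0 ≤ g s u) (h : ∀ s u, x s u ^ 2 ≤ f s u * g s u) :
    (∑ s, ∑ u, x s u) ^ 2 ≤ (∑ s, ∑ u, f s u) * ∑ s, ∑ u, g s u := by
  rw [← Fintype.sum_prod_type', ← Fintype.sum_prod_type', ← Fintype.sum_prod_type']
  exact sum_sq_le_sum_mul_sum_of_sq_le_mul univ (fun a _ => hf a.1 a.2) (fun a _ => hg a.1 a.2)
    (fun a _ => h a.1 a.2)

/-- Cauchy-Schwarz for triple sums. -/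
private theorem gcs_three {S U V : Type} [Fintype S] [Fintype U] [Fintype V]
    (x f g : S → U → V → ℝ)
    (hf : ∀ s u v, 0 ≤ f s u v) (hg : ∀ s u v, 0 ≤ g s u v)
    (h : ∀ s u v, x s u v ^ 2 ≤ f s u v * g s u v) :
    (∑ s, ∑ u, ∑ v, x s u v) ^ 2 ≤ (∑ s, ∑ u, ∑ v, f s u v) * ∑ s, ∑ u, ∑ v, g s u v := by
  have e : ∀ y : S → U → V → ℝ, ∑ s, ∑ u, ∑ v, y s u v =
      ∑ s, ∑ a : U × V, y s a.1 a.2 := by
    intro y
    refine sum_congr rfl fun s _ => ?_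
    rw [Fintype.sum_prod_type' (fun u v => y s u v)]
  rw [e, e, e]
  exact gcs_two (fun s (a : U × V) => x s a.1 a.2) (fun s a => f s a.1 a.2)
    (fun s a => g s a.1 a.2) (fun s a => hf s a.1 a.2) (fun s a => hg s a.1 a.2)
    (fun s a => h s a.1 a.2)

variable {ι : Type} [Fintype ι] [DecidableEq ι] {n : ι → ℕ} [∀ i, NeZero (n i)]

/-- `T = ∑ s u, p s q u ∑ i, F1 i s u A i s u`, `A i s u = ∑ v, r v g u v F2 i s v`. As
`∑ i, F1 i ≤ n1` with `F1 ≥ 0`, `|∑ i, F1 i A i| ≤ n1 √(∑ A i ^ 2)`, so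
`T ^ 2 ≤ (∑ p q n1) (∑ p q n1 ∑ i A i ^ 2)`. Expand
`∑ s u, p q n1 ∑ i A i ^ 2 = ∑ s v v', p r r' (∑ i F2 i s v F2 i s v') B`,
`B = ∑ u, q n1 s u g u v g u v'`; here `0 ≤ ∑ i F2 i s v F2 i s v' ≤ n2 s v n2 s v'`; Cauchy-Schwarz
again, and `∑ s v v', p r r' n2 n2' B ^ 2` is the last factor. -/
theorem gcs {S U V : Type} [Fintype S] [Fintype U] [Fintype V] {k : ℕ}
    (p : S → ℝ) (q : U → ℝ) (r : V → ℝ) (hp : ∀ s, 0 ≤ p s) (hq : ∀ u, 0 ≤ q u)
    (hr : ∀ v, 0 ≤ r v) (g : U → V → ℝ) (F1 : Fin k → S → U → ℝ) (F2 : Fin k → S → V → ℝ)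
    (n1 : S → U → ℝ) (n2 : S → V → ℝ) (hF1 : ∀ i s u, 0 ≤ F1 i s u)
    (hF2 : ∀ i s v, 0 ≤ F2 i s v) (h1 : ∀ s u, ∑ i, F1 i s u ≤ n1 s u)
    (h2 : ∀ s v, ∑ i, F2 i s v ≤ n2 s v) :
    (∑ s, ∑ u, ∑ v, p s * q u * r v * (g u v * ∑ i, F1 i s u * F2 i s v)) ^ 4 ≤
      (∑ s, ∑ u, p s * q u * n1 s u) ^ 2 *
      (∑ s, ∑ v, ∑ v', p s * r v * r v' * (n2 s v * n2 s v')) *
      (∑ u, ∑ u', ∑ v, ∑ v', q u * q u' * r v * r v' *
        ((g u v * g u v' * g u' v * g u' v') *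
          ∑ s, p s * ((n1 s u * n1 s u') * (n2 s v * n2 s v')))) := by
  have hn1 : ∀ s u, 0 ≤ n1 s u := fun s u => (sum_nonneg fun i _ => hF1 i s u).trans (h1 s u)
  have hn2 : ∀ s v, 0 ≤ n2 s v := fun s v => (sum_nonneg fun i _ => hF2 i s v).trans (h2 s v)
  -- the inner sums
  obtain ⟨A, hA⟩ : ∃ A : Fin k → S → U → ℝ, ∀ i s u, A i s u = ∑ v, r v * (g u v * F2 i s v) :=
    ⟨_, fun _ _ _ => rfl⟩
  have eT : ∑ s, ∑ u, ∑ v, p s * q u * r v * (g u v * ∑ i, F1 i s u * F2 i s v) =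
      ∑ s, ∑ u, p s * q u * ∑ i, F1 i s u * A i s u := by
    refine sum_congr rfl fun s _ => sum_congr rfl fun u _ => ?_
    have e1 : ∑ i, F1 i s u * A i s u = ∑ v, r v * (g u v * ∑ i, F1 i s u * F2 i s v) := by
      have e2 : ∀ i, F1 i s u * A i s u = ∑ v, r v * (g u v * (F1 i s u * F2 i s v)) := by
        intro i
        rw [hA, mul_sum]
        exact sum_congr rfl fun v _ => by ring
      rw [sum_congr rfl fun i _ => e2 i, sum_comm]
      refine sum_congr rfl fun v _ => ?_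
      rw [mul_sum, mul_sum]
    rw [e1, mul_sum]
    exact sum_congr rfl fun v _ => by ring
  -- first Cauchy-Schwarz
  have c1 : (∑ s, ∑ u, p s * q u * ∑ i, F1 i s u * A i s u) ^ 2 ≤
      (∑ s, ∑ u, p s * q u * n1 s u) * ∑ s, ∑ u, p s * q u * n1 s u * ∑ i, A i s u ^ 2 := by
    refine gcs_two _ _ _ (fun s u => mul_nonneg (mul_nonneg (hp s) (hq u)) (hn1 s u))
      (fun s u => mul_nonneg (mul_nonneg (mul_nonneg (hp s) (hq u)) (hn1 s u))
        (sum_nonneg fun i _ => sq_nonneg _)) (fun s u => ?_)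
    have h3 := gcs_in (fun i => F1 i s u) (fun i => A i s u) (n1 s u) (fun i => hF1 i s u) (h1 s u)
    calc (p s * q u * ∑ i, F1 i s u * A i s u) ^ 2 =
          (p s * q u) ^ 2 * (∑ i, F1 i s u * A i s u) ^ 2 := by ring
      _ ≤ (p s * q u) ^ 2 * (n1 s u ^ 2 * ∑ i, A i s u ^ 2) :=
          mul_le_mul_of_nonneg_left h3 (sq_nonneg _)
      _ = _ := by ring
  -- expansion
  obtain ⟨B, hB⟩ : ∃ B : S → V → V → ℝ, ∀ s v v', B s v v' =
      ∑ u, q u * (n1 s u * (g u v * g u v')) := ⟨_, fun _ _ _ => rfl⟩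
  obtain ⟨c, hc⟩ : ∃ c : S → V → V → ℝ, ∀ s v v', c s v v' = ∑ i, F2 i s v * F2 i s v' :=
    ⟨_, fun _ _ _ => rfl⟩
  have eW : ∑ s, ∑ u, p s * q u * n1 s u * ∑ i, A i s u ^ 2 =
      ∑ s, ∑ v, ∑ v', p s * r v * r v' * (c s v v' * B s v v') := by
    refine sum_congr rfl fun s _ => ?_
    have e1 : ∀ u, p s * q u * n1 s u * ∑ i, A i s u ^ 2 =
        ∑ v, ∑ v', p s * r v * r v' * (c s v v' * (q u * (n1 s u * (g u v * g u v')))) := by
      intro u
      have e2 : ∑ i, A i s u ^ 2 = ∑ v, ∑ v', r v * r v' * (g u v * g u v') * c s v v' := by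
        have e3 : ∀ i, A i s u ^ 2 =
            ∑ v, ∑ v', r v * r v' * (g u v * g u v') * (F2 i s v * F2 i s v') := by
          intro i
          rw [hA, sq, sum_mul_sum]
          exact sum_congr rfl fun v _ => sum_congr rfl fun v' _ => by ring
        rw [sum_congr rfl fun i _ => e3 i, sum_comm]
        refine sum_congr rfl fun v _ => ?_
        rw [sum_comm]
        refine sum_congr rfl fun v' _ => ?_
        rw [hc, mul_sum]
      rw [e2, mul_sum]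
      refine sum_congr rfl fun v _ => ?_
      rw [mul_sum]
      exact sum_congr rfl fun v' _ => by ring
    rw [sum_congr rfl fun u _ => e1 u, sum_comm]
    refine sum_congr rfl fun v _ => ?_
    rw [sum_comm]
    refine sum_congr rfl fun v' _ => ?_
    rw [hB, mul_sum, mul_sum]
  -- second Cauchy-Schwarz
  have c2 : (∑ s, ∑ v, ∑ v', p s * r v * r v' * (c s v v' * B s v v')) ^ 2 ≤
      (∑ s, ∑ v, ∑ v', p s * r v * r v' * (n2 s v * n2 s v')) *
      ∑ s, ∑ v, ∑ v', p s * r v * r v' * (n2 s v * n2 s v') * B s v v' ^ 2 := by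
    have hw : ∀ s v v', 0 ≤ p s * r v * r v' * (n2 s v * n2 s v') := fun s v v' =>
      mul_nonneg (mul_nonneg (mul_nonneg (hp s) (hr v)) (hr v')) (mul_nonneg (hn2 s v) (hn2 s v'))
    refine gcs_three _ _ _ hw (fun s v v' => mul_nonneg (hw s v v') (sq_nonneg _))
      (fun s v v' => ?_)
    have h3 := gcs_pr (fun i => F2 i s v) (fun i => F2 i s v') (n2 s v) (n2 s v')
      (fun i => hF2 i s v) (fun i => hF2 i s v') (h2 s v) (h2 s v')
    rw [← hc] at h3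
    calc (p s * r v * r v' * (c s v v' * B s v v')) ^ 2 =
          (p s * r v * r v') ^ 2 * B s v v' ^ 2 * c s v v' ^ 2 := by ring
      _ ≤ (p s * r v * r v') ^ 2 * B s v v' ^ 2 * (n2 s v * n2 s v') ^ 2 := by
          refine mul_le_mul_of_nonneg_left (pow_le_pow_left₀ h3.1 h3.2 2) ?_
          exact mul_nonneg (sq_nonneg _) (sq_nonneg _)
      _ = _ := by ring
  -- the last factor
  have eL : ∑ s, ∑ v, ∑ v', p s * r v * r v' * (n2 s v * n2 s v') * B s v v' ^ 2 =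
      ∑ u, ∑ u', ∑ v, ∑ v', q u * q u' * r v * r v' *
        ((g u v * g u v' * g u' v * g u' v') *
          ∑ s, p s * ((n1 s u * n1 s u') * (n2 s v * n2 s v'))) := by
    have e1 : ∀ s v v', p s * r v * r v' * (n2 s v * n2 s v') * B s v v' ^ 2 =
        ∑ u, ∑ u', q u * q u' * r v * r v' * ((g u v * g u v' * g u' v * g u' v') *
          (p s * ((n1 s u * n1 s u') * (n2 s v * n2 s v')))) := by
      intro s v v'
      rw [hB, sq, sum_mul_sum, mul_sum]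
      refine sum_congr rfl fun u _ => ?_
      rw [mul_sum]
      exact sum_congr rfl fun u' _ => by ring
    calc ∑ s, ∑ v, ∑ v', p s * r v * r v' * (n2 s v * n2 s v') * B s v v' ^ 2
        = ∑ s, ∑ v, ∑ v', ∑ u, ∑ u', q u * q u' * r v * r v' *
            ((g u v * g u v' * g u' v * g u' v') *
            (p s * ((n1 s u * n1 s u') * (n2 s v * n2 s v')))) :=
          sum_congr rfl fun s _ => sum_congr rfl fun v _ => sum_congr rfl fun v' _ => e1 s v v'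
      _ = ∑ u, ∑ u', ∑ v, ∑ v', ∑ s, q u * q u' * r v * r v' *
            ((g u v * g u v' * g u' v * g u' v') *
            (p s * ((n1 s u * n1 s u') * (n2 s v * n2 s v')))) := by
          have e2 : ∀ s, ∑ v, ∑ v', ∑ u, ∑ u', q u * q u' * r v * r v' *
              ((g u v * g u v' * g u' v * g u' v') *
              (p s * ((n1 s u * n1 s u') * (n2 s v * n2 s v')))) =
              ∑ u, ∑ u', ∑ v, ∑ v', q u * q u' * r v * r v' *
              ((g u v * g u v' * g u' v * g u' v') *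
              (p s * ((n1 s u * n1 s u') * (n2 s v * n2 s v')))) := by
            intro s
            have e3 : ∀ v, ∑ v', ∑ u, ∑ u', q u * q u' * r v * r v' *
                ((g u v * g u v' * g u' v * g u' v') *
                (p s * ((n1 s u * n1 s u') * (n2 s v * n2 s v')))) =
                ∑ u, ∑ u', ∑ v', q u * q u' * r v * r v' *
                ((g u v * g u v' * g u' v * g u' v') *
                (p s * ((n1 s u * n1 s u') * (n2 s v * n2 s v')))) := by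
              intro v
              rw [sum_comm]
              exact sum_congr rfl fun u _ => sum_comm
            rw [sum_congr rfl fun v _ => e3 v, sum_comm]
            exact sum_congr rfl fun u _ => sum_comm
          rw [sum_congr rfl fun s _ => e2 s, sum_comm]
          refine sum_congr rfl fun u _ => ?_
          rw [sum_comm]
          refine sum_congr rfl fun u' _ => ?_
          rw [sum_comm]
          refine sum_congr rfl fun v _ => ?_
          rw [sum_comm]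
      _ = _ := by
          refine sum_congr rfl fun u _ => sum_congr rfl fun u' _ => sum_congr rfl fun v _ =>
            sum_congr rfl fun v' _ => ?_
          rw [mul_sum, mul_sum]
  rw [eT]
  rw [eW] at c1
  rw [eL] at c2
  obtain ⟨T, hT⟩ : ∃ T : ℝ, T = ∑ s, ∑ u, p s * q u * ∑ i, F1 i s u * A i s u := ⟨_, rfl⟩
  obtain ⟨N, hN⟩ : ∃ N : ℝ, N = ∑ s, ∑ u, p s * q u * n1 s u := ⟨_, rfl⟩
  obtain ⟨W, hW⟩ : ∃ W : ℝ, W = ∑ s, ∑ v, ∑ v', p s * r v * r v' * (c s v v' * B s v v') :=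
    ⟨_, rfl⟩
  rw [← hT, ← hN, ← hW] at c1
  rw [← hW] at c2
  rw [← hT, ← hN, mul_assoc]
  calc T ^ 4 = (T ^ 2) ^ 2 := by ring
    _ ≤ (N * W) ^ 2 := pow_le_pow_left₀ (sq_nonneg _) c1 2
    _ = N ^ 2 * W ^ 2 := by ring
    _ ≤ _ := mul_le_mul_of_nonneg_left c2 (sq_nonneg _)

end Pool.Agent.Lib.MP_629a14_nt.Ml
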