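import Pool.Agent.Lib.MP_629a14_nt.Ml.Psi

/-! Existence of closed sets. -/

set_option autoImplicit false

namespace Pool.Agent.Lib.MP_629a14_nt.Ml

open Finset

variable {ι : Type} [Fintype ι] [DecidableEq ι] {n : ι → ℕ} [∀ i, NeZero (n i)]

/-- Greedy. Put `E_0 = E0`. If `E_i` is not closed choose `m^(i)` with `|m^(i)_j| ≤ L` such that
`b^(i) = ∑ j, m^(i)_j • a j` does not vanish outside `E_i` and `∏ c > tau` over its support outside
`E_i`; let `E_{i+1}` be the union of `E_i` and the support. As all `c ≤ 1/2`, the product is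
`≤ (1/2) ^ (number of new elements)`, so fewer than `K` elements are added (`(1/2) ^ K ≤ tau`), and each
of them has `c > tau`. After `r` steps the `2 ^ r` subset sums of `b^(0), ..., b^(r-1)` are distinct
(look at the last index where two subsets differ, at a coordinate of `b^(i)` outside `E_i`, where all
earlier `b` vanish), and they are values of `m ↦ ∑ m j • a j` with `|m j| ≤ r L`: at most
`(2 r L + 1) ^ J < 2 ^ r` elements. Contradiction; so some `E_i` with `i < r` is closed. -/
theorem closure {c : ι → ℝ} (hc : ∀ i, 0 ≤ c i ∧ c i ≤ 1 / 2) {J : ℕ} (a : Fin J → Gp n)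
    (L r K : ℕ) (tau : ℝ) (htau : 0 < tau) (hr : (2 * r * L + 1) ^ J < 2 ^ r)
    (hK : (1 / 2 : ℝ) ^ K ≤ tau) (E0 : Finset ι) :
    ∃ E : Finset ι, E0 ⊆ E ∧ Clo c a L tau E ∧ E.card ≤ E0.card + r * K ∧
      ∀ i ∈ E, i ∈ E0 ∨ tau < c i := by
  classical
  by_contra hno
  have hno' : ∀ i ≤ r, ∀ E : Finset ι, E0 ⊆ E → E.card ≤ E0.card + i * K →
      (∀ x ∈ E, x ∈ E0 ∨ tau < c x) → ¬ Clo c a L tau E := by
    intro i hi E h1 h2 h3 h4
    refine hno ⟨E, h1, h4, le_trans h2 ?_, h3⟩
    exact Nat.add_le_add_left (Nat.mul_le_mul_right K hi) _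
  have hinv : ∀ i ≤ r, ∃ E : Finset ι, ∃ S : Finset (Gp n), E0 ⊆ E ∧ E.card ≤ E0.card + i * K ∧
      (∀ x ∈ E, x ∈ E0 ∨ tau < c x) ∧ S.card = 2 ^ i ∧ (∀ s ∈ S, ∀ x, x ∉ E → s x = 0) ∧
      ∀ s ∈ S, ∃ m : Fin J → ℤ, (∀ j, |m j| ≤ ((i * L : ℕ) : ℤ)) ∧ s = ∑ j, m j • a j := by
    intro i
    induction i with
    | zero =>
      intro _
      refine ⟨E0, {0}, subset_rfl, by simp, fun x hx => Or.inl hx, by simp, ?_, ?_⟩
      · intro s hs x _
        rw [mem_singleton] at hs
        rw [hs]
        rfl
      · intro s hs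
        rw [mem_singleton] at hs
        refine ⟨fun _ => 0, fun j => by simp, ?_⟩
        rw [hs]
        simp
    | succ i ih =>
      intro hi
      obtain ⟨E, S, hE0, hEc, hEt, hSc, hSv, hSm⟩ := ih (Nat.le_of_succ_le hi)
      have hncl := hno' i (Nat.le_of_succ_le hi) E hE0 hEc hEt
      have hex : ∃ m : Fin J → ℤ, (∀ j, |m j| ≤ (L : ℤ)) ∧
          ¬ (∀ i, i ∉ E → (∑ j, m j • a j) i = 0) ∧
          tau < ∏ i ∈ univ.filter (fun i => i ∉ E ∧ (∑ j, m j • a j) i ≠ 0), c i := by
        by_contra hcon
        apply hncl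
        intro m hm
        by_contra hcon2
        apply hcon
        rw [not_or] at hcon2
        refine ⟨m, hm, hcon2.1, ?_⟩
        have h5 := not_le.mp hcon2.2
        convert h5
      obtain ⟨m, hm, hne, hprod⟩ := hex
      obtain ⟨b, hb⟩ : ∃ b : Gp n, b = ∑ j, m j • a j := ⟨_, rfl⟩
      rw [← hb] at hne hprod
      obtain ⟨F, hF⟩ : ∃ F : Finset ι, F = univ.filter (fun i => i ∉ E ∧ b i ≠ 0) := ⟨_, rfl⟩
      rw [← hF] at hprod
      have hFm : ∀ x, x ∈ F ↔ x ∉ E ∧ b x ≠ 0 := by
        intro x
        rw [hF]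
        simp
      have hFt : ∀ x ∈ F, tau < c x := by
        intro x hx
        refine lt_of_lt_of_le hprod ?_
        rw [← mul_prod_erase F c hx]
        have h6 : ∏ y ∈ F.erase x, c y ≤ 1 :=
          prod_le_one (fun y _ => (hc y).1) (fun y _ => le_trans (hc y).2 (by norm_num))
        calc c x * ∏ y ∈ F.erase x, c y ≤ c x * 1 := mul_le_mul_of_nonneg_left h6 (hc x).1
          _ = c x := mul_one _
      have hFc : F.card ≤ K := by
        by_contra hlt
        have hlt' : K ≤ F.card := by omega
        have h7 : ∏ y ∈ F, c y ≤ (1 / 2 : ℝ) ^ F.card := by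
          have := prod_le_prod (s := F) (f := c) (g := fun _ => (1 / 2 : ℝ))
            (fun y _ => (hc y).1) (fun y _ => (hc y).2)
          rwa [prod_const] at this
        have h8 : (1 / 2 : ℝ) ^ F.card ≤ (1 / 2 : ℝ) ^ K :=
          pow_le_pow_of_le_one (by norm_num) (by norm_num) hlt'
        linarith
      have hdis : Disjoint S (S.image (fun s => s + b)) := by
        rw [disjoint_left]
        intro s hs hs'
        rw [mem_image] at hs'
        obtain ⟨t, ht, hts⟩ := hs'
        apply hne
        intro x hx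
        have h9 := hSv s hs x hx
        have h10 := hSv t ht x hx
        rw [← hts, Pi.add_apply, h10, zero_add] at h9
        exact h9
      refine ⟨E ∪ F, S ∪ S.image (fun s => s + b), hE0.trans subset_union_left, ?_, ?_, ?_, ?_, ?_⟩
      · have := card_union_le E F
        rw [Nat.succ_mul]
        omega
      · intro x hx
        rw [mem_union] at hx
        rcases hx with hx | hx
        · exact hEt x hx
        · exact Or.inr (hFt x hx)
      · rw [card_union_of_disjoint hdis, card_image_of_injective _ (add_left_injective b), hSc,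
          pow_succ]
        ring
      · intro s hs x hx
        rw [mem_union, not_or] at hx
        rw [mem_union] at hs
        have hbx : b x = 0 := by
          by_contra hbx
          exact hx.2 ((hFm x).2 ⟨hx.1, hbx⟩)
        rcases hs with hs | hs
        · exact hSv s hs x hx.1
        · rw [mem_image] at hs
          obtain ⟨t, ht, hts⟩ := hs
          rw [← hts, Pi.add_apply, hSv t ht x hx.1, hbx, add_zero]
      · intro s hs
        rw [mem_union] at hs
        rcases hs with hs | hs
        · obtain ⟨m', hm', hs'⟩ := hSm s hs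
          refine ⟨m', fun j => le_trans (hm' j) ?_, hs'⟩
          have : i * L ≤ (i + 1) * L := Nat.mul_le_mul_right L (Nat.le_succ i)
          exact_mod_cast this
        · rw [mem_image] at hs
          obtain ⟨t, ht, hts⟩ := hs
          obtain ⟨m', hm', hs'⟩ := hSm t ht
          refine ⟨fun j => m' j + m j, fun j => ?_, ?_⟩
          · have h11 := abs_add_le (m' j) (m j)
            have h12 := hm' j
            have h13 := hm j
            push_cast at h12 ⊢
            linarith
          · rw [← hts, hs', hb, ← sum_add_distrib]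
            exact sum_congr rfl fun j _ => (add_smul _ _ _).symm
  obtain ⟨E, S, _, _, _, hSc, _, hSm⟩ := hinv r le_rfl
  have hsub : S ⊆ (Fintype.piFinset (fun _ : Fin J =>
      Finset.Icc (-((r * L : ℕ) : ℤ)) ((r * L : ℕ) : ℤ))).image (fun m => ∑ j, m j • a j) := by
    intro s hs
    obtain ⟨m, hm, hs'⟩ := hSm s hs
    rw [mem_image]
    refine ⟨m, ?_, hs'.symm⟩
    rw [Fintype.mem_piFinset]
    intro j
    rw [Finset.mem_Icc]
    exact abs_le.mp (hm j)
  have hcard := le_trans (card_le_card hsub) card_image_le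
  rw [Fintype.card_piFinset, hSc, prod_const, card_univ, Fintype.card_fin, Int.card_Icc] at hcard
  have h14 : (((r * L : ℕ) : ℤ) + 1 - -((r * L : ℕ) : ℤ)).toNat = 2 * r * L + 1 := by
    have : ((r * L : ℕ) : ℤ) + 1 - -((r * L : ℕ) : ℤ) = ((2 * r * L + 1 : ℕ) : ℤ) := by
      push_cast
      ring
    rw [this, Int.toNat_natCast]
  rw [h14] at hcard
  exact absurd hcard (not_le.mpr hr)

end Pool.Agent.Lib.MP_629a14_nt.Ml
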