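import Pool.Agent.Lib.MP_629a14_nt.Ml.Ker

/-! Lower bound for the normalising constant. -/

set_option autoImplicit false

namespace Pool.Agent.Lib.MP_629a14_nt.Ml

open Finset

variable {ι : Type} [Fintype ι] [DecidableEq ι] {n : ι → ℕ} [∀ i, NeZero (n i)]

/-- the cell of a complex number: its argument in units `2 π / M`, shifted -/
private noncomputable def KLow_cell (M : ℕ) (z : ℂ) : ℕ :=
  ⌈(M : ℝ) * ((z.arg + Real.pi) / (2 * Real.pi))⌉₊

private theorem KLow_cell_mem {M : ℕ} (hM : 1 ≤ M) (z : ℂ) : KLow_cell M z ∈ Finset.Icc 1 M := by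
  have hpi := Real.pi_pos
  have h1 : 0 < (z.arg + Real.pi) / (2 * Real.pi) := by
    have := Complex.neg_pi_lt_arg z
    apply div_pos <;> linarith
  have h2 : (z.arg + Real.pi) / (2 * Real.pi) ≤ 1 := by
    rw [div_le_one (by positivity)]
    have := Complex.arg_le_pi z
    linarith
  have hM' : (1 : ℝ) ≤ M := by exact_mod_cast hM
  rw [Finset.mem_Icc]
  unfold KLow_cell
  constructor
  · rw [Nat.one_le_ceil_iff]
    exact mul_pos (by linarith) h1
  · rw [Nat.ceil_le]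
    calc (M : ℝ) * ((z.arg + Real.pi) / (2 * Real.pi)) ≤ M * 1 :=
          mul_le_mul_of_nonneg_left h2 (by linarith)
      _ = M := mul_one _

private theorem KLow_cell_near {M : ℕ} (hM : 1 ≤ M) {z w : ℂ} (hz : ‖z‖ = 1) (hw : ‖w‖ = 1)
    (h : KLow_cell M z = KLow_cell M w) : ‖z - w‖ ≤ 2 * Real.pi / M := by
  have hpi := Real.pi_pos
  have hM' : (0 : ℝ) < M := by exact_mod_cast hM
  have hxz : 0 ≤ (M : ℝ) * ((z.arg + Real.pi) / (2 * Real.pi)) := by
    have := Complex.neg_pi_lt_arg z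
    exact mul_nonneg hM'.le (div_nonneg (by linarith) (by positivity))
  have hxw : 0 ≤ (M : ℝ) * ((w.arg + Real.pi) / (2 * Real.pi)) := by
    have := Complex.neg_pi_lt_arg w
    exact mul_nonneg hM'.le (div_nonneg (by linarith) (by positivity))
  unfold KLow_cell at h
  have h1 := Nat.le_ceil ((M : ℝ) * ((z.arg + Real.pi) / (2 * Real.pi)))
  have h2 := Nat.ceil_lt_add_one hxz
  have h3 := Nat.le_ceil ((M : ℝ) * ((w.arg + Real.pi) / (2 * Real.pi)))
  have h4 := Nat.ceil_lt_add_one hxw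
  rw [h] at h1 h2
  have h5 : |(M : ℝ) * ((z.arg + Real.pi) / (2 * Real.pi)) -
      (M : ℝ) * ((w.arg + Real.pi) / (2 * Real.pi))| ≤ 1 := by
    rw [abs_le]
    constructor <;> linarith
  have h6 : (M : ℝ) * ((z.arg + Real.pi) / (2 * Real.pi)) -
      (M : ℝ) * ((w.arg + Real.pi) / (2 * Real.pi)) = (M / (2 * Real.pi)) * (z.arg - w.arg) := by
    ring
  rw [h6, abs_mul, abs_of_pos (by positivity)] at h5
  have h7 : |z.arg - w.arg| ≤ 2 * Real.pi / M := by
    rw [le_div_iff₀ hM']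
    have h8 : (M : ℝ) / (2 * Real.pi) * |z.arg - w.arg| * (2 * Real.pi) ≤ 1 * (2 * Real.pi) :=
      mul_le_mul_of_nonneg_right h5 (by positivity)
    have h9 : (M : ℝ) / (2 * Real.pi) * |z.arg - w.arg| * (2 * Real.pi) = |z.arg - w.arg| * M := by
      field_simp
    linarith
  refine le_trans ?_ h7
  have hz' : z = Complex.exp (z.arg * Complex.I) := by
    have := Complex.norm_mul_exp_arg_mul_I z
    rw [hz] at this
    simpa using this.symm
  have hw' : w = Complex.exp (w.arg * Complex.I) := by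
    have := Complex.norm_mul_exp_arg_mul_I w
    rw [hw] at this
    simpa using this.symm
  have h10 : z - w = w * (Complex.exp (Complex.I * ((z.arg - w.arg : ℝ) : ℂ)) - 1) := by
    rw [mul_sub, mul_one]
    congr 1
    conv_lhs => rw [hz']
    conv_rhs => rw [hw']
    rw [← Complex.exp_add]
    congr 1
    rw [Complex.arg_exp_mul_I]
    have : toIocMod Real.two_pi_pos (-Real.pi) w.arg = w.arg := by
      rw [toIocMod_eq_self]
      refine ⟨Complex.neg_pi_lt_arg w, ?_⟩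
      have := Complex.arg_le_pi w
      linarith
    rw [this]
    push_cast
    ring
  rw [h10, norm_mul, hw, one_mul]
  exact Real.norm_exp_I_mul_ofReal_sub_one_le

private theorem KLow_QQ {J : ℕ} (a : Fin J → Gp n) {M : ℕ} (hM : 1 ≤ M) (s s0 : Gp n)
    (h : ∀ j, KLow_cell M (psi (a j * s)) = KLow_cell M (psi (a j * s0))) :
    QQ a (s + -s0) ≤ J * (2 * Real.pi ^ 2 / M ^ 2) := by
  unfold QQ
  have h1 : ∀ j ∈ (univ : Finset (Fin J)), 1 - (psi (a j * (s + -s0))).re ≤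
      2 * Real.pi ^ 2 / M ^ 2 := by
    intro j _
    have h2 := norm_psi_sub_sq (a j * (s + -s0))
    have h3 := KLow_cell_near hM (norm_psi (a j * s)) (norm_psi (a j * s0)) (h j)
    have h4 : ‖psi (a j * (s + -s0)) - 1‖ = ‖psi (a j * s) - psi (a j * s0)‖ := by
      have h5 : psi (a j * s) = psi (a j * (s + -s0)) * psi (a j * s0) := by
        rw [← psi_add, ← mul_add, neg_add_cancel_right]
      have h6 : psi (a j * s) - psi (a j * s0) =
          (psi (a j * (s + -s0)) - 1) * psi (a j * s0) := by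
        rw [h5]
        ring
      rw [h6, norm_mul, norm_psi, mul_one]
    rw [h4] at h2
    have h7 : ‖psi (a j * s) - psi (a j * s0)‖ ^ 2 ≤ (2 * Real.pi / M) ^ 2 :=
      pow_le_pow_left₀ (norm_nonneg _) h3 2
    have h8 : (2 * Real.pi / (M : ℝ)) ^ 2 = 2 * (2 * Real.pi ^ 2 / M ^ 2) := by
      rw [div_pow]
      ring
    linarith
  have := sum_le_sum h1
  rwa [sum_const, card_univ, Fintype.card_fin, nsmul_eq_mul] at this

/-- Pigeonhole. Let `M = ⌈√lam⌉₊ ≥ 1`. Write `psi (a j * s) = exp (2 π i θ_j(s))` with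
`0 ≤ θ_j(s) < 1` and put `s ∈ HS E` in the cell `(⌊M θ_j(s)⌋)_j`, one of `M ^ J` cells. Some cell `C`
has at least `card (HS E) / M ^ J` elements; fix `s₀ ∈ C`. For `s ∈ C`, `t = s - s₀ ∈ HS E` satisfies
`‖psi (a j * t) - 1‖ = ‖psi (a j * s) - psi (a j * s₀)‖ ≤ 2 π / M`, so
`1 - Re psi (a j * t) = ‖psi (a j * t) - 1‖ ^ 2 / 2 ≤ 2 π ^ 2 / M ^ 2` and
`lam * QQ a t ≤ 2 π ^ 2 J ≤ 20 J`. -/
theorem ZZ_lower {J : ℕ} (a : Fin J → Gp n) (lam : ℝ) (hlam : 1 ≤ lam) (E : Finset ι) :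
    (1 / (⌈Real.sqrt lam⌉₊ : ℝ)) ^ J * Real.exp (-(20 * (J : ℝ))) ≤ ZZ a lam E := by
  classical
  obtain ⟨M, hMdef⟩ : ∃ M, M = ⌈Real.sqrt lam⌉₊ := ⟨_, rfl⟩
  rw [← hMdef]
  have hM : 1 ≤ M := by
    rw [hMdef, Nat.one_le_ceil_iff]
    exact Real.sqrt_pos.2 (by linarith)
  have hM' : (1 : ℝ) ≤ M := by exact_mod_cast hM
  have hM0 : (0 : ℝ) < M := by linarith
  have hlamM : lam ≤ (M : ℝ) ^ 2 := by
    have h1 : Real.sqrt lam ≤ M := by rw [hMdef]; exact Nat.le_ceil _
    have h2 : Real.sqrt lam ^ 2 ≤ (M : ℝ) ^ 2 := pow_le_pow_left₀ (Real.sqrt_nonneg _) h1 2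
    rwa [Real.sq_sqrt (by linarith)] at h2
  -- the pigeonhole principle
  let f : Gp n → Fin J → ℕ := fun s j => KLow_cell M (psi (a j * s))
  let T : Finset (Fin J → ℕ) := Fintype.piFinset (fun _ => Finset.Icc 1 M)
  have hT : (T.card : ℝ) = (M : ℝ) ^ J := by
    have : T.card = M ^ J := by
      rw [Fintype.card_piFinset]
      simp
    rw [this]
    push_cast
    rfl
  have hfT : ∀ s ∈ (HS E : Finset (Gp n)), f s ∈ T := by
    intro s _
    rw [Fintype.mem_piFinset]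
    exact fun j => KLow_cell_mem hM _
  have hTne : T.Nonempty := ⟨f 0, hfT 0 (zero_mem_HS E)⟩
  obtain ⟨y, _, hy⟩ := exists_le_card_fiber_of_nsmul_le_card_of_maps_to
    (s := (HS E : Finset (Gp n))) (t := T) (f := f)
    (b := ((HS E : Finset (Gp n)).card : ℝ) * (1 / (M : ℝ)) ^ J) hfT hTne (by
      rw [nsmul_eq_mul, hT, mul_comm, mul_assoc, ← mul_pow, one_div, inv_mul_cancel₀ hM0.ne',
        one_pow, mul_one])
  have hcard := card_HS_pos (n := n) E
  have hpos : 0 < ((HS E : Finset (Gp n)).card : ℝ) * (1 / (M : ℝ)) ^ J := by positivity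
  have hCne : ({x ∈ (HS E : Finset (Gp n)) | f x = y}).Nonempty := by
    rw [← card_pos]
    have : (0 : ℝ) < (({x ∈ (HS E : Finset (Gp n)) | f x = y}).card : ℝ) := hpos.trans_le hy
    exact_mod_cast this
  obtain ⟨s0, hs0⟩ := hCne
  rw [mem_filter] at hs0
  have hexp : ∀ s ∈ ({x ∈ (HS E : Finset (Gp n)) | f x = y} : Finset (Gp n)),
      Real.exp (-(20 * (J : ℝ))) ≤ Real.exp (-(lam * QQ a (s + -s0))) := by
    intro s hs
    rw [mem_filter] at hs
    have h1 := KLow_QQ a hM s s0 (fun j => congrFun (hs.2.trans hs0.2.symm) j)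
    rw [Real.exp_le_exp, neg_le_neg_iff]
    have h2 : lam * QQ a (s + -s0) ≤ (M : ℝ) ^ 2 * (J * (2 * Real.pi ^ 2 / M ^ 2)) :=
      mul_le_mul hlamM h1 (QQ_nonneg a _) (by positivity)
    have h3 : (M : ℝ) ^ 2 * (J * (2 * Real.pi ^ 2 / M ^ 2)) = (2 * Real.pi ^ 2) * J := by
      field_simp
    have h4 : 2 * Real.pi ^ 2 ≤ 20 := by
      have h5 := Real.pi_lt_d2
      have h6 := Real.pi_pos
      nlinarith
    have h7 : (2 * Real.pi ^ 2) * (J : ℝ) ≤ 20 * J :=
      mul_le_mul_of_nonneg_right h4 (Nat.cast_nonneg J)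
    linarith
  have hsum : (({x ∈ (HS E : Finset (Gp n)) | f x = y}).card : ℝ) * Real.exp (-(20 * (J : ℝ))) ≤
      ∑ s ∈ (HS E : Finset (Gp n)), Real.exp (-(lam * QQ a s)) := by
    calc (({x ∈ (HS E : Finset (Gp n)) | f x = y}).card : ℝ) * Real.exp (-(20 * (J : ℝ)))
        = ∑ s ∈ ({x ∈ (HS E : Finset (Gp n)) | f x = y} : Finset (Gp n)),
            Real.exp (-(20 * (J : ℝ))) := by rw [sum_const, nsmul_eq_mul]
      _ ≤ ∑ s ∈ ({x ∈ (HS E : Finset (Gp n)) | f x = y} : Finset (Gp n)),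
            Real.exp (-(lam * QQ a (s + -s0))) := sum_le_sum hexp
      _ = ∑ s ∈ ({x ∈ (HS E : Finset (Gp n)) | f x = y} : Finset (Gp n)).image (fun s => s + -s0),
            Real.exp (-(lam * QQ a s)) := by
          rw [sum_image]
          intro s _ t _ hst
          exact add_right_cancel hst
      _ ≤ ∑ s ∈ (HS E : Finset (Gp n)), Real.exp (-(lam * QQ a s)) := by
          refine sum_le_sum_of_subset_of_nonneg ?_ fun s _ _ => (Real.exp_pos _).le
          intro s hs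
          obtain ⟨t, ht, rfl⟩ := mem_image.1 hs
          rw [mem_filter] at ht
          exact add_mem_HS ht.1 (neg_mem_HS hs0.1)
  unfold ZZ EH
  rw [le_div_iff₀ hcard]
  refine le_trans ?_ hsum
  have := mul_le_mul_of_nonneg_right hy (Real.exp_pos (-(20 * (J : ℝ)))).le
  linarith

end Pool.Agent.Lib.MP_629a14_nt.Ml
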