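import Pool.Agent.Lib.MP_629a14_nt.Ml.NuOne

/-! Few elements of the support of a kernel vanish at a sieved coordinate. -/

set_option autoImplicit false

namespace Pool.Agent.Lib.MP_629a14_nt.Ml

open Finset

variable {ι : Type} [Fintype ι] [DecidableEq ι] {n : ι → ℕ} [∀ i, NeZero (n i)]

private theorem NuUnit_prod (T : Finset ι) (x : ι → ℝ) (h0 : ∀ i ∈ T, 0 ≤ x i)
    (h1 : ∀ i ∈ T, x i ≤ 1) :
    1 - ∑ i ∈ T, x i ≤ ∏ i ∈ T, (1 - x i) ∧ 0 ≤ ∏ i ∈ T, (1 - x i) ∧ ∏ i ∈ T, (1 - x i) ≤ 1 := by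
  induction T using Finset.induction_on with
  | empty => simp
  | insert j T hj ih =>
    obtain ⟨h2, h3, h4⟩ := ih (fun i hi => h0 i (mem_insert_of_mem hi))
      (fun i hi => h1 i (mem_insert_of_mem hi))
    have h5 := h0 j (mem_insert_self _ _)
    have h6 := h1 j (mem_insert_self _ _)
    rw [sum_insert hj, prod_insert hj]
    refine ⟨by nlinarith, by nlinarith, by nlinarith⟩

open Classical in
/-- With `Φ = pun` of `S i = {- z i}` for `i ∈ E' \ E`, `w = 1`: `1 - Φ(s)` is the indicator function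
for `s ∈ HS E`; `∑ κ Φ ≥ (1 - rho) ∏_{i ∈ E' \ E} (1 - 1 / n i) ≥ 1 - rho - ∑_{i ∈ E'} 1 / n i`. -/
theorem unit_av (sv : Finset ι) (hsv : ∀ i ∈ sv, (n i).Prime ∧ 8 ≤ n i) {E E' : Finset ι}
    (hE : E ⊆ E') (hE' : E' ⊆ sv) {J : ℕ} {a : Fin J → Gp n} {lam rho : ℝ} (hrho : 0 ≤ rho)
    (hG : GoodK (cw n sv) a lam E rho) (z : Gp n) (hz : ∀ i ∈ E, z i ≠ 0) :
    ∑ s, ka a lam E s * (if ∀ i ∈ E', (z + s) i ≠ 0 then 0 else 1) ≤
      rho + ∑ i ∈ E', 1 / (n i : ℝ) := by
  set S : ∀ i, Finset (ZMod (n i)) := fun i => if i ∈ E' \ E then {-(z i)} else ∅ with hS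
  set w : ι → ℝ := fun _ => 1 with hw
  have hcard : ∀ i, (S i).card = if i ∈ E' \ E then 1 else 0 := by
    intro i
    simp only [hS]
    split_ifs <;> simp
  have hPF : PF (cw n sv) E (pun w S) := by
    refine pf_pun sv w (fun i => zero_le_one) S ?_ ?_ E
    · intro i hi
      simp only [hS]
      rw [if_neg]
      intro h
      exact hi (hE' (mem_sdiff.1 h).1)
    · intro i hi
      refine ⟨?_, (hsv i hi).2⟩
      rw [hcard]
      split_ifs <;> omega
  have hav := ka_PF hG hPF
  have hEH : EH E (pun w S) = ∏ i ∈ E' \ E, (1 - 1 / (n i : ℝ)) := by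
    rw [EH_pun]
    have h1 : ∀ i, (if i ∈ E then (if (0 : ZMod (n i)) ∈ S i then 0 else w i)
      else w i * (1 - ((S i).card : ℝ) / (n i : ℝ))) =
      if i ∈ E' \ E then (1 - 1 / (n i : ℝ)) else 1 := by
      intro i
      by_cases h2 : i ∈ E
      · have h3 : i ∉ E' \ E := fun h => (mem_sdiff.1 h).2 h2
        have h4 : (0 : ZMod (n i)) ∉ S i := by
          simp only [hS]
          rw [if_neg h3]
          simp
        rw [if_pos h2, if_neg h4, if_neg h3]
      · rw [if_neg h2, hcard]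
        by_cases h3 : i ∈ E' \ E
        · rw [if_pos h3, if_pos h3]
          simp [hw]
        · rw [if_neg h3, if_neg h3]
          simp [hw]
    rw [prod_congr rfl fun i _ => h1 i, prod_ite_mem, univ_inter]
  obtain ⟨hm1, hm2, hm3⟩ := NuUnit_prod (E' \ E) (fun i => 1 / (n i : ℝ))
    (fun i _ => by positivity) (fun i hi => by
      have h8 : 8 ≤ n i := (hsv i (hE' (mem_sdiff.1 hi).1)).2
      have h8' : (8 : ℝ) ≤ n i := by exact_mod_cast h8
      rw [div_le_one (by linarith)]
      linarith)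
  rw [← hEH] at hm1 hm2 hm3
  have hsum : ∑ i ∈ E' \ E, 1 / (n i : ℝ) ≤ ∑ i ∈ E', 1 / (n i : ℝ) :=
    sum_le_sum_of_subset_of_nonneg sdiff_subset fun i _ _ => by positivity
  have hpt : ∀ s, ka a lam E s * (if ∀ i ∈ E', (z + s) i ≠ 0 then 0 else 1) =
      ka a lam E s - ka a lam E s * pun w S s := by
    intro s
    by_cases hs : s ∈ (HS E : Finset (Gp n))
    · rw [mem_HS] at hs
      by_cases h1 : ∀ i ∈ E', (z + s) i ≠ 0
      · have h2 : pun w S s = 1 := by
          unfold pun
          refine prod_eq_one fun i _ => ?_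
          rw [if_neg]
          intro h3
          simp only [hS] at h3
          by_cases h4 : i ∈ E' \ E
          · rw [if_pos h4, mem_singleton] at h3
            refine h1 i (mem_sdiff.1 h4).1 ?_
            rw [Pi.add_apply, h3, add_neg_cancel]
          · rw [if_neg h4] at h3
            exact absurd h3 (notMem_empty _)
        rw [if_pos h1, h2]
        ring
      · have h2 : pun w S s = 0 := by
          push_neg at h1
          obtain ⟨i, hi, h3⟩ := h1
          unfold pun
          refine prod_eq_zero (mem_univ i) ?_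
          rw [if_pos]
          have h4 : i ∈ E' \ E := by
            refine mem_sdiff.2 ⟨hi, fun h5 => hz i h5 ?_⟩
            rw [Pi.add_apply, hs i h5, add_zero] at h3
            exact h3
          simp only [hS]
          rw [if_pos h4, mem_singleton]
          rw [Pi.add_apply] at h3
          exact eq_neg_of_add_eq_zero_right h3
        rw [if_neg h1, h2]
        ring
    · rw [ka_of_not_mem a lam E hs]
      ring
  rw [sum_congr rfl fun s _ => hpt s, sum_sub_distrib, ka_sum]
  have h1 := (abs_le.1 hav).1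
  nlinarith

end Pool.Agent.Lib.MP_629a14_nt.Ml
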