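import Pool.Agent.Lib.MP_629a14_nt.Ml.SDefs
import Pool.Agent.Lib.MP_629a14_nt.Ml.KLow
import Pool.Agent.Lib.MP_629a14_nt.Ml.GoodC
import Pool.Agent.Lib.MP_629a14_nt.Ml.Clos
import Pool.Agent.Lib.MP_629a14_nt.Ml.NuOne
import Pool.Agent.Lib.MP_629a14_nt.Ml.NuUnit

/-! Basic facts for configurations. -/

set_option autoImplicit false

namespace Pool.Agent.Lib.MP_629a14_nt.Ml

open Finset

variable {ι : Type} [Fintype ι] [DecidableEq ι] {n : ι → ℕ} [∀ i, NeZero (n i)]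

/-- Numerical consequences: `e ≤ 10 ^ (-14) / k ^ 8`. -/
theorem Par.e_le (P : Par) : P.e ≤ 1 / (10 ^ 14 * (P.k : ℝ) ^ 8) := by
  have h1 := pow_le_pow_left₀ (Real.sqrt_nonneg P.e) P.he' 2
  rw [Real.sq_sqrt P.he.le] at h1
  refine h1.trans (le_of_eq ?_)
  rw [div_pow, mul_pow, ← pow_mul, ← pow_mul, one_pow]

private theorem SBase_k (P : Par) : (2 : ℝ) ≤ (P.k : ℝ) := by exact_mod_cast P.hk

private theorem SBase_e (P : Par) : P.e ≤ 1 / 10 ^ 14 := by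
  refine P.e_le.trans ?_
  have h1 : (1 : ℝ) ≤ (P.k : ℝ) ^ 8 := one_le_pow₀ (by have := SBase_k P; linarith)
  refine one_div_le_one_div_of_le (by positivity) ?_
  nlinarith

private theorem SBase_rho (P : Par) : P.rho ≤ P.e / 100 := by
  have h1 := SBase_e P
  have h2 := P.he
  have h3 := P.hrho'
  have h4 : P.e ^ 2 ≤ P.e := by nlinarith
  linarith

theorem Par.rho_le_one (P : Par) : P.rho ≤ 1 := by
  have h1 := SBase_e P
  have h2 := SBase_rho P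
  linarith

theorem cw_bounds (P : Par) {sv : Finset ι} (hl : ∀ i ∈ sv, P.y0 ≤ (n i : ℝ)) (i : ι) :
    0 ≤ cw n sv i ∧ cw n sv i ≤ 1 / 2 := by
  unfold cw
  split_ifs with h
  · have h1 := hl i h
    have h2 := P.hy0
    have h3 : (64 : ℝ) ≤ (n i : ℝ) := h2.trans h1
    refine ⟨by positivity, ?_⟩
    rw [div_le_div_iff₀ (by linarith) (by norm_num)]
    linarith
  · norm_num

private theorem SBase_pow (P : Par) (m : ℕ) (hm : m ≤ 4 * P.T) :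
    1 ≤ P.B ^ m ∧ P.B ^ m ≤ P.B ^ (4 * P.T) :=
  ⟨one_le_pow₀ P.hB, pow_le_pow_right₀ P.hB hm⟩

/-- `ZZ_lower` and `P.hDz`. -/
theorem ZZ_ge (P : Par) {J : ℕ} (hJ : J ≤ P.T) (a : Fin J → Gp n) (m : ℕ) (hm : m ≤ 4 * P.T)
    (E : Finset ι) : Real.exp (-P.Dz) ≤ ZZ a (P.B ^ m) E := by
  obtain ⟨h1, h2⟩ := SBase_pow P m hm
  exact (P.hDz J (P.B ^ m) hJ h1 h2).trans (ZZ_lower a (P.B ^ m) h1 E)

/-- `goodK_of_clo`, `P.hL` and `ZZ_ge`. -/
theorem good_ka (P : Par) {sv : Finset ι} (hl : ∀ i ∈ sv, P.y0 ≤ (n i : ℝ)) {J : ℕ}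
    (hJ : J ≤ P.T) {a : Fin J → Gp n} {E : Finset ι} (hclo : Clo (cw n sv) a P.L P.tau E)
    (m : ℕ) (hm : m ≤ 4 * P.T) : GoodK (cw n sv) a (P.B ^ m) E P.rho := by
  obtain ⟨h1, h2⟩ := SBase_pow P m hm
  have h0 : (0 : ℝ) ≤ P.B ^ m := by linarith
  refine goodK_of_clo (fun i => ?_) P.htau.le hclo (P.B ^ m) h0 P.rho ?_
  · have := cw_bounds P hl i
    exact ⟨this.1, by linarith [this.2]⟩
  · refine (P.hL J (P.B ^ m) hJ h0 h2).trans ?_
    exact mul_le_mul_of_nonneg_left (ZZ_ge P hJ a m hm E) P.hrho.le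

/-- `EQ_le` and `ZZ_ge`. -/
theorem EQ_ka (P : Par) {J : ℕ} (hJ : J ≤ P.T) (a : Fin J → Gp n) (m : ℕ) (hm : m ≤ 4 * P.T)
    (E : Finset ι) : ∑ s, ka a (P.B ^ m) E s * QQ a s ≤ P.Dz / P.B ^ m := by
  obtain ⟨h1, h2⟩ := SBase_pow P m hm
  have h0 : (0 : ℝ) < P.B ^ m := by linarith
  refine (EQ_le a (P.B ^ m) h0 E).trans ?_
  refine div_le_div_of_nonneg_right ?_ h0.le
  rw [one_div, Real.log_inv]
  have h3 := Real.log_le_log (Real.exp_pos _) (ZZ_ge P hJ a m hm E)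
  rw [Real.log_exp] at h3
  linarith

private theorem SBase_prod (y0 : ℝ) (hy0 : 64 ≤ y0) (E : Finset ι)
    (hl : ∀ i ∈ E, y0 ≤ (n i : ℝ)) :
    1 ≤ mE n E ∧ mE n E ≤ Real.exp (2 * (E.card : ℝ) / y0) := by
  unfold mE
  induction E using Finset.induction_on with
  | empty => simp
  | insert j T hj ih =>
    obtain ⟨h1, h2⟩ := ih (fun i hi => hl i (mem_insert_of_mem hi))
    have h3 := hl j (mem_insert_self _ _)
    rw [prod_insert hj, card_insert_of_notMem hj]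
    have h4 : (64 : ℝ) ≤ (n j : ℝ) := hy0.trans h3
    have h5 : (0 : ℝ) < (n j : ℝ) - 1 := by linarith
    have h6 : (1 : ℝ) ≤ (n j : ℝ) / ((n j : ℝ) - 1) := by
      rw [le_div_iff₀ h5]; linarith
    have h7 : (n j : ℝ) / ((n j : ℝ) - 1) ≤ Real.exp (2 / y0) := by
      have h8 := Real.add_one_le_exp (2 / y0)
      refine le_trans ?_ h8
      have hy : (0 : ℝ) < y0 := by linarith
      rw [div_add_one hy.ne', div_le_div_iff₀ h5 hy]
      nlinarith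
    refine ⟨by nlinarith, ?_⟩
    have h9 : (2 * ((T.card + 1 : ℕ) : ℝ) / y0) = 2 / y0 + 2 * (T.card : ℝ) / y0 := by
      push_cast; ring
    rw [h9, Real.exp_add]
    exact mul_le_mul h7 h2 (by linarith) (Real.exp_pos _).le

/-- `mE = ∏ (1 + 1 / (n - 1)) ≤ exp (2 card E / y0)`. -/
theorem mE_bounds (P : Par) {sv : Finset ι} (hl : ∀ i ∈ sv, P.y0 ≤ (n i : ℝ)) {E : Finset ι}
    (hE : E ⊆ sv) (hc : E.card ≤ P.T * (P.r * P.Kc)) :
    1 ≤ mE n E ∧ mE n E ≤ 1 + P.e ^ 2 / 100 := by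
  obtain ⟨h1, h2⟩ := SBase_prod P.y0 P.hy0 E (fun i hi => hl i (hE hi))
  refine ⟨h1, h2.trans (le_trans ?_ P.hm)⟩
  rw [Real.exp_le_exp]
  have hy : (0 : ℝ) < P.y0 := by linarith [P.hy0]
  refine div_le_div_of_nonneg_right ?_ hy.le
  have h3 : (E.card : ℝ) ≤ (P.T * (P.r * P.Kc) : ℝ) := by exact_mod_cast hc
  linarith

/-- `closure` for the characters `nxt a ξ` (`j + 1 ≤ T`), with `c = cw n sv`; elements with
`cw n sv i > tau > 0` are in `sv` and satisfy `n i < 8 / tau`. -/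
theorem next_clo (P : Par) {sv : Finset ι} (hl : ∀ i ∈ sv, P.y0 ≤ (n i : ℝ)) {j : ℕ}
    (hj : j < P.T) (a : Fin j → Gp n) (E : Finset ι) (hE : E ⊆ sv)
    (hc : E.card ≤ j * (P.r * P.Kc)) (hs : ∀ i ∈ E, (n i : ℝ) ≤ 8 / P.tau) (ξ : Gp n) :
    ∃ E' : Finset ι, E ⊆ E' ∧ E' ⊆ sv ∧ Clo (cw n sv) (nxt a ξ) P.L P.tau E' ∧
      E'.card ≤ (j + 1) * (P.r * P.Kc) ∧ ∀ i ∈ E', (n i : ℝ) ≤ 8 / P.tau := by
  have hr : (2 * P.r * P.L + 1) ^ (j + 1) < 2 ^ P.r :=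
    lt_of_le_of_lt (Nat.pow_le_pow_right (by omega) hj) P.hr
  obtain ⟨E', h1, h2, h3, h4⟩ := closure (cw_bounds P hl) (nxt a ξ) P.L P.r P.Kc P.tau P.htau hr
    P.hKc E
  have hcw : ∀ i, P.tau < cw n sv i → i ∈ sv ∧ (n i : ℝ) ≤ 8 / P.tau := by
    intro i hi
    unfold cw at hi
    split_ifs at hi with h
    · refine ⟨h, ?_⟩
      have h5 : (64 : ℝ) ≤ (n i : ℝ) := P.hy0.trans (hl i h)
      have h6 : (0 : ℝ) < (n i : ℝ) := by linarith
      rw [lt_div_iff₀ h6] at hi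
      rw [le_div_iff₀ P.htau]
      linarith [mul_comm (n i : ℝ) P.tau]
    · exact absurd hi (not_lt.2 P.htau.le)
  refine ⟨E', h1, ?_, h2, ?_, ?_⟩
  · intro i hi
    rcases h4 i hi with h | h
    · exact hE h
    · exact (hcw i h).1
  · refine h3.trans ?_
    rw [add_mul, one_mul]
    omega
  · intro i hi
    rcases h4 i hi with h | h
    · exact hs i h
    · exact (hcw i h).2

theorem QQ_nxt (hodd : ∀ i, Odd (n i)) {j : ℕ} (a : Fin j → Gp n) (ξ t : Gp n) :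
    QQ a t ≤ 4 * QQ (nxt a ξ) t ∧ QQ a (half * t) ≤ QQ (nxt a ξ) t ∧
      1 - (psi (ξ * t)).re ≤ QQ (nxt a ξ) t := by
  have h1 : QQ (nxt a ξ) t = (1 - (psi (ξ * t)).re) + QQ (fun i => half * a i) t := by
    unfold nxt
    exact QQ_cons _ _ _
  have h2 := QQ_le_half hodd a t
  have h3 := QQ_half_mul a t
  have h4 := re_psi_le (ξ * t)
  have h5 := QQ_nonneg (fun i => half * a i) t
  rw [h1]
  refine ⟨by linarith, by linarith, by linarith⟩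

/-- The right side is a bound for all shift errors. -/
theorem shift_num (P : Par) (q : ℝ) (hq : q ≤ 40 * P.Dz / P.B) (M : ℝ) (hM : M ≤ 3) (hM0 : 0 ≤ M) :
    3 * Real.sqrt (q + 4 * P.rho) * M ≤ P.e := by
  have h1 : Real.sqrt (q + 4 * P.rho) ≤ Real.sqrt (40 * P.Dz / P.B + 4 * P.rho) :=
    Real.sqrt_le_sqrt (by linarith)
  have h2 := P.hq
  have h3 := Real.sqrt_nonneg (q + 4 * P.rho)
  have h4 : Real.sqrt (q + 4 * P.rho) * M ≤ Real.sqrt (q + 4 * P.rho) * 3 :=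
    mul_le_mul_of_nonneg_left hM h3
  linarith

private theorem SBase_sv (P : Par) {sv : Finset ι} {F : Fin P.k → Gp n → ℝ} {D : Gp n → ℝ}
    (hS : Sys P sv F D) : ∀ i ∈ sv, (n i).Prime ∧ 8 ≤ n i := by
  intro i hi
  refine ⟨hS.prime i hi, ?_⟩
  have h1 : (64 : ℝ) ≤ (n i : ℝ) := P.hy0.trans (hS.large i hi)
  have h2 : (64 : ℕ) ≤ n i := by exact_mod_cast h1
  omega

/-- `0 ≤ av κ (F i) z`, the sum over `i` is `av κ (nuS sv) z`, which is at most `1 + e` (it is `0` if `z`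
vanishes somewhere on `E`). -/
theorem av_F_bounds (P : Par) {sv : Finset ι} {F : Fin P.k → Gp n → ℝ} {D : Gp n → ℝ}
    (hS : Sys P sv F D) {J : ℕ} (hJ : J ≤ P.T) {a : Fin J → Gp n} {E : Finset ι} (hE : E ⊆ sv)
    (hc : E.card ≤ P.T * (P.r * P.Kc)) (hclo : Clo (cw n sv) a P.L P.tau E)
    (m : ℕ) (hm : m ≤ 4 * P.T) (z : Gp n) :
    (∀ i, 0 ≤ av (ka a (P.B ^ m) E) (F i) z) ∧
      (∑ i, av (ka a (P.B ^ m) E) (F i) z ≤ 1 + P.e) ∧
      ((∀ i ∈ E, z i ≠ 0) → 1 - P.e ≤ ∑ i, av (ka a (P.B ^ m) E) (F i) z) ∧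
      ((¬ ∀ i ∈ E, z i ≠ 0) → ∑ i, av (ka a (P.B ^ m) E) (F i) z = 0) ∧
      0 ≤ av (ka a (P.B ^ m) E) D z ∧ av (ka a (P.B ^ m) E) D z ≤ 1 := by
  have hsv := SBase_sv P hS
  have hG := good_ka P hS.large hJ hclo m hm
  obtain ⟨hm1, hm2⟩ := mE_bounds P hS.large hE hc
  have hk := ka_nonneg a (P.B ^ m) E
  have hsum : ∑ i, av (ka a (P.B ^ m) E) (F i) z = av (ka a (P.B ^ m) E) (nuS sv) z := by
    unfold av
    rw [sum_comm]
    refine sum_congr rfl fun s _ => ?_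
    rw [← mul_sum, hS.F_sum]
  have he := SBase_e P
  have he0 := P.he
  have hr := P.hrho'
  have hr0 := P.hrho
  have hr2 := SBase_rho P
  have hlo : (∀ i ∈ E, z i ≠ 0) → 1 - P.e ≤ ∑ i, av (ka a (P.B ^ m) E) (F i) z := by
    intro hz
    have h1 := nu_av sv hsv hE hG z hz
    rw [abs_le] at h1
    rw [hsum]
    nlinarith [h1.1]
  have h0 : (¬ ∀ i ∈ E, z i ≠ 0) → ∑ i, av (ka a (P.B ^ m) E) (F i) z = 0 := by
    intro hz
    rw [hsum]
    exact nu_av_zero sv hE a _ z hz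
  refine ⟨fun i => ?_, ?_, hlo, h0, ?_, ?_⟩
  · exact sum_nonneg fun s _ => mul_nonneg (hk s) (hS.F_nonneg i _)
  · by_cases hz : ∀ i ∈ E, z i ≠ 0
    · have h1 := nu_av sv hsv hE hG z hz
      rw [abs_le] at h1
      rw [hsum]
      have h2 : av (ka a (P.B ^ m) E) (nuS sv) z ≤ (1 + P.rho) * mE n E := by linarith [h1.2]
      have h3 : (1 + P.rho) * mE n E ≤ (1 + P.rho) * (1 + P.e ^ 2 / 100) :=
        mul_le_mul_of_nonneg_left hm2 (by linarith)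
      have h4 : P.e ^ 2 ≤ P.e := by nlinarith
      have h5 : P.e ^ 2 ≤ 1 := by nlinarith
      nlinarith
    · rw [h0 hz]
      linarith
  · refine sum_nonneg fun s _ => mul_nonneg (hk s) ?_
    rcases hS.D_val (z + s) with h | h <;> rw [h]
    exact zero_le_one
  · unfold av
    rw [← ka_sum a (P.B ^ m) E]
    refine sum_le_sum fun s _ => ?_
    rcases hS.D_val (z + s) with h | h <;> rw [h]
    · rw [mul_zero]; exact hk s
    · rw [mul_one]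

open Classical in
/-- `unit_av` with `∑_{i ∈ E'} 1 / n i ≤ card E' / y0` and `P.hu`. -/
theorem unit_ka (P : Par) {sv : Finset ι} {F : Fin P.k → Gp n → ℝ} {D : Gp n → ℝ}
    (hS : Sys P sv F D) {J : ℕ} (hJ : J ≤ P.T) {a : Fin J → Gp n} {E E' : Finset ι}
    (hE : E ⊆ E') (hE' : E' ⊆ sv) (hc : E'.card ≤ P.T * (P.r * P.Kc))
    (hclo : Clo (cw n sv) a P.L P.tau E)
    (m : ℕ) (hm : m ≤ 4 * P.T) (z : Gp n) (hz : ∀ i ∈ E, z i ≠ 0) :
    ∑ s, ka a (P.B ^ m) E s * (if ∀ i ∈ E', (z + s) i ≠ 0 then 0 else 1) ≤ P.e := by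
  have hG := good_ka P hS.large hJ hclo m hm
  refine (unit_av sv (SBase_sv P hS) hE hE' P.hrho.le hG z hz).trans (le_trans ?_ P.hu)
  have hy : (0 : ℝ) < P.y0 := by linarith [P.hy0]
  have h1 : ∑ i ∈ E', 1 / (n i : ℝ) ≤ ∑ i ∈ E', 1 / P.y0 := by
    refine sum_le_sum fun i hi => ?_
    exact one_div_le_one_div_of_le hy (hS.large i (hE' hi))
  rw [sum_const, nsmul_eq_mul] at h1
  have h2 : (E'.card : ℝ) * (1 / P.y0) ≤ P.T * (P.r * P.Kc) / P.y0 := by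
    rw [mul_one_div]
    refine div_le_div_of_nonneg_right ?_ hy.le
    exact_mod_cast hc
  linarith

end Pool.Agent.Lib.MP_629a14_nt.Ml
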