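import Pool.Agent.Lib.MP_629a14_nt.Ml.NuTwo

/-! The weight of the Cauchy-Schwarz argument is one on average. -/

set_option autoImplicit false

namespace Pool.Agent.Lib.MP_629a14_nt.Ml

open Finset

variable {ι : Type} [Fintype ι] [DecidableEq ι] {n : ι → ℕ} [∀ i, NeZero (n i)]

/-- The weight. -/
noncomputable def WW (sv : Finset ι) (κ : Gp n → ℝ) (z u u' v v' : Gp n) : ℝ :=
  ∑ s, κ s * ((nuS sv (z + s + (u + u)) * nuS sv (z + s + (u' + u'))) *
    (nuS sv (z - s + (v + v)) * nuS sv (z - s + (v' + v'))))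

/-- Factorisation of the sums. -/
private theorem wm_quad {S : Type} [Fintype S] {G : Type} [Fintype G] (κ : S → ℝ) (p q : G → ℝ)
    (A B : S → G → ℝ) :
    ∑ u, ∑ u', ∑ v, ∑ v', p u * p u' * q v * q v' *
      ∑ s, κ s * ((A s u * A s u') * (B s v * B s v')) =
    ∑ s, κ s * ((∑ u, p u * A s u) ^ 2 * (∑ v, q v * B s v) ^ 2) := by
  have h1 : ∀ s, κ s * ((∑ u, p u * A s u) ^ 2 * (∑ v, q v * B s v) ^ 2) =
      ∑ u, ∑ u', ∑ v, ∑ v', p u * p u' * q v * q v' *
        (κ s * ((A s u * A s u') * (B s v * B s v'))) := by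
    intro s
    have e1 : (∑ v, q v * B s v) ^ 2 = ∑ v, ∑ v', (q v * B s v) * (q v' * B s v') := by
      rw [sq, sum_mul_sum]
    have e2 : (∑ u, p u * A s u) ^ 2 = ∑ u, ∑ u', (p u * A s u) * (p u' * A s u') := by
      rw [sq, sum_mul_sum]
    rw [e2, sum_mul, mul_sum]
    refine sum_congr rfl fun u _ => ?_
    rw [sum_mul, mul_sum]
    refine sum_congr rfl fun u' _ => ?_
    rw [e1, mul_sum, mul_sum]
    refine sum_congr rfl fun v _ => ?_
    rw [mul_sum, mul_sum]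
    refine sum_congr rfl fun v' _ => ?_
    ring
  rw [sum_congr rfl fun s _ => h1 s]
  symm
  refine sum_comm.trans (sum_congr rfl fun u _ => ?_)
  refine sum_comm.trans (sum_congr rfl fun u' _ => ?_)
  refine sum_comm.trans (sum_congr rfl fun v _ => ?_)
  refine sum_comm.trans (sum_congr rfl fun v' _ => ?_)
  rw [mul_sum]

private theorem wm_mE_ge (sv : Finset ι) (hsv : ∀ i ∈ sv, (n i).Prime ∧ 32 ≤ n i) {E : Finset ι}
    (hE : E ⊆ sv) : 1 ≤ mE n E := by
  unfold mE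
  have h : ∏ i ∈ E, (1 : ℝ) ≤ ∏ i ∈ E, ((n i : ℝ) / ((n i : ℝ) - 1)) := by
    refine prod_le_prod (fun _ _ => zero_le_one) fun i hi => ?_
    have h1 : (32 : ℝ) ≤ n i := by exact_mod_cast (hsv i (hE hi)).2
    rw [le_div_iff₀ (by linarith)]
    linarith
  rwa [prod_const_one] at h

private theorem wm_sum4 (P Q : Gp n → ℝ) (hP : ∑ u, P u = 1) (hQ : ∑ v, Q v = 1) :
    ∑ u, ∑ u', ∑ v, ∑ v', P u * P u' * Q v * Q v' = 1 := by
  have h1 : ∀ u u' v, ∑ v', P u * P u' * Q v * Q v' = P u * P u' * Q v := by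
    intro u u' v
    rw [← mul_sum, hQ, mul_one]
  have h2 : ∀ u u', ∑ v, P u * P u' * Q v = P u * P u' := by
    intro u u'
    rw [← mul_sum, hQ, mul_one]
  have h3 : ∀ u, ∑ u', P u * P u' = P u := by
    intro u
    rw [← mul_sum, hP, mul_one]
  simp only [h1, h2, h3, hP]

/-- Interchange the sums: for fixed `s ∈ HS E` (so that `z + s`, `z - s` do not vanish on `E`) the
average over `u, u', v, v'` is a product of four averages, each `≥ (1 - rho) mE ≥ 1 - rho` by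
`nu_av_two`. -/
theorem w_first (sv : Finset ι) (hsv : ∀ i ∈ sv, (n i).Prime ∧ 32 ≤ n i) {E : Finset ι}
    (hE : E ⊆ sv) {J : ℕ} {a : Fin J → Gp n} {la lb lc rho : ℝ} (hrho : 0 ≤ rho) (hrho1 : rho ≤ 1)
    (hGa : GoodK (cw n sv) a la E rho) (hGb : GoodK (cw n sv) a lb E rho)
    (hGc : GoodK (cw n sv) a lc E rho) (z : Gp n) (hz : ∀ i ∈ E, z i ≠ 0) :
    (1 - rho) ^ 4 ≤ ∑ u, ∑ u', ∑ v, ∑ v', ka a lb E u * ka a lb E u' * ka a lc E v *
      ka a lc E v' * WW sv (ka a la E) z u u' v v' := by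
  have hsv8 : ∀ i ∈ sv, (n i).Prime ∧ 8 ≤ n i := fun i hi =>
    ⟨(hsv i hi).1, (by norm_num : 8 ≤ 32).trans (hsv i hi).2⟩
  have hmE := wm_mE_ge sv hsv hE
  unfold WW
  have hq := wm_quad (ka a la E) (ka a lb E) (ka a lc E)
    (fun s u => nuS sv (z + s + (u + u))) (fun s v => nuS sv (z - s + (v + v)))
  rw [hq]
  have h1 : (1 - rho) ^ 4 = ∑ s, ka a la E s * (1 - rho) ^ 4 := by
    rw [← sum_mul, ka_sum, one_mul]
  rw [h1]
  refine sum_le_sum fun s _ => ?_
  by_cases hs : s ∈ (HS E : Finset (Gp n))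
  · refine mul_le_mul_of_nonneg_left ?_ (ka_nonneg a la E s)
    have hs0 := (mem_HS E s).1 hs
    have hy1 : ∀ i ∈ E, (z + s) i ≠ 0 := by
      intro i hi
      rw [Pi.add_apply, hs0 i hi, add_zero]
      exact hz i hi
    have hy2 : ∀ i ∈ E, (z - s) i ≠ 0 := by
      intro i hi
      rw [Pi.sub_apply, hs0 i hi, sub_zero]
      exact hz i hi
    have g1 := (abs_le.1 (nu_av_two sv hsv8 hE hGb (z + s) hy1)).1
    have g2 := (abs_le.1 (nu_av_two sv hsv8 hE hGc (z - s) hy2)).1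
    unfold av2 at g1 g2
    have k1 : 1 - rho ≤ ∑ u, ka a lb E u * nuS sv (z + s + (u + u)) := by nlinarith
    have k2 : 1 - rho ≤ ∑ v, ka a lc E v * nuS sv (z - s + (v + v)) := by nlinarith
    have k0 : 0 ≤ 1 - rho := by linarith
    calc (1 - rho) ^ 4 = (1 - rho) ^ 2 * (1 - rho) ^ 2 := by ring
      _ ≤ _ := by gcongr
  · rw [ka_of_not_mem a la E hs, zero_mul, zero_mul]

/-- `W ^ 2 = ∑ s, s', κ(s) κ(s') (8 factors)`; for fixed `s, s' ∈ HS E` the average over `u` of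
`nuS (z + s + 2u) nuS (z + s' + 2u)` is at most `(1 + rho) mE ^ 2 coi (z + s) (z + s')`
(`nu_two`), the same for `u'`, `v`, `v'` (with `z - s`, `z - s'`), and all these `coi` equal
`coi s s'`. So the sum is at most
`(1 + rho) ^ 4 mE ^ 8 ∑ s s', κ(s) κ(s') coi s s' ^ 4`, and `coi_av` applies for fixed `s'`. -/
theorem w_second (sv : Finset ι) (hsv : ∀ i ∈ sv, (n i).Prime ∧ 32 ≤ n i) {E : Finset ι}
    (hE : E ⊆ sv) {J : ℕ} {a : Fin J → Gp n} {la lb lc rho : ℝ} (hrho : 0 ≤ rho) (hrho1 : rho ≤ 1)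
    (hGa : GoodK (cw n sv) a la E rho) (hGb : GoodK (cw n sv) a lb E rho)
    (hGc : GoodK (cw n sv) a lc E rho) (z : Gp n) (hz : ∀ i ∈ E, z i ≠ 0) :
    ∑ u, ∑ u', ∑ v, ∑ v', ka a lb E u * ka a lb E u' * ka a lc E v *
      ka a lc E v' * WW sv (ka a la E) z u u' v v' ^ 2 ≤
      (1 + rho) ^ 5 * mE n E ^ 8 * Real.exp (9 * ∑ i ∈ sv, 1 / (n i : ℝ) ^ 2) := by
  have hsv8 : ∀ i ∈ sv, (n i).Prime ∧ 8 ≤ n i := fun i hi =>
    ⟨(hsv i hi).1, (by norm_num : 8 ≤ 32).trans (hsv i hi).2⟩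
  have hmE := wm_mE_ge sv hsv hE
  have hmE0 : 0 ≤ mE n E := by linarith
  -- the square as a sum over pairs
  have hsq : ∀ u u' v v', WW sv (ka a la E) z u u' v v' ^ 2 =
      ∑ s : Gp n × Gp n, (ka a la E s.1 * ka a la E s.2) *
        (((nuS sv (z + s.1 + (u + u)) * nuS sv (z + s.2 + (u + u))) *
          (nuS sv (z + s.1 + (u' + u')) * nuS sv (z + s.2 + (u' + u')))) *
        ((nuS sv (z - s.1 + (v + v)) * nuS sv (z - s.2 + (v + v))) *
          (nuS sv (z - s.1 + (v' + v')) * nuS sv (z - s.2 + (v' + v'))))) := by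
    intro u u' v v'
    unfold WW
    rw [sq, sum_mul_sum, Fintype.sum_prod_type]
    refine sum_congr rfl fun s _ => sum_congr rfl fun s' _ => ?_
    ring
  simp only [hsq]
  have hq := wm_quad (fun s : Gp n × Gp n => ka a la E s.1 * ka a la E s.2) (ka a lb E) (ka a lc E)
    (fun s u => nuS sv (z + s.1 + (u + u)) * nuS sv (z + s.2 + (u + u)))
    (fun s v => nuS sv (z - s.1 + (v + v)) * nuS sv (z - s.2 + (v + v)))
  rw [hq]
  have hcoi1 : ∀ s s' : Gp n, coi sv E (z + s) (z + s') = coi sv E s s' := by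
    intro s s'
    unfold coi
    refine prod_congr rfl fun i _ => ?_
    rw [Pi.add_apply, Pi.add_apply]
    by_cases h : s i = s' i
    · rw [if_pos h, if_pos (by rw [h])]
    · rw [if_neg h, if_neg (fun h2 => h (add_left_cancel h2))]
  have hcoi2 : ∀ s s' : Gp n, coi sv E (z - s) (z - s') = coi sv E s s' := by
    intro s s'
    unfold coi
    refine prod_congr rfl fun i _ => ?_
    rw [Pi.sub_apply, Pi.sub_apply]
    by_cases h : s i = s' i
    · rw [if_pos h, if_pos (by rw [h])]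
    · rw [if_neg h, if_neg (fun h2 => h (sub_right_injective h2))]
  have hterm : ∀ s : Gp n × Gp n, (ka a la E s.1 * ka a la E s.2) *
      ((∑ u, ka a lb E u * (nuS sv (z + s.1 + (u + u)) * nuS sv (z + s.2 + (u + u)))) ^ 2 *
        (∑ v, ka a lc E v * (nuS sv (z - s.1 + (v + v)) * nuS sv (z - s.2 + (v + v)))) ^ 2) ≤
      (ka a la E s.1 * ka a la E s.2) * (((1 + rho) * mE n E ^ 2) ^ 4 * coi sv E s.1 s.2 ^ 4) := by
    rintro ⟨s, s'⟩
    simp only
    by_cases hs : s ∈ (HS E : Finset (Gp n))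
    · by_cases hs' : s' ∈ (HS E : Finset (Gp n))
      · refine mul_le_mul_of_nonneg_left ?_
          (mul_nonneg (ka_nonneg a la E s) (ka_nonneg a la E s'))
        have hs0 := (mem_HS E s).1 hs
        have hs0' := (mem_HS E s').1 hs'
        have hy1 : ∀ i ∈ E, (z + s) i ≠ 0 := by
          intro i hi
          rw [Pi.add_apply, hs0 i hi, add_zero]
          exact hz i hi
        have hy2 : ∀ i ∈ E, (z - s) i ≠ 0 := by
          intro i hi
          rw [Pi.sub_apply, hs0 i hi, sub_zero]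
          exact hz i hi
        have hy1' : ∀ i ∈ E, (z + s') i ≠ 0 := by
          intro i hi
          rw [Pi.add_apply, hs0' i hi, add_zero]
          exact hz i hi
        have hy2' : ∀ i ∈ E, (z - s') i ≠ 0 := by
          intro i hi
          rw [Pi.sub_apply, hs0' i hi, sub_zero]
          exact hz i hi
        have g1 := nu_two sv hsv8 hE hrho hGb (z + s) (z + s') hy1 hy1'
        have g2 := nu_two sv hsv8 hE hrho hGc (z - s) (z - s') hy2 hy2'
        rw [hcoi1] at g1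
        rw [hcoi2] at g2
        have n1 : 0 ≤ ∑ u, ka a lb E u * (nuS sv (z + s + (u + u)) * nuS sv (z + s' + (u + u))) :=
          sum_nonneg fun u _ => mul_nonneg (ka_nonneg a lb E u)
            (mul_nonneg (nuS_nonneg _ _) (nuS_nonneg _ _))
        have n2 : 0 ≤ ∑ v, ka a lc E v * (nuS sv (z - s + (v + v)) * nuS sv (z - s' + (v + v))) :=
          sum_nonneg fun v _ => mul_nonneg (ka_nonneg a lc E v)
            (mul_nonneg (nuS_nonneg _ _) (nuS_nonneg _ _))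
        calc _ ≤ ((1 + rho) * mE n E ^ 2 * coi sv E s s') ^ 2 *
              ((1 + rho) * mE n E ^ 2 * coi sv E s s') ^ 2 := by gcongr
          _ = _ := by ring
      · rw [ka_of_not_mem a la E hs', mul_zero, zero_mul, zero_mul]
    · rw [ka_of_not_mem a la E hs, zero_mul, zero_mul, zero_mul]
  refine (sum_le_sum fun s _ => hterm s).trans ?_
  rw [Fintype.sum_prod_type_right]
  simp only
  have hin : ∀ s' : Gp n, ∑ s : Gp n, (ka a la E s * ka a la E s') *
      (((1 + rho) * mE n E ^ 2) ^ 4 * coi sv E s s' ^ 4) ≤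
      ka a la E s' * (((1 + rho) * mE n E ^ 2) ^ 4 *
        ((1 + rho) * Real.exp (9 * ∑ i ∈ sv, 1 / (n i : ℝ) ^ 2))) := by
    intro s'
    have h1 : ∑ s : Gp n, (ka a la E s * ka a la E s') *
        (((1 + rho) * mE n E ^ 2) ^ 4 * coi sv E s s' ^ 4) =
        ka a la E s' * (((1 + rho) * mE n E ^ 2) ^ 4 * ∑ s, ka a la E s * coi sv E s s' ^ 4) := by
      rw [mul_sum, mul_sum]
      refine sum_congr rfl fun s _ => ?_
      ring
    rw [h1]
    refine mul_le_mul_of_nonneg_left ?_ (ka_nonneg a la E s')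
    exact mul_le_mul_of_nonneg_left (coi_av sv hsv hrho hGa s') (by positivity)
  refine (sum_le_sum fun s' _ => hin s').trans ?_
  rw [← sum_mul, ka_sum, one_mul]
  apply le_of_eq
  ring

/-- Cauchy-Schwarz and `|W - 1| ^ 2 = W ^ 2 - 2 W + 1`. -/
theorem w_dist (sv : Finset ι) (hsv : ∀ i ∈ sv, (n i).Prime ∧ 32 ≤ n i) {E : Finset ι}
    (hE : E ⊆ sv) {J : ℕ} {a : Fin J → Gp n} {la lb lc rho : ℝ} (hrho : 0 ≤ rho) (hrho1 : rho ≤ 1)
    (hGa : GoodK (cw n sv) a la E rho) (hGb : GoodK (cw n sv) a lb E rho)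
    (hGc : GoodK (cw n sv) a lc E rho) (z : Gp n) (hz : ∀ i ∈ E, z i ≠ 0) :
    ∑ u, ∑ u', ∑ v, ∑ v', ka a lb E u * ka a lb E u' * ka a lc E v *
      ka a lc E v' * |WW sv (ka a la E) z u u' v v' - 1| ≤
      Real.sqrt ((1 + rho) ^ 5 * mE n E ^ 8 * Real.exp (9 * ∑ i ∈ sv, 1 / (n i : ℝ) ^ 2) -
        2 * (1 - rho) ^ 4 + 1) := by
  have h1 := w_first sv hsv hE hrho hrho1 hGa hGb hGc z hz
  have h2 := w_second sv hsv hE hrho hrho1 hGa hGb hGc z hz
  have h0 := wm_sum4 (ka a lb E) (ka a lc E) (ka_sum a lb E) (ka_sum a lc E)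
  set P : Gp n → Gp n → Gp n → Gp n → ℝ := fun u u' v v' =>
    ka a lb E u * ka a lb E u' * ka a lc E v * ka a lc E v' with hP
  set W : Gp n → Gp n → Gp n → Gp n → ℝ := fun u u' v v' => WW sv (ka a la E) z u u' v v' with hW
  have hPn : ∀ u u' v v', 0 ≤ P u u' v v' := by
    intro u u' v v'
    exact mul_nonneg (mul_nonneg (mul_nonneg (ka_nonneg a lb E u) (ka_nonneg a lb E u'))
      (ka_nonneg a lc E v)) (ka_nonneg a lc E v')
  change (1 - rho) ^ 4 ≤ ∑ u, ∑ u', ∑ v, ∑ v', P u u' v v' * W u u' v v' at h1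
  change ∑ u, ∑ u', ∑ v, ∑ v', P u u' v v' * W u u' v v' ^ 2 ≤ _ at h2
  change ∑ u, ∑ u', ∑ v, ∑ v', P u u' v v' = 1 at h0
  change ∑ u, ∑ u', ∑ v, ∑ v', P u u' v v' * |W u u' v v' - 1| ≤ _
  set M : ℝ := ∑ u, ∑ u', ∑ v, ∑ v', P u u' v v' * |W u u' v v' - 1| with hM
  have hM0 : 0 ≤ M := sum_nonneg fun u _ => sum_nonneg fun u' _ => sum_nonneg fun v _ =>
    sum_nonneg fun v' _ => mul_nonneg (hPn u u' v v') (abs_nonneg _)
  apply Real.le_sqrt_of_sq_le
  have key : 0 ≤ ∑ u, ∑ u', ∑ v, ∑ v', P u u' v v' * (|W u u' v v' - 1| - M) ^ 2 :=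
    sum_nonneg fun u _ => sum_nonneg fun u' _ => sum_nonneg fun v _ =>
      sum_nonneg fun v' _ => mul_nonneg (hPn u u' v v') (sq_nonneg _)
  have hex : ∑ u, ∑ u', ∑ v, ∑ v', P u u' v v' * (|W u u' v v' - 1| - M) ^ 2 =
      ∑ u, ∑ u', ∑ v, ∑ v', P u u' v v' * W u u' v v' ^ 2 -
        2 * (∑ u, ∑ u', ∑ v, ∑ v', P u u' v v' * W u u' v v') +
        (1 + M ^ 2) * (∑ u, ∑ u', ∑ v, ∑ v', P u u' v v') - 2 * M * M := by
    nth_rewrite 4 [hM]
    simp only [mul_sum, ← sum_sub_distrib, ← sum_add_distrib]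
    refine sum_congr rfl fun u _ => sum_congr rfl fun u' _ => sum_congr rfl fun v _ =>
      sum_congr rfl fun v' _ => ?_
    have := sq_abs (W u u' v v' - 1)
    linear_combination (P u u' v v') * this
  rw [hex, h0] at key
  linarith

end Pool.Agent.Lib.MP_629a14_nt.Ml
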