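import Pool.Agent.Lib.MP_629a14_nt.Ml.Cnt
import Pool.Agent.Lib.MP_629a14_nt.Ml.SBase
import Pool.Agent.Lib.MP_629a14_nt.Ml.Wmom
import Pool.Agent.Lib.MP_629a14_nt.Ml.Gcs

/-! The local Gowers norm of the balanced indicator function is large. -/

set_option autoImplicit false

namespace Pool.Agent.Lib.MP_629a14_nt.Ml

open Finset

variable {ι : Type} [Fintype ι] [DecidableEq ι] {n : ι → ℕ} [∀ i, NeZero (n i)]

private theorem BigN_k (P : Par) : (2 : ℝ) ≤ P.k := by exact_mod_cast P.hk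

/-- `e` is small -/
private theorem BigN_e (P : Par) : P.e ≤ 1 / (10 ^ 14 * (P.k : ℝ) ^ 4) ∧ P.e ≤ 1 / 10 ^ 14 ∧
    Real.sqrt P.e ≤ 1 / (10 ^ 7 * (P.k : ℝ)) := by
  have hk := BigN_k P
  have hk1 : (1 : ℝ) ≤ P.k := by linarith
  have h1 := P.e_le
  have h2 : (1 : ℝ) ≤ (P.k : ℝ) ^ 4 := one_le_pow₀ hk1
  have h3 : (P.k : ℝ) ^ 4 ≤ (P.k : ℝ) ^ 8 := pow_le_pow_right₀ hk1 (by norm_num)
  have h4 : (P.k : ℝ) ≤ (P.k : ℝ) ^ 4 := le_self_pow₀ hk1 (by norm_num)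
  refine ⟨h1.trans ?_, h1.trans ?_, P.he'.trans ?_⟩
  · apply one_div_le_one_div_of_le (by positivity)
    gcongr
  · apply one_div_le_one_div_of_le (by positivity)
    nlinarith
  · apply one_div_le_one_div_of_le (by positivity)
    gcongr

private theorem BigN_tau (P : Par) : P.tau ≤ 1 := by
  have h0 : (1 : ℝ) ≤ P.B ^ (4 * P.T) := one_le_pow₀ P.hB
  have h1 := P.hDz 0 1 (Nat.zero_le _) le_rfl h0
  have h2 := P.hL 0 0 (Nat.zero_le _) le_rfl (by linarith)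
  have h3 := P.rho_le_one
  have h4 : (0 : ℝ) < Real.exp ((0 : ℕ) * 0) / 2 ^ P.L := by positivity
  have h5 : Real.exp (-P.Dz) ≤ 1 := by simpa using h1
  have h6 : P.rho * Real.exp (-P.Dz) ≤ 1 * 1 := by
    apply mul_le_mul h3 h5 (Real.exp_pos _).le zero_le_one
  linarith

/-- the upper bound for the number of configurations -/
private theorem BigN_up (P : Par) {sv : Finset ι} {F : Fin P.k → Gp n → ℝ} {D : Gp n → ℝ}
    (hS : Sys P sv F D) {j : ℕ} (hj : j < P.T) {a : Fin j → Gp n} {E : Finset ι} {z : Gp n}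
    (hC : Cfg P sv a E z) (m : ℕ) (hm : m ≤ 4 * P.T) :
    P.c0 * (∏ i ∈ E, (n i : ℝ)) / ZZ a (P.B ^ m) E ≤ 1 / (20 * (P.k : ℝ)) := by
  have h1 := ZZ_ge P hj.le a m hm E
  have h2 : ∏ i ∈ E, (n i : ℝ) ≤ (8 / P.tau) ^ (P.T * (P.r * P.Kc)) := by
    have ht := BigN_tau P
    have ht0 := P.htau
    have h3 : (1 : ℝ) ≤ 8 / P.tau := by
      rw [le_div_iff₀ ht0]; linarith
    calc ∏ i ∈ E, (n i : ℝ) ≤ ∏ _i ∈ E, (8 / P.tau) :=
          prod_le_prod (fun _ _ => Nat.cast_nonneg _) (fun i hi => hC.size i hi)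
      _ = (8 / P.tau) ^ E.card := by rw [prod_const]
      _ ≤ (8 / P.tau) ^ (P.T * (P.r * P.Kc)) := by
          apply pow_le_pow_right₀ h3
          exact hC.card.trans (Nat.mul_le_mul_right _ hj.le)
  have h0 : (0 : ℝ) ≤ ∏ i ∈ E, (n i : ℝ) := prod_nonneg fun _ _ => Nat.cast_nonneg _
  have hc := P.hc0
  have h4 : 1 / ZZ a (P.B ^ m) E ≤ Real.exp P.Dz := by
    rw [div_le_iff₀ (ZZ_pos _ _ _)]
    calc (1 : ℝ) = Real.exp P.Dz * Real.exp (-P.Dz) := by rw [← Real.exp_add]; simp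
      _ ≤ _ := by gcongr
  refine le_trans ?_ P.hc0'
  rw [div_eq_mul_one_div]
  have hz := ZZ_pos a (P.B ^ m) E
  have ht0 := P.htau
  gcongr

private theorem BigN_low_num (k e s S : ℝ) (hk : 2 ≤ k) (he0 : 0 ≤ e) (he : e ≤ 1 / (10 ^ 14 * k ^ 4))
    (hs : s ≤ 1 / (10 ^ 7 * k)) (hS : (1 - e) ^ 2 ≤ k * S) :
    0.8 / k ≤ S - 4 * (22 * s) - 480 * e := by
  have hk0 : 0 < k := by linarith
  have hk4 : k ≤ k ^ 4 := le_self_pow₀ (by linarith) (by norm_num)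
  have he1 : e ≤ 1 / (10 ^ 14 * k) := by
    refine he.trans ?_
    apply one_div_le_one_div_of_le (by positivity)
    gcongr
  have he2 : e * (10 ^ 14 * k) ≤ 1 := by
    rwa [le_div_iff₀ (by positivity)] at he1
  have hs2 : s * (10 ^ 7 * k) ≤ 1 := by
    rwa [le_div_iff₀ (by positivity)] at hs
  rw [div_le_iff₀ hk0]
  have he3 : e ≤ 1 / 10 ^ 14 := by
    have : e * 1 ≤ e * k := by gcongr; linarith
    rw [le_div_iff₀ (by norm_num)]
    nlinarith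
  nlinarith

private theorem BigN_sqrt (e : ℝ) (he : 0 ≤ e) : Real.sqrt (480 * e) ≤ 22 * Real.sqrt e := by
  rw [Real.sqrt_mul (by norm_num)]
  apply mul_le_mul_of_nonneg_right _ (Real.sqrt_nonneg _)
  rw [Real.sqrt_le_left (by norm_num)]
  norm_num

/-- the numerical part of the bound for the weight -/
private theorem BigN_wnum (e rho mE X : ℝ) (he0 : 0 < e) (he : e ≤ 1 / 10 ^ 14) (hr0 : 0 ≤ rho)
    (hr : rho ≤ e ^ 2 / 100) (hm0 : 1 ≤ mE) (hm : mE ≤ 1 + e ^ 2 / 100) (hX : X ≤ e ^ 2 / 100) :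
    Real.sqrt ((1 + rho) ^ 5 * mE ^ 8 * Real.exp X - 2 * (1 - rho) ^ 4 + 1) ≤ e := by
  set x := e ^ 2 / 100 with hx
  have hx0 : 0 ≤ x := by positivity
  have hx1 : x ≤ 1 / 1000 := by
    rw [hx]; nlinarith
  have h1 : (1 + rho) ^ 5 * mE ^ 8 * Real.exp X ≤ Real.exp (14 * x) := by
    have a1 : 1 + rho ≤ Real.exp x := by
      have := Real.add_one_le_exp x
      linarith
    have a2 : mE ≤ Real.exp x := by
      have := Real.add_one_le_exp x
      linarith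
    calc (1 + rho) ^ 5 * mE ^ 8 * Real.exp X ≤ (Real.exp x) ^ 5 * (Real.exp x) ^ 8 * Real.exp x := by
          gcongr
      _ = Real.exp (14 * x) := by
          rw [← pow_add, ← pow_succ, ← Real.exp_nat_mul]
          norm_num
  have h2 : Real.exp (14 * x) ≤ 1 + 16 * x := by
    have h3 : |14 * x| ≤ 1 := by
      rw [abs_of_nonneg (by positivity)]; linarith
    have h4 := Real.abs_exp_sub_one_sub_id_le h3
    have h5 := (abs_le.1 h4).2
    nlinarith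
  have h3 : 1 - 4 * x ≤ (1 - rho) ^ 4 := by
    have h4 : -2 ≤ -rho := by linarith
    have h5 := one_add_mul_le_pow h4 4
    have h6 : (1 + -rho) ^ 4 = (1 - rho) ^ 4 := by ring
    rw [h6] at h5
    push_cast at h5
    linarith
  rw [Real.sqrt_le_left he0.le]
  have h4 : 24 * x ≤ e ^ 2 := by rw [hx]; nlinarith
  linarith

/-- `|W - 1|` is small on average -/
private theorem BigN_w (P : Par) {sv : Finset ι} {F : Fin P.k → Gp n → ℝ} {D : Gp n → ℝ}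
    (hS : Sys P sv F D) {j : ℕ} (hj : j < P.T) {a : Fin j → Gp n} {E : Finset ι} {z : Gp n}
    (hC : Cfg P sv a E z) (m1 m2 m3 : ℕ) (h1 : m1 ≤ 4 * P.T) (h2 : m2 ≤ 4 * P.T)
    (h3 : m3 ≤ 4 * P.T) :
    ∑ u, ∑ u', ∑ v, ∑ v', ka a (P.B ^ m2) E u * ka a (P.B ^ m2) E u' * ka a (P.B ^ m3) E v *
      ka a (P.B ^ m3) E v' * |WW sv (ka a (P.B ^ m1) E) z u u' v v' - 1| ≤ P.e := by
  have hcard : E.card ≤ P.T * (P.r * P.Kc) := hC.card.trans (Nat.mul_le_mul_right _ hj.le)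
  have hsv : ∀ i ∈ sv, (n i).Prime ∧ 32 ≤ n i := by
    intro i hi
    refine ⟨hS.prime i hi, ?_⟩
    have h4 := hS.large i hi
    have h5 := P.hy0
    have h6 : (32 : ℝ) ≤ n i := by linarith
    exact_mod_cast h6
  have hmE := mE_bounds P hS.large hC.sub hcard
  refine (w_dist sv hsv hC.sub P.hrho.le P.rho_le_one (good_ka P hS.large hj.le hC.clo m1 h1)
    (good_ka P hS.large hj.le hC.clo m2 h2) (good_ka P hS.large hj.le hC.clo m3 h3) z hC.unit).trans ?_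
  apply BigN_wnum P.e P.rho (mE n E) _ P.he (BigN_e P).2.1 P.hrho.le P.hrho' hmE.1 hmE.2
  have h4 := hS.sum_sq
  have h5 := P.hw
  calc 9 * ∑ i ∈ sv, 1 / (n i : ℝ) ^ 2 ≤ 9 * (1 / P.y0) := by gcongr
    _ = 9 / P.y0 := by ring
    _ ≤ _ := h5

/-- the averages of the weight -/
private theorem BigN_av (P : Par) {sv : Finset ι} {F : Fin P.k → Gp n → ℝ} {D : Gp n → ℝ}
    (hS : Sys P sv F D) {j : ℕ} (hj : j < P.T) {a : Fin j → Gp n} {E : Finset ι} {z : Gp n}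
    (hC : Cfg P sv a E z) (m : ℕ) (h1 : m ≤ 4 * P.T) (y : Gp n) (hy : ∀ i ∈ E, y i ≠ 0) :
    0 ≤ av2 (ka a (P.B ^ m) E) (nuS sv) y ∧ av2 (ka a (P.B ^ m) E) (nuS sv) y ≤ 1 + P.e := by
  have hcard : E.card ≤ P.T * (P.r * P.Kc) := hC.card.trans (Nat.mul_le_mul_right _ hj.le)
  have hsv : ∀ i ∈ sv, (n i).Prime ∧ 8 ≤ n i := by
    intro i hi
    refine ⟨hS.prime i hi, ?_⟩
    have h4 := hS.large i hi
    have h5 := P.hy0
    have h6 : (8 : ℝ) ≤ n i := by linarith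
    exact_mod_cast h6
  have hmE := mE_bounds P hS.large hC.sub hcard
  have h2 := nu_av_two sv hsv hC.sub (good_ka P hS.large hj.le hC.clo m h1) y hy
  have he := BigN_e P
  have he0 := P.he
  have hr := P.hrho'
  have hr0 := P.hrho
  refine ⟨sum_nonneg fun s _ => mul_nonneg (ka_nonneg _ _ _ _) (nuS_nonneg _ _), ?_⟩
  have h3 := (abs_le.1 h2).2
  have h4 : P.rho * mE n E ≤ P.e ^ 2 / 100 * 2 := by
    have : mE n E ≤ 2 := by nlinarith [hmE.2, he.2.1]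
    apply mul_le_mul hr this (by linarith [hmE.1]) (by positivity)
  have h5 : P.e ^ 2 ≤ P.e := by nlinarith [he.2.1]
  linarith [hmE.2]

private theorem BigN_fact {k : ℕ} (κb κc : Gp n → ℝ) (A B : Fin k → Gp n → ℝ) (c : ℝ) :
    ∑ u, ∑ v, c * κb u * κc v * ∑ i, A i u * B i v =
      c * ∑ i, (∑ u, κb u * A i u) * (∑ v, κc v * B i v) := by
  have h1 : ∀ i, (∑ u, κb u * A i u) * (∑ v, κc v * B i v) =
      ∑ u, ∑ v, (κb u * A i u) * (κc v * B i v) := fun i => sum_mul_sum _ _ _ _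
  have h2 : ∑ i, (∑ u, κb u * A i u) * (∑ v, κc v * B i v) =
      ∑ u, ∑ v, ∑ i, (κb u * A i u) * (κc v * B i v) := by
    simp only [h1]
    rw [sum_comm]
    refine sum_congr rfl fun u _ => ?_
    rw [sum_comm]
  rw [h2, mul_sum]
  refine sum_congr rfl fun u _ => ?_
  rw [mul_sum]
  refine sum_congr rfl fun v _ => ?_
  rw [mul_sum, mul_sum]
  refine sum_congr rfl fun i _ => ?_
  ring

/-- the error is negative and large -/
private theorem BigN_err (P : Par) {sv : Finset ι} {F : Fin P.k → Gp n → ℝ} {D : Gp n → ℝ}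
    (hS : Sys P sv F D) {j : ℕ} (hj : j < P.T) {a : Fin j → Gp n} {E : Finset ι} {z : Gp n}
    (hC : Cfg P sv a E z) (mu0 : Fin P.k → ℝ) (hmu0 : ∀ i, 0 ≤ mu0 i)
    (hmu1 : 1 - P.e ≤ ∑ i, mu0 i) (hmu2 : ∑ i, mu0 i ≤ 1 + P.e) (d0 : ℝ) (hd0 : 1 / 4 ≤ d0)
    (m1 m2 m3 : ℕ) (h1 : m1 ≤ 4 * P.T)
    (hX : ∑ t, ka a (P.B ^ m1) E t * ∑ i, (av2 (ka a (P.B ^ m2) E) (F i)
        (z + t) - mu0 i) ^ 2 ≤ 480 * P.e)
    (hY : ∑ t, ka a (P.B ^ m1) E t * ∑ i, (av2 (ka a (P.B ^ m3) E) (F i)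
        (z - t) - mu0 i) ^ 2 ≤ 480 * P.e) :
    ∑ s, ∑ u, ∑ v, ka a (P.B ^ m1) E s * ka a (P.B ^ m2) E u * ka a (P.B ^ m3) E v *
      ((D (z + u + v) - d0) * ∑ i, F i (z + s + (u + u)) * F i (z - s + (v + v))) ≤
      -(0.15 / P.k) := by
  have hk := BigN_k P
  have hk0 : (0 : ℝ) < P.k := by linarith
  have he := BigN_e P
  have he0 := P.he
  have hsq : (∑ i, mu0 i) ^ 2 ≤ P.k * ∑ i, mu0 i ^ 2 := by
    have h := sq_sum_le_card_mul_sum_sq (s := (univ : Finset (Fin P.k))) (f := mu0)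
    rwa [card_univ, Fintype.card_fin] at h
  have hmu : ∑ i, mu0 i ^ 2 ≤ 4 := by
    have h2 : ∑ i, mu0 i ^ 2 ≤ (∑ i, mu0 i) ^ 2 := sum_sq_le_sq_sum_of_nonneg fun i _ => hmu0 i
    have h3 : 0 ≤ ∑ i, mu0 i := sum_nonneg fun i _ => hmu0 i
    have h4 : ∑ i, mu0 i ≤ 2 := by linarith [he.2.1]
    nlinarith
  have hlow := cnt_low (ka a (P.B ^ m1) E) (fun s => ka_nonneg _ _ _ s) (ka_sum _ _ _)
    (fun i s => av2 (ka a (P.B ^ m2) E) (F i) (z + s))
    (fun i s => av2 (ka a (P.B ^ m3) E) (F i) (z - s)) mu0 (480 * P.e) (by positivity) hX hY hmu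
  have hup := (cnt_up F hS.F_nonneg D hS.D_val P.c0 P.hc0.le hS.D_small a (P.B ^ m1) (P.B ^ m2)
    (P.B ^ m3) (pow_nonneg (zero_le_one.trans P.hB) _) E z).trans (BigN_up P hS hj hC m1 h1)
  have hS1 : ∑ s, ∑ u, ∑ v, ka a (P.B ^ m1) E s * ka a (P.B ^ m2) E u * ka a (P.B ^ m3) E v *
      ∑ i, F i (z + s + (u + u)) * F i (z - s + (v + v)) =
      ∑ s, ka a (P.B ^ m1) E s * ∑ i, av2 (ka a (P.B ^ m2) E) (F i) (z + s) *
        av2 (ka a (P.B ^ m3) E) (F i) (z - s) := by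
    refine sum_congr rfl fun s _ => ?_
    exact BigN_fact (ka a (P.B ^ m2) E) (ka a (P.B ^ m3) E) (fun i u => F i (z + s + (u + u)))
      (fun i v => F i (z - s + (v + v))) _
  have hsplit : ∑ s, ∑ u, ∑ v, ka a (P.B ^ m1) E s * ka a (P.B ^ m2) E u * ka a (P.B ^ m3) E v *
      ((D (z + u + v) - d0) * ∑ i, F i (z + s + (u + u)) * F i (z - s + (v + v))) =
      (∑ s, ∑ u, ∑ v, ka a (P.B ^ m1) E s * ka a (P.B ^ m2) E u * ka a (P.B ^ m3) E v *
      (D (z + u + v) * ∑ i, F i (z + s + (u + u)) * F i (z - s + (v + v)))) -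
      d0 * ∑ s, ∑ u, ∑ v, ka a (P.B ^ m1) E s * ka a (P.B ^ m2) E u * ka a (P.B ^ m3) E v *
      ∑ i, F i (z + s + (u + u)) * F i (z - s + (v + v)) := by
    rw [mul_sum, ← sum_sub_distrib]
    refine sum_congr rfl fun s _ => ?_
    rw [mul_sum, ← sum_sub_distrib]
    refine sum_congr rfl fun u _ => ?_
    rw [mul_sum, ← sum_sub_distrib]
    refine sum_congr rfl fun v _ => ?_
    ring
  rw [hsplit, hS1]
  have hnum : 0.8 / (P.k : ℝ) ≤ ∑ s, ka a (P.B ^ m1) E s * ∑ i, av2 (ka a (P.B ^ m2) E) (F i) (z + s) *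
        av2 (ka a (P.B ^ m3) E) (F i) (z - s) := by
    refine le_trans ?_ hlow
    have h5 : (1 - P.e) ^ 2 ≤ P.k * ∑ i, mu0 i ^ 2 := by
      refine le_trans ?_ hsq
      have : 0 ≤ 1 - P.e := by linarith [he.2.1]
      gcongr
    have h6 := BigN_low_num P.k P.e (Real.sqrt P.e) _ hk he0.le he.1 he.2.2 h5
    have h7 := BigN_sqrt P.e he0.le
    linarith
  have h8 : (1 / 4) * (0.8 / (P.k : ℝ)) ≤ d0 * ∑ s, ka a (P.B ^ m1) E s *
      ∑ i, av2 (ka a (P.B ^ m2) E) (F i) (z + s) * av2 (ka a (P.B ^ m3) E) (F i) (z - s) := by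
    gcongr
  have h9 : (1 / 4) * (0.8 / (P.k : ℝ)) = 0.2 / P.k := by ring
  have h10 : 1 / (20 * (P.k : ℝ)) = 0.05 / P.k := by field_simp; norm_num
  have h11 : (0.15 : ℝ) / P.k = 0.2 / P.k - 0.05 / P.k := by ring
  rw [h9] at h8
  rw [h10] at hup
  rw [h11]
  linarith

private theorem BigN_final (k e N L : ℝ) (hk : 2 ≤ k) (he0 : 0 < e) (he : e ≤ 1 / (10 ^ 14 * k ^ 4))
    (hL : L ≤ N + e) (h : (0.15 / k) ^ 4 ≤ (1 + e) ^ 4 * L) : 1 / (2000 * k ^ 4) ≤ N := by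
  have hk0 : 0 < k := by linarith
  have hk4 : 1 ≤ k ^ 4 := one_le_pow₀ (by linarith)
  have he1 : e * (10 ^ 14 * k ^ 4) ≤ 1 := by
    rwa [le_div_iff₀ (by positivity)] at he
  have he2 : e ≤ 1 / 10 ^ 14 := by
    rw [le_div_iff₀ (by norm_num)]
    nlinarith
  have h1 : (1 + e) ^ 4 ≤ 1 + 5 * e := by
    have h10 : e * e ≤ e * (1 / 10 ^ 14) := by gcongr
    have h11 : (1 + e) ^ 2 ≤ 1 + 2.1 * e := by nlinarith
    have h12 : (1 + e) ^ 4 = ((1 + e) ^ 2) ^ 2 := by ring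
    rw [h12]
    calc ((1 + e) ^ 2) ^ 2 ≤ (1 + 2.1 * e) ^ 2 := by gcongr
      _ ≤ 1 + 5 * e := by nlinarith
  have h2 : (0 : ℝ) < (0.15 / k) ^ 4 := by positivity
  have hL0 : 0 < L := by
    by_contra hL0
    push Not at hL0
    have : (1 + e) ^ 4 * L ≤ 0 := mul_nonpos_of_nonneg_of_nonpos (by positivity) hL0
    linarith
  have h3 : (0.15 / k) ^ 4 ≤ (1 + 5 * e) * (N + e) := by
    refine h.trans ?_
    gcongr
  by_contra hN
  push Not at hN
  have h4 : (1 + 5 * e) * (N + e) ≤ (1 + 5 * e) * (1 / (2000 * k ^ 4) + e) := by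
    gcongr
  have h5 : (0.15 / k) ^ 4 = 0.00050625 / k ^ 4 := by
    rw [div_pow]; norm_num
  rw [h5] at h3
  have h6 : 0.00050625 / k ^ 4 ≤ (1 + 5 * e) * (1 / (2000 * k ^ 4) + e) := h3.trans h4
  rw [div_le_iff₀ (by positivity)] at h6
  have h7 : (1 + 5 * e) * (1 / (2000 * k ^ 4) + e) * k ^ 4 = (1 + 5 * e) * (1 / 2000 + e * k ^ 4) := by
    field_simp
  rw [h7] at h6
  have h8 : e * k ^ 4 ≤ 1 / 10 ^ 14 := by
    rw [le_div_iff₀ (by norm_num)]; linarith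
  have h9 : (1 + 5 * e) * (1 / 2000 + e * k ^ 4) ≤ (1 + 5 * (1 / 10 ^ 14)) * (1 / 2000 + 1 / 10 ^ 14) := by
    gcongr
  norm_num at h9
  linarith

/-- Let `κa, κb, κc` be the kernels with `m = 4j+1, 4j+2, 4j+3`, `g = D - d0`,
`Err = ∑ s u v, κa κb κc g(z+u+v) ∑ i, F i (z+s+2u) F i (z-s+2v)`.
(1) The sum with `D` instead of `g` is at most `c0 ∏_E n i / ZZ ≤ c0 (8/tau) ^ (T r Kc) exp Dz ≤ 1/(20 k)`
(`cnt_up`, `ZZ_ge`, `P.hc0'`; `8/tau ≥ 1` may be used when `E` is nonempty since then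
`8/tau ≥ n i ≥ 64`; for empty `E` the product is `1 ≤ ...` as `tau ≤ 8` follows from `P.hL`, `P.hrho'`).
(2) The sum with `1` instead of `g` is `∑ s, κa ∑ i, av2 κb (F i) (z + s) av2 κc (F i) (z - s)`, at least
`|mu0| ^ 2 - 4 √(480 e) - 480 e ≥ 0.8 / k` by `cnt_low` (with `hX`; `|mu0| ^ 2 ≥ (∑ mu0) ^ 2 / k ≥ (1-e) ^ 2 / k`).
So `Err ≤ 1/(20 k) - 0.2/k = - 0.15 / k` and `Err ^ 4 ≥ 5.06 e-4 / k ^ 4`.
(3) `gcs` with `S = U = V = Gp n`, `n1 s u = nuS sv (z+s+(u+u))`, `n2 s v = nuS sv (z-s+(v+v))`: the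
first two factors are at most `((1+rho) mE) ^ 2` each (`nu_av_two`; note that `z - s` does not vanish on `E`),
i.e. `≤ (1 + e) ^ 2`, and the last one is at most `N + e` by `w_dist` (`|g| ≤ 1`; the square root is
`≤ e` by `P.hrho', P.hm, P.hw`: `(1+rho)^5 (1+e^2/100)^8 exp(e^2/100) - 2 (1-rho)^4 + 1 ≤ e^2`). -/
theorem big_N (P : Par) {sv : Finset ι} {F : Fin P.k → Gp n → ℝ} {D : Gp n → ℝ}
    (hS : Sys P sv F D) {j : ℕ} (hj : j < P.T) {a : Fin j → Gp n} {E : Finset ι} {z : Gp n}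
    (hC : Cfg P sv a E z) (mu0 : Fin P.k → ℝ) (hmu0 : ∀ i, 0 ≤ mu0 i)
    (hmu1 : 1 - P.e ≤ ∑ i, mu0 i) (hmu2 : ∑ i, mu0 i ≤ 1 + P.e) (d0 : ℝ) (hd0 : 1 / 4 ≤ d0)
    (hd1 : d0 ≤ 1)
    (hX : ∑ t, ka a (P.B ^ (4 * j + 1)) E t * ∑ i, (av2 (ka a (P.B ^ (4 * j + 2)) E) (F i)
        (z + t) - mu0 i) ^ 2 ≤ 480 * P.e)
    (hY : ∑ t, ka a (P.B ^ (4 * j + 1)) E t * ∑ i, (av2 (ka a (P.B ^ (4 * j + 3)) E) (F i)
        (z - t) - mu0 i) ^ 2 ≤ 480 * P.e) :
    1 / (2000 * (P.k : ℝ) ^ 4) ≤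
      ∑ u, ∑ u', ∑ v, ∑ v', ka a (P.B ^ (4 * j + 2)) E u * ka a (P.B ^ (4 * j + 2)) E u' *
        ka a (P.B ^ (4 * j + 3)) E v * ka a (P.B ^ (4 * j + 3)) E v' *
        ((D (z + u + v) - d0) * (D (z + u + v') - d0) * (D (z + u' + v) - d0) *
          (D (z + u' + v') - d0)) := by
  have hk := BigN_k P
  have hk0 : (0 : ℝ) < P.k := by linarith
  have he := BigN_e P
  have he0 := P.he
  have hm1 : 4 * j + 1 ≤ 4 * P.T := by omega
  have hm2 : 4 * j + 2 ≤ 4 * P.T := by omega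
  have hm3 : 4 * j + 3 ≤ 4 * P.T := by omega
  have herr := BigN_err P hS hj hC mu0 hmu0 hmu1 hmu2 d0 hd0 (4 * j + 1) (4 * j + 2) (4 * j + 3) hm1
    hX hY
  have hw := BigN_w P hS hj hC (4 * j + 1) (4 * j + 2) (4 * j + 3) hm1 hm2 hm3
  have hav := fun y hy => BigN_av P hS hj hC (4 * j + 2) hm2 y hy
  have hav' := fun y hy => BigN_av P hS hj hC (4 * j + 3) hm3 y hy
  have ka0 : ∀ s, 0 ≤ ka a (P.B ^ (4 * j + 1)) E s := fun s => ka_nonneg _ _ _ s
  have kb0 : ∀ s, 0 ≤ ka a (P.B ^ (4 * j + 2)) E s := fun s => ka_nonneg _ _ _ s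
  have kc0 : ∀ s, 0 ≤ ka a (P.B ^ (4 * j + 3)) E s := fun s => ka_nonneg _ _ _ s
  have ka1 : ∑ s, ka a (P.B ^ (4 * j + 1)) E s = 1 := ka_sum _ _ _
  have kam : ∀ s, s ∉ (HS E : Finset (Gp n)) → ka a (P.B ^ (4 * j + 1)) E s = 0 := fun s hs =>
    ka_of_not_mem _ _ _ hs
  have hg := gcs (k := P.k) (ka a (P.B ^ (4 * j + 1)) E) (ka a (P.B ^ (4 * j + 2)) E)
    (ka a (P.B ^ (4 * j + 3)) E) ka0 kb0 kc0 (fun u v => D (z + u + v) - d0)
    (fun i s u => F i (z + s + (u + u))) (fun i s v => F i (z - s + (v + v)))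
    (fun s u => nuS sv (z + s + (u + u))) (fun s v => nuS sv (z - s + (v + v)))
    (fun i s u => hS.F_nonneg _ _) (fun i s v => hS.F_nonneg _ _)
    (fun s u => (hS.F_sum _).le) (fun s v => (hS.F_sum _).le)
  generalize ka a (P.B ^ (4 * j + 1)) E = κa at *
  generalize ka a (P.B ^ (4 * j + 2)) E = κb at *
  generalize ka a (P.B ^ (4 * j + 3)) E = κc at *
  -- the first factor
  have hf1 : ∑ s, ∑ u, κa s * κb u * nuS sv (z + s + (u + u)) ≤ 1 + P.e := by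
    have h1 : ∀ s, ∑ u, κa s * κb u * nuS sv (z + s + (u + u)) ≤ κa s * (1 + P.e) := by
      intro s
      have h2 : ∑ u, κa s * κb u * nuS sv (z + s + (u + u)) = κa s * av2 κb (nuS sv) (z + s) := by
        unfold av2
        rw [mul_sum]
        exact sum_congr rfl fun u _ => by ring
      rw [h2]
      by_cases hs : s ∈ (HS E : Finset (Gp n))
      · apply mul_le_mul_of_nonneg_left _ (ka0 s)
        apply (hav (z + s) _).2
        intro i hi
        rw [Pi.add_apply, (mem_HS E s).1 hs i hi, add_zero]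
        exact hC.unit i hi
      · rw [kam s hs, zero_mul, zero_mul]
    calc _ ≤ ∑ s, κa s * (1 + P.e) := sum_le_sum fun s _ => h1 s
      _ = 1 + P.e := by rw [← sum_mul, ka1, one_mul]
  have hf10 : 0 ≤ ∑ s, ∑ u, κa s * κb u * nuS sv (z + s + (u + u)) :=
    sum_nonneg fun s _ => sum_nonneg fun u _ => mul_nonneg (mul_nonneg (ka0 s) (kb0 u)) (nuS_nonneg _ _)
  -- the second factor
  have hf2 : ∑ s, ∑ v, ∑ v', κa s * κc v * κc v' * (nuS sv (z - s + (v + v)) * nuS sv (z - s + (v' + v'))) ≤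
      (1 + P.e) ^ 2 := by
    have h1 : ∀ s, ∑ v, ∑ v', κa s * κc v * κc v' *
        (nuS sv (z - s + (v + v)) * nuS sv (z - s + (v' + v'))) ≤ κa s * (1 + P.e) ^ 2 := by
      intro s
      have h2 : ∑ v, ∑ v', κa s * κc v * κc v' *
          (nuS sv (z - s + (v + v)) * nuS sv (z - s + (v' + v'))) =
          κa s * av2 κc (nuS sv) (z - s) ^ 2 := by
        unfold av2
        rw [sq, sum_mul_sum, mul_sum]
        refine sum_congr rfl fun v _ => ?_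
        rw [mul_sum]
        exact sum_congr rfl fun v' _ => by ring
      rw [h2]
      by_cases hs : s ∈ (HS E : Finset (Gp n))
      · apply mul_le_mul_of_nonneg_left _ (ka0 s)
        have h3 := hav' (z - s) (by
          intro i hi
          rw [Pi.sub_apply, (mem_HS E s).1 hs i hi, sub_zero]
          exact hC.unit i hi)
        exact pow_le_pow_left₀ h3.1 h3.2 2
      · rw [kam s hs, zero_mul, zero_mul]
    calc _ ≤ ∑ s, κa s * (1 + P.e) ^ 2 := sum_le_sum fun s _ => h1 s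
      _ = (1 + P.e) ^ 2 := by rw [← sum_mul, ka1, one_mul]
  have hf20 : 0 ≤ ∑ s, ∑ v, ∑ v', κa s * κc v * κc v' *
      (nuS sv (z - s + (v + v)) * nuS sv (z - s + (v' + v'))) :=
    sum_nonneg fun s _ => sum_nonneg fun v _ => sum_nonneg fun v' _ =>
      mul_nonneg (mul_nonneg (mul_nonneg (ka0 s) (kc0 v)) (kc0 v')) (mul_nonneg (nuS_nonneg _ _) (nuS_nonneg _ _))
  -- the last factor
  obtain ⟨N, hN⟩ : ∃ N : ℝ, N = ∑ u, ∑ u', ∑ v, ∑ v', κb u * κb u' * κc v * κc v' *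
        ((D (z + u + v) - d0) * (D (z + u + v') - d0) * (D (z + u' + v) - d0) *
          (D (z + u' + v') - d0)) := ⟨_, rfl⟩
  rw [← hN]
  have hgb : ∀ x, |D x - d0| ≤ 1 := by
    intro x
    rcases hS.D_val x with h | h <;> rw [h, abs_le] <;> constructor <;> linarith
  have hlast : ∑ u, ∑ u', ∑ v, ∑ v', κb u * κb u' * κc v * κc v' *
      (((D (z + u + v) - d0) * (D (z + u + v') - d0) * (D (z + u' + v) - d0) *
          (D (z + u' + v') - d0)) *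
          ∑ s, κa s * ((nuS sv (z + s + (u + u)) * nuS sv (z + s + (u' + u'))) *
            (nuS sv (z - s + (v + v)) * nuS sv (z - s + (v' + v'))))) ≤ N + P.e := by
    refine le_trans ?_ (add_le_add_right hw N)
    rw [hN]
    simp only [← sum_add_distrib]
    refine sum_le_sum fun u _ => sum_le_sum fun u' _ => sum_le_sum fun v _ =>
      sum_le_sum fun v' _ => ?_
    rw [← mul_add]
    apply mul_le_mul_of_nonneg_left _ (mul_nonneg (mul_nonneg (mul_nonneg (kb0 u) (kb0 u')) (kc0 v)) (kc0 v'))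
    change ((D (z + u + v) - d0) * (D (z + u + v') - d0) * (D (z + u' + v) - d0) *
          (D (z + u' + v') - d0)) * WW sv κa z u u' v v' ≤ _
    have h1 : |(D (z + u + v) - d0) * (D (z + u + v') - d0) * (D (z + u' + v) - d0) *
          (D (z + u' + v') - d0)| ≤ 1 := by
      rw [abs_mul, abs_mul, abs_mul]
      have a1 := hgb (z + u + v)
      have a2 := hgb (z + u + v')
      have a3 := hgb (z + u' + v)
      have a4 := hgb (z + u' + v')
      calc |D (z + u + v) - d0| * |D (z + u + v') - d0| * |D (z + u' + v) - d0| * |D (z + u' + v') - d0|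
          ≤ 1 * 1 * 1 * 1 := by gcongr
        _ = 1 := by norm_num
    generalize (D (z + u + v) - d0) * (D (z + u + v') - d0) * (D (z + u' + v) - d0) *
          (D (z + u' + v') - d0) = G at h1 ⊢
    generalize WW sv κa z u u' v v' = W
    have h2 : G * W = G + G * (W - 1) := by ring
    rw [h2]
    have h3 : G * (W - 1) ≤ |W - 1| := by
      calc G * (W - 1) ≤ |G * (W - 1)| := le_abs_self _
        _ = |G| * |W - 1| := abs_mul _ _
        _ ≤ 1 * |W - 1| := by gcongr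
        _ = |W - 1| := one_mul _
    linarith
  -- conclusion
  obtain ⟨L, hL⟩ : ∃ L : ℝ, L = ∑ u, ∑ u', ∑ v, ∑ v', κb u * κb u' * κc v * κc v' *
      (((D (z + u + v) - d0) * (D (z + u + v') - d0) * (D (z + u' + v) - d0) *
          (D (z + u' + v') - d0)) *
          ∑ s, κa s * ((nuS sv (z + s + (u + u)) * nuS sv (z + s + (u' + u'))) *
            (nuS sv (z - s + (v + v)) * nuS sv (z - s + (v' + v'))))) := ⟨_, rfl⟩
  rw [← hL] at hlast
  apply BigN_final P.k P.e N L hk he0 he.1 hlast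
  rw [← hL] at hg
  have h4 : (0.15 / (P.k : ℝ)) ^ 4 ≤ (∑ s, ∑ u, ∑ v, κa s * κb u * κc v *
      ((D (z + u + v) - d0) * ∑ i, F i (z + s + (u + u)) * F i (z - s + (v + v)))) ^ 4 := by
    have h5 : (0 : ℝ) ≤ 0.15 / (P.k : ℝ) := by positivity
    have h6 := neg_le_neg herr
    rw [neg_neg] at h6
    have h7 := pow_le_pow_left₀ h5 h6 4
    rwa [Even.neg_pow (by decide)] at h7
  refine h4.trans (hg.trans ?_)
  have hL0 : 0 ≤ L := by
    by_contra hL0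
    push Not at hL0
    have h5 : (0 : ℝ) < (0.15 / (P.k : ℝ)) ^ 4 := by positivity
    have h6 := h4.trans hg
    have h7 := mul_nonpos_of_nonneg_of_nonpos (mul_nonneg (sq_nonneg
      (∑ s, ∑ u, κa s * κb u * nuS sv (z + s + (u + u)))) hf20) hL0.le
    linarith
  apply mul_le_mul_of_nonneg_right _ hL0
  calc (∑ s, ∑ u, κa s * κb u * nuS sv (z + s + (u + u))) ^ 2 * _ ≤ (1 + P.e) ^ 2 * (1 + P.e) ^ 2 := by
        gcongr
    _ = (1 + P.e) ^ 4 := by ring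

end Pool.Agent.Lib.MP_629a14_nt.Ml
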