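import Pool.Agent.Lib.MP_629a14_nt.Ml.Ker

/-! From a large Fourier coefficient to the variance of local densities. -/

set_option autoImplicit false

namespace Pool.Agent.Lib.MP_629a14_nt.Ml

open Finset

variable {ι : Type} [Fintype ι] [DecidableEq ι] {n : ι → ℕ} [∀ i, NeZero (n i)]

private theorem Child_one (K K' : Gp n → ℝ) (hK : ∀ s, 0 ≤ K s) (hK' : ∀ s, 0 ≤ K' s)
    (hKs : ∑ s, K s = 1) (hKs' : ∑ s, K' s = 1) (f : Gp n → ℝ) (hf : ∀ x, |f x| ≤ 1)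
    (z ξ : Gp n) (e : ℝ) (he0 : 0 ≤ e)
    (h1 : ∑ t, K' t * ∑ v, |K (v - t) - K v| ≤ e)
    (h2 : ∑ t, K' t * ‖psi (ξ * t) - 1‖ ≤ e) :
    ‖∑ v, ((K v * f (z + v) : ℝ) : ℂ) * psi (ξ * v)‖ ^ 2 ≤
      (∑ v, K v * (∑ t, K' t * f (z + v + t)) ^ 2) + 4 * e + 4 * e ^ 2 := by
  set A : ℂ := ∑ v, ((K v * f (z + v) : ℝ) : ℂ) * psi (ξ * v) with hA
  set B : ℂ := ∑ v, ((K v * ∑ t, K' t * f (z + v + t) : ℝ) : ℂ) * psi (ξ * v) with hB
  set C : ℂ := ∑ t, (K' t : ℂ) * ∑ v, ((K v * f (z + v + t) : ℝ) : ℂ) * psi (ξ * (v + t)) with hC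
  -- C - B
  have hBC : ‖C - B‖ ≤ e := by
    have h3 : B = ∑ t, (K' t : ℂ) * ∑ v, ((K v * f (z + v + t) : ℝ) : ℂ) * psi (ξ * v) := by
      rw [hB]
      have h4 : ∀ v, ((K v * ∑ t, K' t * f (z + v + t) : ℝ) : ℂ) * psi (ξ * v) =
          ∑ t, (K' t : ℂ) * (((K v * f (z + v + t) : ℝ) : ℂ) * psi (ξ * v)) := by
        intro v
        push_cast
        rw [mul_sum, sum_mul]
        exact sum_congr rfl fun t _ => by ring
      rw [sum_congr rfl fun v _ => h4 v, sum_comm]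
      exact sum_congr rfl fun t _ => by rw [mul_sum]
    have h5 : C - B = ∑ t, (K' t : ℂ) * ((psi (ξ * t) - 1) * ∑ v, ((K v * f (z + v + t) : ℝ) : ℂ) * psi (ξ * v)) := by
      rw [h3, hC, ← sum_sub_distrib]
      refine sum_congr rfl fun t _ => ?_
      rw [← mul_sub]
      congr 1
      rw [sub_mul, one_mul]
      congr 1
      rw [mul_sum]
      refine sum_congr rfl fun v _ => ?_
      rw [mul_add, psi_add]
      ring
    rw [h5]
    refine (norm_sum_le _ _).trans (le_trans (sum_le_sum fun t _ => ?_) h2)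
    rw [norm_mul, norm_mul, Complex.norm_real, Real.norm_of_nonneg (hK' t)]
    refine mul_le_mul_of_nonneg_left ?_ (hK' t)
    refine mul_le_of_le_one_right (norm_nonneg _) ?_
    refine (norm_sum_le _ _).trans ?_
    rw [← hKs]
    refine sum_le_sum fun v _ => ?_
    rw [norm_mul, norm_psi, mul_one, Complex.norm_real, Real.norm_eq_abs, abs_mul, abs_of_nonneg (hK v)]
    exact mul_le_of_le_one_right (hK v) (hf _)
  -- C - A
  have hAC : ‖A - C‖ ≤ e := by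
    have h3 : C = ∑ t, (K' t : ℂ) * ∑ v, ((K (v - t) * f (z + v) : ℝ) : ℂ) * psi (ξ * v) := by
      rw [hC]
      refine sum_congr rfl fun t _ => ?_
      congr 1
      refine Fintype.sum_equiv (Equiv.addRight t) _ _ fun v => ?_
      simp only [Equiv.coe_addRight, add_sub_cancel_right, add_assoc]
    have h4 : A = ∑ t, (K' t : ℂ) * A := by
      rw [← sum_mul]
      have h5 : ∑ t, (K' t : ℂ) = 1 := by exact_mod_cast hKs'
      rw [h5, one_mul]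
    have h5 : A - C = ∑ t, (K' t : ℂ) * ∑ v, (((K v - K (v - t)) * f (z + v) : ℝ) : ℂ) * psi (ξ * v) := by
      conv_lhs => rw [h4, h3]
      rw [← sum_sub_distrib]
      refine sum_congr rfl fun t _ => ?_
      rw [← mul_sub, hA, ← sum_sub_distrib]
      congr 1
      refine sum_congr rfl fun v _ => ?_
      push_cast
      ring
    rw [h5]
    refine (norm_sum_le _ _).trans (le_trans (sum_le_sum fun t _ => ?_) h1)
    rw [norm_mul, Complex.norm_real, Real.norm_of_nonneg (hK' t)]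
    refine mul_le_mul_of_nonneg_left ?_ (hK' t)
    refine (norm_sum_le _ _).trans (sum_le_sum fun v _ => ?_)
    rw [norm_mul, norm_psi, mul_one, Complex.norm_real, Real.norm_eq_abs, abs_mul, abs_sub_comm]
    exact mul_le_of_le_one_right (abs_nonneg _) (hf _)
  have hg : ∀ v, |∑ t, K' t * f (z + v + t)| ≤ 1 := by
    intro v
    refine (abs_sum_le_sum_abs _ _).trans ?_
    rw [← hKs']
    refine sum_le_sum fun t _ => ?_
    rw [abs_mul, abs_of_nonneg (hK' t)]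
    exact mul_le_of_le_one_right (hK' t) (hf _)
  have hBn : ‖B‖ ≤ ∑ v, K v * |∑ t, K' t * f (z + v + t)| := by
    refine (norm_sum_le _ _).trans (sum_le_sum fun v _ => ?_)
    rw [norm_mul, norm_psi, mul_one, Complex.norm_real, Real.norm_eq_abs, abs_mul, abs_of_nonneg (hK v)]
  have hB1 : ‖B‖ ≤ 1 := by
    refine hBn.trans ?_
    rw [← hKs]
    exact sum_le_sum fun v _ => mul_le_of_le_one_right (hK v) (hg v)
  have hB2 : ‖B‖ ^ 2 ≤ ∑ v, K v * (∑ t, K' t * f (z + v + t)) ^ 2 := by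
    have h3 : (∑ v, K v * |∑ t, K' t * f (z + v + t)|) ^ 2 ≤
        (∑ v, K v) * ∑ v, K v * (∑ t, K' t * f (z + v + t)) ^ 2 := by
      have h4 := Finset.sum_mul_sq_le_sq_mul_sq univ (fun v => Real.sqrt (K v))
        (fun v => Real.sqrt (K v) * |∑ t, K' t * f (z + v + t)|)
      have h5 : ∀ v, Real.sqrt (K v) * (Real.sqrt (K v) * |∑ t, K' t * f (z + v + t)|) =
          K v * |∑ t, K' t * f (z + v + t)| := fun v => by
        rw [← mul_assoc, Real.mul_self_sqrt (hK v)]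
      have h6 : ∀ v, Real.sqrt (K v) ^ 2 = K v := fun v => Real.sq_sqrt (hK v)
      have h7 : ∀ v, (Real.sqrt (K v) * |∑ t, K' t * f (z + v + t)|) ^ 2 =
          K v * (∑ t, K' t * f (z + v + t)) ^ 2 := fun v => by
        rw [mul_pow, h6, sq_abs]
      simp only [h5, h6, h7] at h4
      exact h4
    rw [hKs, one_mul] at h3
    exact (pow_le_pow_left₀ (norm_nonneg _) hBn 2).trans h3
  have hAB : ‖A‖ ≤ ‖B‖ + 2 * e := by
    have h3 : A = B + (A - C) + (C - B) := by ring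
    calc ‖A‖ = ‖B + (A - C) + (C - B)‖ := by rw [← h3]
      _ ≤ ‖B‖ + ‖A - C‖ + ‖C - B‖ := norm_add₃_le
      _ ≤ _ := by linarith
  have h3 : ‖A‖ ^ 2 ≤ (‖B‖ + 2 * e) ^ 2 := pow_le_pow_left₀ (norm_nonneg _) hAB 2
  have h4 : (‖B‖ + 2 * e) ^ 2 ≤ ‖B‖ ^ 2 + 4 * e + 4 * e ^ 2 := by
    nlinarith [mul_nonneg he0 (by linarith : (0 : ℝ) ≤ 1 - ‖B‖)]
  linarith

private theorem Child_abs (Kb K K' : Gp n → ℝ) (hKb : ∀ s, 0 ≤ Kb s) (hK : ∀ s, 0 ≤ K s) (hK' : ∀ s, 0 ≤ K' s)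
    (hKbs : ∑ s, Kb s = 1) (hKs : ∑ s, K s = 1) (hKs' : ∑ s, K' s = 1) (f : Gp n → ℝ) (hf : ∀ x, |f x| ≤ 1)
    (z ξ : Gp n) (e : ℝ) (he0 : 0 ≤ e)
    (h1 : ∑ t, K' t * ∑ v, |K (v - t) - K v| ≤ e)
    (h2 : ∑ t, K' t * ‖psi (ξ * t) - 1‖ ≤ e) :
    ∑ u, Kb u * ‖∑ v, ((K v * f (z + u + v) : ℝ) : ℂ) * psi (ξ * v)‖ ^ 2 ≤
      (∑ u, ∑ v, Kb u * K v * (∑ t, K' t * f (z + u + v + t)) ^ 2) + 4 * e + 4 * e ^ 2 := by
  have h3 : ∀ u, Kb u * ‖∑ v, ((K v * f (z + u + v) : ℝ) : ℂ) * psi (ξ * v)‖ ^ 2 ≤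
      (∑ v, Kb u * K v * (∑ t, K' t * f (z + u + v + t)) ^ 2) + Kb u * (4 * e + 4 * e ^ 2) := by
    intro u
    have h4 := mul_le_mul_of_nonneg_left (Child_one K K' hK hK' hKs hKs' f hf (z + u) ξ e he0 h1 h2) (hKb u)
    refine h4.trans (le_of_eq ?_)
    rw [add_assoc, mul_add, mul_sum]
    congr 1
    exact sum_congr rfl fun v _ => by ring
  refine (sum_le_sum fun u _ => h3 u).trans ?_
  rw [sum_add_distrib, ← sum_mul, hKbs, one_mul, add_assoc]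

/-- Put `A_u = ∑ v, κc(v) (D(z+u+v) - d0) psi(ξ v)` and
`B_u = ∑ v, κc(v) psi(ξ v) (av κ' D (z+u+v) - d0)`. Then
`∑ v t, κc(v) κ'(t) (D(z+u+v+t) - d0) psi(ξ (v+t)) = ∑ t, κ'(t) ∑ v, κc(v - t) (D(z+u+v) - d0) psi(ξ v)`
differs from `A_u` by at most `e` (first hypothesis), and from `B_u` by at most `e` (second one); so
`‖A_u‖ ≤ ‖B_u‖ + 2 e`, `‖B_u‖ ^ 2 ≤ ∑ v, κc(v) (av κ' D (z+u+v) - d0) ^ 2 ≤ 1`. -/
theorem child_var {J J' : ℕ} (a : Fin J → Gp n) (a' : Fin J' → Gp n) (lb lc l' : ℝ)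
    (E E' : Finset ι) (D : Gp n → ℝ) (hD : ∀ x, 0 ≤ D x ∧ D x ≤ 1) (d0 : ℝ)
    (hd0 : 0 ≤ d0 ∧ d0 ≤ 1) (z ξ : Gp n) (e : ℝ) (he0 : 0 ≤ e)
    (h1 : ∑ t, ka a' l' E' t * ∑ v, |ka a lc E (v - t) - ka a lc E v| ≤ e)
    (h2 : ∑ t, ka a' l' E' t * ‖psi (ξ * t) - 1‖ ≤ e) :
    ∑ u, ka a lb E u * ‖∑ v, ((ka a lc E v * (D (z + u + v) - d0) : ℝ) : ℂ) * psi (ξ * v)‖ ^ 2 ≤
      (∑ u, ∑ v, ka a lb E u * ka a lc E v * (av (ka a' l' E') D (z + u + v) - d0) ^ 2) +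
        4 * e + 4 * e ^ 2 := by
  have hf : ∀ x, |D x - d0| ≤ 1 := fun x => by
    obtain ⟨h3, h4⟩ := hD x
    rw [abs_le]
    constructor <;> linarith [hd0.1, hd0.2]
  have key := Child_abs (ka a lb E) (ka a lc E) (ka a' l' E') (ka_nonneg a lb E) (ka_nonneg a lc E) (ka_nonneg a' l' E')
    (ka_sum a lb E) (ka_sum a lc E) (ka_sum a' l' E') (fun x => D x - d0) hf z ξ e he0 h1 h2
  have hav : ∀ u v, av (ka a' l' E') D (z + u + v) - d0 = ∑ t, ka a' l' E' t * (D (z + u + v + t) - d0) := by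
    intro u v
    unfold av
    simp only [mul_sub, sum_sub_distrib]
    rw [← sum_mul, ka_sum, one_mul]
  simp only [hav]
  exact key

end Pool.Agent.Lib.MP_629a14_nt.Ml
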