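import Pool.Agent.Lib.MP_629a14_nt.Ml.SDefs
import Pool.Agent.Lib.MP_629a14_nt.Ml.Ker

/-! Upper and lower bounds for the weighted number of midpoint configurations. -/

set_option autoImplicit false

namespace Pool.Agent.Lib.MP_629a14_nt.Ml

open Finset

variable {ι : Type} [Fintype ι] [DecidableEq ι] {n : ι → ℕ} [∀ i, NeZero (n i)]

/-- For fixed `u, v` with `m = z + u + v` and `δ = s + u - v`: `z + s + (u + u) = m + δ`,
`z - s + (v + v) = m - δ`; `ka a la E s ≤ 1 / (ZZ card (HS E))` (`ka_le`), the sum over `s` is a sum over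
all `δ`, at most `c0 card G` if `D m = 1`; `card_HS_mul`. -/
theorem cnt_up {k : ℕ} (F : Fin k → Gp n → ℝ) (hF : ∀ i x, 0 ≤ F i x) (D : Gp n → ℝ)
    (hD : ∀ x, D x = 0 ∨ D x = 1) (c0 : ℝ) (hc0 : 0 ≤ c0)
    (hsmall : ∀ x, D x = 1 → ∑ i, ∑ δ, F i (x + δ) * F i (x - δ) ≤
      c0 * (Fintype.card (Gp n) : ℝ))
    {J : ℕ} (a : Fin J → Gp n) (la lb lc : ℝ) (hla : 0 ≤ la) (E : Finset ι) (z : Gp n) :
    ∑ s, ∑ u, ∑ v, ka a la E s * ka a lb E u * ka a lc E v *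
      (D (z + u + v) * ∑ i, F i (z + s + (u + u)) * F i (z - s + (v + v))) ≤
      c0 * (∏ i ∈ E, (n i : ℝ)) / ZZ a la E := by
  classical
  have hZ := ZZ_pos a la E
  have hc := card_HS_pos (n := n) E
  set K : ℝ := 1 / (ZZ a la E * ((HS E : Finset (Gp n)).card : ℝ)) with hK
  have hK0 : 0 ≤ K := by positivity
  have hsw : ∑ s, ∑ u, ∑ v, ka a la E s * ka a lb E u * ka a lc E v *
      (D (z + u + v) * ∑ i, F i (z + s + (u + u)) * F i (z - s + (v + v))) =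
      ∑ u, ∑ v, ∑ s, ka a la E s * ka a lb E u * ka a lc E v *
      (D (z + u + v) * ∑ i, F i (z + s + (u + u)) * F i (z - s + (v + v))) := by
    rw [sum_comm]
    exact sum_congr rfl fun u _ => sum_comm
  rw [hsw]
  have hterm : ∀ u v : Gp n, ∑ s, ka a la E s * ka a lb E u * ka a lc E v *
      (D (z + u + v) * ∑ i, F i (z + s + (u + u)) * F i (z - s + (v + v))) ≤
      ka a lb E u * ka a lc E v * (K * (c0 * (Fintype.card (Gp n) : ℝ))) := by
    intro u v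
    have hu := ka_nonneg a lb E u
    have hv := ka_nonneg a lc E v
    rcases hD (z + u + v) with h0 | h1
    · simp only [h0, zero_mul, mul_zero, sum_const_zero]
      positivity
    · have h2 : ∀ s : Gp n, ka a la E s * ka a lb E u * ka a lc E v *
          (D (z + u + v) * ∑ i, F i (z + s + (u + u)) * F i (z - s + (v + v))) =
          ka a lb E u * ka a lc E v * (ka a la E s *
            ∑ i, F i ((z + u + v) + (s + (u - v))) * F i ((z + u + v) - (s + (u - v)))) := by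
        intro s
        rw [h1, show z + s + (u + u) = (z + u + v) + (s + (u - v)) by abel,
          show z - s + (v + v) = (z + u + v) - (s + (u - v)) by abel]
        ring
      simp only [h2]
      rw [← mul_sum]
      refine mul_le_mul_of_nonneg_left ?_ (mul_nonneg hu hv)
      have h3 : ∑ s, ka a la E s *
          ∑ i, F i ((z + u + v) + (s + (u - v))) * F i ((z + u + v) - (s + (u - v))) ≤
          ∑ s, K * ∑ i, F i ((z + u + v) + (s + (u - v))) * F i ((z + u + v) - (s + (u - v))) := by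
        refine sum_le_sum fun s _ => mul_le_mul_of_nonneg_right (ka_le a la hla E s) ?_
        exact sum_nonneg fun i _ => mul_nonneg (hF _ _) (hF _ _)
      refine h3.trans ?_
      rw [← mul_sum]
      refine mul_le_mul_of_nonneg_left ?_ hK0
      have h4 : ∑ s, ∑ i, F i ((z + u + v) + (s + (u - v))) * F i ((z + u + v) - (s + (u - v))) =
          ∑ δ, ∑ i, F i ((z + u + v) + δ) * F i ((z + u + v) - δ) :=
        Equiv.sum_comp (Equiv.addRight (u - v))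
          (fun δ => ∑ i, F i ((z + u + v) + δ) * F i ((z + u + v) - δ))
      rw [h4, sum_comm]
      exact hsmall _ h1
  refine (sum_le_sum fun u _ => sum_le_sum fun v _ => hterm u v).trans (le_of_eq ?_)
  have h5 : ∀ u : Gp n, ∑ v, ka a lb E u * ka a lc E v * (K * (c0 * (Fintype.card (Gp n) : ℝ))) =
      ka a lb E u * (K * (c0 * (Fintype.card (Gp n) : ℝ))) := by
    intro u
    rw [← sum_mul, ← mul_sum, ka_sum, mul_one]
  simp only [h5]
  rw [← sum_mul, ka_sum, one_mul, hK, ← card_HS_mul E]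
  field_simp

/-- `E⟨X, Y⟩ = |mu0| ^ 2 + E⟨X - mu0, mu0⟩ + E⟨mu0, Y - mu0⟩ + E⟨X - mu0, Y - mu0⟩` and
Cauchy-Schwarz, `|mu0| ≤ 2`. -/
theorem cnt_low {S : Type} [Fintype S] {k : ℕ} (p : S → ℝ) (hp : ∀ s, 0 ≤ p s)
    (hp1 : ∑ s, p s = 1) (X Y : Fin k → S → ℝ) (mu0 : Fin k → ℝ) (γ : ℝ) (hγ : 0 ≤ γ)
    (hX : ∑ s, p s * ∑ i, (X i s - mu0 i) ^ 2 ≤ γ) (hY : ∑ s, p s * ∑ i, (Y i s - mu0 i) ^ 2 ≤ γ)
    (hmu : ∑ i, mu0 i ^ 2 ≤ 4) :
    (∑ i, mu0 i ^ 2) - 4 * Real.sqrt γ - γ ≤ ∑ s, p s * ∑ i, X i s * Y i s := by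
  have hcs : ∀ A B : Fin k → S → ℝ, (∑ s, p s * ∑ i, A i s * B i s) ^ 2 ≤
      (∑ s, p s * ∑ i, A i s ^ 2) * ∑ s, p s * ∑ i, B i s ^ 2 := by
    intro A B
    have h := sum_mul_sq_le_sq_mul_sq (univ : Finset (S × Fin k))
      (fun x => Real.sqrt (p x.1) * A x.2 x.1) (fun x => Real.sqrt (p x.1) * B x.2 x.1)
    rw [Fintype.sum_prod_type, Fintype.sum_prod_type, Fintype.sum_prod_type] at h
    have h1 : ∀ f : S → Fin k → ℝ, ∑ s, p s * ∑ i, f s i = ∑ s, ∑ i, p s * f s i :=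
      fun f => sum_congr rfl fun s _ => mul_sum _ _ _
    rw [h1, h1, h1]
    have h2 : ∀ s, Real.sqrt (p s) * Real.sqrt (p s) = p s := fun s => Real.mul_self_sqrt (hp s)
    have e1 : ∑ s, ∑ i, p s * (A i s * B i s) =
        ∑ s, ∑ i, Real.sqrt (p s) * A i s * (Real.sqrt (p s) * B i s) :=
      sum_congr rfl fun s _ => sum_congr rfl fun i _ => by
        rw [show Real.sqrt (p s) * A i s * (Real.sqrt (p s) * B i s) =
          (Real.sqrt (p s) * Real.sqrt (p s)) * (A i s * B i s) by ring, h2 s]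
    have e2 : ∀ C : Fin k → S → ℝ, ∑ s, ∑ i, p s * C i s ^ 2 =
        ∑ s, ∑ i, (Real.sqrt (p s) * C i s) ^ 2 := fun C =>
      sum_congr rfl fun s _ => sum_congr rfl fun i _ => by rw [mul_pow, Real.sq_sqrt (hp s)]
    rw [e1, e2, e2]
    exact h
  have hg := Real.sqrt_nonneg γ
  have hgg := Real.sq_sqrt hγ
  have hmu' : ∑ s, p s * ∑ i, mu0 i ^ 2 ≤ 4 := by
    rw [← sum_mul, hp1, one_mul]
    exact hmu
  have hmu0 : 0 ≤ ∑ s, p s * ∑ i, mu0 i ^ 2 :=
    sum_nonneg fun s _ => mul_nonneg (hp s) (sum_nonneg fun i _ => sq_nonneg _)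
  have hX0 : 0 ≤ ∑ s, p s * ∑ i, (X i s - mu0 i) ^ 2 :=
    sum_nonneg fun s _ => mul_nonneg (hp s) (sum_nonneg fun i _ => sq_nonneg _)
  have hY0 : 0 ≤ ∑ s, p s * ∑ i, (Y i s - mu0 i) ^ 2 :=
    sum_nonneg fun s _ => mul_nonneg (hp s) (sum_nonneg fun i _ => sq_nonneg _)
  have c1 := hcs (fun i s => X i s - mu0 i) (fun i _ => mu0 i)
  have c2 := hcs (fun i _ => mu0 i) (fun i s => Y i s - mu0 i)
  have c3 := hcs (fun i s => X i s - mu0 i) (fun i s => Y i s - mu0 i)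
  have b1 : -(2 * Real.sqrt γ) ≤ ∑ s, p s * ∑ i, (X i s - mu0 i) * mu0 i := by
    refine (abs_le.1 (abs_le_of_sq_le_sq ?_ (by positivity))).1
    refine c1.trans ?_
    calc (∑ s, p s * ∑ i, (X i s - mu0 i) ^ 2) * ∑ s, p s * ∑ i, mu0 i ^ 2
        ≤ γ * 4 := mul_le_mul hX hmu' hmu0 hγ
      _ = (2 * Real.sqrt γ) ^ 2 := by rw [mul_pow, hgg]; ring
  have b2 : -(2 * Real.sqrt γ) ≤ ∑ s, p s * ∑ i, mu0 i * (Y i s - mu0 i) := by
    refine (abs_le.1 (abs_le_of_sq_le_sq ?_ (by positivity))).1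
    refine c2.trans ?_
    calc (∑ s, p s * ∑ i, mu0 i ^ 2) * ∑ s, p s * ∑ i, (Y i s - mu0 i) ^ 2
        ≤ 4 * γ := mul_le_mul hmu' hY hY0 (by norm_num)
      _ = (2 * Real.sqrt γ) ^ 2 := by rw [mul_pow, hgg]; ring
  have b3 : -γ ≤ ∑ s, p s * ∑ i, (X i s - mu0 i) * (Y i s - mu0 i) := by
    refine (abs_le.1 (abs_le_of_sq_le_sq ?_ hγ)).1
    refine c3.trans ?_
    calc (∑ s, p s * ∑ i, (X i s - mu0 i) ^ 2) * ∑ s, p s * ∑ i, (Y i s - mu0 i) ^ 2
        ≤ γ * γ := mul_le_mul hX hY hY0 hγ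
      _ = γ ^ 2 := by ring
  have hid : ∑ s, p s * ∑ i, X i s * Y i s = (∑ i, mu0 i ^ 2) +
      (∑ s, p s * ∑ i, (X i s - mu0 i) * mu0 i) + (∑ s, p s * ∑ i, mu0 i * (Y i s - mu0 i)) +
      ∑ s, p s * ∑ i, (X i s - mu0 i) * (Y i s - mu0 i) := by
    have h0 : ∑ i, mu0 i ^ 2 = ∑ s, p s * ∑ i, mu0 i ^ 2 := by rw [← sum_mul, hp1, one_mul]
    rw [h0, ← sum_add_distrib, ← sum_add_distrib, ← sum_add_distrib]
    refine sum_congr rfl fun s _ => ?_
    rw [← mul_add, ← mul_add, ← mul_add, ← sum_add_distrib, ← sum_add_distrib, ← sum_add_distrib]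
    congr 1
    exact sum_congr rfl fun i _ => by ring
  rw [hid]
  linarith

end Pool.Agent.Lib.MP_629a14_nt.Ml
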