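import Mathlib

/-! Definitions for the local lemma on midpoints of monochromatic pairs in a product of cyclic
groups. -/

set_option autoImplicit false

namespace Pool.Agent.Lib.MP_629a14_nt.Ml

open Finset

variable {ι : Type} [Fintype ι] [DecidableEq ι]

/-- The product of the cyclic groups of orders `n i`. -/
abbrev Gp (n : ι → ℕ) : Type := ∀ i, ZMod (n i)

variable {n : ι → ℕ} [∀ i, NeZero (n i)]

/-- The standard additive character of the product. -/
noncomputable def psi (x : Gp n) : ℂ := ∏ i, ZMod.stdAddChar (x i)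

/-- The energy of `s` with respect to the characters `psi (a j * s)`. -/
noncomputable def QQ {J : ℕ} (a : Fin J → Gp n) (s : Gp n) : ℝ :=
  ∑ j, (1 - (psi (a j * s)).re)

open Classical in
/-- The elements vanishing on `E`. -/
noncomputable def HS (E : Finset ι) : Finset (Gp n) := univ.filter (fun s => ∀ i ∈ E, s i = 0)

/-- The average over `HS E`. -/
noncomputable def EH (E : Finset ι) (f : Gp n → ℝ) : ℝ :=
  (∑ s ∈ HS E, f s) / ((HS E : Finset (Gp n)).card : ℝ)

/-- The average of `exp (- lam * QQ a s)` over `HS E`. -/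
noncomputable def ZZ {J : ℕ} (a : Fin J → Gp n) (lam : ℝ) (E : Finset ι) : ℝ :=
  EH E (fun s => Real.exp (-(lam * QQ a s)))

open Classical in
/-- The probability kernel on `HS E` with density proportional to `exp (- lam * QQ a s)`. -/
noncomputable def ka {J : ℕ} (a : Fin J → Gp n) (lam : ℝ) (E : Finset ι) (s : Gp n) : ℝ :=
  if s ∈ (HS E : Finset (Gp n)) then
    Real.exp (-(lam * QQ a s)) / (ZZ a lam E * ((HS E : Finset (Gp n)).card : ℝ)) else 0

/-- The average of `f` around `z` with respect to the kernel `κ`. -/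
noncomputable def av (κ f : Gp n → ℝ) (z : Gp n) : ℝ := ∑ s, κ s * f (z + s)

/-- The average of `f` around `z` with respect to the kernel `κ` dilated by two. -/
noncomputable def av2 (κ f : Gp n → ℝ) (z : Gp n) : ℝ := ∑ s, κ s * f (z + (s + s))

/-- Mixed density. -/
noncomputable def Hm {J : ℕ} (a : Fin J → Gp n) (lam th : ℝ) (h s : Gp n) : ℝ :=
  Real.exp (-(lam * (th * QQ a s + (1 - th) * QQ a (s + h))))

/-- Product functions whose factors outside `E` have small Fourier coefficients. -/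
def PF (c : ι → ℝ) (E : Finset ι) (Φ : Gp n → ℝ) : Prop :=
  ∃ φ : ∀ i, ZMod (n i) → ℝ, (∀ i x, 0 ≤ φ i x) ∧ (∀ s : Gp n, Φ s = ∏ i, φ i (s i)) ∧
    ∀ i, i ∉ E → ∀ b : ZMod (n i), b ≠ 0 →
      ‖∑ x, (φ i x : ℂ) * ZMod.stdAddChar (b * x)‖ ≤ c i * ∑ x, φ i x

/-- The mixed densities are nearly independent of the functions in `PF c E`. -/
def GoodK (c : ι → ℝ) {J : ℕ} (a : Fin J → Gp n) (lam : ℝ) (E : Finset ι) (rho : ℝ) : Prop :=
  ∀ Φ : Gp n → ℝ, PF c E Φ → ∀ h ∈ (HS E : Finset (Gp n)), ∀ th : ℝ, 0 ≤ th → th ≤ 1 →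
    |EH E (fun s => Hm a lam th h s * Φ s) - EH E (Hm a lam th h) * EH E Φ| ≤
      rho * ZZ a lam E * EH E Φ

open Classical in
/-- Every short word in the characters `a j` is trivial outside `E` or has small weight outside
`E`. -/
def Clo (c : ι → ℝ) {J : ℕ} (a : Fin J → Gp n) (L : ℕ) (tau : ℝ) (E : Finset ι) : Prop :=
  ∀ m : Fin J → ℤ, (∀ j, |m j| ≤ (L : ℤ)) →
    (∀ i, i ∉ E → (∑ j, m j • a j) i = 0) ∨
    ∏ i ∈ univ.filter (fun i => i ∉ E ∧ (∑ j, m j • a j) i ≠ 0), c i ≤ tau

/-- The weight of a sieved coordinate. -/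
noncomputable def cw (n : ι → ℕ) (sv : Finset ι) (i : ι) : ℝ :=
  if i ∈ sv then 8 / (n i : ℝ) else 0

open Classical in
/-- The normalised indicator function of the elements which do not vanish at any sieved
coordinate. -/
noncomputable def nuS (sv : Finset ι) (x : Gp n) : ℝ :=
  ∏ i ∈ sv, (if x i = 0 then 0 else (n i : ℝ) / ((n i : ℝ) - 1))

/-- The value of the average of `nuS` over `HS E`. -/
noncomputable def mE (n : ι → ℕ) (E : Finset ι) : ℝ := ∏ i ∈ E, ((n i : ℝ) / ((n i : ℝ) - 1))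

/-- The inverse of two. -/
noncomputable def half : Gp n := fun i => (2 : ZMod (n i))⁻¹

/-- The potential. -/
noncomputable def Pot {k : ℕ} (mu : Fin k → ℝ) (d : ℝ) : ℝ := d + (1 / 12) * ((∑ i, mu i ^ 2) + d ^ 2)

end Pool.Agent.Lib.MP_629a14_nt.Ml
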