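import Pool.Agent.Lib.MP_629a14_nt.Ml.TDefs
import Pool.Agent.Lib.MP_629a14_nt.Rob.M3Third

/-! Colourings with few monochromatic sums. -/

set_option autoImplicit false

namespace Pool.Agent.Lib.MP_629a14_nt.Ml

open Finset

/-- Let `S` be a set of at most `log_2 k` odd primes. Colour `x` by the vector of the truth values of
`(x mod p) ≤ (p - 1) / 2`, `p ∈ S` (at most `k` vectors, injected into `Fin k`). If `x + y = t`, `p ∣ t`,
`p ∤ x`, `x, y` not divisible by `p`, then `y mod p = p - (x mod p)` and exactly one of the two residues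
is `≤ (p - 1) / 2`, so the colours differ. So if `t` is a monochromatic sum of two primes and `p ∣ t`,
`p ∈ S`, then `x = y = p` and `t = 2 p`. -/
theorem sign_col (k : ℕ) (S : Finset ℕ) (hS : ∀ p ∈ S, p.Prime ∧ 3 ≤ p) (hc : 2 ^ S.card ≤ k) :
    ∃ χ : ℕ → Fin k, ∀ t : ℕ, (∃ p ∈ S, p ∣ t) → (¬ ∃ p ∈ S, t = 2 * p) → mono χ t = 0 := by
  classical
  obtain ⟨e⟩ : Nonempty (S.powerset ↪ Fin k) := by
    apply Function.Embedding.nonempty_of_card_le
    rw [Fintype.card_coe, card_powerset, Fintype.card_fin]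
    exact hc
  refine ⟨fun x => e ⟨S.filter (fun p => x % p ≤ (p - 1) / 2),
    mem_powerset.2 (filter_subset _ _)⟩, ?_⟩
  rintro t ⟨p, hp, hpt⟩ hnt
  unfold mono
  rw [card_eq_zero, filter_eq_empty_iff]
  rintro x hx ⟨hx1, hx2, hχ⟩
  rw [mem_range] at hx
  have h1 := e.injective hχ
  rw [Subtype.mk.injEq] at h1
  obtain ⟨hpp, hp3⟩ := hS p hp
  obtain ⟨y, hy⟩ : ∃ y, y = t - x := ⟨_, rfl⟩
  rw [← hy] at hx2 h1
  have hxy : x + y = t := by omega
  have hiff : (x % p ≤ (p - 1) / 2 ↔ y % p ≤ (p - 1) / 2) := by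
    have h2 : p ∈ S.filter (fun p => x % p ≤ (p - 1) / 2) ↔
        p ∈ S.filter (fun p => y % p ≤ (p - 1) / 2) := by rw [h1]
    rw [mem_filter, mem_filter] at h2
    constructor
    · intro h
      exact (h2.1 ⟨hp, h⟩).2
    · intro h
      exact (h2.2 ⟨hp, h⟩).2
  have hpodd : p % 2 = 1 := by
    rcases hpp.eq_two_or_odd with h | h
    · omega
    · exact h
  by_cases hpx : p ∣ x
  · have hpy : p ∣ y := (Nat.dvd_add_right hpx).1 (hxy ▸ hpt)
    have e1 : p = x := (Nat.prime_dvd_prime_iff_eq hpp hx1).1 hpx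
    have e2 : p = y := (Nat.prime_dvd_prime_iff_eq hpp hx2).1 hpy
    exact hnt ⟨p, hp, by omega⟩
  · have hxm : 0 < x % p := Nat.pos_of_ne_zero fun h => hpx (Nat.dvd_of_mod_eq_zero h)
    have hpy : ¬ p ∣ y := fun h => hpx ((Nat.dvd_add_left h).1 (hxy ▸ hpt))
    have hym : 0 < y % p := Nat.pos_of_ne_zero fun h => hpy (Nat.dvd_of_mod_eq_zero h)
    have hxl := Nat.mod_lt x hpp.pos
    have hyl := Nat.mod_lt y hpp.pos
    have hsum : (x % p + y % p) % p = 0 := by
      rw [← Nat.add_mod, hxy]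
      exact Nat.mod_eq_zero_of_dvd hpt
    have hsum2 : x % p + y % p = p := by
      have h3 := Nat.dvd_of_mod_eq_zero hsum
      obtain ⟨c, hc⟩ := h3
      have hc1 : c = 1 := by
        have : 0 < c := by
          rcases Nat.eq_zero_or_pos c with h | h
          · rw [h] at hc
            omega
          · exact h
        have h4 : c < 2 := by
          by_contra h5
          have : p * 2 ≤ p * c := Nat.mul_le_mul_left p (by omega)
          omega
        omega
      rw [hc, hc1, mul_one]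
    by_cases hle : x % p ≤ (p - 1) / 2
    · have := hiff.1 hle
      omega
    · have h5 : ¬ y % p ≤ (p - 1) / 2 := fun h => hle (hiff.2 h)
      omega

/-- The numbers `t ≤ N` coprime to `q = 2 ∏_{p ∈ S} p / ...`: for `q = ∏_{p ∈ S} p` (odd) the number of even
`t ≤ N` coprime to `q` is at most `(N / (2 q) + 1) φ(q)`. -/
theorem even_coprime_count (q : ℕ) (hq : Odd q) (N : ℕ) :
    (((Icc 1 N).filter (fun t => Even t ∧ t.Coprime q)).card : ℝ) ≤
      ((N : ℝ) / (2 * q) + 1) * q.totient := by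
  have hq0 : q ≠ 0 := by
    rintro rfl
    exact absurd hq (by decide)
  have h1 : ((Icc 1 N).filter (fun t => Even t ∧ t.Coprime q)).card ≤
      ((Ico 1 (1 + N / 2)).filter (fun s => q.Coprime s)).card := by
    apply card_le_card_of_injOn (fun t => t / 2)
    · intro t ht
      rw [mem_coe, mem_filter, mem_Icc] at ht
      obtain ⟨⟨h1, h2⟩, h3, h4⟩ := ht
      obtain ⟨s, hs⟩ := h3
      have hs2 : t / 2 = s := by omega
      change t / 2 ∈ _
      rw [hs2, mem_coe, mem_filter, mem_Ico]
      refine ⟨⟨by omega, by omega⟩, ?_⟩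
      have h5 : t = 2 * s := by omega
      rw [h5] at h4
      exact (Nat.Coprime.coprime_mul_left h4).symm
    · intro t ht u hu htu
      rw [mem_coe, mem_filter, mem_Icc] at ht hu
      obtain ⟨s, hs⟩ := ht.2.1
      obtain ⟨r, hr⟩ := hu.2.1
      change t / 2 = u / 2 at htu
      omega
  have h2 := h1.trans (Nat.Ico_filter_coprime_le 1 (N / 2) hq0)
  have h3 : (((Icc 1 N).filter (fun t => Even t ∧ t.Coprime q)).card : ℝ) ≤
      (q.totient : ℝ) * (((N / 2 / q : ℕ) : ℝ) + 1) := by
    exact_mod_cast h2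
  refine h3.trans ?_
  have h4 : ((N / 2 / q : ℕ) : ℝ) ≤ (N : ℝ) / (2 * q) := by
    rw [Nat.div_div_eq_div_mul]
    refine Nat.cast_div_le.trans (le_of_eq ?_)
    push_cast
    rfl
  have h5 : (0 : ℝ) ≤ q.totient := by positivity
  nlinarith

private theorem UpCol_phi (S : Finset ℕ) (hS : ∀ p ∈ S, p.Prime) :
    (((∏ p ∈ S, p).totient : ℕ) : ℝ) = ((∏ p ∈ S, p : ℕ) : ℝ) * ∏ p ∈ S, (1 - 1 / (p : ℝ)) := by
  have h1 := Nat.totient_eq_mul_prod_factors (∏ p ∈ S, p)
  rw [Nat.primeFactors_prod hS] at h1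
  have h2 : ((((∏ p ∈ S, p).totient : ℕ) : ℚ) : ℝ) =
      ((((∏ p ∈ S, p : ℕ) : ℚ) * ∏ p ∈ S, (1 - (p : ℚ)⁻¹) : ℚ) : ℝ) := by
    exact_mod_cast h1
  rw [Rat.cast_natCast] at h2
  rw [h2]
  push_cast
  simp only [one_div]

open Classical in
/-- With `S` the odd primes up to `y = Nat.log 2 k` (so `2 ^ card S ≤ k`), `q = ∏ p ∈ S, p`,
`φ(q) / q = ∏ (1 - 1/p) ≤ C / log y` by `mert_three` for large `k`; small `k` are absorbed in the
constant (`Real.log (Real.log (k + 2))` is positive and bounded for bounded `k`; the count is at most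
`N / 2 + 1`). -/
theorem mono_upper : ∃ C : ℝ, 0 < C ∧ ∀ k : ℕ, 2 ≤ k → ∃ (χ : ℕ → Fin k) (N₀ : ℕ), ∀ N : ℕ,
    N₀ ≤ N → (((Icc 1 N).filter (fun t => Even t ∧ mono χ t ≠ 0)).card : ℝ) ≤
      C / Real.log (Real.log (k + 2)) * N := by
  obtain ⟨B0, hB0⟩ := Rob.mert_three.bddAbove_range
  set B : ℝ := max B0 0 with hB
  have hBn : 0 ≤ B := le_max_right _ _
  have hmert : ∀ y : ℕ, Real.log y * ∏ p ∈ (Icc 1 y).filter Nat.Prime, (1 - 1 / (p : ℝ)) ≤ B :=
    fun y => (hB0 ⟨y, rfl⟩).trans (le_max_left _ _)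
  refine ⟨2 * B + 1, by linarith, ?_⟩
  intro k hk
  have hkr : (2 : ℝ) ≤ k := by exact_mod_cast hk
  have hl1 : 1 < Real.log (k + 2) := by
    rw [Real.lt_log_iff_exp_lt (by linarith)]
    have := Real.exp_one_lt_d9
    linarith
  have hll : 0 < Real.log (Real.log (k + 2)) := Real.log_pos hl1
  set y := Nat.log 2 k with hy
  by_cases hy2 : 2 ≤ y
  · -- the main case
    set S : Finset ℕ := (Icc 3 y).filter Nat.Prime with hS
    have hSp : ∀ p ∈ S, p.Prime ∧ 3 ≤ p := by
      intro p hp
      rw [hS, mem_filter, mem_Icc] at hp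
      exact ⟨hp.2, hp.1.1⟩
    have hSc : 2 ^ S.card ≤ k := by
      have h1 : S.card ≤ y := by
        calc S.card ≤ (Icc 3 y).card := card_filter_le _ _
          _ ≤ y := by rw [Nat.card_Icc]; omega
      calc 2 ^ S.card ≤ 2 ^ y := Nat.pow_le_pow_right (by norm_num) h1
        _ ≤ k := Nat.pow_log_le_self 2 (by omega)
    obtain ⟨χ, hχ⟩ := sign_col k S hSp hSc
    set q := ∏ p ∈ S, p with hq
    have hqodd : Odd q := by
      rw [hq]
      refine Finset.prod_induction (fun p => p) Odd (fun a b => Odd.mul) odd_one fun p hp => ?_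
      exact (hSp p hp).1.odd_of_ne_two (by have := (hSp p hp).2; omega)
    have hq0 : (0 : ℝ) < q := by
      have := hqodd.pos
      exact_mod_cast this
    have hyr : (2 : ℝ) ≤ y := by exact_mod_cast hy2
    have hly : 0 < Real.log y := Real.log_pos (by linarith)
    -- the density
    have hdens : (q.totient : ℝ) / (2 * q) ≤ B / Real.log y := by
      have h1 := UpCol_phi S (fun p hp => (hSp p hp).1)
      rw [← hq] at h1
      have h2 : ∏ p ∈ (Icc 1 y).filter Nat.Prime, (1 - 1 / (p : ℝ)) =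
          (1 / 2) * ∏ p ∈ S, (1 - 1 / (p : ℝ)) := by
        have h3 : (Icc 1 y).filter Nat.Prime = insert 2 S := by
          ext p
          rw [mem_insert, hS, mem_filter, mem_filter, mem_Icc, mem_Icc]
          constructor
          · rintro ⟨⟨h4, h5⟩, h6⟩
            have := h6.two_le
            by_cases h7 : p = 2
            · exact Or.inl h7
            · exact Or.inr ⟨⟨by omega, h5⟩, h6⟩
          · rintro (h4 | ⟨⟨h4, h5⟩, h6⟩)
            · rw [h4]
              exact ⟨⟨by norm_num, hy2⟩, Nat.prime_two⟩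
            · exact ⟨⟨by omega, h5⟩, h6⟩
        have h4 : 2 ∉ S := by
          rw [hS, mem_filter, mem_Icc]
          omega
        rw [h3, prod_insert h4]
        norm_num
      have h3 := hmert y
      rw [h2] at h3
      rw [h1, le_div_iff₀ hly]
      have h4 : (q : ℝ) * (∏ p ∈ S, (1 - 1 / (p : ℝ))) / (2 * q) * Real.log y =
          Real.log y * ((1 / 2) * ∏ p ∈ S, (1 - 1 / (p : ℝ))) := by
        field_simp
      rw [h4]
      exact h3
    -- comparison of the logarithms
    have hlog : Real.log (Real.log (k + 2)) ≤ 2 * Real.log y := by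
      have h1 : k < 2 ^ (y + 1) := Nat.lt_pow_succ_log_self (by norm_num) k
      have h2 : (k : ℝ) + 2 ≤ 2 ^ (y + 2) := by
        have h3 : k + 2 ≤ 2 ^ (y + 2) := by
          have h4 : 2 ^ (y + 2) = 2 * 2 ^ (y + 1) := by ring
          have h5 : 1 ≤ 2 ^ (y + 1) := Nat.one_le_two_pow
          omega
        exact_mod_cast h3
      have h3 : Real.log (k + 2) ≤ (y : ℝ) ^ 2 := by
        have h4 := Real.log_le_log (by linarith) h2
        rw [Real.log_pow] at h4
        push_cast at h4
        have h5 := Real.log_two_lt_d9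
        have h6 : ((y : ℝ) + 2) * Real.log 2 ≤ (y + 2) * 1 :=
          mul_le_mul_of_nonneg_left (by linarith) (by linarith)
        nlinarith
      have h4 := Real.log_le_log (by linarith) h3
      rw [Real.log_pow] at h4
      exact_mod_cast h4
    obtain ⟨N₀, hN₀⟩ := exists_nat_ge (((q.totient : ℝ) + S.card) * Real.log (Real.log (k + 2)))
    refine ⟨χ, N₀, fun N hN => ?_⟩
    have hNr : (N₀ : ℝ) ≤ N := by exact_mod_cast hN
    have hsub : (Icc 1 N).filter (fun t => Even t ∧ mono χ t ≠ 0) ⊆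
        (Icc 1 N).filter (fun t => Even t ∧ t.Coprime q) ∪ S.image (fun p => 2 * p) := by
      intro t ht
      rw [mem_filter] at ht
      obtain ⟨ht1, ht2, ht3⟩ := ht
      rw [mem_union, mem_filter, mem_image]
      by_cases hcop : t.Coprime q
      · exact Or.inl ⟨ht1, ht2, hcop⟩
      · refine Or.inr ?_
        have h1 : ∃ p ∈ S, p ∣ t := by
          rw [hq, Nat.coprime_prod_right_iff] at hcop
          push Not at hcop
          obtain ⟨p, hp, hpt⟩ := hcop
          refine ⟨p, hp, ?_⟩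
          rw [Nat.gcd_comm] at hpt
          exact ((hSp p hp).1.dvd_iff_not_coprime).2 fun h => hpt h
        by_contra h2
        apply ht3
        apply hχ t h1
        rintro ⟨p, hp, hpt⟩
        exact h2 ⟨p, hp, hpt.symm⟩
    have hcard := (card_le_card hsub).trans (card_union_le _ _)
    have hcard2 : (((Icc 1 N).filter (fun t => Even t ∧ mono χ t ≠ 0)).card : ℝ) ≤
        (((Icc 1 N).filter (fun t => Even t ∧ t.Coprime q)).card : ℝ) + S.card := by
      have h1 := hcard.trans (Nat.add_le_add_left card_image_le _)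
      exact_mod_cast h1
    have hcnt := even_coprime_count q hqodd N
    have hN0 : (0 : ℝ) ≤ N := by positivity
    have hmain : ((N : ℝ) / (2 * q) + 1) * q.totient = (q.totient : ℝ) / (2 * q) * N + q.totient := by
      field_simp
    rw [hmain] at hcnt
    have h1 : (q.totient : ℝ) / (2 * q) * N ≤ 2 * B / Real.log (Real.log (k + 2)) * N := by
      apply mul_le_mul_of_nonneg_right _ hN0
      refine hdens.trans ?_
      rw [div_le_div_iff₀ hly hll]
      have h2 : B * Real.log (Real.log (k + 2)) ≤ B * (2 * Real.log y) :=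
        mul_le_mul_of_nonneg_left hlog hBn
      linarith
    have h2 : (q.totient : ℝ) + S.card ≤ 1 / Real.log (Real.log (k + 2)) * N := by
      rw [one_div, inv_mul_eq_div, le_div_iff₀ hll]
      linarith
    calc (((Icc 1 N).filter (fun t => Even t ∧ mono χ t ≠ 0)).card : ℝ)
        ≤ 2 * B / Real.log (Real.log (k + 2)) * N + 1 / Real.log (Real.log (k + 2)) * N := by
          linarith
      _ = _ := by ring
  · -- few colours
    have hk3 : k ≤ 3 := by
      have h1 : k < 2 ^ (y + 1) := Nat.lt_pow_succ_log_self (by norm_num) k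
      have h2 : 2 ^ (y + 1) ≤ 2 ^ 2 := Nat.pow_le_pow_right (by norm_num) (by omega)
      omega
    have hkr3 : (k : ℝ) ≤ 3 := by exact_mod_cast hk3
    refine ⟨fun _ => ⟨0, by omega⟩, 0, fun N _ => ?_⟩
    have h1 : (((Icc 1 N).filter (fun t => Even t ∧
        mono (fun _ : ℕ => (⟨0, by omega⟩ : Fin k)) t ≠ 0)).card : ℝ) ≤ N := by
      have h2 := card_filter_le (Icc 1 N) (fun t => Even t ∧
        mono (fun _ : ℕ => (⟨0, by omega⟩ : Fin k)) t ≠ 0)
      rw [Nat.card_Icc, Nat.add_sub_cancel] at h2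
      exact_mod_cast h2
    refine h1.trans ?_
    have hle : Real.log (Real.log (k + 2)) ≤ 1 := by
      have e1 : Real.log (k + 2) ≤ Real.exp 1 := by
        have e2 : Real.log ((k : ℝ) + 2) ≤ Real.log 8 := Real.log_le_log (by linarith) (by linarith)
        have e3 : Real.log 8 = 3 * Real.log 2 := by
          rw [show (8 : ℝ) = 2 ^ 3 by norm_num, Real.log_pow]
          norm_num
        have e4 := Real.log_two_lt_d9
        have e5 := Real.exp_one_gt_d9
        linarith
      have e2 := Real.log_le_log (by linarith) e1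
      rwa [Real.log_exp] at e2
    have h3 : 1 ≤ (2 * B + 1) / Real.log (Real.log (k + 2)) := by
      rw [one_le_div hll]
      linarith
    have hN0 : (0 : ℝ) ≤ N := by positivity
    nlinarith

end Pool.Agent.Lib.MP_629a14_nt.Ml
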