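import Pool.Agent.Lib.MP_629a14_nt.Col.Up
import Pool.Agent.Lib.MP_629a14_nt.Ml.TFin
import Pool.Agent.Lib.MP_629a14_nt.Ml.UpCol

/-!
The least density of the monochromatic sums of two primes.
-/

set_option autoImplicit false

namespace Pool.Agent.Results.MP_629a14_nt.MonochromaticSums

open Filter Topology

/-- The number of ordered representations `n = p + q` with primes `p ∈ A`, `q ∈ B`. -/
noncomputable def repsIn (A B : Set ℕ) (n : ℕ) : ℕ :=
  Set.ncard {p : ℕ | p ≤ n ∧ p.Prime ∧ (n - p).Prime ∧ p ∈ A ∧ n - p ∈ B}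

/-- The number of primes `p ≤ x` in `A`. -/
noncomputable def primesIn (A : Set ℕ) (x : ℕ) : ℕ :=
  Set.ncard {p : ℕ | p ≤ x ∧ p.Prime ∧ p ∈ A}

/-- The comparison function `n^2 / (φ(n) log^2 n)`. -/
noncomputable def size (n : ℕ) : ℝ := (n : ℝ) ^ 2 / ((n.totient : ℝ) * Real.log n ^ 2)

/-- Lower density of a set of positive integers. -/
noncomputable def lowerDensity (S : Set ℕ) : ℝ :=
  liminf (fun N : ℕ => (Set.ncard {n : ℕ | 1 ≤ n ∧ n ≤ N ∧ n ∈ S} : ℝ) / N) atTop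

/-- The even numbers that are sums of two primes of the same colour. -/
def mono {k : ℕ} (χ : ℕ → Fin k) : Set ℕ :=
  {n : ℕ | Even n ∧ ∃ i, 0 < repsIn (χ ⁻¹' {i}) (χ ⁻¹' {i}) n}

/-- The infimum of the lower density of `mono χ` over all colourings with `k` colours. -/
noncomputable def leastMono (k : ℕ) : ℝ :=
  sInf {d : ℝ | ∃ χ : ℕ → Fin k, d = lowerDensity (mono χ)}

private theorem reps_eq (A B : Set ℕ) (n : ℕ) :
    repsIn A B n = Pool.Agent.Lib.MP_629a14_nt.Sm.repsIn A B n := by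
  classical
  unfold repsIn Pool.Agent.Lib.MP_629a14_nt.Sm.repsIn
  rw [← Set.ncard_coe_finset]
  congr 1
  ext p
  simp only [Set.mem_ofPred_eq, Finset.coe_filter, Finset.mem_range]
  constructor
  · rintro ⟨h1, h2⟩
    exact ⟨by omega, h2⟩
  · rintro ⟨h1, h2⟩
    exact ⟨by omega, h2⟩

private theorem cnt_eq (B : Set ℕ) (x : ℕ) :
    primesIn B x = Pool.Agent.Lib.MP_629a14_nt.Rob.cntB B x := by
  classical
  unfold primesIn Pool.Agent.Lib.MP_629a14_nt.Rob.cntB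
  rw [← Set.ncard_coe_finset]
  congr 1
  ext p
  simp only [Set.mem_ofPred_eq, Finset.coe_filter, Finset.mem_Icc]
  constructor
  · rintro ⟨h1, h2, h3⟩
    exact ⟨⟨h2.one_le, h1⟩, h2, h3⟩
  · rintro ⟨⟨_, h1⟩, h2, h3⟩
    exact ⟨h1, h2, h3⟩

private theorem card_eq (P : ℕ → Prop) [DecidablePred P] (N : ℕ) :
    Set.ncard {n : ℕ | 1 ≤ n ∧ n ≤ N ∧ P n} = ((Finset.Icc 1 N).filter P).card := by
  rw [← Set.ncard_coe_finset]
  congr 1
  ext n
  simp only [Set.mem_ofPred_eq, Finset.coe_filter, Finset.mem_Icc]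
  tauto

private theorem dens_eq (k : ℕ) (χ : ℕ → Fin k) :
    lowerDensity (mono χ) = Pool.Agent.Lib.MP_629a14_nt.Col.monoDens k χ := by
  classical
  unfold lowerDensity Pool.Agent.Lib.MP_629a14_nt.Col.monoDens
  congr 1
  funext N
  congr 2
  rw [← Set.ncard_coe_finset]
  congr 1
  ext n
  simp only [Set.mem_ofPred_eq, Finset.coe_filter, Finset.mem_Icc, reps_eq, mono]
  tauto

/-- The number of monochromatic representations is the sum over the colours. -/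
private theorem mono_sum (k : ℕ) (χ : ℕ → Fin k) (n : ℕ) :
    Pool.Agent.Lib.MP_629a14_nt.Ml.mono χ n = ∑ i, repsIn (χ ⁻¹' {i}) (χ ⁻¹' {i}) n := by
  classical
  simp only [reps_eq]
  unfold Pool.Agent.Lib.MP_629a14_nt.Ml.mono Pool.Agent.Lib.MP_629a14_nt.Sm.repsIn
  rw [← Finset.card_biUnion]
  · congr 1
    ext p
    simp only [Finset.mem_filter, Finset.mem_biUnion, Finset.mem_univ, true_and, Finset.mem_range,
      Set.mem_preimage, Set.mem_singleton_iff]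
    constructor
    · rintro ⟨h1, h2, h3, h4⟩
      exact ⟨χ p, h1, h2, h3, rfl, h4.symm⟩
    · rintro ⟨i, h1, h2, h3, h4, h5⟩
      exact ⟨h1, h2, h3, h4.trans h5.symm⟩
  · intro i _ j _ hij
    rw [Function.onFun, Finset.disjoint_left]
    intro p hp hq
    simp only [Finset.mem_filter, Set.mem_preimage, Set.mem_singleton_iff] at hp hq
    exact hij (hp.2.2.2.1.symm.trans hq.2.2.2.1)

private theorem exists_colour (k : ℕ) (hk : 1 ≤ k) (χ : ℕ → Fin k) (n : ℕ) (x : ℝ)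
    (h : x ≤ (Pool.Agent.Lib.MP_629a14_nt.Ml.mono χ n : ℝ)) :
    ∃ i, x / k ≤ (repsIn (χ ⁻¹' {i}) (χ ⁻¹' {i}) n : ℝ) := by
  by_contra hc
  push Not at hc
  have : Nonempty (Fin k) := ⟨⟨0, by omega⟩⟩
  have hk0 : (0 : ℝ) < k := by exact_mod_cast hk
  have h1 : (Pool.Agent.Lib.MP_629a14_nt.Ml.mono χ n : ℝ) < x := by
    rw [mono_sum]
    push_cast
    calc ∑ i : Fin k, (repsIn (χ ⁻¹' {i}) (χ ⁻¹' {i}) n : ℝ) < ∑ _i : Fin k, x / k :=
          Finset.sum_lt_sum_of_nonempty Finset.univ_nonempty fun i _ => hc i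
      _ = x := by
          rw [Finset.sum_const, Finset.card_univ, Fintype.card_fin, nsmul_eq_mul]
          field_simp
  linarith

private theorem mono_pos_iff (k : ℕ) (χ : ℕ → Fin k) (n : ℕ) :
    (∃ i, 0 < repsIn (χ ⁻¹' {i}) (χ ⁻¹' {i}) n) ↔
      Pool.Agent.Lib.MP_629a14_nt.Ml.mono χ n ≠ 0 := by
  rw [mono_sum]
  constructor
  · rintro ⟨i, hi⟩ h0
    rw [Finset.sum_eq_zero_iff] at h0
    have := h0 i (Finset.mem_univ _)
    omega
  · intro h
    by_contra hc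
    push Not at hc
    exact h (Finset.sum_eq_zero fun i _ => by have := hc i; omega)

/-- Let `m_k = leastMono k` be the least lower density of the set of the even sums of two primes of the
same colour, over all colourings with `k` colours. Then `c / log k ≤ m_k ≤ C / log log (k + 2)`; moreover
`m_k ≥ 1 / (2 k)`, with equality for `k = 2`, and `m_k ≤ (1/4) ∏_{p ∈ S} (1 - 1/p)` for
`k = 2^(|S|+1)`, `S` a finite set of odd primes. The lower bounds hold uniformly for every large `N` and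
count the even numbers with many monochromatic representations. -/
theorem result :
    (∃ c C : ℝ, 0 < c ∧ 0 < C ∧ (∀ k : ℕ, 2 ≤ k → c / Real.log k ≤ leastMono k ∧
        leastMono k ≤ C / Real.log (Real.log (k + 2))) ∧
      ∀ k : ℕ, 2 ≤ k → ∃ c' : ℝ, 0 < c' ∧ ∃ N₀ : ℕ, ∀ N : ℕ, N₀ ≤ N → ∀ χ : ℕ → Fin k,
        c / Real.log k * N ≤ Set.ncard {n : ℕ | 1 ≤ n ∧ n ≤ N ∧ Even n ∧
          ∃ i, c' * size n ≤ repsIn (χ ⁻¹' {i}) (χ ⁻¹' {i}) n}) ∧
    (∀ k : ℕ, 1 ≤ k → 1 / (2 * (k : ℝ)) ≤ leastMono k) ∧ leastMono 2 = 1 / 4 ∧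
    (∀ S : Finset ℕ, (∀ p ∈ S, p.Prime ∧ 3 ≤ p) →
      leastMono (2 ^ (S.card + 1)) ≤ (1 / 4) * ∏ p ∈ S, (1 - 1 / (p : ℝ))) ∧
    ∀ (k : ℕ) (ε : ℝ), 0 < ε → ∃ c : ℝ, 0 < c ∧ ∃ N₀ : ℕ, ∀ N : ℕ, N₀ ≤ N → ∀ A : Fin k → Set ℕ,
      (∀ i j, i ≠ j → Disjoint (A i) (A j)) →
      ((1 / 2) * ∑ i, ((primesIn (A i) (N / 2) : ℝ) / primesIn Set.univ (N / 2)) ^ 2 - ε) * N ≤
        Set.ncard {n : ℕ | 1 ≤ n ∧ n ≤ N ∧ Even n ∧ ∃ i, c * size n ≤ repsIn (A i) (A i) n} := by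
  classical
  have hbdd : ∀ k : ℕ, 1 ≤ k → ∀ d ∈ {d : ℝ | ∃ χ : ℕ → Fin k, d = lowerDensity (mono χ)},
      1 / (2 * (k : ℝ)) ≤ d := by
    rintro k hk d ⟨χ, rfl⟩
    rw [dens_eq]
    exact Pool.Agent.Lib.MP_629a14_nt.Col.mono_dens_ge k hk χ
  have hne : ∀ k : ℕ, 1 ≤ k → {d : ℝ | ∃ χ : ℕ → Fin k, d = lowerDensity (mono χ)}.Nonempty := by
    intro k hk
    obtain ⟨m, rfl⟩ : ∃ m, k = m + 1 := ⟨k - 1, by omega⟩
    exact ⟨_, fun _ => 0, rfl⟩
  have hlow : ∀ k : ℕ, 1 ≤ k → 1 / (2 * (k : ℝ)) ≤ leastMono k := by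
    intro k hk
    unfold leastMono
    exact le_csInf (hne k hk) (hbdd k hk)
  have hub : ∀ (k : ℕ) (χ : ℕ → Fin k), IsBoundedUnder (· ≤ ·) atTop (fun N : ℕ =>
      (Set.ncard {n : ℕ | 1 ≤ n ∧ n ≤ N ∧ n ∈ mono χ} : ℝ) / N) := by
    intro k χ
    refine isBoundedUnder_of ⟨1, fun N => ?_⟩
    rw [card_eq (fun n => n ∈ mono χ)]
    refine div_le_one_of_le₀ ?_ (Nat.cast_nonneg _)
    have h := Finset.card_filter_le (Finset.Icc 1 N) (fun n => n ∈ mono χ)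
    rw [Nat.card_Icc] at h
    exact_mod_cast (by omega : ((Finset.Icc 1 N).filter (fun n => n ∈ mono χ)).card ≤ N)
  have hlb : ∀ (k : ℕ) (χ : ℕ → Fin k), IsBoundedUnder (· ≥ ·) atTop (fun N : ℕ =>
      (Set.ncard {n : ℕ | 1 ≤ n ∧ n ≤ N ∧ n ∈ mono χ} : ℝ) / N) := by
    intro k χ
    exact isBoundedUnder_of ⟨0, fun N => by positivity⟩
  obtain ⟨c, hc, hden⟩ := Pool.Agent.Lib.MP_629a14_nt.Ml.den_lower
  obtain ⟨C, hC, hup⟩ := Pool.Agent.Lib.MP_629a14_nt.Ml.mono_upper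
  have hunif : ∀ k : ℕ, 2 ≤ k → ∃ c' : ℝ, 0 < c' ∧ ∃ N₀ : ℕ, ∀ N : ℕ, N₀ ≤ N → ∀ χ : ℕ → Fin k,
      c / 32 / Real.log k * N ≤ Set.ncard {n : ℕ | 1 ≤ n ∧ n ≤ N ∧ Even n ∧
        ∃ i, c' * size n ≤ repsIn (χ ⁻¹' {i}) (χ ⁻¹' {i}) n} := by
    intro k hk
    obtain ⟨c', hc', N₀, h⟩ := Pool.Agent.Lib.MP_629a14_nt.Ml.mono_lower k hk
    have hk0 : (0 : ℝ) < k := by exact_mod_cast (by omega : 0 < k)
    refine ⟨c' / k, by positivity, N₀, fun N hN χ => ?_⟩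
    have h1 := h N hN χ
    have h2 : c / 32 / Real.log k * N ≤
        Pool.Agent.Lib.MP_629a14_nt.Ml.den (k ^ 600) / 32 * (N : ℝ) := by
      have := hden k hk
      have h3 : c / 32 / Real.log k = c / Real.log k / 32 := by ring
      rw [h3]
      gcongr
    refine le_trans (le_trans h2 h1) ?_
    rw [card_eq (fun n => Even n ∧
      ∃ i, c' / k * size n ≤ repsIn (χ ⁻¹' {i}) (χ ⁻¹' {i}) n)]
    refine Nat.cast_le.2 (Finset.card_le_card fun n hn => ?_)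
    rw [Finset.mem_filter] at hn ⊢
    refine ⟨hn.1, hn.2.1, ?_⟩
    obtain ⟨i, hi⟩ := exists_colour k (by omega) χ n _ hn.2.2
    refine ⟨i, le_trans (le_of_eq ?_) hi⟩
    unfold size
    ring
  refine ⟨⟨c / 32, C, by positivity, hC, fun k hk => ⟨?_, ?_⟩, hunif⟩, hlow, ?_, ?_, ?_⟩
  · unfold leastMono
    refine le_csInf (hne k (by omega)) ?_
    rintro d ⟨χ, rfl⟩
    obtain ⟨c', hc', N₀, h⟩ := hunif k hk
    unfold lowerDensity
    refine le_liminf_of_le (hub k χ).isCoboundedUnder_ge ?_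
    filter_upwards [eventually_ge_atTop (max N₀ 1)] with N hN
    have hN1 : 1 ≤ N := le_trans (le_max_right _ _) hN
    have hN0 : (0 : ℝ) < N := by exact_mod_cast hN1
    rw [le_div_iff₀ hN0]
    refine le_trans (h N (le_trans (le_max_left _ _) hN) χ) ?_
    rw [card_eq (fun n => Even n ∧ ∃ i, c' * size n ≤ repsIn (χ ⁻¹' {i}) (χ ⁻¹' {i}) n),
      card_eq (fun n => n ∈ mono χ)]
    refine Nat.cast_le.2 (Finset.card_le_card fun n hn => ?_)
    rw [Finset.mem_filter] at hn ⊢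
    refine ⟨hn.1, hn.2.1, ?_⟩
    obtain ⟨i, hi⟩ := hn.2.2
    refine ⟨i, ?_⟩
    have h1 := Finset.mem_Icc.1 hn.1
    have he : 2 ≤ n := by
      obtain ⟨m, hm⟩ := hn.2.1
      omega
    have hs : 0 < size n := by
      unfold size
      have h2 : 0 < Real.log n := Real.log_pos (by exact_mod_cast (by omega : 1 < n))
      have h3 : (0 : ℝ) < n.totient := by exact_mod_cast Nat.totient_pos.2 (by omega)
      have h4 : (0 : ℝ) < n := by exact_mod_cast (by omega : 0 < n)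
      positivity
    have h5 : (0 : ℝ) < repsIn (χ ⁻¹' {i}) (χ ⁻¹' {i}) n := lt_of_lt_of_le (by positivity) hi
    exact_mod_cast h5
  · obtain ⟨χ, N₀, h⟩ := hup k hk
    refine le_trans (csInf_le ⟨1 / (2 * (k : ℝ)), hbdd k (by omega)⟩ ⟨χ, rfl⟩) ?_
    unfold lowerDensity
    refine liminf_le_of_frequently_le (Eventually.frequently ?_) (hlb k χ)
    filter_upwards [eventually_ge_atTop (max N₀ 1)] with N hN
    have hN1 : 1 ≤ N := le_trans (le_max_right _ _) hN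
    have hN0 : (0 : ℝ) < N := by exact_mod_cast hN1
    rw [div_le_iff₀ hN0]
    refine le_trans (le_of_eq ?_) (h N (le_trans (le_max_left _ _) hN))
    rw [card_eq (fun n => n ∈ mono χ)]
    congr 2
    ext n
    simp only [Finset.mem_filter, mono, Set.mem_ofPred_eq, mono_pos_iff]
  · refine le_antisymm ?_ ?_
    · have h4 := Pool.Agent.Lib.MP_629a14_nt.Col.mono_dens_four
      rw [← dens_eq] at h4
      refine le_trans (csInf_le ⟨1 / (2 * ((2 : ℕ) : ℝ)), hbdd 2 (by norm_num)⟩ ⟨_, rfl⟩) h4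
    · have := hlow 2 (by norm_num)
      norm_num at this ⊢
      linarith
  · intro S hS
    obtain ⟨χ, hχ⟩ := Pool.Agent.Lib.MP_629a14_nt.Col.up_dens S hS
    rw [← dens_eq] at hχ
    exact le_trans (csInf_le ⟨1 / (2 * ((2 ^ (S.card + 1) : ℕ) : ℝ)),
      hbdd _ Nat.one_le_two_pow⟩ ⟨χ, rfl⟩) hχ
  · intro k ε hε
    obtain ⟨c, hc, N₀, h⟩ := Pool.Agent.Lib.MP_629a14_nt.Col.mono k ε hε
    refine ⟨c, hc, N₀, fun N hN A hA => ?_⟩
    have h1 := h N hN A hA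
    rw [card_eq (fun n => Even n ∧ ∃ i, c * size n ≤ repsIn (A i) (A i) n)]
    simp only [cnt_eq, reps_eq]
    exact h1

end Pool.Agent.Results.MP_629a14_nt.MonochromaticSums
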