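import Pool.Agent.Lib.MP_629a14_nt.Ml.Psi

/-! Fourier transform on the product group. -/

set_option autoImplicit false

namespace Pool.Agent.Lib.MP_629a14_nt.Ml

open Finset

variable {ι : Type} [Fintype ι] [DecidableEq ι] {n : ι → ℕ} [∀ i, NeZero (n i)]

/-- Fourier coefficient. -/
noncomputable def ft (f : Gp n → ℝ) (b : Gp n) : ℂ :=
  (∑ x, (f x : ℂ) * psi (b * x)) / (Fintype.card (Gp n) : ℂ)

/-- Convolution at the midpoint. -/
noncomputable def cvm (f g : Gp n → ℝ) (m : Gp n) : ℝ :=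
  (∑ δ, f (m + δ) * g (m - δ)) / (Fintype.card (Gp n) : ℝ)

end Pool.Agent.Lib.MP_629a14_nt.Ml
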