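import Pool.Agent.Lib.MP_629a14_nt.Ml.Defs

/-! Increment of the potential from a variance. -/

set_option autoImplicit false

namespace Pool.Agent.Lib.MP_629a14_nt.Ml

open Finset

variable {ι : Type} [Fintype ι] [DecidableEq ι] {n : ι → ℕ} [∀ i, NeZero (n i)]

private lemma Incr_cs {k : ℕ} (a b : Fin k → ℝ) (x y : ℝ) :
    ((∑ i, a i * b i) + x * y) ^ 2 ≤ ((∑ i, a i ^ 2) + x ^ 2) * ((∑ i, b i ^ 2) + y ^ 2) := by
  have h := Finset.sum_mul_sq_le_sq_mul_sq (univ : Finset (Option (Fin k)))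
    (fun o => o.elim x a) (fun o => o.elim y b)
  simp only [Fintype.sum_option, Option.elim_none, Option.elim_some] at h
  linarith [h, add_comm (∑ i, a i * b i) (x * y), add_comm (∑ i, a i ^ 2) (x ^ 2),
    add_comm (∑ i, b i ^ 2) (y ^ 2),
    congrArg (fun z => z ^ 2) (add_comm (∑ i, a i * b i) (x * y)),
    congrArg₂ (fun z w => z * w) (add_comm (∑ i, a i ^ 2) (x ^ 2)) (add_comm (∑ i, b i ^ 2) (y ^ 2))]

/-- With `E` the expectation: `E Pot = E d + (1/12) (∑ E mu_i ^ 2 + E d ^ 2)`, and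
`∑ E mu_i ^ 2 + E d ^ 2 = |V0| ^ 2 + 2 ⟨V0, E V - V0⟩ + Var`, `|V0| ≤ 2`, `|E V - V0| ≤ e2`, so
`E Pot ≥ Pot0 - e2 - (4/12) e2 + Var / 12`. On the other side `E Pot ≤ (Pot0 + e) + 2 e`. -/
theorem incr {Ω : Type} [Fintype Ω] {k : ℕ} (p : Ω → ℝ) (hp : ∀ ω, 0 ≤ p ω) (hp1 : ∑ ω, p ω = 1)
    (mu : Ω → Fin k → ℝ) (d : Ω → ℝ) (mu0 : Fin k → ℝ) (d0 e e2 : ℝ) (he : 0 ≤ e) (he2 : 0 ≤ e2)
    (bad : Ω → ℝ) (hbad : ∀ ω, bad ω = 0 ∨ bad ω = 1)
    (h1 : (∑ i, (∑ ω, p ω * mu ω i - mu0 i) ^ 2) + (∑ ω, p ω * d ω - d0) ^ 2 ≤ e2 ^ 2)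
    (h2 : ∀ ω, bad ω = 0 → p ω ≠ 0 → Pot (mu ω) (d ω) ≤ Pot mu0 d0 + e)
    (h3 : ∀ ω, bad ω = 1 → Pot (mu ω) (d ω) ≤ 2) (h4 : ∑ ω, p ω * bad ω ≤ e)
    (h5 : (∑ i, mu0 i ^ 2) + d0 ^ 2 ≤ 4) (h6 : 0 ≤ Pot mu0 d0 + e) :
    ∑ ω, p ω * ((∑ i, (mu ω i - mu0 i) ^ 2) + (d ω - d0) ^ 2) ≤ 36 * e + 16 * e2 := by
  -- upper bound for the expectation
  have hup : ∑ ω, p ω * Pot (mu ω) (d ω) ≤ Pot mu0 d0 + 3 * e := by
    have g1 : ∀ ω, p ω * Pot (mu ω) (d ω) ≤ p ω * (Pot mu0 d0 + e) + 2 * (p ω * bad ω) := by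
      intro ω
      rcases hbad ω with hb | hb
      · rw [hb]
        by_cases hpo : p ω = 0
        · rw [hpo]; simp
        · have := mul_le_mul_of_nonneg_left (h2 ω hb hpo) (hp ω)
          linarith
      · rw [hb]
        have g2 := mul_le_mul_of_nonneg_left (h3 ω hb) (hp ω)
        have g3 := mul_nonneg (hp ω) h6
        linarith
    have g4 := Finset.sum_le_sum (s := (univ : Finset Ω)) fun ω _ => g1 ω
    rw [Finset.sum_add_distrib, ← Finset.sum_mul, ← Finset.mul_sum, hp1] at g4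
    linarith
  -- the identity
  set q : Fin k → ℝ := fun i => ∑ ω, p ω * mu ω i - mu0 i with hq
  set r : ℝ := ∑ ω, p ω * d ω - d0 with hr
  have hid : ∑ ω, p ω * Pot (mu ω) (d ω) = Pot mu0 d0 + r +
      (1 / 12) * (2 * ((∑ i, mu0 i * q i) + d0 * r) +
        ∑ ω, p ω * ((∑ i, (mu ω i - mu0 i) ^ 2) + (d ω - d0) ^ 2)) := by
    have g1 : ∀ ω, p ω * Pot (mu ω) (d ω) = p ω * Pot mu0 d0 + (p ω * d ω - p ω * d0) +
        (1 / 12) * (2 * ((∑ i, mu0 i * (p ω * mu ω i - p ω * mu0 i)) + d0 * (p ω * d ω - p ω * d0)) +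
        p ω * ((∑ i, (mu ω i - mu0 i) ^ 2) + (d ω - d0) ^ 2)) := by
      intro ω
      have g2 : ∑ i, mu ω i ^ 2 = (∑ i, mu0 i ^ 2) + 2 * (∑ i, mu0 i * (mu ω i - mu0 i)) +
          ∑ i, (mu ω i - mu0 i) ^ 2 := by
        rw [Finset.mul_sum, ← Finset.sum_add_distrib, ← Finset.sum_add_distrib]
        exact Finset.sum_congr rfl fun i _ => by ring
      have g3 : ∑ i, mu0 i * (p ω * mu ω i - p ω * mu0 i) = p ω * ∑ i, mu0 i * (mu ω i - mu0 i) := by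
        rw [Finset.mul_sum]
        exact Finset.sum_congr rfl fun i _ => by ring
      unfold Pot
      rw [g2, g3]
      ring
    have g5 : ∑ ω, (∑ i, mu0 i * (p ω * mu ω i - p ω * mu0 i)) = ∑ i, mu0 i * q i := by
      rw [Finset.sum_comm]
      refine Finset.sum_congr rfl fun i _ => ?_
      rw [← Finset.mul_sum, Finset.sum_sub_distrib, ← Finset.sum_mul, hp1, one_mul]
    have g6 : ∑ ω, (p ω * d ω - p ω * d0) = r := by
      rw [Finset.sum_sub_distrib, ← Finset.sum_mul, hp1, one_mul]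
    rw [Finset.sum_congr rfl fun ω _ => g1 ω, Finset.sum_add_distrib, Finset.sum_add_distrib, g6,
      ← Finset.sum_mul, hp1, one_mul, ← Finset.mul_sum, Finset.sum_add_distrib, ← Finset.mul_sum,
      Finset.sum_add_distrib, g5, ← Finset.mul_sum, g6]
  -- the error terms
  have hr1 : -e2 ≤ r := by
    have g1 : r ^ 2 ≤ e2 ^ 2 := by
      have : 0 ≤ ∑ i, (q i) ^ 2 := Finset.sum_nonneg fun i _ => sq_nonneg _
      linarith
    exact (abs_le.1 (abs_le_of_sq_le_sq g1 he2)).1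
  have hcs : -(2 * e2) ≤ (∑ i, mu0 i * q i) + d0 * r := by
    have g1 := Incr_cs mu0 q d0 r
    have g2 : ((∑ i, mu0 i * q i) + d0 * r) ^ 2 ≤ (2 * e2) ^ 2 := by
      refine g1.trans ?_
      calc ((∑ i, mu0 i ^ 2) + d0 ^ 2) * ((∑ i, q i ^ 2) + r ^ 2) ≤ 4 * e2 ^ 2 := by
            apply mul_le_mul h5 h1 _ (by norm_num)
            have : 0 ≤ ∑ i, (q i) ^ 2 := Finset.sum_nonneg fun i _ => sq_nonneg _
            positivity
        _ = (2 * e2) ^ 2 := by ring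
    exact (abs_le.1 (abs_le_of_sq_le_sq g2 (by linarith))).1
  linarith

end Pool.Agent.Lib.MP_629a14_nt.Ml
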