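import Pool.Agent.Lib.MP_629a14_nt.Ml.SBase
import Pool.Agent.Lib.MP_629a14_nt.Ml.Incr
import Pool.Agent.Lib.MP_629a14_nt.Ml.AvSh

/-! Flatness of the local densities. -/

set_option autoImplicit false

namespace Pool.Agent.Lib.MP_629a14_nt.Ml

open Finset

variable {ι : Type} [Fintype ι] [DecidableEq ι] {n : ι → ℕ} [∀ i, NeZero (n i)]

private theorem Flat_Dz (P : Par) : 0 ≤ P.Dz := by
  have h1 := P.hDz 0 1 (Nat.zero_le _) le_rfl (one_le_pow₀ P.hB)
  simp only [pow_zero, one_mul, Nat.cast_zero, mul_zero, neg_zero, Real.exp_zero] at h1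
  rw [Real.exp_le_one_iff] at h1
  linarith

private theorem Flat_e (P : Par) : P.e ≤ 1 / 10 ^ 14 := by
  refine P.e_le.trans ?_
  have h0 : (2 : ℝ) ≤ (P.k : ℝ) := by exact_mod_cast P.hk
  have h1 : (1 : ℝ) ≤ (P.k : ℝ) ^ 8 := one_le_pow₀ (by linarith)
  refine one_div_le_one_div_of_le (by positivity) ?_
  nlinarith

private theorem Flat_swap (κ κ' f : Gp n → ℝ) (z : Gp n) :
    ∑ s, κ s * av κ' f (z + s) = ∑ t, κ' t * av κ f (z + t) := by
  unfold av
  simp only [mul_sum]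
  rw [sum_comm]
  refine sum_congr rfl fun t _ => sum_congr rfl fun s _ => ?_
  rw [add_right_comm z s t]
  ring

private theorem Flat_diff {κ : Gp n → ℝ} (hκ : ∑ t, κ t = 1) (g : Gp n → ℝ) (c : ℝ) :
    ∑ t, κ t * g t - c = ∑ t, κ t * (g t - c) := by
  simp only [mul_sub, sum_sub_distrib]
  rw [← sum_mul, hκ, one_mul]

/-- Sum of squares at most square of sum of absolute values. -/
private theorem Flat_sq {k : ℕ} (x : Fin k → ℝ) (y c : ℝ) (h : (∑ i, |x i|) + |y| ≤ c) :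
    (∑ i, x i ^ 2) + y ^ 2 ≤ c ^ 2 := by
  have h3 : 0 ≤ ∑ i, |x i| := sum_nonneg fun i _ => abs_nonneg _
  have h1 : ∑ i, x i ^ 2 ≤ (∑ i, |x i|) ^ 2 := by
    rw [sq, sum_mul]
    refine sum_le_sum fun i _ => ?_
    rw [← sq_abs, sq]
    exact mul_le_mul_of_nonneg_left
      (single_le_sum (f := fun i => |x i|) (fun j _ => abs_nonneg _) (mem_univ i)) (abs_nonneg _)
  have h4 := abs_nonneg y
  have h5 : ((∑ i, |x i|) + |y|) ^ 2 ≤ c ^ 2 := pow_le_pow_left₀ (by linarith) h 2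
  have h6 : |y| ^ 2 = y ^ 2 := sq_abs y
  nlinarith [mul_nonneg h3 h4]

/-- Apply `incr` with `Ω = Gp n`, `p = κ0 = ka a (B ^ (4 j)) E`, `mu s i = av κe (F i) (z0 + s)`,
`d s = av κe D (z0 + s)`, `κe = ka (nxt a ξ) (B ^ (4 (j + 1))) E'`, `bad s = 0` iff `z0 + s` does not
vanish on `E'`, `e2 = e`.
Hypothesis `h1`: `∑ s, κ0(s) av κe f (z0 + s) = ∑ t, κe(t) av κ0 f (z0 + t)`, and `av_shift` for `κ0`
with `p = κe`, `h t = t` (`E κe QQ a ≤ 4 E κe QQ (nxt a ξ) ≤ 4 Dz / B ^ (4 j + 4)`, `shift_num`); a sum of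
squares is at most the square of the sum of the absolute values.
`h2`: `hno`. `h3`: `av_F_bounds` (all `mu` are zero and `d ≤ 1`). `h4`: `unit_ka`.
`h5`, `h6`: `av_F_bounds`. -/
theorem flat (P : Par) {sv : Finset ι} {F : Fin P.k → Gp n → ℝ} {D : Gp n → ℝ}
    (hS : Sys P sv F D) {j : ℕ} (hj : j < P.T) {a : Fin j → Gp n} {E : Finset ι} {z0 : Gp n}
    (hC : Cfg P sv a E z0)
    (hno : ∀ (a' : Fin (j + 1) → Gp n) (E' : Finset ι) (z' : Gp n), Cfg P sv a' E' z' →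
      PP F D (ka a' (P.B ^ (4 * (j + 1))) E') z' ≤ PP F D (ka a (P.B ^ (4 * j)) E) z0 + P.e)
    (ξ : Gp n) {E' : Finset ι} (hEE' : E ⊆ E') (hE' : E' ⊆ sv)
    (hclo : Clo (cw n sv) (nxt a ξ) P.L P.tau E')
    (hc : E'.card ≤ (j + 1) * (P.r * P.Kc)) (hs : ∀ i ∈ E', (n i : ℝ) ≤ 8 / P.tau) :
    ∑ s, ka a (P.B ^ (4 * j)) E s *
      ((∑ i, (av (ka (nxt a ξ) (P.B ^ (4 * (j + 1))) E') (F i) (z0 + s) -
        av (ka a (P.B ^ (4 * j)) E) (F i) z0) ^ 2) +
      (av (ka (nxt a ξ) (P.B ^ (4 * (j + 1))) E') D (z0 + s) -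
        av (ka a (P.B ^ (4 * j)) E) D z0) ^ 2) ≤ 52 * P.e := by
  classical
  have he0 := P.he
  have he1 := Flat_e P
  have hjT : j ≤ P.T := hj.le
  have hm0 : 4 * j ≤ 4 * P.T := by omega
  have hm1 : 4 * (j + 1) ≤ 4 * P.T := by omega
  have hcE : E.card ≤ P.T * (P.r * P.Kc) := hC.card.trans (Nat.mul_le_mul_right _ hjT)
  have hcE' : E'.card ≤ P.T * (P.r * P.Kc) := hc.trans (Nat.mul_le_mul_right _ hj)
  set κ0 := ka a (P.B ^ (4 * j)) E with hκ0
  set κe := ka (nxt a ξ) (P.B ^ (4 * (j + 1))) E' with hκe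
  have b0 := av_F_bounds P hS hjT hC.sub hcE hC.clo (4 * j) hm0 z0
  have be := fun s => av_F_bounds P hS (J := j + 1) hj hE' hcE' hclo (4 * (j + 1)) hm1 (z0 + s)
  rw [← hκ0] at b0
  simp only [← hκe] at be
  have hk0 := ka_nonneg a (P.B ^ (4 * j)) E
  have hke := ka_nonneg (nxt a ξ) (P.B ^ (4 * (j + 1))) E'
  have hk01 := ka_sum a (P.B ^ (4 * j)) E
  have hke1 := ka_sum (nxt a ξ) (P.B ^ (4 * (j + 1))) E'
  rw [← hκ0] at hk0 hk01
  rw [← hκe] at hke hke1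
  have hsv : ∀ i ∈ sv, (n i).Prime ∧ 8 ≤ n i := by
    intro i hi
    refine ⟨hS.prime i hi, ?_⟩
    have h1 : (64 : ℝ) ≤ (n i : ℝ) := P.hy0.trans (hS.large i hi)
    have h2 : (64 : ℕ) ≤ n i := by exact_mod_cast h1
    omega
  obtain ⟨hmE1, hmE2⟩ := mE_bounds P hS.large hC.sub hcE
  have hB := P.hB
  have hB0 : (0 : ℝ) < P.B := by linarith
  have hDz := Flat_Dz P
  -- the shift bound
  have hshift : ∑ t, κe t * ((∑ i, |av κ0 (F i) (z0 + t) - av κ0 (F i) z0|) +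
      |av κ0 D (z0 + t) - av κ0 D z0|) ≤ P.e := by
    have hq : ∑ t, κe t * (P.B ^ (4 * j) * QQ a t) ≤ 4 * P.Dz / P.B := by
      have h1 : ∑ t, κe t * (P.B ^ (4 * j) * QQ a t) ≤
          ∑ t, P.B ^ (4 * j) * 4 * (κe t * QQ (nxt a ξ) t) := by
        refine sum_le_sum fun t _ => ?_
        have h2 := (QQ_nxt hS.odd a ξ t).1
        have h3 : P.B ^ (4 * j) * QQ a t ≤ P.B ^ (4 * j) * (4 * QQ (nxt a ξ) t) :=
          mul_le_mul_of_nonneg_left h2 (by positivity)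
        have h4 := mul_le_mul_of_nonneg_left h3 (hke t)
        linarith
      rw [← mul_sum] at h1
      have h5 := EQ_ka P (J := j + 1) hj (nxt a ξ) (4 * (j + 1)) hm1 E'
      rw [← hκe] at h5
      have h6 : P.B ^ (4 * j) * 4 * ∑ t, κe t * QQ (nxt a ξ) t ≤
          P.B ^ (4 * j) * 4 * (P.Dz / P.B ^ (4 * (j + 1))) :=
        mul_le_mul_of_nonneg_left h5 (by positivity)
      have h7 : P.B ^ (4 * j) * 4 * (P.Dz / P.B ^ (4 * (j + 1))) = 4 * P.Dz / P.B ^ 4 := by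
        rw [show 4 * (j + 1) = 4 * j + 4 by ring, pow_add]
        field_simp
      have h8 : 4 * P.Dz / P.B ^ 4 ≤ 4 * P.Dz / P.B := by
        refine div_le_div_of_nonneg_left (by linarith) hB0 ?_
        calc P.B = P.B ^ 1 := (pow_one _).symm
          _ ≤ P.B ^ 4 := pow_le_pow_right₀ hB (by norm_num)
      linarith
    have h1 := av_shift sv hsv hC.sub (good_ka P hS.large hjT hC.clo (4 * j) hm0)
      (by positivity) P.hrho.le P.rho_le_one F D hS.F_nonneg (fun x => (hS.F_sum x).le)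
      (fun x => by rcases hS.D_val x with h | h <;> rw [h] <;> norm_num) z0 hC.unit κe hke hke1
      (fun t => t) (fun t ht => by
        by_contra hcon
        exact ht (ka_of_not_mem _ _ _ fun h => hcon (HS_mono hEE' h))) (4 * P.Dz / P.B) hq
    rw [← hκ0] at h1
    refine h1.trans (shift_num P _ ?_ _ ?_ ?_)
    · refine div_le_div_of_nonneg_right ?_ hB0.le
      linarith
    · nlinarith
    · linarith
  refine (incr (Ω := Gp n) κ0 hk0 hk01 (fun s i => av κe (F i) (z0 + s))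
    (fun s => av κe D (z0 + s)) (fun i => av κ0 (F i) z0) (av κ0 D z0) P.e P.e he0.le he0.le
    (fun s => if ∀ i ∈ E', (z0 + s) i ≠ 0 then 0 else 1) ?_ ?_ ?_ ?_ ?_ ?_ ?_).trans
    (by linarith)
  · intro ω
    by_cases h : ∀ i ∈ E', (z0 + ω) i ≠ 0
    · left; exact if_pos h
    · right; exact if_neg h
  · -- h1
    apply Flat_sq
    refine le_trans ?_ hshift
    have e1 : ∀ f : Gp n → ℝ, |∑ s, κ0 s * av κe f (z0 + s) - av κ0 f z0| ≤
        ∑ t, κe t * |av κ0 f (z0 + t) - av κ0 f z0| := by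
      intro f
      rw [Flat_swap, Flat_diff hke1]
      refine (abs_sum_le_sum_abs _ _).trans (le_of_eq ?_)
      exact sum_congr rfl fun t _ => by rw [abs_mul, abs_of_nonneg (hke t)]
    have e2 : ∑ t, κe t * ((∑ i, |av κ0 (F i) (z0 + t) - av κ0 (F i) z0|) +
        |av κ0 D (z0 + t) - av κ0 D z0|) =
        (∑ i, ∑ t, κe t * |av κ0 (F i) (z0 + t) - av κ0 (F i) z0|) +
        ∑ t, κe t * |av κ0 D (z0 + t) - av κ0 D z0| := by
      rw [sum_comm, ← sum_add_distrib]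
      refine sum_congr rfl fun t _ => ?_
      rw [mul_add, mul_sum]
    rw [e2]
    exact add_le_add (sum_le_sum fun i _ => e1 (F i)) (e1 D)
  · -- h2
    intro ω hω _
    have hu : ∀ i ∈ E', (z0 + ω) i ≠ 0 := by
      by_contra hcon
      rw [if_neg hcon] at hω
      exact one_ne_zero hω
    exact hno (nxt a ξ) E' (z0 + ω) ⟨hE', hclo, hc, hs, hu⟩
  · -- h3
    intro ω hω
    have hu : ¬ ∀ i ∈ E', (z0 + ω) i ≠ 0 := by
      intro hcon
      rw [if_pos hcon] at hω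
      exact zero_ne_one hω
    obtain ⟨g1, _, _, g4, g5, g6⟩ := be ω
    have g7 := g4 hu
    have g8 : ∀ i, av κe (F i) (z0 + ω) = 0 := by
      intro i
      exact (sum_eq_zero_iff_of_nonneg (fun i _ => g1 i)).1 g7 i (mem_univ i)
    unfold Pot
    simp only [g8]
    simp only [ne_eq, OfNat.ofNat_ne_zero, not_false_eq_true, zero_pow, sum_const_zero, zero_add]
    nlinarith
  · -- h4
    exact unit_ka P hS hjT hEE' hE' hcE' hC.clo (4 * j) hm0 z0 hC.unit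
  · -- h5
    obtain ⟨g1, g2, _, _, g5, g6⟩ := b0
    have g9 := Flat_sq (fun i => av κ0 (F i) z0) 0 (1 + P.e) (by
      simp only [abs_zero, add_zero]
      rw [sum_congr rfl fun i _ => abs_of_nonneg (g1 i)]
      exact g2)
    have g10 : (av κ0 D z0) ^ 2 ≤ 1 := by nlinarith
    have g11 : (1 + P.e) ^ 2 ≤ 3 := by nlinarith
    simp only [ne_eq, OfNat.ofNat_ne_zero, not_false_eq_true, zero_pow, add_zero] at g9
    linarith
  · -- h6
    obtain ⟨g1, g2, _, _, g5, g6⟩ := b0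
    unfold Pot
    have g12 : 0 ≤ ∑ i, (av κ0 (F i) z0) ^ 2 := sum_nonneg fun i _ => sq_nonneg _
    have g13 := sq_nonneg (av κ0 D z0)
    linarith

end Pool.Agent.Lib.MP_629a14_nt.Ml
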