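import Pool.Agent.Lib.MP_629a14_nt.Ml.KShift

/-! Inverse step. -/

set_option autoImplicit false

namespace Pool.Agent.Lib.MP_629a14_nt.Ml

open Finset

variable {ι : Type} [Fintype ι] [DecidableEq ι] {n : ι → ℕ} [∀ i, NeZero (n i)]

private theorem inv_orth (x : Gp n) :
    ∑ ξ : Gp n, psi (ξ * x) = if x = 0 then (Fintype.card (Gp n) : ℂ) else 0 := by
  classical
  have h := sum_psi_HS (n := n) (∅ : Finset ι) x
  have h1 : (HS (∅ : Finset ι) : Finset (Gp n)) = univ := by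
    ext s
    simp [mem_HS]
  rw [h1] at h
  have h2 : ∑ ξ : Gp n, psi (ξ * x) = ∑ s : Gp n, psi (x * s) :=
    sum_congr rfl fun ξ _ => by rw [mul_comm]
  rw [h2, h, card_univ]
  by_cases hx : x = 0
  · rw [if_pos hx, if_pos (fun i _ => by rw [hx]; rfl)]
  · rw [if_neg hx, if_neg]
    intro h3
    exact hx (funext fun i => h3 i (by simp))

private theorem inv_norm_sq (x : Gp n → ℝ) (ξ : Gp n) :
    ((‖∑ v, (x v : ℂ) * psi (ξ * v)‖ ^ 2 : ℝ) : ℂ) =
      ∑ v, ∑ v', ((x v * x v' : ℝ) : ℂ) * psi (ξ * (v' - v)) := by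
  have h1 : ((‖∑ v, (x v : ℂ) * psi (ξ * v)‖ ^ 2 : ℝ) : ℂ) =
      (starRingEnd ℂ) (∑ v, (x v : ℂ) * psi (ξ * v)) * ∑ v, (x v : ℂ) * psi (ξ * v) := by
    rw [Complex.conj_mul']
    push_cast
    rfl
  rw [h1, map_sum, sum_mul_sum]
  refine sum_congr rfl fun v _ => sum_congr rfl fun v' _ => ?_
  rw [map_mul, Complex.conj_ofReal, ← psi_neg]
  have h2 : psi (ξ * (v' - v)) = psi (-(ξ * v)) * psi (ξ * v') := by
    rw [← psi_add]
    congr 1
    ring
  rw [h2]
  push_cast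
  ring

private theorem inv_corr (f : Gp n → ℝ) (h : Gp n) :
    ∑ ξ : Gp n, ((‖∑ w, (f w : ℂ) * psi (ξ * w)‖ ^ 2 : ℝ) : ℂ) * psi (ξ * h) =
      (Fintype.card (Gp n) : ℂ) * ((∑ w, f w * f (w + h) : ℝ) : ℂ) := by
  classical
  have h1 : ∀ ξ : Gp n, ((‖∑ w, (f w : ℂ) * psi (ξ * w)‖ ^ 2 : ℝ) : ℂ) * psi (ξ * h) =
      ∑ v, ∑ v', ((f v * f v' : ℝ) : ℂ) * psi (ξ * (v' - v + h)) := by
    intro ξ
    rw [inv_norm_sq, sum_mul]
    refine sum_congr rfl fun v _ => ?_
    rw [sum_mul]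
    refine sum_congr rfl fun v' _ => ?_
    rw [mul_assoc, ← psi_add]
    congr 2
    ring
  rw [sum_congr rfl fun ξ _ => h1 ξ, sum_comm]
  have h2 : ∀ v : Gp n, ∑ ξ : Gp n, ∑ v', ((f v * f v' : ℝ) : ℂ) * psi (ξ * (v' - v + h)) =
      (Fintype.card (Gp n) : ℂ) * ((f v * f (v - h) : ℝ) : ℂ) := by
    intro v
    rw [sum_comm]
    have h3 : ∀ v' : Gp n, ∑ ξ : Gp n, ((f v * f v' : ℝ) : ℂ) * psi (ξ * (v' - v + h)) =
        if v' = v - h then (Fintype.card (Gp n) : ℂ) * ((f v * f v' : ℝ) : ℂ) else 0 := by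
      intro v'
      rw [← mul_sum, inv_orth]
      by_cases hv : v' = v - h
      · rw [if_pos hv, if_pos (by rw [hv]; abel)]
        ring
      · rw [if_neg hv, if_neg, mul_zero]
        intro h4
        exact hv (by
          have : v' = v - h + (v' - v + h) := by abel
          rw [this, h4, add_zero])
    rw [sum_congr rfl fun v' _ => h3 v', sum_ite_eq' univ (v - h), if_pos (mem_univ _)]
  rw [sum_congr rfl fun v _ => h2 v, ← mul_sum]
  congr 1
  push_cast
  refine Fintype.sum_equiv (Equiv.subRight h) _ _ fun v => ?_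
  simp only [Equiv.subRight_apply, sub_add_cancel]
  ring

/-- Let `κb = ka a lb E`, `κc = ka a lc E`, `G(x) = g(z + x)`, `q = √κb`,
`A(v,v') = ∑ u, κb(u) G(u+v) G(u+v')` (`|A| ≤ 1`), `c(h) = ∑ w, q(w) q(w+h) G(w) G(w+h)`. The sum `N` is
`∑ v v', κc κc' A(v,v') ^ 2`. For `v, v' ∈ HS E`:
`|A(v,v') - c(v'-v)| ≤ ∑ u, |q(u) ^ 2 - q(u+v) q(u+v')| ≤ √(lb Q(v)) + √(lb Q(v'))` by `hellinger` and
Cauchy-Schwarz, so `N ≤ ∑ κc κc' A(v,v') c(v'-v) + 2 e`. Fourier expansion
`c(h) = ∑ ξ, C(ξ) psi (ξ h)`, `C(ξ) = |∑ w, q(w) G(w) psi(ξ w)| ^ 2 / card ≥ 0`,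
`∑ ξ, C(ξ) = c(0) ≤ 1`. Hence for some `ξ` the real number
`∑ κc κc' A(v,v') psi (ξ (v'-v)) = ∑ u, κb(u) ‖∑ v, κc(v) G(u+v) psi(ξ v)‖ ^ 2` is at least `N - 2 e`
(if `N - 2e ≤ 0` any `ξ` works). -/
theorem inverse_step {J : ℕ} (a : Fin J → Gp n) (lb lc : ℝ) (hlb : 0 ≤ lb) (E : Finset ι)
    (g : Gp n → ℝ) (hg : ∀ x, |g x| ≤ 1) (z : Gp n) (e : ℝ)
    (he : ∑ v, ka a lc E v * Real.sqrt (lb * QQ a v) ≤ e) :
    ∃ ξ : Gp n, (∑ u, ∑ u', ∑ v, ∑ v', ka a lb E u * ka a lb E u' * ka a lc E v * ka a lc E v' *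
        (g (z + u + v) * g (z + u + v') * g (z + u' + v) * g (z + u' + v'))) - 2 * e ≤
      ∑ u, ka a lb E u * ‖∑ v, ((ka a lc E v * g (z + u + v) : ℝ) : ℂ) * psi (ξ * v)‖ ^ 2 := by
  classical
  set b : Gp n → ℝ := fun u => ka a lb E u with hb
  set c : Gp n → ℝ := fun v => ka a lc E v with hc
  have hb0 : ∀ u, 0 ≤ b u := fun u => ka_nonneg a lb E u
  have hc0 : ∀ v, 0 ≤ c v := fun v => ka_nonneg a lc E v
  have hb1 : ∑ u, b u = 1 := ka_sum a lb E
  have hc1 : ∑ v, c v = 1 := ka_sum a lc E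
  set q : Gp n → ℝ := fun u => Real.sqrt (b u) with hq
  have hq0 : ∀ u, 0 ≤ q u := fun u => Real.sqrt_nonneg _
  have hqq : ∀ u, q u * q u = b u := fun u => Real.mul_self_sqrt (hb0 u)
  set A : Gp n → Gp n → ℝ := fun v v' => ∑ u, b u * (g (z + u + v) * g (z + u + v')) with hA
  set R : Gp n → ℝ := fun ξ =>
    ∑ u, b u * ‖∑ v, ((c v * g (z + u + v) : ℝ) : ℂ) * psi (ξ * v)‖ ^ 2 with hR
  have hg2 : ∀ x y, |g x * g y| ≤ 1 := fun x y => by
    rw [abs_mul]
    exact mul_le_one₀ (hg x) (abs_nonneg _) (hg y)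
  have hR0 : ∀ ξ, 0 ≤ R ξ := fun ξ => sum_nonneg fun u _ => mul_nonneg (hb0 u) (sq_nonneg _)
  have hA1 : ∀ v v', |A v v'| ≤ 1 := by
    intro v v'
    refine (abs_sum_le_sum_abs _ _).trans ?_
    rw [← hb1]
    refine sum_le_sum fun u _ => ?_
    rw [abs_mul, abs_of_nonneg (hb0 u)]
    exact mul_le_of_le_one_right (hb0 u) (hg2 _ _)
  -- the main sum
  have hN : (∑ u, ∑ u', ∑ v, ∑ v', b u * b u' * c v * c v' *
      (g (z + u + v) * g (z + u + v') * g (z + u' + v) * g (z + u' + v'))) =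
      ∑ v, ∑ v', c v * c v' * (A v v' * A v v') := by
    have h1 : ∀ v v', c v * c v' * (A v v' * A v v') = ∑ u, ∑ u', b u * b u' * c v * c v' *
        (g (z + u + v) * g (z + u + v') * g (z + u' + v) * g (z + u' + v')) := by
      intro v v'
      simp only [hA]
      rw [sum_mul_sum, mul_sum]
      refine sum_congr rfl fun u _ => ?_
      rw [mul_sum]
      refine sum_congr rfl fun u' _ => ?_
      ring
    simp only [h1]
    calc _ = ∑ u, ∑ v, ∑ u', ∑ v', b u * b u' * c v * c v' *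
        (g (z + u + v) * g (z + u + v') * g (z + u' + v) * g (z + u' + v')) :=
          sum_congr rfl fun u _ => sum_comm
      _ = ∑ u, ∑ v, ∑ v', ∑ u', b u * b u' * c v * c v' *
        (g (z + u + v) * g (z + u + v') * g (z + u' + v) * g (z + u' + v')) :=
          sum_congr rfl fun u _ => sum_congr rfl fun v _ => sum_comm
      _ = ∑ v, ∑ u, ∑ v', ∑ u', b u * b u' * c v * c v' *
        (g (z + u + v) * g (z + u + v') * g (z + u' + v) * g (z + u' + v')) := sum_comm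
      _ = _ := sum_congr rfl fun v _ => sum_comm
  -- correlation
  set f : Gp n → ℝ := fun w => q w * g (z + w) with hf
  set cor : Gp n → ℝ := fun h => ∑ w, f w * f (w + h) with hcor
  have hshift : ∀ (F : Gp n → ℝ) (v : Gp n), ∑ u, F (u + v) = ∑ u, F u := by
    intro F v
    exact Fintype.sum_equiv (Equiv.addRight v) _ _ fun u => rfl
  have hdiff : ∀ v v', v ∈ (HS E : Finset (Gp n)) → v' ∈ (HS E : Finset (Gp n)) →
      |A v v' - cor (v' - v)| ≤ Real.sqrt (lb * QQ a v) + Real.sqrt (lb * QQ a v') := by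
    intro v v' hv hv'
    have h1 : cor (v' - v) = ∑ u, q (u + v) * q (u + v') * (g (z + u + v) * g (z + u + v')) := by
      simp only [hcor]
      rw [← hshift _ v]
      refine sum_congr rfl fun u _ => ?_
      simp only [hf]
      have e1 : u + v + (v' - v) = u + v' := by abel
      rw [e1, add_assoc z u v, add_assoc z u v']
      ring
    have h2 : A v v' - cor (v' - v) = ∑ u, (q u * (q u - q (u + v')) + q (u + v') * (q u - q (u + v))) *
        (g (z + u + v) * g (z + u + v')) := by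
      rw [h1]
      simp only [hA]
      rw [← sum_sub_distrib]
      refine sum_congr rfl fun u _ => ?_
      rw [← hqq u]
      ring
    have h3 : |A v v' - cor (v' - v)| ≤
        ∑ u, (q u * |q u - q (u + v')| + q (u + v') * |q u - q (u + v)|) := by
      rw [h2]
      refine (abs_sum_le_sum_abs _ _).trans (sum_le_sum fun u _ => ?_)
      rw [abs_mul]
      refine (mul_le_of_le_one_right (abs_nonneg _) (hg2 _ _)).trans ?_
      refine (abs_add_le _ _).trans ?_
      rw [abs_mul, abs_mul, abs_of_nonneg (hq0 u), abs_of_nonneg (hq0 (u + v'))]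
    have hcs : ∀ (F H : Gp n → ℝ), ∑ u, F u ^ 2 ≤ 1 → ∀ r : ℝ, ∑ u, H u ^ 2 ≤ r →
        ∑ u, F u * H u ≤ Real.sqrt r := by
      intro F H h4 r h5
      have h6 := sum_mul_sq_le_sq_mul_sq univ F H
      have h7 : (∑ u, F u * H u) ^ 2 ≤ r := by
        refine h6.trans ?_
        have h8 : 0 ≤ ∑ u, H u ^ 2 := sum_nonneg fun u _ => sq_nonneg _
        nlinarith [sum_nonneg (fun u (_ : u ∈ (univ : Finset (Gp n))) => sq_nonneg (F u))]
      exact Real.le_sqrt_of_sq_le h7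
    have h9 : ∀ w ∈ (HS E : Finset (Gp n)), ∑ u, |q u - q (u + w)| ^ 2 ≤ lb * QQ a w := by
      intro w hw
      simp only [sq_abs]
      exact hellinger a lb hlb E hw
    have hq2 : ∑ u, q u ^ 2 ≤ 1 := by
      have : ∑ u, q u ^ 2 = 1 := by
        rw [← hb1]
        exact sum_congr rfl fun u _ => by rw [sq, hqq]
      exact this.le
    have hq2' : ∑ u, q (u + v') ^ 2 ≤ 1 := by
      rw [hshift (fun u => q u ^ 2) v']
      exact hq2
    rw [sum_add_distrib] at h3
    have h10 := hcs q (fun u => |q u - q (u + v')|) hq2 _ (h9 v' hv')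
    have h11 := hcs (fun u => q (u + v')) (fun u => |q u - q (u + v)|) hq2' _ (h9 v hv)
    linarith
  have hsum : (∑ v, ∑ v', c v * c v' * (A v v' * A v v')) - 2 * e ≤
      ∑ v, ∑ v', c v * c v' * (A v v' * cor (v' - v)) := by
    have h1 : ∀ v v', c v * c v' * (A v v' * A v v') ≤ c v * c v' * (A v v' * cor (v' - v)) +
        (c v * Real.sqrt (lb * QQ a v) * c v' + c v * (c v' * Real.sqrt (lb * QQ a v'))) := by
      intro v v'
      by_cases hv : v ∈ (HS E : Finset (Gp n))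
      · by_cases hv' : v' ∈ (HS E : Finset (Gp n))
        · have h2 : A v v' * A v v' ≤ A v v' * cor (v' - v) +
              (Real.sqrt (lb * QQ a v) + Real.sqrt (lb * QQ a v')) := by
            have h3 : A v v' * (A v v' - cor (v' - v)) ≤
                Real.sqrt (lb * QQ a v) + Real.sqrt (lb * QQ a v') := by
              refine (le_abs_self _).trans ?_
              rw [abs_mul]
              have := hdiff v v' hv hv'
              have h4 := hA1 v v'
              calc |A v v'| * |A v v' - cor (v' - v)| ≤ 1 * |A v v' - cor (v' - v)| :=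
                    mul_le_mul_of_nonneg_right h4 (abs_nonneg _)
                _ ≤ _ := by linarith
            nlinarith
          have h5 := mul_le_mul_of_nonneg_left h2 (mul_nonneg (hc0 v) (hc0 v'))
          nlinarith
        · have : c v' = 0 := ka_of_not_mem a lc E hv'
          rw [this]
          simp
      · have : c v = 0 := ka_of_not_mem a lc E hv
        rw [this]
        simp
    have h2 : ∑ v, ∑ v', c v * c v' * (A v v' * A v v') ≤
        ∑ v, ∑ v', (c v * c v' * (A v v' * cor (v' - v)) +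
        (c v * Real.sqrt (lb * QQ a v) * c v' + c v * (c v' * Real.sqrt (lb * QQ a v')))) :=
      sum_le_sum fun v _ => sum_le_sum fun v' _ => h1 v v'
    have h3 : ∑ v, ∑ v', (c v * c v' * (A v v' * cor (v' - v)) +
        (c v * Real.sqrt (lb * QQ a v) * c v' + c v * (c v' * Real.sqrt (lb * QQ a v')))) =
        (∑ v, ∑ v', c v * c v' * (A v v' * cor (v' - v))) +
        ((∑ v, c v * Real.sqrt (lb * QQ a v)) * (∑ v', c v') +
          (∑ v, c v) * (∑ v', c v' * Real.sqrt (lb * QQ a v'))) := by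
      rw [sum_mul_sum, sum_mul_sum, ← sum_add_distrib, ← sum_add_distrib]
      refine sum_congr rfl fun v _ => ?_
      rw [← sum_add_distrib, ← sum_add_distrib]
    rw [h3, hc1] at h2
    have h4 : ∑ v, c v * Real.sqrt (lb * QQ a v) ≤ e := he
    linarith
  -- Fourier side
  set cd : ℝ := (Fintype.card (Gp n) : ℝ) with hcd
  have hcd0 : 0 < cd := by
    rw [hcd]
    exact_mod_cast Fintype.card_pos
  set C : Gp n → ℝ := fun ξ => ‖∑ w, (f w : ℂ) * psi (ξ * w)‖ ^ 2 / cd with hC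
  have hC0 : ∀ ξ, 0 ≤ C ξ := fun ξ => div_nonneg (sq_nonneg _) hcd0.le
  have hCc : ∀ h, ∑ ξ, (C ξ : ℂ) * psi (ξ * h) = (cor h : ℂ) := by
    intro h
    have h1 := inv_corr f h
    have h2 : ∑ ξ, (C ξ : ℂ) * psi (ξ * h) =
        (∑ ξ : Gp n, ((‖∑ w, (f w : ℂ) * psi (ξ * w)‖ ^ 2 : ℝ) : ℂ) * psi (ξ * h)) / cd := by
      rw [sum_div]
      refine sum_congr rfl fun ξ _ => ?_
      simp only [hC]
      push_cast
      ring
    rw [h2, h1]
    have h3 : (cd : ℂ) ≠ 0 := by exact_mod_cast hcd0.ne'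
    have h4 : (Fintype.card (Gp n) : ℂ) = (cd : ℂ) := by
      rw [hcd]
      norm_cast
    rw [h4, mul_comm, mul_div_assoc, div_self h3, mul_one]
  have hCsum : ∑ ξ, C ξ ≤ 1 := by
    have h1 := hCc 0
    have h2 : ∑ ξ, (C ξ : ℂ) * psi (ξ * 0) = ((∑ ξ, C ξ : ℝ) : ℂ) := by
      push_cast
      refine sum_congr rfl fun ξ _ => ?_
      rw [mul_zero, psi_zero, mul_one]
    rw [h2] at h1
    have h3 : ∑ ξ, C ξ = cor 0 := by exact_mod_cast h1
    rw [h3, ← hb1]
    simp only [hcor]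
    refine sum_le_sum fun w _ => ?_
    rw [add_zero]
    simp only [hf]
    have h4 := hg2 (z + w) (z + w)
    have h5 : q w * g (z + w) * (q w * g (z + w)) = b w * (g (z + w) * g (z + w)) := by
      rw [← hqq w]
      ring
    rw [h5]
    exact mul_le_of_le_one_right (hb0 w) ((le_abs_self _).trans h4)
  have hRc : ∀ ξ, (R ξ : ℂ) = ∑ v, ∑ v', ((c v * c v' * A v v' : ℝ) : ℂ) * psi (ξ * (v' - v)) := by
    intro ξ
    simp only [hR]
    have h1 : ((∑ u, b u * ‖∑ v, ((c v * g (z + u + v) : ℝ) : ℂ) * psi (ξ * v)‖ ^ 2 : ℝ) : ℂ) =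
        ∑ u, (b u : ℂ) * ∑ v, ∑ v', ((c v * g (z + u + v) * (c v' * g (z + u + v')) : ℝ) : ℂ) *
          psi (ξ * (v' - v)) := by
      rw [Complex.ofReal_sum]
      refine sum_congr rfl fun u _ => ?_
      rw [Complex.ofReal_mul, inv_norm_sq (fun v => c v * g (z + u + v)) ξ]
    rw [h1]
    have h2 : ∀ v v', ((c v * c v' * A v v' : ℝ) : ℂ) * psi (ξ * (v' - v)) =
        ∑ u, (b u : ℂ) * (((c v * g (z + u + v) * (c v' * g (z + u + v')) : ℝ) : ℂ) *
          psi (ξ * (v' - v))) := by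
      intro v v'
      simp only [hA]
      push_cast
      rw [mul_sum, sum_mul]
      refine sum_congr rfl fun u _ => ?_
      ring
    simp only [h2]
    calc _ = ∑ u, ∑ v, ∑ v', (b u : ℂ) * (((c v * g (z + u + v) * (c v' * g (z + u + v')) : ℝ) : ℂ) *
          psi (ξ * (v' - v))) := by
          refine sum_congr rfl fun u _ => ?_
          rw [mul_sum]
          exact sum_congr rfl fun v _ => by rw [mul_sum]
      _ = ∑ v, ∑ u, ∑ v', (b u : ℂ) * (((c v * g (z + u + v) * (c v' * g (z + u + v')) : ℝ) : ℂ) *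
          psi (ξ * (v' - v))) := sum_comm
      _ = _ := sum_congr rfl fun v _ => sum_comm
  have hfin : ∑ ξ, C ξ * R ξ = ∑ v, ∑ v', c v * c v' * (A v v' * cor (v' - v)) := by
    have h1 : ((∑ ξ, C ξ * R ξ : ℝ) : ℂ) =
        ((∑ v, ∑ v', c v * c v' * (A v v' * cor (v' - v)) : ℝ) : ℂ) := by
      rw [Complex.ofReal_sum]
      have h2 : ∀ ξ, ((C ξ * R ξ : ℝ) : ℂ) = ∑ v, ∑ v', ((c v * c v' * A v v' : ℝ) : ℂ) *
          ((C ξ : ℂ) * psi (ξ * (v' - v))) := by
        intro ξ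
        rw [Complex.ofReal_mul, hRc ξ, mul_sum]
        refine sum_congr rfl fun v _ => ?_
        rw [mul_sum]
        refine sum_congr rfl fun v' _ => ?_
        ring
      rw [sum_congr rfl fun ξ _ => h2 ξ, sum_comm, Complex.ofReal_sum]
      refine sum_congr rfl fun v _ => ?_
      rw [sum_comm, Complex.ofReal_sum]
      refine sum_congr rfl fun v' _ => ?_
      rw [← mul_sum, hCc]
      push_cast
      ring
    exact_mod_cast h1
  obtain ⟨ξ, _, hξ⟩ := exists_max_image (univ : Finset (Gp n)) R univ_nonempty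
  refine ⟨ξ, ?_⟩
  have h1 : ∑ ξ', C ξ' * R ξ' ≤ R ξ := by
    calc ∑ ξ', C ξ' * R ξ' ≤ ∑ ξ', C ξ' * R ξ :=
          sum_le_sum fun ξ' _ => mul_le_mul_of_nonneg_left (hξ ξ' (mem_univ _)) (hC0 ξ')
      _ = (∑ ξ', C ξ') * R ξ := by rw [sum_mul]
      _ ≤ 1 * R ξ := mul_le_mul_of_nonneg_right hCsum (hR0 ξ)
      _ = R ξ := one_mul _
  have h2 : (∑ u, ∑ u', ∑ v, ∑ v', b u * b u' * c v * c v' *
      (g (z + u + v) * g (z + u + v') * g (z + u' + v) * g (z + u' + v'))) - 2 * e ≤ R ξ := by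
    rw [hN]
    linarith
  exact h2

end Pool.Agent.Lib.MP_629a14_nt.Ml
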