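import Pool.Agent.Lib.MP_629a14_nt.Ml.Step

/-! The set of bad midpoints has density less than one half. -/

set_option autoImplicit false

namespace Pool.Agent.Lib.MP_629a14_nt.Ml

open Finset

variable {ι : Type} [Fintype ι] [DecidableEq ι] {n : ι → ℕ} [∀ i, NeZero (n i)]

/-- Start with `j = 0`, `E = ∅`, any `z`: the kernel is uniform, so `d = ∑ D / card ≥ 1/2`. After `T` steps
the potential is at least `1/2 + T e ≥ 3/2`, but it is at most `1 + (1/12)((1+e)^2 + 1) < 3/2`
(`av_F_bounds`). -/
theorem no_sys (P : Par) {sv : Finset ι} {F : Fin P.k → Gp n → ℝ} {D : Gp n → ℝ}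
    (hS : Sys P sv F D) : ∑ x, D x < (Fintype.card (Gp n) : ℝ) / 2 := by
  by_contra hcon
  push_neg at hcon
  have hcard0 : (0 : ℝ) < Fintype.card (Gp n) := by
    have : 0 < Fintype.card (Gp n) := Fintype.card_pos
    exact_mod_cast this
  have key : ∀ j : ℕ, j ≤ P.T → ∃ (a : Fin j → Gp n) (E : Finset ι) (z : Gp n),
      Cfg P sv a E z ∧ 1 / 2 + j * P.e ≤ PP F D (ka a (P.B ^ (4 * j)) E) z := by
    intro j
    induction j with
    | zero =>
      intro _
      refine ⟨fun i => i.elim0, ∅, 0, ⟨empty_subset _, ?_, ?_, ?_, ?_⟩, ?_⟩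
      · intro m _
        left
        intro i _
        simp
      · simp
      · intro i hi
        exact absurd hi (notMem_empty i)
      · intro i hi
        exact absurd hi (notMem_empty i)
      · have hQ : ∀ s : Gp n, QQ (fun i : Fin 0 => (i.elim0 : Gp n)) s = 0 := by
          intro s
          unfold QQ
          simp
        have hZ : ∀ lam : ℝ, ZZ (fun i : Fin 0 => (i.elim0 : Gp n)) lam ∅ = 1 := by
          intro lam
          unfold ZZ
          have h1 : (fun s : Gp n => Real.exp (-(lam * QQ (fun i : Fin 0 => (i.elim0 : Gp n)) s))) =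
              fun _ => (1 : ℝ) := by
            funext s
            rw [hQ]
            simp
          rw [h1, EH_const]
        have hHS : ((HS (∅ : Finset ι) : Finset (Gp n)).card : ℝ) = Fintype.card (Gp n) := by
          have := card_HS_mul (n := n) (∅ : Finset ι)
          simpa using this
        have hka : ∀ (lam : ℝ) (s : Gp n), ka (fun i : Fin 0 => (i.elim0 : Gp n)) lam ∅ s =
            1 / (Fintype.card (Gp n) : ℝ) := by
          intro lam s
          unfold ka
          rw [if_pos ((mem_HS _ _).2 fun i hi => absurd hi (notMem_empty i)), hQ, hZ, hHS]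
          simp
        have hd : av (ka (fun i : Fin 0 => (i.elim0 : Gp n)) (P.B ^ (4 * 0)) ∅) D 0 =
            (∑ x, D x) / Fintype.card (Gp n) := by
          unfold av
          rw [sum_div]
          refine sum_congr rfl fun s _ => ?_
          rw [hka, zero_add]
          ring
        have hd2 : (1 : ℝ) / 2 ≤ (∑ x, D x) / Fintype.card (Gp n) := by
          rw [le_div_iff₀ hcard0]
          linarith
        unfold PP Pot
        rw [hd]
        have h1 : 0 ≤ ∑ i, av (ka (fun i : Fin 0 => (i.elim0 : Gp n)) (P.B ^ (4 * 0)) ∅) (F i) 0 ^ 2 :=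
          sum_nonneg fun i _ => sq_nonneg _
        have h2 := sq_nonneg ((∑ x, D x) / (Fintype.card (Gp n) : ℝ))
        push_cast
        linarith
    | succ j ih =>
      intro hj
      obtain ⟨a, E, z, hC, hP⟩ := ih (by omega)
      have he := P.he
      have h12 : 1 / 2 ≤ PP F D (ka a (P.B ^ (4 * j)) E) z := by
        refine le_trans ?_ hP
        have : 0 ≤ (j : ℝ) * P.e := by positivity
        linarith
      obtain ⟨a', E', z', hC', hP'⟩ := step P hS (by omega) a E z hC h12
      refine ⟨a', E', z', hC', ?_⟩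
      push_cast
      linarith
  obtain ⟨a, E, z, hC, hP⟩ := key P.T le_rfl
  obtain ⟨h1, h2, -, -, h3, h4⟩ := av_F_bounds P hS le_rfl hC.sub hC.card hC.clo (4 * P.T) le_rfl z
  have he := P.he
  have he1 : P.e ≤ 1 := by
    refine P.e_le.trans ?_
    have hk : (2 : ℝ) ≤ P.k := by exact_mod_cast P.hk
    have h5 : (1 : ℝ) ≤ (P.k : ℝ) ^ 8 := one_le_pow₀ (by linarith)
    rw [div_le_one (by positivity)]
    nlinarith
  have h5 : ∑ i, av (ka a (P.B ^ (4 * P.T)) E) (F i) z ^ 2 ≤
      (∑ i, av (ka a (P.B ^ (4 * P.T)) E) (F i) z) ^ 2 :=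
    Finset.sum_sq_le_sq_sum_of_nonneg fun i _ => h1 i
  have h6 : 0 ≤ ∑ i, av (ka a (P.B ^ (4 * P.T)) E) (F i) z := sum_nonneg fun i _ => h1 i
  have h7 : (∑ i, av (ka a (P.B ^ (4 * P.T)) E) (F i) z) ^ 2 ≤ 4 := by nlinarith
  have h8 : av (ka a (P.B ^ (4 * P.T)) E) D z ^ 2 ≤ 1 := by nlinarith
  have hT := P.hT
  unfold PP Pot at hP
  nlinarith

end Pool.Agent.Lib.MP_629a14_nt.Ml
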