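import Pool.Agent.Lib.MP_629a14_nt.Ml.Ker

/-! Hellinger distance of the kernel and its translates. -/

set_option autoImplicit false

namespace Pool.Agent.Lib.MP_629a14_nt.Ml

open Finset

variable {ι : Type} [Fintype ι] [DecidableEq ι] {n : ι → ℕ} [∀ i, NeZero (n i)]

private theorem KHel_Q2 {J : ℕ} (a : Fin J → Gp n) (s h : Gp n) :
    QQ a (s + h) + QQ a (s + -h) - 2 * QQ a s ≤ 2 * QQ a h := by
  unfold QQ
  rw [mul_sum, mul_sum, ← sum_add_distrib, ← sum_sub_distrib]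
  refine sum_le_sum fun j _ => ?_
  have h1 : psi (a j * (s + h)) = psi (a j * s) * psi (a j * h) := by rw [mul_add, psi_add]
  have h2 : psi (a j * (s + -h)) = psi (a j * s) * (starRingEnd ℂ) (psi (a j * h)) := by
    rw [mul_add, psi_add, mul_neg, psi_neg]
  rw [h1, h2, Complex.mul_re, Complex.mul_re, Complex.conj_re, Complex.conj_im]
  have h3 := re_psi_le (a j * s)
  have h4 := re_psi_le (a j * h)
  nlinarith [mul_nonneg (sub_nonneg.2 h3) (sub_nonneg.2 h4)]

private theorem KHel_shift {J : ℕ} (a : Fin J → Gp n) (lam : ℝ) (E : Finset ι) (h : Gp n) :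
    ∑ s, ka a lam E s * QQ a (s + h) = ∑ s, ka a lam E s * QQ a (s + -h) := by
  rw [← Equiv.sum_comp (Equiv.neg (Gp n)) (fun s => ka a lam E s * QQ a (s + h))]
  refine sum_congr rfl fun s _ => ?_
  rw [Equiv.neg_apply, ka_neg, ← QQ_neg a (-s + h), neg_add, neg_neg]

private theorem KHel_diff {J : ℕ} (a : Fin J → Gp n) (lam : ℝ) (E : Finset ι) (h : Gp n) :
    ∑ s, ka a lam E s * (QQ a (s + h) - QQ a s) ≤ QQ a h := by
  have h1 : ∑ s, ka a lam E s * (QQ a (s + h) - QQ a s) =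
      (1 / 2) * ∑ s, ka a lam E s * (QQ a (s + h) + QQ a (s + -h) - 2 * QQ a s) := by
    have h2 := KHel_shift a lam E h
    simp only [mul_sub, mul_add, sum_sub_distrib, sum_add_distrib]
    rw [h2]
    have h3 : ∑ s, ka a lam E s * (2 * QQ a s) = 2 * ∑ s, ka a lam E s * QQ a s := by
      rw [mul_sum]
      exact sum_congr rfl fun s _ => by ring
    rw [h3]
    ring
  rw [h1]
  have h4 : ∑ s, ka a lam E s * (QQ a (s + h) + QQ a (s + -h) - 2 * QQ a s) ≤
      ∑ s, ka a lam E s * (2 * QQ a h) :=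
    sum_le_sum fun s _ => mul_le_mul_of_nonneg_left (KHel_Q2 a s h) (ka_nonneg a lam E s)
  rw [← sum_mul, ka_sum, one_mul] at h4
  linarith

private theorem KHel_sqrt {J : ℕ} (a : Fin J → Gp n) (lam : ℝ) (E : Finset ι) {h : Gp n}
    (hh : h ∈ (HS E : Finset (Gp n))) (s : Gp n) :
    Real.sqrt (ka a lam E s) * Real.sqrt (ka a lam E (s + h)) =
      ka a lam E s * Real.exp (-(lam / 2) * (QQ a (s + h) - QQ a s)) := by
  by_cases hs : s ∈ (HS E : Finset (Gp n))
  · have hs2 := add_mem_HS hs hh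
    have hW : 0 < ZZ a lam E * ((HS E : Finset (Gp n)).card : ℝ) :=
      mul_pos (ZZ_pos a lam E) (card_HS_pos E)
    rw [← Real.sqrt_mul (ka_nonneg a lam E s)]
    unfold ka
    rw [if_pos hs, if_pos hs2]
    have h1 : Real.exp (-(lam * QQ a s)) / (ZZ a lam E * ((HS E : Finset (Gp n)).card : ℝ)) *
        (Real.exp (-(lam * QQ a (s + h))) / (ZZ a lam E * ((HS E : Finset (Gp n)).card : ℝ))) =
        (Real.exp (-(lam * QQ a s)) / (ZZ a lam E * ((HS E : Finset (Gp n)).card : ℝ)) *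
          Real.exp (-(lam / 2) * (QQ a (s + h) - QQ a s))) ^ 2 := by
      have h2 : Real.exp (-(lam * QQ a (s + h))) = Real.exp (-(lam * QQ a s)) *
          (Real.exp (-(lam / 2) * (QQ a (s + h) - QQ a s))) ^ 2 := by
        rw [← Real.exp_nat_mul, ← Real.exp_add]
        congr 1
        push_cast
        ring
      rw [h2]
      field_simp
    rw [h1, Real.sqrt_sq]
    exact mul_nonneg (div_nonneg (Real.exp_pos _).le hW.le) (Real.exp_pos _).le
  · rw [ka_of_not_mem a lam E hs, Real.sqrt_zero, zero_mul, zero_mul]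

/-- `∑ √(κ(s) κ(s+h)) = ∑ κ(s) exp (-(lam/2) (Q(s+h) - Q(s))) ≥ 1 - (lam/2) ∑ κ(s) (Q(s+h) - Q(s))`
(`exp x ≥ 1 + x`). As `Re psi (a j (s+h)) = Re psi (a j s) Re psi (a j h) - Im .. Im ..` and the
kernel is even, `∑ κ(s) (Q(s+h) - Q(s)) = ∑_j (1 - Re psi (a j h)) ∑ κ(s) Re psi (a j s) ≤ Q(h)`. -/
theorem affinity {J : ℕ} (a : Fin J → Gp n) (lam : ℝ) (hlam : 0 ≤ lam) (E : Finset ι) {h : Gp n}
    (hh : h ∈ (HS E : Finset (Gp n))) :
    1 - lam * QQ a h / 2 ≤ ∑ s, Real.sqrt (ka a lam E s) * Real.sqrt (ka a lam E (s + h)) := by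
  have h1 : ∑ s, (ka a lam E s - lam / 2 * (ka a lam E s * (QQ a (s + h) - QQ a s))) ≤
      ∑ s, Real.sqrt (ka a lam E s) * Real.sqrt (ka a lam E (s + h)) := by
    refine sum_le_sum fun s _ => ?_
    rw [KHel_sqrt a lam E hh s]
    have h2 := Real.add_one_le_exp (-(lam / 2) * (QQ a (s + h) - QQ a s))
    have h3 := mul_le_mul_of_nonneg_left h2 (ka_nonneg a lam E s)
    linarith
  rw [sum_sub_distrib, ka_sum, ← mul_sum] at h1
  have h4 := mul_le_mul_of_nonneg_left (KHel_diff a lam E h) (by linarith : 0 ≤ lam / 2)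
  linarith

theorem hellinger {J : ℕ} (a : Fin J → Gp n) (lam : ℝ) (hlam : 0 ≤ lam) (E : Finset ι) {h : Gp n}
    (hh : h ∈ (HS E : Finset (Gp n))) :
    ∑ s, (Real.sqrt (ka a lam E s) - Real.sqrt (ka a lam E (s + h))) ^ 2 ≤ lam * QQ a h := by
  have h1 := affinity a lam hlam E hh
  have h2 : ∑ s, ka a lam E (s + h) = 1 := by
    rw [← ka_sum a lam E]
    exact Equiv.sum_comp (Equiv.addRight h) (fun s => ka a lam E s)
  have h3 : ∑ s, (Real.sqrt (ka a lam E s) - Real.sqrt (ka a lam E (s + h))) ^ 2 =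
      ∑ s, (ka a lam E s + ka a lam E (s + h) -
        2 * (Real.sqrt (ka a lam E s) * Real.sqrt (ka a lam E (s + h)))) := by
    refine sum_congr rfl fun s _ => ?_
    have h4 := Real.sq_sqrt (ka_nonneg a lam E s)
    have h5 := Real.sq_sqrt (ka_nonneg a lam E (s + h))
    nlinarith
  rw [h3, sum_sub_distrib, sum_add_distrib, ka_sum, h2, ← mul_sum]
  linarith

end Pool.Agent.Lib.MP_629a14_nt.Ml
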