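import Pool.Agent.Lib.MP_629a14_nt.Ml.KHel

/-! Weighted distance of the kernel and its translates. -/

set_option autoImplicit false

namespace Pool.Agent.Lib.MP_629a14_nt.Ml

open Finset

variable {ι : Type} [Fintype ι] [DecidableEq ι] {n : ι → ℕ} [∀ i, NeZero (n i)]

private theorem KShift_PF_nonneg {c : ι → ℝ} {E : Finset ι} {Φ : Gp n → ℝ} (hΦ : PF c E Φ)
    (s : Gp n) : 0 ≤ Φ s := by
  obtain ⟨φ, h1, h2, -⟩ := hΦ
  rw [h2]
  exact prod_nonneg fun i _ => h1 i _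

/-- A sum over the group of a function supported on `HS E` as an average. -/
private theorem KShift_sum {E : Finset ι} {Z : ℝ} (g F : Gp n → ℝ) (Φ : Gp n → ℝ)
    (h1 : ∀ s ∈ (HS E : Finset (Gp n)), g s = F s / (Z * ((HS E : Finset (Gp n)).card : ℝ)))
    (h2 : ∀ s, s ∉ (HS E : Finset (Gp n)) → g s = 0) :
    ∑ s, g s * Φ s = EH E (fun s => F s * Φ s) / Z := by
  have h3 : ∑ s, g s * Φ s = ∑ s ∈ (HS E : Finset (Gp n)), g s * Φ s := by
    symm
    refine sum_subset (subset_univ _) fun s _ hs => ?_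
    rw [h2 s hs, zero_mul]
  rw [h3]
  unfold EH
  rw [div_div, sum_div]
  refine sum_congr rfl fun s hs => ?_
  rw [h1 s hs]
  ring

private theorem KShift_mem {E : Finset ι} {h : Gp n} (hh : h ∈ (HS E : Finset (Gp n))) (s : Gp n) :
    s + h ∈ (HS E : Finset (Gp n)) ↔ s ∈ (HS E : Finset (Gp n)) := by
  constructor
  · intro hs
    have := add_mem_HS hs (neg_mem_HS hh)
    rwa [add_neg_cancel_right] at this
  · intro hs
    exact add_mem_HS hs hh

/-- Let `κ = ka a lam E`, `Z = ZZ a lam E`, `N = EH E Φ`. By `GoodK` (with `th = 1, h = 0`; `th = 0`;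
`th = 1/2`) `∑ κ(s) Φ(s) ≤ (1 + rho) N`, `∑ κ(s+h) Φ(s) ≤ (1 + rho) N` (here
`EH E (Hm a lam 0 h) = Z` by `EH_shift`) and `∑ √(κ(s)κ(s+h)) Φ(s) ≥ (A - rho) N`, where
`A = EH E (Hm a lam (1/2) h) / Z = ∑ √(κ(s)κ(s+h)) ≥ 1 - lam Q(h) / 2` by `affinity`. Hence
`∑ (√κ(s) - √κ(s+h)) ^ 2 Φ(s) ≤ (lam Q(h) + 4 rho) N`, and Cauchy-Schwarz with
`∑ (√κ(s) + √κ(s+h)) ^ 2 Φ(s) ≤ 4 (1 + rho) N` gives the claim. -/
theorem shift_w {c : ι → ℝ} {J : ℕ} {a : Fin J → Gp n} {lam : ℝ} {E : Finset ι} {rho : ℝ}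
    (hG : GoodK c a lam E rho) (hlam : 0 ≤ lam) (hr0 : 0 ≤ rho) (hr1 : rho ≤ 1)
    {Φ : Gp n → ℝ} (hΦ : PF c E Φ) {h : Gp n} (hh : h ∈ (HS E : Finset (Gp n))) :
    ∑ s, |ka a lam E (s + h) - ka a lam E s| * Φ s ≤
      3 * Real.sqrt (lam * QQ a h + 4 * rho) * EH E Φ := by
  have hΦ0 : ∀ s, 0 ≤ Φ s := KShift_PF_nonneg hΦ
  have hN : 0 ≤ EH E Φ := EH_nonneg E hΦ0
  have hZ : 0 < ZZ a lam E := ZZ_pos a lam E
  have hcard := card_HS_pos (n := n) E
  have hQ : 0 ≤ QQ a h := QQ_nonneg a h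
  have hka : ∀ s, 0 ≤ ka a lam E s := ka_nonneg a lam E
  -- (1)
  have e1 : ∑ s, ka a lam E s * Φ s ≤ (1 + rho) * EH E Φ := by
    have := (abs_le.1 (ka_PF hG hΦ)).2
    linarith
  -- (2)
  have e2 : ∑ s, ka a lam E (s + h) * Φ s ≤ (1 + rho) * EH E Φ := by
    have g1 : ∑ s, ka a lam E (s + h) * Φ s =
        EH E (fun s => Hm a lam 0 h s * Φ s) / ZZ a lam E := by
      refine KShift_sum (fun s => ka a lam E (s + h)) (Hm a lam 0 h) Φ (fun s hs => ?_)
        (fun s hs => ?_)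
      · show ka a lam E (s + h) = _
        unfold ka Hm
        rw [if_pos ((KShift_mem hh s).2 hs)]
        simp
      · exact ka_of_not_mem a lam E fun h1 => hs ((KShift_mem hh s).1 h1)
    have g2 := (abs_le.1 (hG Φ hΦ h hh 0 le_rfl zero_le_one)).2
    have g3 : EH E (Hm a lam 0 h) = ZZ a lam E := by
      have := EH_shift E (fun s => Real.exp (-(lam * QQ a s))) hh
      unfold ZZ
      rw [← this]
      congr 1
      funext s
      unfold Hm
      simp
    rw [g3] at g2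
    rw [g1, div_le_iff₀ hZ]
    linarith
  -- (3)
  have hsq : ∀ s ∈ (HS E : Finset (Gp n)),
      Real.sqrt (ka a lam E s) * Real.sqrt (ka a lam E (s + h)) =
        Hm a lam (1 / 2) h s / (ZZ a lam E * ((HS E : Finset (Gp n)).card : ℝ)) := by
    intro s hs
    rw [← Real.sqrt_mul (hka s)]
    have g1 : ka a lam E s * ka a lam E (s + h) =
        (Hm a lam (1 / 2) h s / (ZZ a lam E * ((HS E : Finset (Gp n)).card : ℝ))) ^ 2 := by
      unfold ka Hm
      rw [if_pos hs, if_pos ((KShift_mem hh s).2 hs), div_pow, div_mul_div_comm, ← Real.exp_add,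
        sq, sq, ← Real.exp_add]
      congr 2
      ring
    rw [g1, Real.sqrt_sq]
    unfold Hm
    positivity
  have hsq0 : ∀ s, s ∉ (HS E : Finset (Gp n)) →
      Real.sqrt (ka a lam E s) * Real.sqrt (ka a lam E (s + h)) = 0 := by
    intro s hs
    rw [ka_of_not_mem a lam E hs, Real.sqrt_zero, zero_mul]
  have e3 : (1 - lam * QQ a h / 2 - rho) * EH E Φ ≤
      ∑ s, Real.sqrt (ka a lam E s) * Real.sqrt (ka a lam E (s + h)) * Φ s := by
    have g1 := KShift_sum (fun s => Real.sqrt (ka a lam E s) * Real.sqrt (ka a lam E (s + h)))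
      (Hm a lam (1 / 2) h) Φ hsq hsq0
    have g2 := KShift_sum (fun s => Real.sqrt (ka a lam E s) * Real.sqrt (ka a lam E (s + h)))
      (Hm a lam (1 / 2) h) (fun _ => 1) hsq hsq0
    simp only [mul_one] at g2
    have g3 := affinity a lam hlam E hh
    rw [g2] at g3
    have g4 := (abs_le.1 (hG Φ hΦ h hh (1 / 2) (by norm_num) (by norm_num))).1
    rw [le_div_iff₀ hZ] at g3
    rw [g1, le_div_iff₀ hZ]
    have g5 := mul_le_mul_of_nonneg_right g3 hN
    have g6 : (fun s => Hm a lam (1 / 2) h s) = Hm a lam (1 / 2) h := rfl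
    rw [g6] at g5
    linarith
  -- (4)
  have e4 : ∑ s, (Real.sqrt (ka a lam E (s + h)) - Real.sqrt (ka a lam E s)) ^ 2 * Φ s ≤
      (lam * QQ a h + 4 * rho) * EH E Φ := by
    have g1 : ∀ s, (Real.sqrt (ka a lam E (s + h)) - Real.sqrt (ka a lam E s)) ^ 2 * Φ s =
        ka a lam E s * Φ s + ka a lam E (s + h) * Φ s -
          2 * (Real.sqrt (ka a lam E s) * Real.sqrt (ka a lam E (s + h)) * Φ s) := by
      intro s
      have k1 := Real.sq_sqrt (hka s)
      have k2 := Real.sq_sqrt (hka (s + h))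
      calc _ = (Real.sqrt (ka a lam E (s + h)) ^ 2 + Real.sqrt (ka a lam E s) ^ 2 -
          2 * (Real.sqrt (ka a lam E s) * Real.sqrt (ka a lam E (s + h)))) * Φ s := by ring
        _ = _ := by
          rw [k1, k2]
          ring
    rw [sum_congr rfl fun s _ => g1 s, sum_sub_distrib, sum_add_distrib, ← mul_sum]
    linarith
  -- (5)
  have e5 : ∑ s, (Real.sqrt (ka a lam E (s + h)) + Real.sqrt (ka a lam E s)) ^ 2 * Φ s ≤
      8 * EH E Φ := by
    have g1 : ∀ s, (Real.sqrt (ka a lam E (s + h)) + Real.sqrt (ka a lam E s)) ^ 2 * Φ s ≤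
        2 * (ka a lam E s * Φ s) + 2 * (ka a lam E (s + h) * Φ s) := by
      intro s
      have k1 := Real.sq_sqrt (hka s)
      have k2 := Real.sq_sqrt (hka (s + h))
      have k3 : (Real.sqrt (ka a lam E (s + h)) + Real.sqrt (ka a lam E s)) ^ 2 ≤
          2 * ka a lam E s + 2 * ka a lam E (s + h) := by
        nlinarith [sq_nonneg (Real.sqrt (ka a lam E (s + h)) - Real.sqrt (ka a lam E s))]
      calc _ ≤ (2 * ka a lam E s + 2 * ka a lam E (s + h)) * Φ s :=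
            mul_le_mul_of_nonneg_right k3 (hΦ0 s)
        _ = _ := by ring
    refine (sum_le_sum fun s _ => g1 s).trans ?_
    rw [sum_add_distrib, ← mul_sum, ← mul_sum]
    have : rho * EH E Φ ≤ 1 * EH E Φ := mul_le_mul_of_nonneg_right hr1 hN
    linarith
  -- (6)
  set D : Gp n → ℝ := fun s =>
    |Real.sqrt (ka a lam E (s + h)) - Real.sqrt (ka a lam E s)| * Real.sqrt (Φ s) with hD
  set G : Gp n → ℝ := fun s =>
    (Real.sqrt (ka a lam E (s + h)) + Real.sqrt (ka a lam E s)) * Real.sqrt (Φ s) with hGd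
  have e6 : ∀ s, |ka a lam E (s + h) - ka a lam E s| * Φ s = D s * G s := by
    intro s
    have k1 := Real.sq_sqrt (hka s)
    have k2 := Real.sq_sqrt (hka (s + h))
    have k3 := Real.mul_self_sqrt (hΦ0 s)
    have k4 : ka a lam E (s + h) - ka a lam E s =
        (Real.sqrt (ka a lam E (s + h)) - Real.sqrt (ka a lam E s)) *
          (Real.sqrt (ka a lam E (s + h)) + Real.sqrt (ka a lam E s)) := by
      nlinarith
    rw [k4, abs_mul, abs_of_nonneg (a := Real.sqrt (ka a lam E (s + h)) + Real.sqrt (ka a lam E s))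
      (by positivity)]
    simp only [hD, hGd]
    calc _ = |Real.sqrt (ka a lam E (s + h)) - Real.sqrt (ka a lam E s)| *
        (Real.sqrt (ka a lam E (s + h)) + Real.sqrt (ka a lam E s)) *
          (Real.sqrt (Φ s) * Real.sqrt (Φ s)) := by rw [k3]
      _ = _ := by ring
  have e7 : ∑ s, D s ^ 2 ≤ (lam * QQ a h + 4 * rho) * EH E Φ := by
    refine le_trans (le_of_eq (sum_congr rfl fun s _ => ?_)) e4
    simp only [hD]
    rw [mul_pow, sq_abs, Real.sq_sqrt (hΦ0 s)]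
  have e8 : ∑ s, G s ^ 2 ≤ 8 * EH E Φ := by
    refine le_trans (le_of_eq (sum_congr rfl fun s _ => ?_)) e5
    simp only [hGd]
    rw [mul_pow, Real.sq_sqrt (hΦ0 s)]
  have hX : 0 ≤ lam * QQ a h + 4 * rho := by positivity
  rw [sum_congr rfl fun s _ => e6 s]
  have e9 : (∑ s, D s * G s) ^ 2 ≤ (3 * Real.sqrt (lam * QQ a h + 4 * rho) * EH E Φ) ^ 2 := by
    refine (sum_mul_sq_le_sq_mul_sq _ _ _).trans ?_
    have k1 : (∑ s, D s ^ 2) * ∑ s, G s ^ 2 ≤
        ((lam * QQ a h + 4 * rho) * EH E Φ) * (8 * EH E Φ) :=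
      mul_le_mul e7 e8 (sum_nonneg fun s _ => sq_nonneg _) (by positivity)
    refine k1.trans ?_
    rw [mul_pow, mul_pow, Real.sq_sqrt hX]
    have k2 : 0 ≤ (lam * QQ a h + 4 * rho) * EH E Φ ^ 2 := by positivity
    nlinarith
  exact abs_le_of_sq_le_sq' e9 (by positivity) |>.2

/-- Averaged form: Jensen (or Cauchy-Schwarz) for the square root. -/
theorem shift_av {c : ι → ℝ} {J : ℕ} {a : Fin J → Gp n} {lam : ℝ} {E : Finset ι} {rho : ℝ}
    (hG : GoodK c a lam E rho) (hlam : 0 ≤ lam) (hr0 : 0 ≤ rho) (hr1 : rho ≤ 1)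
    {Φ : Gp n → ℝ} (hΦ : PF c E Φ) {τ : Type} [Fintype τ] (p : τ → ℝ) (hp : ∀ t, 0 ≤ p t)
    (hp1 : ∑ t, p t = 1) (h : τ → Gp n) (hh : ∀ t, p t ≠ 0 → h t ∈ (HS E : Finset (Gp n)))
    (q : ℝ) (hq : ∑ t, p t * (lam * QQ a (h t)) ≤ q) :
    ∑ t, p t * ∑ s, |ka a lam E (s + h t) - ka a lam E s| * Φ s ≤
      3 * Real.sqrt (q + 4 * rho) * EH E Φ := by
  have hΦ0 : ∀ s, 0 ≤ Φ s := KShift_PF_nonneg hΦ
  have hN : 0 ≤ EH E Φ := EH_nonneg E hΦ0
  have hx : ∀ t, 0 ≤ lam * QQ a (h t) + 4 * rho := fun t => by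
    have := QQ_nonneg a (h t)
    positivity
  have e1 : ∀ t, p t * ∑ s, |ka a lam E (s + h t) - ka a lam E s| * Φ s ≤
      (Real.sqrt (p t) * (Real.sqrt (p t) * Real.sqrt (lam * QQ a (h t) + 4 * rho))) *
        (3 * EH E Φ) := by
    intro t
    by_cases hpt : p t = 0
    · rw [hpt]
      simp
    · have g1 := mul_le_mul_of_nonneg_left
        (shift_w hG hlam hr0 hr1 hΦ (hh t hpt)) (hp t)
      refine g1.trans (le_of_eq ?_)
      rw [← mul_assoc (Real.sqrt (p t)), Real.mul_self_sqrt (hp t)]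
      ring
  refine (sum_le_sum fun t _ => e1 t).trans ?_
  rw [← sum_mul]
  have e2 : ∑ t, Real.sqrt (p t) * (Real.sqrt (p t) * Real.sqrt (lam * QQ a (h t) + 4 * rho)) ≤
      Real.sqrt (q + 4 * rho) := by
    refine Real.le_sqrt_of_sq_le ?_
    refine (sum_mul_sq_le_sq_mul_sq _ _ _).trans ?_
    have g1 : ∑ t, Real.sqrt (p t) ^ 2 = 1 := by
      rw [← hp1]
      exact sum_congr rfl fun t _ => Real.sq_sqrt (hp t)
    have g2 : ∑ t, (Real.sqrt (p t) * Real.sqrt (lam * QQ a (h t) + 4 * rho)) ^ 2 =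
        ∑ t, p t * (lam * QQ a (h t)) + 4 * rho := by
      have g3 : ∀ t, (Real.sqrt (p t) * Real.sqrt (lam * QQ a (h t) + 4 * rho)) ^ 2 =
          p t * (lam * QQ a (h t)) + p t * (4 * rho) := by
        intro t
        rw [mul_pow, Real.sq_sqrt (hp t), Real.sq_sqrt (hx t)]
        ring
      rw [sum_congr rfl fun t _ => g3 t, sum_add_distrib, ← sum_mul, hp1, one_mul]
    rw [g1, g2, one_mul]
    linarith
  have e3 := mul_le_mul_of_nonneg_right e2 (show (0 : ℝ) ≤ 3 * EH E Φ by positivity)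
  refine e3.trans (le_of_eq ?_)
  ring

end Pool.Agent.Lib.MP_629a14_nt.Ml
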