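import Pool.Agent.Lib.MP_629a14_nt.Ml.Four
import Pool.Agent.Lib.MP_629a14_nt.Ml.KLow
import Pool.Agent.Lib.MP_629a14_nt.LevelSum

/-! Smoothing changes the convolutions by little in mean square. -/

set_option autoImplicit false

namespace Pool.Agent.Lib.MP_629a14_nt.Ml

open Finset

private theorem LTwo_log {ι : Type} [Fintype ι] [DecidableEq ι] {n : ι → ℕ} [∀ i, NeZero (n i)]
    {J : ℕ} (a : Fin J → Gp n) (lam : ℝ) (hlam : 1 ≤ lam) (E : Finset ι) :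
    Real.log (1 / ZZ a lam E) ≤ J * (20 + Real.sqrt lam) := by
  have h1 := ZZ_lower a lam hlam E
  have h2 := ZZ_pos a lam E
  have hs : 1 ≤ Real.sqrt lam := by
    rw [Real.one_le_sqrt]
    exact hlam
  have hM : (0 : ℝ) < (⌈Real.sqrt lam⌉₊ : ℝ) := by
    have := Nat.le_ceil (Real.sqrt lam)
    linarith
  have hM2 : Real.log (⌈Real.sqrt lam⌉₊ : ℝ) ≤ Real.sqrt lam := by
    have e1 := (Nat.ceil_lt_add_one (by linarith : 0 ≤ Real.sqrt lam)).le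
    have e2 := Real.log_le_sub_one_of_pos hM
    linarith
  have h3 : 0 < (1 / (⌈Real.sqrt lam⌉₊ : ℝ)) ^ J * Real.exp (-(20 * (J : ℝ))) := by positivity
  have h4 := Real.log_le_log h3 h1
  rw [Real.log_mul (by positivity) (by positivity), Real.log_pow, Real.log_exp, one_div,
    Real.log_inv] at h4
  rw [one_div, Real.log_inv]
  have h5 : (J : ℝ) * Real.log (⌈Real.sqrt lam⌉₊ : ℝ) ≤ J * Real.sqrt lam :=
    mul_le_mul_of_nonneg_left hM2 (by positivity)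
  linarith

private theorem LTwo_core {ι : Type} [Fintype ι] [DecidableEq ι] {n : ι → ℕ} [∀ i, NeZero (n i)]
    (hodd : ∀ i, Odd (n i)) (k : ℕ) (K : ℝ) (hK : 1 ≤ K) (A : Fin k → Gp n → ℝ)
    (hyp : ∀ i, ∀ R : Finset (Gp n), ∑ b ∈ R, ‖ft (A i) b‖ ^ 2 ≤
        K ^ 2 * (R.card : ℝ) ^ (1 / 3 : ℝ)) (j0 J : ℕ) (lam δ : ℝ) (hlam : 1 ≤ lam)
    (hJ : J = k * ⌈(K * 2 ^ j0) ^ 3⌉₊ + 1) (hδ : J * (20 + Real.sqrt lam) / lam ≤ δ) :
    ∃ a : Fin J → Gp n, ∀ E : Finset ι,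
        (∑ m, (∑ i, (cvm (A i) (A i) m -
          cvm (av (ka a lam E) (A i)) (av (ka a lam E) (A i)) m)) ^ 2) /
            (Fintype.card (Gp n) : ℝ) ≤
        64 * k ^ 2 * K ^ 3 * (1 / 2) ^ j0 + 68 * k ^ 2 * K ^ 7 * δ ^ 2 := by
  classical
  set T : Fin k → Gp n → ℝ := fun i b => ‖ft (A i) b‖ with hT
  have hT0 : ∀ i b, 0 ≤ T i b := fun i b => norm_nonneg _
  set Ξ : Finset (Gp n) := univ.biUnion (fun i : Fin k => univ.filter (fun b => (1 / 2) ^ j0 ≤ T i b))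
    with hΞ
  have hΞc : Ξ.card ≤ J := by
    have h1 : Ξ.card ≤ ∑ i : Fin k, (univ.filter (fun b => ((1 : ℝ) / 2) ^ j0 ≤ T i b)).card :=
      card_biUnion_le
    have h2 : ∀ i ∈ (univ : Finset (Fin k)),
        (univ.filter (fun b => ((1 : ℝ) / 2) ^ j0 ≤ T i b)).card ≤ ⌈(K * 2 ^ j0) ^ 3⌉₊ := by
      intro i _
      have h3 := level_count (univ : Finset (Gp n)) (T i) hK (fun R _ => hyp i R)
        (show (0 : ℝ) < (1 / 2) ^ j0 by positivity)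
      have h4 : (K / ((1 : ℝ) / 2) ^ j0) ^ 3 = (K * 2 ^ j0) ^ 3 := by
        rw [one_div, inv_pow, div_inv_eq_mul]
      rw [h4] at h3
      have h5 := h3.trans (Nat.le_ceil _)
      exact_mod_cast h5
    have h3 := sum_le_card_nsmul _ _ _ h2
    rw [card_univ, Fintype.card_fin, smul_eq_mul] at h3
    omega
  obtain ⟨a, ha⟩ : ∃ a : Fin J → Gp n, ∀ b ∈ Ξ, ∃ j, a j = b := by
    refine ⟨fun j => if h : (j : ℕ) < Ξ.card then (Ξ.equivFin.symm ⟨j, h⟩ : Gp n) else 0, ?_⟩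
    intro b hb
    refine ⟨⟨(Ξ.equivFin ⟨b, hb⟩ : ℕ), lt_of_lt_of_le (Ξ.equivFin ⟨b, hb⟩).2 hΞc⟩, ?_⟩
    simp
  refine ⟨a, fun E => ?_⟩
  have hlog := LTwo_log a lam hlam E
  set κh : Gp n → ℂ := fun b => ∑ s, (ka a lam E s : ℂ) * psi (-(b * s)) with hκh
  have hκ1 : ∀ b, ‖κh b‖ ≤ 1 := by
    intro b
    have := ka_hat_le a lam E (-b)
    simp only [hκh]
    simpa only [neg_mul] using this
  have hJ0 : (0 : ℝ) ≤ J := by positivity
  have hδ0 : 0 ≤ δ := by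
    refine le_trans ?_ hδ
    have := Real.sqrt_nonneg lam
    positivity
  have hnear : ∀ b ∈ Ξ, ‖1 - κh b‖ ≤ δ := by
    intro b hb
    obtain ⟨j, hj⟩ := ha b hb
    have h1 := ka_hat_near a lam (by linarith) E j
    rw [hj] at h1
    refine h1.trans (le_trans ?_ hδ)
    exact div_le_div_of_nonneg_right hlog (by linarith)
  have hfac : ∀ b, ‖1 - κh b ^ 2‖ ≤ 2 * ‖1 - κh b‖ := by
    intro b
    have e : 1 - κh b ^ 2 = (1 + κh b) * (1 - κh b) := by ring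
    rw [e, norm_mul]
    have h1 : ‖1 + κh b‖ ≤ 2 := by
      refine (norm_add_le _ _).trans ?_
      rw [norm_one]
      linarith [hκ1 b]
    exact mul_le_mul_of_nonneg_right h1 (norm_nonneg _)
  have hfar : ∀ b, ‖1 - κh b ^ 2‖ ≤ 2 := by
    intro b
    refine (norm_sub_le _ _).trans ?_
    rw [norm_one, norm_pow]
    have := pow_le_one₀ (n := 2) (norm_nonneg _) (hκ1 b)
    linarith
  rw [cvm_parseval hodd (fun i => A i) (fun i => av (ka a lam E) (A i))]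
  have hin : ∀ b ∈ (univ : Finset (Gp n)),
      ‖∑ i, (ft (A i) b ^ 2 - ft (av (ka a lam E) (A i)) b ^ 2)‖ ^ 2 ≤
      k * ∑ i, (T i b ^ 4 * ‖1 - κh b ^ 2‖ ^ 2) := by
    intro b _
    have e1 : ∑ i, (ft (A i) b ^ 2 - ft (av (ka a lam E) (A i)) b ^ 2) =
        ∑ i, ft (A i) b ^ 2 * (1 - κh b ^ 2) := by
      refine sum_congr rfl fun i _ => ?_
      rw [ft_av]
      simp only [hκh]
      ring
    rw [e1]
    have h1 : ‖∑ i, ft (A i) b ^ 2 * (1 - κh b ^ 2)‖ ≤ ∑ i, T i b ^ 2 * ‖1 - κh b ^ 2‖ := by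
      refine (norm_sum_le _ _).trans (le_of_eq ?_)
      refine sum_congr rfl fun i _ => ?_
      rw [norm_mul, norm_pow]
    have h2 := pow_le_pow_left₀ (norm_nonneg _) h1 2
    refine h2.trans ?_
    have h3 := sq_sum_le_card_mul_sum_sq (s := (univ : Finset (Fin k)))
      (f := fun i => T i b ^ 2 * ‖1 - κh b ^ 2‖)
    rw [card_univ, Fintype.card_fin] at h3
    refine h3.trans (le_of_eq ?_)
    congr 1
    refine sum_congr rfl fun i _ => ?_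
    ring
  refine (sum_le_sum hin).trans ?_
  rw [← mul_sum, sum_comm]
  have hi : ∀ i ∈ (univ : Finset (Fin k)), ∑ b, T i b ^ 4 * ‖1 - κh b ^ 2‖ ^ 2 ≤
      64 * K ^ 3 * (1 / 2) ^ j0 + 68 * K ^ 7 * δ ^ 2 := by
    intro i _
    rw [← sum_filter_add_sum_filter_not univ (fun b => b ∈ Ξ)]
    have g1 : ∑ b ∈ univ.filter (fun b => b ∈ Ξ), T i b ^ 4 * ‖1 - κh b ^ 2‖ ^ 2 ≤
        68 * K ^ 7 * δ ^ 2 := by
      have h1 : ∀ b ∈ univ.filter (fun b => b ∈ Ξ), T i b ^ 4 * ‖1 - κh b ^ 2‖ ^ 2 ≤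
          T i b ^ 4 * (4 * δ ^ 2) := by
        intro b hb
        have hb' := (mem_filter.1 hb).2
        have h2 := (hfac b).trans (mul_le_mul_of_nonneg_left (hnear b hb') (by norm_num))
        have h3 := pow_le_pow_left₀ (norm_nonneg _) h2 2
        have h4 : (2 * δ) ^ 2 = 4 * δ ^ 2 := by ring
        rw [h4] at h3
        exact mul_le_mul_of_nonneg_left h3 (by have := hT0 i b; positivity)
      refine (sum_le_sum h1).trans ?_
      rw [← sum_mul]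
      have h5 := fourth_total (univ : Finset (Gp n)) (T i) hK (fun b _ => hT0 i b)
        (fun R _ => hyp i R)
      have h6 : ∑ b ∈ univ.filter (fun b => b ∈ Ξ), T i b ^ 4 ≤ 17 * K ^ 7 := by
        refine le_trans ?_ h5
        apply sum_le_sum_of_subset_of_nonneg (filter_subset _ _)
        intro b _ _
        have := hT0 i b
        positivity
      calc (∑ b ∈ univ.filter (fun b => b ∈ Ξ), T i b ^ 4) * (4 * δ ^ 2)
          ≤ (17 * K ^ 7) * (4 * δ ^ 2) := mul_le_mul_of_nonneg_right h6 (by positivity)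
        _ = _ := by ring
    have g2 : ∑ b ∈ univ.filter (fun b => ¬ b ∈ Ξ), T i b ^ 4 * ‖1 - κh b ^ 2‖ ^ 2 ≤
        64 * K ^ 3 * (1 / 2) ^ j0 := by
      have h1 : ∀ b ∈ univ.filter (fun b => ¬ b ∈ Ξ), T i b ^ 4 * ‖1 - κh b ^ 2‖ ^ 2 ≤
          T i b ^ 4 * 4 := by
        intro b _
        have h3 := pow_le_pow_left₀ (norm_nonneg _) (hfar b) 2
        have h4 : (2 : ℝ) ^ 2 = 4 := by norm_num
        rw [h4] at h3
        exact mul_le_mul_of_nonneg_left h3 (by have := hT0 i b; positivity)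
      refine (sum_le_sum h1).trans ?_
      rw [← sum_mul]
      have h5 := fourth_tail (univ : Finset (Gp n)) (T i) hK (fun b _ => hT0 i b)
        (fun R _ => hyp i R) j0
      have h6 : ∑ b ∈ univ.filter (fun b => ¬ b ∈ Ξ), T i b ^ 4 ≤ 16 * K ^ 3 * (1 / 2) ^ j0 := by
        refine le_trans ?_ h5
        apply sum_le_sum_of_subset_of_nonneg
        · intro b hb
          have hb' := (mem_filter.1 hb).2
          rw [mem_filter]
          refine ⟨mem_univ _, ?_⟩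
          by_contra h
          apply hb'
          rw [hΞ, mem_biUnion]
          exact ⟨i, mem_univ _, mem_filter.2 ⟨mem_univ _, (not_le.1 h).le⟩⟩
        · intro b _ _
          have := hT0 i b
          positivity
      linarith
    linarith
  have hsum := sum_le_sum hi
  rw [sum_const, card_univ, Fintype.card_fin, nsmul_eq_mul] at hsum
  calc (k : ℝ) * ∑ i, ∑ b, T i b ^ 4 * ‖1 - κh b ^ 2‖ ^ 2
      ≤ (k : ℝ) * (k * (64 * K ^ 3 * (1 / 2) ^ j0 + 68 * K ^ 7 * δ ^ 2)) :=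
        mul_le_mul_of_nonneg_left hsum (by positivity)
    _ = _ := by ring

/-- By `cvm_parseval`, `ft_av` and Cauchy-Schwarz over `i` the left side is at most
`k ∑ i ∑ b, ‖ft (A i) b‖ ^ 4 ‖1 - κ̂(b) ^ 2‖ ^ 2`. Choose `j0` with `k ^ 2 * 64 * K ^ 3 * (1/2) ^ j0 ≤ η / 2`; the set `Ξ`
of all `b` with `(1/2) ^ j0 ≤ ‖ft (A i) b‖` for some `i` has at most `J = k ⌈(K 2 ^ j0) ^ 3⌉ + 1` elements
(`level_count`); let `a : Fin J → Gp n` have `Ξ` in its range. On `Ξ`: `‖1 - κ̂ ^ 2‖ ≤ 2 ‖1 - κ̂‖ ≤ 2 d`,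
where `d = log (1 / ZZ) / lam ≤ J (20 + log ⌈√lam⌉₊) / lam` (`ka_hat_near`, `ZZ_lower`) is as small as we
like for `lam` large depending only on `J`; total `k ^ 2 * 17 K ^ 7 * 4 d ^ 2 ≤ η / 2` (`fourth_total`).
Off `Ξ`: `‖1 - κ̂ ^ 2‖ ≤ 2` and `fourth_tail`. -/
theorem l_two (k : ℕ) (K η : ℝ) (hK : 1 ≤ K) (hη : 0 < η) : ∃ (J : ℕ) (lam : ℝ), 1 ≤ lam ∧
    ∀ (ι : Type) [Fintype ι] [DecidableEq ι] (n : ι → ℕ) [∀ i, NeZero (n i)],
      (∀ i, Odd (n i)) → ∀ A : Fin k → Gp n → ℝ,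
      (∀ i, ∀ R : Finset (Gp n), ∑ b ∈ R, ‖ft (A i) b‖ ^ 2 ≤
        K ^ 2 * (R.card : ℝ) ^ (1 / 3 : ℝ)) →
      ∃ a : Fin J → Gp n, ∀ E : Finset ι,
        (∑ m, (∑ i, (cvm (A i) (A i) m -
          cvm (av (ka a lam E) (A i)) (av (ka a lam E) (A i)) m)) ^ 2) /
            (Fintype.card (Gp n) : ℝ) ≤ η := by
  have hK0 : (0 : ℝ) < K := by linarith
  obtain ⟨j0, hj0⟩ := exists_pow_lt_of_lt_one
    (show (0 : ℝ) < η / (2 * (64 * k ^ 2 * K ^ 3 + 1)) by positivity)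
    (show (1 : ℝ) / 2 < 1 by norm_num)
  obtain ⟨J, hJ⟩ : ∃ J, J = k * ⌈(K * 2 ^ j0) ^ 3⌉₊ + 1 := ⟨_, rfl⟩
  set δ : ℝ := Real.sqrt (η / (2 * (68 * k ^ 2 * K ^ 7 + 1))) with hδ
  have hδ0 : 0 < δ := Real.sqrt_pos.2 (by positivity)
  have hδ2 : δ ^ 2 = η / (2 * (68 * k ^ 2 * K ^ 7 + 1)) := Real.sq_sqrt (by positivity)
  set s : ℝ := max 1 (21 * J / δ) with hs
  have hs1 : 1 ≤ s := le_max_left _ _
  have hs2 : 21 * J / δ ≤ s := le_max_right _ _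
  refine ⟨J, s ^ 2, one_le_pow₀ hs1, ?_⟩
  intro ι _ _ n _ hodd A hyp
  have hd : J * (20 + Real.sqrt (s ^ 2)) / s ^ 2 ≤ δ := by
    rw [Real.sqrt_sq (by linarith), div_le_iff₀ (by positivity)]
    rw [div_le_iff₀ hδ0] at hs2
    have hJ0 : (0 : ℝ) ≤ J := by positivity
    calc (J : ℝ) * (20 + s) ≤ J * (21 * s) := mul_le_mul_of_nonneg_left (by linarith) hJ0
      _ = (21 * J) * s := by ring
      _ ≤ (s * δ) * s := mul_le_mul_of_nonneg_right hs2 (by linarith)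
      _ = δ * s ^ 2 := by ring
  obtain ⟨a, ha⟩ := LTwo_core hodd k K hK A hyp j0 J (s ^ 2) δ (one_le_pow₀ hs1) hJ hd
  refine ⟨a, fun E => (ha E).trans ?_⟩
  have h1 : 64 * (k : ℝ) ^ 2 * K ^ 3 * (1 / 2) ^ j0 ≤ η / 2 := by
    calc 64 * (k : ℝ) ^ 2 * K ^ 3 * (1 / 2) ^ j0
        ≤ (64 * (k : ℝ) ^ 2 * K ^ 3 + 1) * (η / (2 * (64 * k ^ 2 * K ^ 3 + 1))) :=
          mul_le_mul (by linarith) hj0.le (by positivity) (by positivity)
      _ = η / 2 := by field_simp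
  have h2 : 68 * (k : ℝ) ^ 2 * K ^ 7 * δ ^ 2 ≤ η / 2 := by
    rw [hδ2]
    calc 68 * (k : ℝ) ^ 2 * K ^ 7 * (η / (2 * (68 * k ^ 2 * K ^ 7 + 1)))
        ≤ (68 * (k : ℝ) ^ 2 * K ^ 7 + 1) * (η / (2 * (68 * k ^ 2 * K ^ 7 + 1))) :=
          mul_le_mul_of_nonneg_right (by linarith) (by positivity)
      _ = η / 2 := by field_simp
  linarith

end Pool.Agent.Lib.MP_629a14_nt.Ml
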