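import Pool.Agent.Lib.MP_629a14_nt.Ml.NuOne

/-! Pair correlations of the sieve weight. -/

set_option autoImplicit false

namespace Pool.Agent.Lib.MP_629a14_nt.Ml

open Finset

variable {ι : Type} [Fintype ι] [DecidableEq ι] {n : ι → ℕ} [∀ i, NeZero (n i)]

open Classical in
/-- The correlation factor of two elements. -/
noncomputable def coi (sv E : Finset ι) (y y' : Gp n) : ℝ :=
  ∏ i ∈ sv \ E, (if y i = y' i then 1 + 2 / (n i : ℝ) else 1)

theorem coi_nonneg (sv E : Finset ι) (y y' : Gp n) : 0 ≤ coi sv E y y' := by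
  unfold coi
  refine prod_nonneg fun i _ => ?_
  split_ifs <;> positivity

private theorem NuTwo_half (p : ℕ) (hp : p.Prime ∧ 8 ≤ p) (a x : ZMod p) :
    a + (x + x) = 0 ↔ x = -a * (2 : ZMod p)⁻¹ := by
  have : Fact p.Prime := ⟨hp.1⟩
  have h2 : (2 : ZMod p) ≠ 0 := by
    intro h
    have h3 : ((2 : ℕ) : ZMod p) = 0 := by exact_mod_cast h
    rw [ZMod.natCast_eq_zero_iff] at h3
    have := Nat.le_of_dvd (by norm_num) h3
    omega
  constructor
  · intro h
    have h3 : x * 2 = -a := by
      linear_combination h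
    rw [← h3, mul_assoc, mul_inv_cancel₀ h2, mul_one]
  · intro h
    have h3 : x * 2 = -a := by
      rw [h, mul_assoc, inv_mul_cancel₀ h2, mul_one]
    linear_combination h3

/-- `nuS sv (y + (s + s)) * nuS sv (y' + (s + s))` is `pun w S` with
`S i = {x | y i + (x + x) = 0 ∨ y' i + (x + x) = 0}` (`1` element if `y i = y' i`, `2` otherwise) and
`w i = (n i / (n i - 1)) ^ 2` for `i ∈ sv`. Its average over `HS E` is
`mE ^ 2 ∏_{i ∈ sv \ E} (n / (n - 1)) ^ 2 (1 - card / n)`, with `(n / (n - 1)) ^ 2 (1 - 2 / n) ≤ 1` and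
`(n / (n - 1)) ^ 2 (1 - 1 / n) = n / (n - 1) ≤ 1 + 2 / n`. Then `ka_PF`. -/
theorem nu_two (sv : Finset ι) (hsv : ∀ i ∈ sv, (n i).Prime ∧ 8 ≤ n i) {E : Finset ι}
    (hE : E ⊆ sv) {J : ℕ} {a : Fin J → Gp n} {lam rho : ℝ} (hrho : 0 ≤ rho)
    (hG : GoodK (cw n sv) a lam E rho)
    (y y' : Gp n) (hy : ∀ i ∈ E, y i ≠ 0) (hy' : ∀ i ∈ E, y' i ≠ 0) :
    ∑ s, ka a lam E s * (nuS sv (y + (s + s)) * nuS sv (y' + (s + s))) ≤
      (1 + rho) * mE n E ^ 2 * coi sv E y y' := by
  classical
  set w : ι → ℝ := fun i => if i ∈ sv then ((n i : ℝ) / ((n i : ℝ) - 1)) ^ 2 else 1 with hw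
  set S : ∀ i, Finset (ZMod (n i)) := fun i =>
    if i ∈ sv then {-(y i) * (2 : ZMod (n i))⁻¹, -(y' i) * (2 : ZMod (n i))⁻¹} else ∅ with hS
  have hfun : ∀ s : Gp n, nuS sv (y + (s + s)) * nuS sv (y' + (s + s)) = pun w S s := by
    intro s
    unfold nuS pun
    rw [← prod_mul_distrib, ← prod_subset (subset_univ sv)]
    · refine prod_congr rfl fun i hi => ?_
      have h1 := NuTwo_half (n i) (hsv i hi) (y i) (s i)
      have h2 := NuTwo_half (n i) (hsv i hi) (y' i) (s i)
      simp only [hw, hS, if_pos hi, mem_insert, mem_singleton, ← h1, ← h2, Pi.add_apply]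
      by_cases c1 : y i + (s i + s i) = 0
      · simp [c1]
      · by_cases c2 : y' i + (s i + s i) = 0
        · simp [c2]
        · simp only [c1, c2, if_false, or_self]
          ring
    · intro i _ hi
      simp [hw, hS, hi]
  have hwn : ∀ i, 0 ≤ w i := by
    intro i
    simp only [hw]
    split_ifs <;> positivity
  have hPF : PF (cw n sv) E (pun w S) := by
    apply pf_pun sv w hwn S
    · intro i hi
      simp only [hS, if_neg hi]
    · intro i hi
      refine ⟨?_, (hsv i hi).2⟩
      simp only [hS, if_pos hi]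
      exact (card_le_two).trans (by norm_num)
  have hEH : EH E (pun w S) ≤ mE n E ^ 2 * coi sv E y y' := by
    have hR : mE n E ^ 2 * coi sv E y y' = ∏ i, (if i ∈ E then ((n i : ℝ) / ((n i : ℝ) - 1)) ^ 2
        else if i ∈ sv then (if y i = y' i then 1 + 2 / (n i : ℝ) else 1) else 1) := by
      unfold mE coi
      rw [← prod_pow]
      have e1 : ∏ i ∈ E, ((n i : ℝ) / ((n i : ℝ) - 1)) ^ 2 =
          ∏ i, (if i ∈ E then ((n i : ℝ) / ((n i : ℝ) - 1)) ^ 2 else 1) := by
        rw [prod_ite_mem, univ_inter]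
      have e2 : ∏ i ∈ sv \ E, (if y i = y' i then 1 + 2 / (n i : ℝ) else 1) =
          ∏ i, (if i ∈ sv \ E then (if y i = y' i then 1 + 2 / (n i : ℝ) else 1) else 1) := by
        rw [prod_ite_mem, univ_inter]
      rw [e1, e2, ← prod_mul_distrib]
      refine prod_congr rfl fun i _ => ?_
      by_cases hi : i ∈ E
      · have : i ∉ sv \ E := by
          rw [mem_sdiff]
          tauto
        rw [if_pos hi, if_neg this, if_pos hi, mul_one]
      · by_cases hi2 : i ∈ sv
        · have : i ∈ sv \ E := mem_sdiff.2 ⟨hi2, hi⟩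
          rw [if_neg hi, if_pos this, if_neg hi, if_pos hi2, one_mul]
        · have : i ∉ sv \ E := by
            rw [mem_sdiff]
            tauto
          rw [if_neg hi, if_neg this, if_neg hi, if_neg hi2, one_mul]
    rw [hR, EH_pun]
    apply prod_le_prod
    · intro i _
      by_cases hi : i ∈ E
      · rw [if_pos hi]
        split_ifs
        · exact le_rfl
        · exact hwn i
      · rw [if_neg hi]
        apply mul_nonneg (hwn i)
        have hn : (0 : ℝ) < n i := by
          have := Nat.pos_of_ne_zero (NeZero.ne (n i))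
          exact_mod_cast this
        have hc : ((S i).card : ℝ) ≤ n i := by
          have := card_le_univ (S i)
          rw [ZMod.card] at this
          exact_mod_cast this
        have : ((S i).card : ℝ) / n i ≤ 1 := (div_le_one hn).2 hc
        linarith
    · intro i _
      by_cases hi : i ∈ E
      · have hi2 := hE hi
        have h1 := NuTwo_half (n i) (hsv i hi2) (y i) 0
        have h2 := NuTwo_half (n i) (hsv i hi2) (y' i) 0
        have h3 : (0 : ZMod (n i)) ∉ S i := by
          simp only [hS, if_pos hi2, mem_insert, mem_singleton, ← h1, ← h2, add_zero]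
          push Not
          exact ⟨hy i hi, hy' i hi⟩
        rw [if_pos hi, if_pos hi, if_neg h3]
        simp only [hw, if_pos hi2]
        exact le_rfl
      · rw [if_neg hi, if_neg hi]
        by_cases hi2 : i ∈ sv
        · rw [if_pos hi2]
          have hn8 : (8 : ℝ) ≤ n i := by exact_mod_cast (hsv i hi2).2
          simp only [hw, hS, if_pos hi2]
          by_cases hyy : y i = y' i
          · rw [if_pos hyy, hyy, pair_eq_singleton, card_singleton]
            have e : ((n i : ℝ) / ((n i : ℝ) - 1)) ^ 2 * (1 - ((1 : ℕ) : ℝ) / (n i : ℝ)) =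
                n i / ((n i : ℝ) - 1) := by
              have h1 : (n i : ℝ) - 1 ≠ 0 := by linarith
              have h2 : (n i : ℝ) ≠ 0 := by linarith
              push_cast
              field_simp
            rw [e, div_le_iff₀ (by linarith)]
            have h2 : (n i : ℝ) ≠ 0 := by linarith
            have e2 : (1 + 2 / (n i : ℝ)) * ((n i : ℝ) - 1) = n i + 1 - 2 / (n i : ℝ) := by
              field_simp
              ring
            rw [e2]
            have : 2 / (n i : ℝ) ≤ 1 := (div_le_one (by linarith)).2 (by linarith)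
            linarith
          · rw [if_neg hyy]
            have hne : -(y i) * (2 : ZMod (n i))⁻¹ ≠ -(y' i) * (2 : ZMod (n i))⁻¹ := by
              intro h
              have h1 := (NuTwo_half (n i) (hsv i hi2) (y i) (-(y i) * (2 : ZMod (n i))⁻¹)).2 rfl
              have h2 := (NuTwo_half (n i) (hsv i hi2) (y' i) (-(y i) * (2 : ZMod (n i))⁻¹)).2 h
              apply hyy
              linear_combination h1 - h2
            rw [card_pair hne]
            have h1 : (0 : ℝ) < (n i : ℝ) - 1 := by linarith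
            have h2 : (n i : ℝ) ≠ 0 := by linarith
            have e : ((n i : ℝ) / ((n i : ℝ) - 1)) ^ 2 * (1 - ((2 : ℕ) : ℝ) / (n i : ℝ)) =
                n i * ((n i : ℝ) - 2) / ((n i : ℝ) - 1) ^ 2 := by
              push_cast
              field_simp
            rw [e, div_le_one (by positivity)]
            nlinarith
        · rw [if_neg hi2]
          simp [hw, hS, hi2]
  have hka := ka_PF hG hPF
  have h1 : ∑ s, ka a lam E s * (nuS sv (y + (s + s)) * nuS sv (y' + (s + s))) =
      ∑ s, ka a lam E s * pun w S s := sum_congr rfl fun s _ => by rw [hfun]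
  rw [h1]
  have h2 := (abs_le.1 hka).2
  calc ∑ s, ka a lam E s * pun w S s ≤ (1 + rho) * EH E (pun w S) := by linarith
    _ ≤ (1 + rho) * (mE n E ^ 2 * coi sv E y y') := mul_le_mul_of_nonneg_left hEH (by linarith)
    _ = _ := by ring

/-- `(1 + 2/n) ^ 4 ≤ 1 + 9/n` for `n ≥ 32`; the function `s ↦ coi sv E s s' ^ 4` is of the form of
`pf_bump` with `T = sv \ E`, `x0 = s'`; its average is `≤ ∏ (1 + 9 / n ^ 2) ≤ exp (9 ∑ 1 / n ^ 2)`. -/
theorem coi_av (sv : Finset ι) (hsv : ∀ i ∈ sv, (n i).Prime ∧ 32 ≤ n i) {E : Finset ι}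
    {J : ℕ} {a : Fin J → Gp n} {lam rho : ℝ} (hrho : 0 ≤ rho)
    (hG : GoodK (cw n sv) a lam E rho) (s' : Gp n) :
    ∑ s, ka a lam E s * coi sv E s s' ^ 4 ≤
      (1 + rho) * Real.exp (9 * ∑ i ∈ sv, 1 / (n i : ℝ) ^ 2) := by
  classical
  set w : ι → ℝ := fun i => (1 + 2 / (n i : ℝ)) ^ 4 with hw
  have hw9 : ∀ i ∈ sv, w i ≤ 1 + 9 / (n i : ℝ) := by
    intro i hi
    have hn : (32 : ℝ) ≤ n i := by exact_mod_cast (hsv i hi).2
    have hu0 : 0 < 1 / (n i : ℝ) := by positivity
    have hu1 : 1 / (n i : ℝ) ≤ 1 / 32 := one_div_le_one_div_of_le (by norm_num) hn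
    simp only [hw]
    have e1 : 2 / (n i : ℝ) = 2 * (1 / (n i : ℝ)) := by ring
    have e2 : 9 / (n i : ℝ) = 9 * (1 / (n i : ℝ)) := by ring
    rw [e1, e2]
    set u := 1 / (n i : ℝ)
    have h2 : u ^ 2 ≤ u * (1 / 32) := by nlinarith
    have h3 : u ^ 3 ≤ u * (1 / 32) ^ 2 := by nlinarith
    have h4 : u ^ 4 ≤ u * (1 / 32) ^ 3 := by nlinarith [pow_pos hu0 3]
    nlinarith
  have hw1 : ∀ i, 1 ≤ w i := by
    intro i
    simp only [hw]
    apply one_le_pow₀
    have : (0 : ℝ) ≤ 2 / (n i : ℝ) := by positivity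
    linarith
  have hfun : ∀ s : Gp n, coi sv E s s' ^ 4 = ∏ i ∈ sv \ E, (if s i = s' i then w i else 1) := by
    intro s
    unfold coi
    rw [← prod_pow]
    refine prod_congr rfl fun i _ => ?_
    split_ifs
    · rfl
    · exact one_pow 4
  have hPF : PF (cw n sv) E (fun s : Gp n => ∏ i ∈ sv \ E, (if s i = s' i then w i else 1)) := by
    refine pf_bump sv (sv \ E) sdiff_subset w (fun i hi => ?_) s' E
    have hi2 := (mem_sdiff.1 hi).1
    refine ⟨hw1 i, (hw9 i hi2).trans ?_⟩
    have hn : (32 : ℝ) ≤ n i := by exact_mod_cast (hsv i hi2).2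
    have : 9 / (n i : ℝ) ≤ 1 := (div_le_one (by linarith)).2 (by linarith)
    linarith
  have hEH := EH_bump (n := n) (sv \ E) w s' E sdiff_disjoint
  have hbd : ∏ i ∈ sv \ E, (1 + (w i - 1) / (n i : ℝ)) ≤
      Real.exp (9 * ∑ i ∈ sv, 1 / (n i : ℝ) ^ 2) := by
    calc ∏ i ∈ sv \ E, (1 + (w i - 1) / (n i : ℝ))
        ≤ ∏ i ∈ sv \ E, Real.exp (9 * (1 / (n i : ℝ) ^ 2)) := by
          refine prod_le_prod (fun i _ => ?_) fun i hi => ?_
          · have := hw1 i
            have : 0 ≤ (w i - 1) / (n i : ℝ) := div_nonneg (by linarith) (by positivity)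
            linarith
          · have hi2 := (mem_sdiff.1 hi).1
            have hn : (32 : ℝ) ≤ n i := by exact_mod_cast (hsv i hi2).2
            have h1 := hw9 i hi2
            have h2 : (w i - 1) / (n i : ℝ) ≤ 9 * (1 / (n i : ℝ) ^ 2) := by
              rw [div_le_iff₀ (by linarith)]
              have h3 : 9 * (1 / (n i : ℝ) ^ 2) * n i = 9 / (n i : ℝ) := by
                have : (n i : ℝ) ≠ 0 := by linarith
                field_simp
              rw [h3]
              linarith
            have h3 := Real.add_one_le_exp (9 * (1 / (n i : ℝ) ^ 2))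
            linarith
      _ = Real.exp (∑ i ∈ sv \ E, 9 * (1 / (n i : ℝ) ^ 2)) := (Real.exp_sum _ _).symm
      _ ≤ Real.exp (9 * ∑ i ∈ sv, 1 / (n i : ℝ) ^ 2) := by
          apply Real.exp_le_exp.2
          rw [mul_sum]
          apply sum_le_sum_of_subset_of_nonneg sdiff_subset
          intro i _ _
          positivity
  have hka := ka_PF hG hPF
  rw [hEH] at hka
  have h1 : ∑ s, ka a lam E s * coi sv E s s' ^ 4 =
      ∑ s, ka a lam E s * ∏ i ∈ sv \ E, (if s i = s' i then w i else 1) :=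
    sum_congr rfl fun s _ => by rw [hfun]
  rw [h1]
  have h2 := (abs_le.1 hka).2
  calc ∑ s, ka a lam E s * ∏ i ∈ sv \ E, (if s i = s' i then w i else 1)
      ≤ (1 + rho) * ∏ i ∈ sv \ E, (1 + (w i - 1) / (n i : ℝ)) := by linarith
    _ ≤ _ := mul_le_mul_of_nonneg_left hbd (by linarith)

end Pool.Agent.Lib.MP_629a14_nt.Ml
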