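import Pool.Agent.Lib.MP_629a14_nt.Ml.Word

/-! The mixed densities are nearly independent of product functions. -/

set_option autoImplicit false

namespace Pool.Agent.Lib.MP_629a14_nt.Ml

open Finset

variable {ι : Type} [Fintype ι] [DecidableEq ι] {n : ι → ℕ} [∀ i, NeZero (n i)]

/-- the defect of a complex function -/
private noncomputable def PFour_D (E : Finset ι) (Φ : Gp n → ℝ) (f : Gp n → ℂ) : ℂ :=
  (∑ s ∈ (HS E : Finset (Gp n)), f s * (Φ s : ℂ)) -
    (∑ s ∈ (HS E : Finset (Gp n)), f s) * (∑ s ∈ (HS E : Finset (Gp n)), (Φ s : ℂ)) /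
      ((HS E : Finset (Gp n)).card : ℂ)

private lemma PFour_D_sum (E : Finset ι) (Φ : Gp n → ℝ) {W : Type} (T : Finset W) (co : W → ℂ)
    (f : W → Gp n → ℂ) :
    PFour_D E Φ (fun s => ∑ w ∈ T, co w * f w s) = ∑ w ∈ T, co w * PFour_D E Φ (f w) := by
  unfold PFour_D
  simp only [mul_sub, sum_sub_distrib]
  congr 1
  · simp only [sum_mul, mul_sum]
    rw [sum_comm]
    refine sum_congr rfl fun w _ => sum_congr rfl fun s _ => ?_
    ring
  · rw [sum_comm]
    simp only [← mul_sum]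
    rw [sum_mul, sum_div]
    refine sum_congr rfl fun w _ => ?_
    ring

private lemma PFour_psi_sum {W : Type} (T : Finset W) (f : W → Gp n) :
    psi (∑ w ∈ T, f w) = ∏ w ∈ T, psi (f w) := by
  classical
  induction T using Finset.induction_on with
  | empty => simp [psi_zero]
  | insert w T hw ih => rw [sum_insert hw, prod_insert hw, psi_add, ih]

/-- the defect of a character of a word -/
private lemma PFour_char {c : ι → ℝ} (hc : ∀ i, 0 ≤ c i ∧ c i ≤ 1) {J : ℕ} {a : Fin J → Gp n} {L : ℕ}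
    {tau : ℝ} (htau : 0 ≤ tau) {E : Finset ι} (hclo : Clo c a L tau E) {Φ : Gp n → ℝ}
    (hΦ : PF c E Φ) (N : ℕ) (m : Fin J → ℤ) (hm : ∀ j, |m j| ≤ (N : ℤ)) :
    ‖PFour_D E Φ (fun s => psi ((∑ j, m j • a j) * s))‖ ≤
      (if N ≤ L then tau else 1) * ∑ s ∈ (HS E : Finset (Gp n)), Φ s := by
  have hΦ0 : ∀ s, 0 ≤ Φ s := by
    obtain ⟨φ, h1, h2, -⟩ := hΦ
    intro s
    rw [h2]
    exact prod_nonneg fun i _ => h1 i _
  have hS0 : 0 ≤ ∑ s ∈ (HS E : Finset (Gp n)), Φ s := sum_nonneg fun s _ => hΦ0 s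
  have hR : 0 ≤ (if N ≤ L then tau else 1) * ∑ s ∈ (HS E : Finset (Gp n)), Φ s := by
    refine mul_nonneg ?_ hS0
    split_ifs
    · exact htau
    · exact zero_le_one
  set b : Gp n := ∑ j, m j • a j with hb
  by_cases h : ∀ i, i ∉ E → b i = 0
  · have h1 : ∀ s ∈ (HS E : Finset (Gp n)), psi (b * s) = 1 := by
      intro s hs
      rw [mem_HS] at hs
      have : b * s = 0 := by
        funext i
        rw [Pi.mul_apply, Pi.zero_apply]
        by_cases hi : i ∈ E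
        · rw [hs i hi, mul_zero]
        · rw [h i hi, zero_mul]
      rw [this, psi_zero]
    have h2 : PFour_D E Φ (fun s => psi (b * s)) = 0 := by
      have h3 : ((HS E : Finset (Gp n)).card : ℂ) ≠ 0 := by
        have := (card_HS_pos (n := n) E).ne'
        exact_mod_cast this
      have e1 : ∑ s ∈ (HS E : Finset (Gp n)), psi (b * s) * (Φ s : ℂ) =
          ∑ s ∈ (HS E : Finset (Gp n)), (Φ s : ℂ) :=
        sum_congr rfl fun s hs => by rw [h1 s hs, one_mul]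
      have e2 : ∑ s ∈ (HS E : Finset (Gp n)), psi (b * s) = ((HS E : Finset (Gp n)).card : ℂ) := by
        rw [sum_congr rfl h1, sum_const, nsmul_eq_mul, mul_one]
      unfold PFour_D
      rw [e1, e2, mul_div_assoc, mul_div_cancel₀ _ h3, sub_self]
    rw [h2, norm_zero]
    exact hR
  · have h1 := sum_psi_HS E b
    rw [if_neg h] at h1
    unfold PFour_D
    rw [h1, zero_mul, zero_div, sub_zero]
    have h2 : ∑ s ∈ (HS E : Finset (Gp n)), psi (b * s) * (Φ s : ℂ) =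
        ∑ s ∈ (HS E : Finset (Gp n)), (Φ s : ℂ) * psi (b * s) :=
      sum_congr rfl fun s _ => mul_comm _ _
    rw [h2]
    split_ifs with hN
    · exact word_le hc hclo hΦ m (fun j => (hm j).trans (by exact_mod_cast hN)) h
    · rw [one_mul]
      exact word_triv hΦ0 E b

/-- letters -/
private noncomputable def PFour_co {J : ℕ} (γ : Fin J → ℂ) (p : Fin J × Bool) : ℂ :=
  (if p.2 then γ p.1 else (starRingEnd ℂ) (γ p.1)) / 2

private def PFour_sg (p : Bool) : ℤ := if p then 1 else -1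

private lemma PFour_X {J : ℕ} (a : Fin J → Gp n) (γ : Fin J → ℂ) (s : Gp n) :
    ((∑ j, (γ j * psi (a j * s)).re : ℝ) : ℂ) =
      ∑ p : Fin J × Bool, PFour_co γ p * psi ((PFour_sg p.2 • a p.1) * s) := by
  rw [Fintype.sum_prod_type]
  push_cast
  refine sum_congr rfl fun j _ => ?_
  rw [Fintype.sum_bool, Complex.re_eq_add_conj, map_mul]
  unfold PFour_co PFour_sg
  simp only [if_true, Bool.false_eq_true, if_false, one_smul, neg_smul, neg_mul]
  rw [psi_neg]
  ring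

private lemma PFour_pow {J : ℕ} (a : Fin J → Gp n) (γ : Fin J → ℂ) (N : ℕ) (s : Gp n) :
    (((∑ j, (γ j * psi (a j * s)).re) ^ N : ℝ) : ℂ) =
      ∑ w : Fin N → Fin J × Bool, (∏ k, PFour_co γ (w k)) *
        psi ((∑ k, PFour_sg (w k).2 • a (w k).1) * s) := by
  rw [Complex.ofReal_pow, PFour_X, Fintype.sum_pow]
  refine sum_congr rfl fun w _ => ?_
  rw [prod_mul_distrib, ← PFour_psi_sum, ← sum_mul]

omit [Fintype ι] [DecidableEq ι] [∀ (i : ι), NeZero (n i)] in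
private lemma PFour_word {J : ℕ} (a : Fin J → Gp n) (N : ℕ) (w : Fin N → Fin J × Bool) :
    ∃ m : Fin J → ℤ, (∀ j, |m j| ≤ (N : ℤ)) ∧ ∑ k, PFour_sg (w k).2 • a (w k).1 = ∑ j, m j • a j := by
  refine ⟨fun j => ∑ k, if (w k).1 = j then PFour_sg (w k).2 else 0, ?_, ?_⟩
  · intro j
    refine (abs_sum_le_sum_abs _ _).trans ?_
    have h1 : ∀ k ∈ (univ : Finset (Fin N)), |(if (w k).1 = j then PFour_sg (w k).2 else 0)| ≤ 1 := by
      intro k _
      unfold PFour_sg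
      split_ifs <;> simp
    refine (sum_le_sum h1).trans ?_
    simp
  · have h1 : ∀ j, (∑ k, if (w k).1 = j then PFour_sg (w k).2 else 0) • a j =
        ∑ k, (if (w k).1 = j then PFour_sg (w k).2 else 0) • a j := fun j => sum_smul
    simp only [h1]
    rw [sum_comm]
    refine sum_congr rfl fun k _ => ?_
    rw [sum_eq_single (w k).1]
    · rw [if_pos rfl]
    · intro j _ hj
      rw [if_neg (Ne.symm hj), zero_smul]
    · intro h
      exact absurd (mem_univ _) h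

private lemma PFour_weight {J : ℕ} (γ : Fin J → ℂ) (lam : ℝ) (hγ : ∀ j, ‖γ j‖ ≤ lam) (N : ℕ) :
    ∑ w : Fin N → Fin J × Bool, ‖∏ k, PFour_co γ (w k)‖ ≤ (J * lam) ^ N := by
  have h1 : ∀ w : Fin N → Fin J × Bool, ‖∏ k, PFour_co γ (w k)‖ = ∏ k, ‖PFour_co γ (w k)‖ :=
    fun w => norm_prod _ _
  simp only [h1]
  rw [← Fintype.sum_pow (fun p : Fin J × Bool => ‖PFour_co γ p‖) N]
  refine pow_le_pow_left₀ (sum_nonneg fun p _ => norm_nonneg _) ?_ N
  rw [Fintype.sum_prod_type]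
  have h2 : ∀ j ∈ (univ : Finset (Fin J)), ∑ y : Bool, ‖PFour_co γ (j, y)‖ ≤ lam := by
    intro j _
    rw [Fintype.sum_bool]
    unfold PFour_co
    simp only [if_true, Bool.false_eq_true, if_false, norm_div, RCLike.norm_conj]
    have := hγ j
    norm_num
    linarith
  refine (sum_le_sum h2).trans ?_
  simp

/-- Expand `X ^ N`, `X(s) = ∑_j Re (γ_j psi (a j s)) = ∑_j (γ_j psi (a j s) + conj) / 2`, as a sum over
words of length `N` in the letters `(j, ±)`. For one word the character is `psi (b s)` with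
`b = ∑ j, m j • a j`, `|m j| ≤ N`, and total coefficient weight of all words `≤ (J lam) ^ N`. If `b`
vanishes outside `E` then `psi (b s) = 1` on `HS E` and the defect
`∑ psi (b s) Φ - (1 / card) (∑ psi (b s)) (∑ Φ)` is zero; otherwise `∑_{HS E} psi (b s) = 0`
(`sum_psi_HS`) and the defect is bounded by `tau ∑ Φ` if `N ≤ L` (`word_le`) and by `∑ Φ` in general
(`word_triv`). -/
theorem pow_defect {c : ι → ℝ} (hc : ∀ i, 0 ≤ c i ∧ c i ≤ 1) {J : ℕ} {a : Fin J → Gp n} {L : ℕ}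
    {tau : ℝ} (htau : 0 ≤ tau) {E : Finset ι} (hclo : Clo c a L tau E) {Φ : Gp n → ℝ}
    (hΦ : PF c E Φ) (γ : Fin J → ℂ) (lam : ℝ) (hγ : ∀ j, ‖γ j‖ ≤ lam) (N : ℕ) :
    |(∑ s ∈ (HS E : Finset (Gp n)), (∑ j, (γ j * psi (a j * s)).re) ^ N * Φ s) -
      (∑ s ∈ (HS E : Finset (Gp n)), (∑ j, (γ j * psi (a j * s)).re) ^ N) *
        (∑ s ∈ (HS E : Finset (Gp n)), Φ s) / ((HS E : Finset (Gp n)).card : ℝ)| ≤
      (J * lam) ^ N * (if N ≤ L then tau else 1) * ∑ s ∈ (HS E : Finset (Gp n)), Φ s := by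
  have hΦ0 : ∀ s, 0 ≤ Φ s := by
    obtain ⟨φ, h1, h2, -⟩ := hΦ
    intro s
    rw [h2]
    exact prod_nonneg fun i _ => h1 i _
  have hS0 : 0 ≤ ∑ s ∈ (HS E : Finset (Gp n)), Φ s := sum_nonneg fun s _ => hΦ0 s
  have hR : 0 ≤ (if N ≤ L then tau else 1) * ∑ s ∈ (HS E : Finset (Gp n)), Φ s := by
    refine mul_nonneg ?_ hS0
    split_ifs
    · exact htau
    · exact zero_le_one
  have hcast : (((∑ s ∈ (HS E : Finset (Gp n)), (∑ j, (γ j * psi (a j * s)).re) ^ N * Φ s) -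
      (∑ s ∈ (HS E : Finset (Gp n)), (∑ j, (γ j * psi (a j * s)).re) ^ N) *
        (∑ s ∈ (HS E : Finset (Gp n)), Φ s) / ((HS E : Finset (Gp n)).card : ℝ) : ℝ) : ℂ) =
      PFour_D E Φ (fun s => (((∑ j, (γ j * psi (a j * s)).re) ^ N : ℝ) : ℂ)) := by
    unfold PFour_D
    push_cast
    rfl
  have hexp : (fun s : Gp n => (((∑ j, (γ j * psi (a j * s)).re) ^ N : ℝ) : ℂ)) =
      fun s => ∑ w : Fin N → Fin J × Bool, (∏ k, PFour_co γ (w k)) *
        psi ((∑ k, PFour_sg (w k).2 • a (w k).1) * s) := by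
    funext s
    exact PFour_pow a γ N s
  rw [← Real.norm_eq_abs, ← Complex.norm_real, hcast, hexp,
    PFour_D_sum E Φ univ (fun w : Fin N → Fin J × Bool => ∏ k, PFour_co γ (w k))
      (fun w s => psi ((∑ k, PFour_sg (w k).2 • a (w k).1) * s))]
  refine (norm_sum_le _ _).trans ?_
  have h1 : ∀ w ∈ (univ : Finset (Fin N → Fin J × Bool)),
      ‖(∏ k, PFour_co γ (w k)) * PFour_D E Φ (fun s => psi ((∑ k, PFour_sg (w k).2 • a (w k).1) * s))‖ ≤
        ‖∏ k, PFour_co γ (w k)‖ * ((if N ≤ L then tau else 1) * ∑ s ∈ (HS E : Finset (Gp n)), Φ s) := by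
    intro w _
    rw [norm_mul]
    refine mul_le_mul_of_nonneg_left ?_ (norm_nonneg _)
    obtain ⟨m, hm, he⟩ := PFour_word a N w
    rw [he]
    exact PFour_char hc htau hclo hΦ N m hm
  refine (sum_le_sum h1).trans ?_
  rw [← sum_mul, mul_assoc]
  exact mul_le_mul_of_nonneg_right (PFour_weight γ lam hγ N) hR

/-- Sum `pow_defect` over `N` with the weights `1 / N!`:
`∑_{N ≤ L} A ^ N / N! ≤ exp A` and `∑_{N > L} A ^ N / N! ≤ 2 ^ (-L) ∑ (2 A) ^ N / N! = exp (2 A) / 2 ^ L`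
with `A = J lam ≥ 0` (if `J = 0` then `A = 0`; `lam ≥ 0` by `hγ` if `J > 0`). -/
theorem p_four {c : ι → ℝ} (hc : ∀ i, 0 ≤ c i ∧ c i ≤ 1) {J : ℕ} {a : Fin J → Gp n} {L : ℕ}
    {tau : ℝ} (htau : 0 ≤ tau) {E : Finset ι} (hclo : Clo c a L tau E) {Φ : Gp n → ℝ}
    (hΦ : PF c E Φ) (γ : Fin J → ℂ) (lam : ℝ) (hlam : 0 ≤ lam) (hγ : ∀ j, ‖γ j‖ ≤ lam) :
    |EH E (fun s => Real.exp (∑ j, (γ j * psi (a j * s)).re) * Φ s) -
      EH E (fun s => Real.exp (∑ j, (γ j * psi (a j * s)).re)) * EH E Φ| ≤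
      (tau * Real.exp (J * lam) + Real.exp (2 * (J * lam)) / 2 ^ L) * EH E Φ := by
  have hΦ0 : ∀ s, 0 ≤ Φ s := by
    obtain ⟨φ, h1, h2, -⟩ := hΦ
    intro s
    rw [h2]
    exact prod_nonneg fun i _ => h1 i _
  have hS0 : 0 ≤ ∑ s ∈ (HS E : Finset (Gp n)), Φ s := sum_nonneg fun s _ => hΦ0 s
  have hA : 0 ≤ (J : ℝ) * lam := by positivity
  set A : ℝ := (J : ℝ) * lam with hAd
  have hcard := card_HS_pos (n := n) E
  have hexp : ∀ x : ℝ, HasSum (fun N : ℕ => x ^ N / (N.factorial : ℝ)) (Real.exp x) := by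
    intro x
    rw [Real.exp_eq_exp_ℝ]
    exact NormedSpace.expSeries_div_hasSum_exp x
  -- the defect as a series
  set X : Gp n → ℝ := fun s => ∑ j, (γ j * psi (a j * s)).re with hX
  have h1 : HasSum (fun N : ℕ => ((∑ s ∈ (HS E : Finset (Gp n)), X s ^ N * Φ s) -
      (∑ s ∈ (HS E : Finset (Gp n)), X s ^ N) *
        (∑ s ∈ (HS E : Finset (Gp n)), Φ s) / ((HS E : Finset (Gp n)).card : ℝ)) / (N.factorial : ℝ))
      ((∑ s ∈ (HS E : Finset (Gp n)), Real.exp (X s) * Φ s) -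
      (∑ s ∈ (HS E : Finset (Gp n)), Real.exp (X s)) *
        (∑ s ∈ (HS E : Finset (Gp n)), Φ s) / ((HS E : Finset (Gp n)).card : ℝ)) := by
    have e1 : HasSum (fun N : ℕ => ∑ s ∈ (HS E : Finset (Gp n)), X s ^ N / (N.factorial : ℝ) * Φ s)
        (∑ s ∈ (HS E : Finset (Gp n)), Real.exp (X s) * Φ s) :=
      hasSum_sum fun s _ => (hexp (X s)).mul_right (Φ s)
    have e2 : HasSum (fun N : ℕ => ∑ s ∈ (HS E : Finset (Gp n)), X s ^ N / (N.factorial : ℝ))
        (∑ s ∈ (HS E : Finset (Gp n)), Real.exp (X s)) :=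
      hasSum_sum fun s _ => hexp (X s)
    have e3 := e1.sub ((e2.mul_right (∑ s ∈ (HS E : Finset (Gp n)), Φ s)).div_const
      ((HS E : Finset (Gp n)).card : ℝ))
    have e4 : (fun N : ℕ => ((∑ s ∈ (HS E : Finset (Gp n)), X s ^ N * Φ s) -
        (∑ s ∈ (HS E : Finset (Gp n)), X s ^ N) *
          (∑ s ∈ (HS E : Finset (Gp n)), Φ s) / ((HS E : Finset (Gp n)).card : ℝ)) / (N.factorial : ℝ)) =
        fun N : ℕ => ∑ s ∈ (HS E : Finset (Gp n)), X s ^ N / (N.factorial : ℝ) * Φ s -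
          (∑ s ∈ (HS E : Finset (Gp n)), X s ^ N / (N.factorial : ℝ)) *
            (∑ s ∈ (HS E : Finset (Gp n)), Φ s) / ((HS E : Finset (Gp n)).card : ℝ) := by
      funext N
      have e5 : ∑ s ∈ (HS E : Finset (Gp n)), X s ^ N / (N.factorial : ℝ) * Φ s =
          (∑ s ∈ (HS E : Finset (Gp n)), X s ^ N * Φ s) / (N.factorial : ℝ) := by
        rw [sum_div]
        exact sum_congr rfl fun s _ => by ring
      rw [e5, ← sum_div]
      ring
    rw [e4]
    exact e3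
  have h2 : HasSum (fun N : ℕ => (tau * (A ^ N / (N.factorial : ℝ)) +
      (2 * A) ^ N / (N.factorial : ℝ) / 2 ^ L) * ∑ s ∈ (HS E : Finset (Gp n)), Φ s)
      ((tau * Real.exp A + Real.exp (2 * A) / 2 ^ L) * ∑ s ∈ (HS E : Finset (Gp n)), Φ s) :=
    (((hexp A).mul_left tau).add ((hexp (2 * A)).div_const (2 ^ L))).mul_right _
  have h3 := h1.norm_le_of_bounded h2 (by
    intro N
    have h4 := pow_defect hc htau hclo hΦ γ lam hγ N
    rw [norm_div, Real.norm_eq_abs, Real.norm_eq_abs, Nat.abs_cast]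
    have hN : (0 : ℝ) < N.factorial := by exact_mod_cast N.factorial_pos
    rw [div_le_iff₀ hN]
    refine h4.trans ?_
    have h5 : A ^ N * (if N ≤ L then tau else 1) ≤
        (tau * (A ^ N / (N.factorial : ℝ)) + (2 * A) ^ N / (N.factorial : ℝ) / 2 ^ L) * N.factorial := by
      have e4 : (tau * (A ^ N / (N.factorial : ℝ)) + (2 * A) ^ N / (N.factorial : ℝ) / 2 ^ L) * N.factorial =
          tau * A ^ N + (2 * A) ^ N / 2 ^ L := by
        field_simp
      rw [e4]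
      split_ifs with hNL
      · have : 0 ≤ (2 * A) ^ N / 2 ^ L := by positivity
        linarith
      · have e5 : A ^ N ≤ (2 * A) ^ N / 2 ^ L := by
          rw [le_div_iff₀ (by positivity : (0 : ℝ) < 2 ^ L), mul_pow 2 A N, mul_comm]
          have e6 : (2 : ℝ) ^ L ≤ 2 ^ N := pow_le_pow_right₀ (by norm_num) (by omega)
          exact mul_le_mul_of_nonneg_right e6 (pow_nonneg hA N)
        have : 0 ≤ tau * A ^ N := by positivity
        linarith
    calc A ^ N * (if N ≤ L then tau else 1) * ∑ s ∈ (HS E : Finset (Gp n)), Φ s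
        ≤ ((tau * (A ^ N / (N.factorial : ℝ)) + (2 * A) ^ N / (N.factorial : ℝ) / 2 ^ L) * N.factorial) *
          ∑ s ∈ (HS E : Finset (Gp n)), Φ s := mul_le_mul_of_nonneg_right h5 hS0
      _ = _ := by ring)
  rw [Real.norm_eq_abs] at h3
  have h6 : EH E (fun s => Real.exp (X s) * Φ s) - EH E (fun s => Real.exp (X s)) * EH E Φ =
      ((∑ s ∈ (HS E : Finset (Gp n)), Real.exp (X s) * Φ s) -
      (∑ s ∈ (HS E : Finset (Gp n)), Real.exp (X s)) *
        (∑ s ∈ (HS E : Finset (Gp n)), Φ s) / ((HS E : Finset (Gp n)).card : ℝ)) /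
          ((HS E : Finset (Gp n)).card : ℝ) := by
    unfold EH
    field_simp
  show |EH E (fun s => Real.exp (X s) * Φ s) - EH E (fun s => Real.exp (X s)) * EH E Φ| ≤ _
  rw [h6, abs_div, Nat.abs_cast]
  unfold EH
  rw [← mul_div_assoc]
  exact div_le_div_of_nonneg_right h3 hcard.le

end Pool.Agent.Lib.MP_629a14_nt.Ml
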