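import Pool.Agent.Lib.MP_629a14_nt.Ml.SDefs

/-! Numerical inequalities for the parameters, first part. -/

set_option autoImplicit false

namespace Pool.Agent.Lib.MP_629a14_nt.Ml

open Finset

/-- `√(1 / k ^ 60) = 1 / k ^ 30` and `k ^ 26 ≥ 2 ^ 26 ≥ 10 ^ 7`. -/
theorem par_he (k : ℕ) (hk : 2 ≤ k) :
    Real.sqrt (1 / (k : ℝ) ^ 60) ≤ 1 / (10 ^ 7 * (k : ℝ) ^ 4) := by
  have hk2 : (2 : ℝ) ≤ (k : ℝ) := by exact_mod_cast hk
  have hk0 : (0 : ℝ) < (k : ℝ) := by linarith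
  rw [Real.sqrt_le_iff]
  refine ⟨by positivity, ?_⟩
  rw [div_pow, one_pow]
  apply one_div_le_one_div_of_le (by positivity)
  have h52 : (2 : ℝ) ^ 52 ≤ (k : ℝ) ^ 52 := pow_le_pow_left₀ (by norm_num) hk2 52
  calc (10 ^ 7 * (k : ℝ) ^ 4) ^ 2 = 10 ^ 14 * (k : ℝ) ^ 8 := by ring
    _ ≤ 2 ^ 52 * (k : ℝ) ^ 8 := by
        apply mul_le_mul_of_nonneg_right (by norm_num) (by positivity)
    _ ≤ (k : ℝ) ^ 52 * (k : ℝ) ^ 8 := by
        apply mul_le_mul_of_nonneg_right h52 (by positivity)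
    _ = (k : ℝ) ^ 60 := by ring

/-- `⌈√lam⌉₊ ≤ 2 √lam`, `log (2 √lam) ≤ 1 + 2 k^60 * 300 log k ≤ 601 k ^ 61`; so
`J (20 + log ⌈√lam⌉₊) ≤ k ^ 60 * 621 k ^ 61 ≤ k ^ 140`. -/
theorem par_hDz (k : ℕ) (hk : 2 ≤ k) (J : ℕ) (lam : ℝ) (hJ : J ≤ k ^ 60) (h1 : 1 ≤ lam)
    (h2 : lam ≤ ((k : ℝ) ^ 300) ^ (4 * k ^ 60)) :
    Real.exp (-((k : ℝ) ^ 140)) ≤
      (1 / (⌈Real.sqrt lam⌉₊ : ℝ)) ^ J * Real.exp (-(20 * (J : ℝ))) := by
  have hk2 : (2 : ℝ) ≤ (k : ℝ) := by exact_mod_cast hk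
  have hk1 : (1 : ℝ) ≤ (k : ℝ) := by linarith
  have hk0 : (0 : ℝ) < (k : ℝ) := by linarith
  have hJ' : (J : ℝ) ≤ (k : ℝ) ^ 60 := by exact_mod_cast hJ
  have hJ0 : (0 : ℝ) ≤ (J : ℝ) := Nat.cast_nonneg J
  have hlam0 : (0 : ℝ) < lam := by linarith
  have hs1 : 1 ≤ Real.sqrt lam := by
    rw [Real.one_le_sqrt]; exact h1
  have hs0 : 0 < Real.sqrt lam := by linarith
  have hNle : (⌈Real.sqrt lam⌉₊ : ℝ) ≤ 2 * Real.sqrt lam := by
    have := Nat.ceil_lt_add_one (le_of_lt hs0)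
    linarith
  have hN1 : (0 : ℝ) < (⌈Real.sqrt lam⌉₊ : ℝ) := by
    have := Nat.le_ceil (Real.sqrt lam)
    linarith
  set N : ℝ := (⌈Real.sqrt lam⌉₊ : ℝ) with hN
  have hlogk : Real.log (k : ℝ) ≤ (k : ℝ) := by
    have := Real.log_le_sub_one_of_pos hk0
    linarith
  have hloglam : Real.log lam ≤ 1200 * (k : ℝ) ^ 61 := by
    have e1 : Real.log lam ≤ Real.log (((k : ℝ) ^ 300) ^ (4 * k ^ 60)) :=
      Real.log_le_log hlam0 h2
    rw [Real.log_pow, Real.log_pow] at e1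
    push_cast at e1
    calc Real.log lam ≤ 4 * (k : ℝ) ^ 60 * (300 * Real.log (k : ℝ)) := e1
      _ ≤ 4 * (k : ℝ) ^ 60 * (300 * (k : ℝ)) := by
          apply mul_le_mul_of_nonneg_left _ (by positivity)
          linarith
      _ = 1200 * (k : ℝ) ^ 61 := by ring
  have hlogN : Real.log N ≤ 1 + 600 * (k : ℝ) ^ 61 := by
    have e1 : Real.log N ≤ Real.log (2 * Real.sqrt lam) := Real.log_le_log hN1 hNle
    rw [Real.log_mul (by norm_num) (ne_of_gt hs0), Real.log_sqrt hlam0.le] at e1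
    have e2 : Real.log 2 ≤ 1 := by
      have := Real.log_le_sub_one_of_pos (show (0 : ℝ) < 2 by norm_num)
      linarith
    linarith
  have hk61 : (1 : ℝ) ≤ (k : ℝ) ^ 61 := one_le_pow₀ hk1
  have hmain : (J : ℝ) * (20 + Real.log N) ≤ (k : ℝ) ^ 140 := by
    have hk19 : (2 : ℝ) ^ 19 ≤ (k : ℝ) ^ 19 := pow_le_pow_left₀ (by norm_num) hk2 19
    calc (J : ℝ) * (20 + Real.log N) ≤ (J : ℝ) * (621 * (k : ℝ) ^ 61) := by
          apply mul_le_mul_of_nonneg_left _ hJ0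
          linarith
      _ ≤ (k : ℝ) ^ 60 * (621 * (k : ℝ) ^ 61) := by
          apply mul_le_mul_of_nonneg_right hJ' (by positivity)
      _ = 621 * (k : ℝ) ^ 121 := by ring
      _ ≤ 2 ^ 19 * (k : ℝ) ^ 121 := by
          apply mul_le_mul_of_nonneg_right (by norm_num) (by positivity)
      _ ≤ (k : ℝ) ^ 19 * (k : ℝ) ^ 121 := by
          apply mul_le_mul_of_nonneg_right hk19 (by positivity)
      _ = (k : ℝ) ^ 140 := by ring
  have hrw : (1 / N) ^ J * Real.exp (-(20 * (J : ℝ))) =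
      Real.exp (-((J : ℝ) * (20 + Real.log N))) := by
    have e1 : (1 / N) ^ J = Real.exp (-((J : ℝ) * Real.log N)) := by
      rw [one_div, inv_pow, Real.exp_neg]
      congr 1
      rw [mul_comm, Real.exp_mul, Real.exp_log hN1, Real.rpow_natCast]
    rw [e1, ← Real.exp_add]
    congr 1
    ring
  rw [hrw]
  apply Real.exp_le_exp.mpr
  linarith

/-- `2 ^ n` as an exponential. -/
private theorem ParA_two_pow (n : ℕ) : (2 : ℝ) ^ n = Real.exp ((n : ℝ) * Real.log 2) := by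
  rw [mul_comm, Real.exp_mul, Real.exp_log (by norm_num), Real.rpow_natCast]

private theorem ParA_log_two : (1 : ℝ) / 2 ≤ Real.log 2 := by
  have := Real.log_two_gt_d9
  linarith

/-- `exp (- k ^ 140) / k ^ 200 ≥ 2 * 2 ^ (- k ^ 150)`. -/
theorem par_hL_one (k : ℕ) (hk : 2 ≤ k) :
    2 * (1 / (2 : ℝ) ^ (k ^ 150)) ≤ 1 / (k : ℝ) ^ 200 * Real.exp (-((k : ℝ) ^ 140)) := by
  have hk2 : (2 : ℝ) ≤ (k : ℝ) := by exact_mod_cast hk
  have hk1 : (1 : ℝ) ≤ (k : ℝ) := by linarith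
  have hk0 : (0 : ℝ) < (k : ℝ) := by linarith
  have hlogk : Real.log (k : ℝ) ≤ (k : ℝ) := by
    have := Real.log_le_sub_one_of_pos hk0
    linarith
  have hl2 := ParA_log_two
  have hl2' : Real.log 2 ≤ 1 := by
    have := Real.log_le_sub_one_of_pos (show (0 : ℝ) < 2 by norm_num)
    linarith
  have e1 : 2 * (1 / (2 : ℝ) ^ (k ^ 150)) =
      Real.exp (Real.log 2 - (k : ℝ) ^ 150 * Real.log 2) := by
    rw [ParA_two_pow, Real.exp_sub, Real.exp_log (by norm_num)]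
    push_cast
    ring
  have e2 : 1 / (k : ℝ) ^ 200 * Real.exp (-((k : ℝ) ^ 140)) =
      Real.exp (-(200 * Real.log (k : ℝ)) - (k : ℝ) ^ 140) := by
    have e3 : (k : ℝ) ^ 200 = Real.exp (200 * Real.log (k : ℝ)) := by
      have h3 : (k : ℝ) ^ 200 = Real.exp (((200 : ℕ) : ℝ) * Real.log (k : ℝ)) := by
        rw [mul_comm, Real.exp_mul, Real.exp_log hk0, Real.rpow_natCast]
      rw [h3]
      norm_num
    rw [e3, sub_eq_add_neg, Real.exp_add, Real.exp_neg (200 * Real.log (k : ℝ)), one_div]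
  rw [e1, e2]
  apply Real.exp_le_exp.mpr
  have hk10 : (2 : ℝ) ^ 10 ≤ (k : ℝ) ^ 10 := pow_le_pow_left₀ (by norm_num) hk2 10
  have hk140 : (0 : ℝ) < (k : ℝ) ^ 140 := by positivity
  have h150 : (2 : ℝ) ^ 10 * (k : ℝ) ^ 140 ≤ (k : ℝ) ^ 150 := by
    calc (2 : ℝ) ^ 10 * (k : ℝ) ^ 140 ≤ (k : ℝ) ^ 10 * (k : ℝ) ^ 140 := by
          apply mul_le_mul_of_nonneg_right hk10 (by positivity)
      _ = (k : ℝ) ^ 150 := by ring
  have h150' : (0 : ℝ) < (k : ℝ) ^ 150 := by positivity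
  have hkk : (k : ℝ) ≤ (k : ℝ) ^ 140 := by
    calc (k : ℝ) = (k : ℝ) ^ 1 := (pow_one _).symm
      _ ≤ (k : ℝ) ^ 140 := pow_le_pow_right₀ hk1 (by norm_num)
  have h1k : (1 : ℝ) ≤ (k : ℝ) ^ 140 := one_le_pow₀ hk1
  have hA : (1 : ℝ) / 2 * (k : ℝ) ^ 150 ≤ (k : ℝ) ^ 150 * Real.log 2 := by
    rw [mul_comm]
    exact mul_le_mul_of_nonneg_left hl2 h150'.le
  norm_num at h150
  linarith

/-- `J lam ≤ 2 ^ (k ^ 72)` (as `k ≤ 2 ^ k`) and `2 ^ (k ^ 150) log 2 ≥ 2 ^ (k ^ 72) + k ^ 150 log 2`. -/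
theorem par_hL_two (k : ℕ) (hk : 2 ≤ k) (J : ℕ) (lam : ℝ) (hJ : J ≤ k ^ 60) (h1 : 0 ≤ lam)
    (h2 : lam ≤ ((k : ℝ) ^ 300) ^ (4 * k ^ 60)) :
    Real.exp (J * lam) / 2 ^ (2 ^ (k ^ 150)) ≤ 1 / (2 : ℝ) ^ (k ^ 150) := by
  have hk2 : (2 : ℝ) ≤ (k : ℝ) := by exact_mod_cast hk
  have hk1 : (1 : ℝ) ≤ (k : ℝ) := by linarith
  have hk0 : (0 : ℝ) < (k : ℝ) := by linarith
  have hJ' : (J : ℝ) ≤ (k : ℝ) ^ 60 := by exact_mod_cast hJ
  have hJ0 : (0 : ℝ) ≤ (J : ℝ) := Nat.cast_nonneg J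
  have hl2 := ParA_log_two
  -- exponent bounds
  have hexp1 : 60 * k + 1200 * k ^ 61 ≤ k ^ 72 := by
    have a1 : 2 ^ 11 ≤ k ^ 11 := Nat.pow_le_pow_left hk 11
    have a2 : k ≤ k ^ 61 := by
      calc k = k ^ 1 := (pow_one _).symm
        _ ≤ k ^ 61 := Nat.pow_le_pow_right (by omega) (by norm_num)
    calc 60 * k + 1200 * k ^ 61 ≤ 60 * k ^ 61 + 1200 * k ^ 61 := by omega
      _ ≤ 2 ^ 11 * k ^ 61 := by
          have : 60 * k ^ 61 + 1200 * k ^ 61 = 1260 * k ^ 61 := by ring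
          rw [this]
          exact Nat.mul_le_mul_right _ (by norm_num)
      _ ≤ k ^ 11 * k ^ 61 := Nat.mul_le_mul_right _ a1
      _ = k ^ 72 := by rw [← pow_add]
  have hkpow : (k : ℝ) ≤ 2 ^ k := by
    have : k ≤ 2 ^ k := Nat.lt_two_pow_self.le
    exact_mod_cast this
  have hJlam : (J : ℝ) * lam ≤ 2 ^ (k ^ 72) := by
    calc (J : ℝ) * lam ≤ (k : ℝ) ^ 60 * ((k : ℝ) ^ 300) ^ (4 * k ^ 60) :=
          mul_le_mul hJ' h2 h1 (by positivity)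
      _ ≤ ((2 : ℝ) ^ k) ^ 60 * (((2 : ℝ) ^ k) ^ 300) ^ (4 * k ^ 60) := by
          apply mul_le_mul
          · exact pow_le_pow_left₀ hk0.le hkpow 60
          · exact pow_le_pow_left₀ (by positivity) (pow_le_pow_left₀ hk0.le hkpow 300) _
          · positivity
          · positivity
      _ = (2 : ℝ) ^ (60 * k + 1200 * k ^ 61) := by
          rw [← pow_mul, ← pow_mul, ← pow_mul, ← pow_add]
          congr 1
          ring
      _ ≤ (2 : ℝ) ^ (k ^ 72) := pow_le_pow_right₀ (by norm_num) hexp1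
  have hexp2 : k ^ 72 + 2 ≤ k ^ 150 := by
    have a1 : 2 ^ 2 ≤ k ^ 78 := by
      calc 2 ^ 2 ≤ k ^ 2 := Nat.pow_le_pow_left hk 2
        _ ≤ k ^ 78 := Nat.pow_le_pow_right (by omega) (by norm_num)
    have a2 : 2 ≤ k ^ 72 := by
      calc 2 ≤ k := hk
        _ = k ^ 1 := (pow_one _).symm
        _ ≤ k ^ 72 := Nat.pow_le_pow_right (by omega) (by norm_num)
    calc k ^ 72 + 2 ≤ 2 ^ 2 * k ^ 72 := by omega
      _ ≤ k ^ 78 * k ^ 72 := Nat.mul_le_mul_right _ a1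
      _ = k ^ 150 := by rw [← pow_add]
  have h150pos : 1 ≤ k ^ 150 := Nat.one_le_pow _ _ (by omega)
  generalize hn : k ^ 150 = n at *
  generalize hm : k ^ 72 = m at *
  -- now with `m + 2 ≤ n`
  have hb1 : (2 : ℝ) ^ m ≤ 1 / 4 * 2 ^ n := by
    have : (2 : ℝ) ^ (m + 2) ≤ 2 ^ n := pow_le_pow_right₀ (by norm_num) hexp2
    rw [pow_add] at this
    linarith
  have hb2 : (n : ℝ) ≤ 1 / 2 * 2 ^ n := by
    obtain ⟨t, rfl⟩ : ∃ t, n = t + 1 := ⟨n - 1, by omega⟩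
    have h3 : t + 1 ≤ 2 ^ t := Nat.lt_two_pow_self
    have h4 : ((t : ℝ) + 1) ≤ 2 ^ t := by exact_mod_cast h3
    rw [pow_succ]
    push_cast
    linarith
  have hkey : (J : ℝ) * lam + n * Real.log 2 ≤ 2 ^ n * Real.log 2 := by
    have c1 : (n : ℝ) * Real.log 2 ≤ 1 / 2 * 2 ^ n * Real.log 2 :=
      mul_le_mul_of_nonneg_right hb2 (by linarith)
    have c2 : (0 : ℝ) < 2 ^ n := by positivity
    have c3 : 1 / 2 * (2 : ℝ) ^ n * (1 / 2) ≤ 1 / 2 * 2 ^ n * Real.log 2 :=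
      mul_le_mul_of_nonneg_left hl2 (by positivity)
    linarith
  rw [ParA_two_pow (2 ^ n), ParA_two_pow n, ← Real.exp_sub, one_div, ← Real.exp_neg]
  apply Real.exp_le_exp.mpr
  push_cast
  linarith

end Pool.Agent.Lib.MP_629a14_nt.Ml
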