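import Pool.Agent.Lib.MP_629a14_nt.Ml.SDefs

/-! Numerical inequalities for the parameters, second part. -/

set_option autoImplicit false

namespace Pool.Agent.Lib.MP_629a14_nt.Ml

open Finset

/-- `2 * k ^ 220 * 2 ^ (k ^ 150) + 1 ≤ 2 ^ (2 + 220 k + k ^ 150)` and
`k ^ 60 * (2 + 220 k + k ^ 150) < k ^ 220`. -/
theorem par_hr (k : ℕ) (hk : 2 ≤ k) :
    (2 * k ^ 220 * 2 ^ (k ^ 150) + 1) ^ (k ^ 60) < 2 ^ (k ^ 220) := by
  have h1 : k ≤ 2 ^ k := Nat.lt_two_pow_self.le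
  have h2 : k ^ 220 ≤ 2 ^ (220 * k) := by
    calc k ^ 220 ≤ (2 ^ k) ^ 220 := Nat.pow_le_pow_left h1 220
      _ = 2 ^ (220 * k) := by rw [← pow_mul, mul_comm]
  have h3 : 2 * k ^ 220 * 2 ^ (k ^ 150) + 1 ≤ 2 ^ (2 + 220 * k + k ^ 150) := by
    have h4 : 1 ≤ 2 * 2 ^ (220 * k) * 2 ^ (k ^ 150) := Nat.one_le_iff_ne_zero.2 (by positivity)
    calc 2 * k ^ 220 * 2 ^ (k ^ 150) + 1
        ≤ 2 * 2 ^ (220 * k) * 2 ^ (k ^ 150) + 2 * 2 ^ (220 * k) * 2 ^ (k ^ 150) :=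
          Nat.add_le_add (Nat.mul_le_mul_right _ (Nat.mul_le_mul_left _ h2)) h4
      _ = 2 ^ (2 + 220 * k + k ^ 150) := by rw [pow_add, pow_add]; ring
  have hk1 : 1 ≤ k := by omega
  have h5 : k ^ 60 * (2 + 220 * k + k ^ 150) < k ^ 220 := by
    have a1 : 1 ≤ k ^ 150 := Nat.one_le_pow _ _ hk1
    have a2 : k ≤ k ^ 150 := by
      calc k = k ^ 1 := (pow_one k).symm
        _ ≤ k ^ 150 := Nat.pow_le_pow_right hk1 (by norm_num)
    have a3 : 2 + 220 * k + k ^ 150 ≤ 223 * k ^ 150 := by omega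
    have a4 : 223 < k ^ 10 := by
      calc 223 < 2 ^ 10 := by norm_num
        _ ≤ k ^ 10 := Nat.pow_le_pow_left hk 10
    calc k ^ 60 * (2 + 220 * k + k ^ 150) ≤ k ^ 60 * (223 * k ^ 150) := Nat.mul_le_mul_left _ a3
      _ < k ^ 60 * (k ^ 10 * k ^ 150) := by
          refine Nat.mul_lt_mul_of_pos_left (Nat.mul_lt_mul_of_pos_right a4 (by positivity)) (by positivity)
      _ = k ^ 220 := by ring
  calc (2 * k ^ 220 * 2 ^ (k ^ 150) + 1) ^ (k ^ 60)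
      ≤ (2 ^ (2 + 220 * k + k ^ 150)) ^ (k ^ 60) := Nat.pow_le_pow_left h3 _
    _ = 2 ^ (k ^ 60 * (2 + 220 * k + k ^ 150)) := by rw [← pow_mul, mul_comm]
    _ < 2 ^ (k ^ 220) := Nat.pow_lt_pow_right (by norm_num) h5

private theorem ParB_pow (k : ℕ) (hk : 2 ≤ k) (m : ℕ) : (2 : ℝ) ^ m ≤ (k : ℝ) ^ m :=
  pow_le_pow_left₀ (by norm_num) (by exact_mod_cast hk) m

theorem par_hq (k : ℕ) (hk : 2 ≤ k) :
    9 * Real.sqrt (40 * (k : ℝ) ^ 140 / (k : ℝ) ^ 300 + 4 * (1 / (k : ℝ) ^ 200)) ≤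
      1 / (k : ℝ) ^ 60 := by
  have hk0 : (0 : ℝ) < k := by
    have : (0 : ℕ) < k := by omega
    exact_mod_cast this
  have h1 : Real.sqrt (40 * (k : ℝ) ^ 140 / (k : ℝ) ^ 300 + 4 * (1 / (k : ℝ) ^ 200)) ≤
      1 / (9 * (k : ℝ) ^ 60) := by
    refine Real.sqrt_le_iff.2 ⟨by positivity, ?_⟩
    have e1 : 40 * (k : ℝ) ^ 140 / (k : ℝ) ^ 300 = 40 / (k : ℝ) ^ 160 := by
      rw [div_eq_div_iff (by positivity) (by positivity)]
      ring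
    have e2 : 4 * (1 / (k : ℝ) ^ 200) ≤ 4 / (k : ℝ) ^ 160 := by
      rw [mul_one_div]
      refine div_le_div_of_nonneg_left (by norm_num) (by positivity) ?_
      exact pow_le_pow_right₀ (by linarith [ParB_pow k hk 1, pow_one (k : ℝ), pow_one (2 : ℝ)]) (by norm_num)
    rw [e1]
    have e3 : (40 : ℝ) / (k : ℝ) ^ 160 + 4 / (k : ℝ) ^ 160 ≤ (1 / (9 * (k : ℝ) ^ 60)) ^ 2 := by
      rw [← add_div, div_pow, one_pow, div_le_div_iff₀ (by positivity) (by positivity)]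
      have e4 := ParB_pow k hk 40
      have e5 : (40 + 4 : ℝ) * (9 * (k : ℝ) ^ 60) ^ 2 = 3564 * (k : ℝ) ^ 120 := by ring
      have e6 : (1 : ℝ) * (k : ℝ) ^ 160 = (k : ℝ) ^ 40 * (k : ℝ) ^ 120 := by ring
      rw [e5, e6]
      refine mul_le_mul_of_nonneg_right (le_trans ?_ e4) (by positivity)
      norm_num
    linarith
  calc 9 * Real.sqrt (40 * (k : ℝ) ^ 140 / (k : ℝ) ^ 300 + 4 * (1 / (k : ℝ) ^ 200))
      ≤ 9 * (1 / (9 * (k : ℝ) ^ 60)) := mul_le_mul_of_nonneg_left h1 (by norm_num)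
    _ = 1 / (k : ℝ) ^ 60 := by
      field_simp

/-- `exp x ≤ 1 + 2 x` for `0 ≤ x ≤ 1`. -/
theorem par_hm (k : ℕ) (hk : 2 ≤ k) :
    Real.exp (2 * ((k : ℝ) ^ 60 * ((k : ℝ) ^ 220 * (k : ℝ) ^ 150)) / (k : ℝ) ^ 600) ≤
      1 + (1 / (k : ℝ) ^ 60) ^ 2 / 100 := by
  have hk0 : (0 : ℝ) < k := by
    have : (0 : ℕ) < k := by omega
    exact_mod_cast this
  have e1 : 2 * ((k : ℝ) ^ 60 * ((k : ℝ) ^ 220 * (k : ℝ) ^ 150)) / (k : ℝ) ^ 600 =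
      2 / (k : ℝ) ^ 170 := by
    rw [div_eq_div_iff (by positivity) (by positivity)]
    ring
  rw [e1]
  have e2 : (2 : ℝ) / (k : ℝ) ^ 170 ≤ (1 / (k : ℝ) ^ 60) ^ 2 / 200 := by
    rw [div_pow, one_pow, div_div, div_le_div_iff₀ (by positivity) (by positivity)]
    have e4 := ParB_pow k hk 50
    have e6 : (1 : ℝ) * (k : ℝ) ^ 170 = (k : ℝ) ^ 50 * (k : ℝ) ^ 120 := by ring
    have e5 : (2 : ℝ) * (((k : ℝ) ^ 60) ^ 2 * 200) = 400 * (k : ℝ) ^ 120 := by ring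
    rw [e5, e6]
    refine mul_le_mul_of_nonneg_right (le_trans ?_ e4) (by positivity)
    norm_num
  have e3 : (0 : ℝ) ≤ 2 / (k : ℝ) ^ 170 := by positivity
  have e7 : (2 : ℝ) / (k : ℝ) ^ 170 ≤ 1 := by
    rw [div_le_one (by positivity)]
    refine le_trans ?_ (ParB_pow k hk 170)
    norm_num
  have e8 := Real.abs_exp_sub_one_le (x := 2 / (k : ℝ) ^ 170) (by rw [abs_of_nonneg e3]; exact e7)
  rw [abs_of_nonneg e3] at e8
  have e9 := (abs_le.1 e8).2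
  linarith

theorem par_hw (k : ℕ) (hk : 2 ≤ k) :
    9 / (k : ℝ) ^ 600 ≤ (1 / (k : ℝ) ^ 60) ^ 2 / 100 := by
  have hk0 : (0 : ℝ) < k := by
    have : (0 : ℕ) < k := by omega
    exact_mod_cast this
  rw [div_pow, one_pow, div_div, div_le_div_iff₀ (by positivity) (by positivity)]
  have e4 := ParB_pow k hk 480
  have e6 : (1 : ℝ) * (k : ℝ) ^ 600 = (k : ℝ) ^ 480 * (k : ℝ) ^ 120 := by ring
  have e5 : (9 : ℝ) * (((k : ℝ) ^ 60) ^ 2 * 100) = 900 * (k : ℝ) ^ 120 := by ring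
  rw [e5, e6]
  refine mul_le_mul_of_nonneg_right (le_trans ?_ e4) (by positivity)
  exact le_trans (by norm_num : (900 : ℝ) ≤ 2 ^ 10) (pow_le_pow_right₀ (by norm_num) (by norm_num))

theorem par_hu (k : ℕ) (hk : 2 ≤ k) :
    1 / (k : ℝ) ^ 200 + (k : ℝ) ^ 60 * ((k : ℝ) ^ 220 * (k : ℝ) ^ 150) / (k : ℝ) ^ 600 ≤
      1 / (k : ℝ) ^ 60 := by
  have hk0 : (0 : ℝ) < k := by
    have : (0 : ℕ) < k := by omega
    exact_mod_cast this
  have hk1 : (1 : ℝ) ≤ k := by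
    have : (1 : ℕ) ≤ k := by omega
    exact_mod_cast this
  have e1 : (k : ℝ) ^ 60 * ((k : ℝ) ^ 220 * (k : ℝ) ^ 150) / (k : ℝ) ^ 600 = 1 / (k : ℝ) ^ 170 := by
    rw [div_eq_div_iff (by positivity) (by positivity)]
    ring
  have e2 : 1 / (k : ℝ) ^ 200 ≤ 1 / (k : ℝ) ^ 170 :=
    div_le_div_of_nonneg_left zero_le_one (by positivity) (pow_le_pow_right₀ hk1 (by norm_num))
  rw [e1]
  have e3 : 1 / (k : ℝ) ^ 170 + 1 / (k : ℝ) ^ 170 ≤ 1 / (k : ℝ) ^ 60 := by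
    rw [← add_div, div_le_div_iff₀ (by positivity) (by positivity)]
    have e4 := ParB_pow k hk 110
    have e6 : (1 : ℝ) * (k : ℝ) ^ 170 = (k : ℝ) ^ 110 * (k : ℝ) ^ 60 := by ring
    rw [e6]
    refine mul_le_mul_of_nonneg_right (le_trans ?_ e4) (by positivity)
    norm_num
  linarith

theorem par_hrho (k : ℕ) (hk : 2 ≤ k) :
    1 / (k : ℝ) ^ 200 ≤ (1 / (k : ℝ) ^ 60) ^ 2 / 100 := by
  have hk0 : (0 : ℝ) < k := by
    have : (0 : ℕ) < k := by omega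
    exact_mod_cast this
  rw [div_pow, one_pow, div_div, div_le_div_iff₀ (by positivity) (by positivity)]
  have e4 := ParB_pow k hk 80
  have e6 : (1 : ℝ) * (k : ℝ) ^ 200 = (k : ℝ) ^ 80 * (k : ℝ) ^ 120 := by ring
  have e5 : (1 : ℝ) * (((k : ℝ) ^ 60) ^ 2 * 100) = 100 * (k : ℝ) ^ 120 := by ring
  rw [e5, e6]
  refine mul_le_mul_of_nonneg_right (le_trans ?_ e4) (by positivity)
  norm_num

end Pool.Agent.Lib.MP_629a14_nt.Ml
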