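import Pool.Agent.Lib.MP_629a14_nt.Ml.ParA
import Pool.Agent.Lib.MP_629a14_nt.Ml.ParB

/-! Existence of parameters. -/

set_option autoImplicit false

namespace Pool.Agent.Lib.MP_629a14_nt.Ml

open Finset

private lemma ParC_c0 (kk A B : ℝ) (hk : 0 < kk) (hA : 0 < A) (hB : 0 < B) :
    1 / (20 * kk * A * B) * A * B ≤ 1 / (20 * kk) := by
  apply le_of_eq
  field_simp

/-- `T = k ^ 60`, `L = 2 ^ (k ^ 150)`, `r = k ^ 220`, `Kc = k ^ 150`, `e = 1 / k ^ 60`, `B = k ^ 300`,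
`tau = 1 / 2 ^ (k ^ 150)`, `rho = 1 / k ^ 200`, `y0 = k ^ 600`, `Dz = k ^ 140`, and
`c0 = 1 / (20 k (8 / tau) ^ (T r Kc) exp Dz)`. -/
theorem exists_par (k : ℕ) (hk : 2 ≤ k) : ∃ P : Par, P.k = k ∧ P.y0 = (k : ℝ) ^ 600 := by
  have hk2 : (2 : ℝ) ≤ k := by exact_mod_cast hk
  have hk0 : (0 : ℝ) < k := by linarith
  have hk1 : (1 : ℝ) ≤ k := by linarith
  have htau : (0 : ℝ) < 1 / (2 : ℝ) ^ (k ^ 150) := by positivity
  refine ⟨{
    k := k
    T := k ^ 60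
    L := 2 ^ (k ^ 150)
    r := k ^ 220
    Kc := k ^ 150
    e := 1 / (k : ℝ) ^ 60
    B := (k : ℝ) ^ 300
    tau := 1 / (2 : ℝ) ^ (k ^ 150)
    rho := 1 / (k : ℝ) ^ 200
    y0 := (k : ℝ) ^ 600
    Dz := (k : ℝ) ^ 140
    c0 := 1 / (20 * (k : ℝ) * (8 / (1 / (2 : ℝ) ^ (k ^ 150))) ^ (k ^ 60 * (k ^ 220 * k ^ 150)) *
      Real.exp ((k : ℝ) ^ 140))
    hk := hk
    he := by positivity
    he' := par_he k hk
    hT := ?_
    hB := one_le_pow₀ hk1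
    htau := htau
    hrho := by positivity
    hrho' := par_hrho k hk
    hDz := fun J lam hJ h1 h2 => par_hDz k hk J lam hJ h1 h2
    hL := ?_
    hr := par_hr k hk
    hKc := ?_
    hy0 := ?_
    hq := par_hq k hk
    hm := ?_
    hw := par_hw k hk
    hu := ?_
    hc0 := ?_
    hc0' := ?_ }, rfl, rfl⟩
  · rw [Nat.cast_pow, one_div, inv_mul_cancel₀ (pow_pos hk0 60).ne']
  · intro J lam hJ h1 h2
    have e1 := par_hL_one k hk
    have e2 := par_hL_two k hk J lam hJ h1 h2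
    linarith
  · rw [one_div_pow]
  · have h1 : (2 : ℝ) ^ 6 ≤ (k : ℝ) ^ 6 := pow_le_pow_left₀ (by norm_num) hk2 6
    have h2 : (k : ℝ) ^ 6 ≤ (k : ℝ) ^ 600 := pow_le_pow_right₀ hk1 (by norm_num)
    have h3 : (2 : ℝ) ^ 6 = 64 := by norm_num
    rw [h3] at h1
    exact h1.trans h2
  · have := par_hm k hk
    rw [Nat.cast_pow, Nat.cast_pow, Nat.cast_pow]
    exact this
  · have := par_hu k hk
    rw [Nat.cast_pow, Nat.cast_pow, Nat.cast_pow]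
    exact this
  · have h1 : (0 : ℝ) < (8 / (1 / (2 : ℝ) ^ (k ^ 150))) ^ (k ^ 60 * (k ^ 220 * k ^ 150)) :=
      pow_pos (div_pos (by norm_num) htau) _
    have h2 := Real.exp_pos ((k : ℝ) ^ 140)
    exact one_div_pos.2 (mul_pos (mul_pos (mul_pos (by norm_num) hk0) h1) h2)
  · exact ParC_c0 k _ _ hk0 (pow_pos (div_pos (by norm_num) htau) _) (Real.exp_pos _)

end Pool.Agent.Lib.MP_629a14_nt.Ml
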