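import Pool.Agent.Lib.MP_629a14_nt.Ml.Defs

/-! Basic properties of the character and of the averages over the subgroups. -/

set_option autoImplicit false

namespace Pool.Agent.Lib.MP_629a14_nt.Ml

open Finset

variable {ι : Type} [Fintype ι] [DecidableEq ι] {n : ι → ℕ} [∀ i, NeZero (n i)]

theorem psi_zero : psi (0 : Gp n) = 1 := by
  unfold psi
  simp

theorem psi_add (x y : Gp n) : psi (x + y) = psi x * psi y := by
  unfold psi
  rw [← prod_mul_distrib]
  exact prod_congr rfl fun i _ => by rw [Pi.add_apply, AddChar.map_add_eq_mul]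

theorem norm_psi (x : Gp n) : ‖psi x‖ = 1 := by
  unfold psi
  rw [norm_prod]
  refine prod_eq_one fun i _ => ?_
  exact AddChar.norm_apply _ _

theorem psi_neg (x : Gp n) : psi (-x) = (starRingEnd ℂ) (psi x) := by
  have h1 : psi (-x) * psi x = 1 := by rw [← psi_add, neg_add_cancel, psi_zero]
  have h2 : (starRingEnd ℂ) (psi x) * psi x = 1 := by
    rw [mul_comm, Complex.mul_conj, Complex.normSq_eq_norm_sq, norm_psi]
    norm_num
  have h3 : psi x ≠ 0 := by
    intro h
    have := norm_psi x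
    rw [h, norm_zero] at this
    exact zero_ne_one this
  exact mul_right_cancel₀ h3 (h1.trans h2.symm)

theorem re_psi_le (x : Gp n) : (psi x).re ≤ 1 := by
  have := Complex.re_le_norm (psi x)
  rwa [norm_psi] at this

theorem mem_HS (E : Finset ι) (s : Gp n) : s ∈ (HS E : Finset (Gp n)) ↔ ∀ i ∈ E, s i = 0 := by
  unfold HS
  simp

theorem zero_mem_HS (E : Finset ι) : (0 : Gp n) ∈ (HS E : Finset (Gp n)) := by
  rw [mem_HS]
  intro i _
  rfl

theorem add_mem_HS {E : Finset ι} {s t : Gp n} (hs : s ∈ (HS E : Finset (Gp n)))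
    (ht : t ∈ (HS E : Finset (Gp n))) : s + t ∈ (HS E : Finset (Gp n)) := by
  rw [mem_HS] at *
  intro i hi
  rw [Pi.add_apply, hs i hi, ht i hi, add_zero]

theorem neg_mem_HS {E : Finset ι} {s : Gp n} (hs : s ∈ (HS E : Finset (Gp n))) :
    -s ∈ (HS E : Finset (Gp n)) := by
  rw [mem_HS] at *
  intro i hi
  rw [Pi.neg_apply, hs i hi, neg_zero]

theorem mul_mem_HS {E : Finset ι} (c : Gp n) {s : Gp n} (hs : s ∈ (HS E : Finset (Gp n))) :
    c * s ∈ (HS E : Finset (Gp n)) := by
  rw [mem_HS] at *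
  intro i hi
  rw [Pi.mul_apply, hs i hi, mul_zero]

theorem HS_mono {E E' : Finset ι} (h : E ⊆ E') : (HS E' : Finset (Gp n)) ⊆ HS E := by
  intro s hs
  rw [mem_HS] at *
  exact fun i hi => hs i (h hi)

theorem card_HS_pos (E : Finset ι) : 0 < ((HS E : Finset (Gp n)).card : ℝ) := by
  have : 0 < (HS E : Finset (Gp n)).card := card_pos.2 ⟨0, zero_mem_HS E⟩
  exact_mod_cast this

/-- Sums of product functions over `HS E`. -/
theorem sum_HS_prod (E : Finset ι) (φ : ∀ i, ZMod (n i) → ℂ) :
    ∑ s ∈ (HS E : Finset (Gp n)), ∏ i, φ i (s i) =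
      ∏ i, (if i ∈ E then φ i 0 else ∑ x, φ i x) := by
  classical
  have h1 : (HS E : Finset (Gp n)) =
      Fintype.piFinset (fun i => if i ∈ E then {0} else (univ : Finset (ZMod (n i)))) := by
    ext s
    rw [mem_HS, Fintype.mem_piFinset]
    constructor
    · intro h i
      by_cases hi : i ∈ E
      · simp [hi, h i hi]
      · simp [hi]
    · intro h i hi
      have := h i
      simpa [hi] using this
  rw [h1, ← prod_univ_sum]
  refine prod_congr rfl fun i _ => ?_
  by_cases hi : i ∈ E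
  · simp [hi]
  · simp [hi]

theorem sum_HS_prod_real (E : Finset ι) (φ : ∀ i, ZMod (n i) → ℝ) :
    ∑ s ∈ (HS E : Finset (Gp n)), ∏ i, φ i (s i) =
      ∏ i, (if i ∈ E then φ i 0 else ∑ x, φ i x) := by
  have h := sum_HS_prod (n := n) E (fun i x => (φ i x : ℂ))
  have h2 : ((∑ s ∈ (HS E : Finset (Gp n)), ∏ i, φ i (s i) : ℝ) : ℂ) =
      ((∏ i, (if i ∈ E then φ i 0 else ∑ x, φ i x) : ℝ) : ℂ) := by
    push_cast
    rw [h]
    refine prod_congr rfl fun i _ => ?_
    split_ifs <;> simp
  exact_mod_cast h2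

theorem card_HS (E : Finset ι) :
    ((HS E : Finset (Gp n)).card : ℝ) = ∏ i, (if i ∈ E then 1 else (n i : ℝ)) := by
  have h := sum_HS_prod_real (n := n) E (fun _ _ => 1)
  simp only [prod_const_one, sum_const, nsmul_eq_mul, mul_one] at h
  rw [h]
  refine prod_congr rfl fun i _ => ?_
  split_ifs
  · rfl
  · simp [ZMod.card]

theorem card_HS_mul (E : Finset ι) :
    ((HS E : Finset (Gp n)).card : ℝ) * ∏ i ∈ E, (n i : ℝ) = Fintype.card (Gp n) := by
  have h1 : (Fintype.card (Gp n) : ℝ) = ∏ i, (n i : ℝ) := by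
    have : Fintype.card (Gp n) = ∏ i, n i := by
      rw [Fintype.card_pi]
      exact prod_congr rfl fun i _ => ZMod.card (n i)
    rw [this]
    push_cast
    rfl
  rw [card_HS, h1]
  have h2 : ∏ i ∈ E, (n i : ℝ) = ∏ i, (if i ∈ E then (n i : ℝ) else 1) := by
    rw [prod_ite_mem, univ_inter]
  rw [h2, ← prod_mul_distrib]
  refine prod_congr rfl fun i _ => ?_
  split_ifs <;> ring

/-- Orthogonality over `HS E`. -/
theorem sum_psi_HS (E : Finset ι) (b : Gp n) :
    ∑ s ∈ (HS E : Finset (Gp n)), psi (b * s) =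
      if (∀ i, i ∉ E → b i = 0) then ((HS E : Finset (Gp n)).card : ℂ) else 0 := by
  classical
  have h1 : ∑ s ∈ (HS E : Finset (Gp n)), psi (b * s) =
      ∏ i, (if i ∈ E then (1 : ℂ) else ∑ x, ZMod.stdAddChar (b i * x)) := by
    have := sum_HS_prod (n := n) E (fun i x => ZMod.stdAddChar (b i * x))
    have h2 : ∀ s : Gp n, psi (b * s) = ∏ i, (ZMod.stdAddChar (b i * s i) : ℂ) := fun s => rfl
    simp only [h2]
    rw [this]
    refine prod_congr rfl fun i _ => ?_
    split_ifs
    · simp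
    · rfl
  have h3 : ∀ i, ∑ x, (ZMod.stdAddChar (b i * x) : ℂ) = if b i = 0 then (n i : ℂ) else 0 := by
    intro i
    split_ifs with hb
    · simp [hb, ZMod.card]
    · have hp := ZMod.isPrimitive_stdAddChar (n i) hb
      have := AddChar.sum_eq_zero_of_ne_one hp
      simpa [AddChar.mulShift_apply] using this
  rw [h1]
  split_ifs with hall
  · have h4 := card_HS (n := n) E
    have h5 : ((HS E : Finset (Gp n)).card : ℂ) = ((∏ i, (if i ∈ E then 1 else (n i : ℝ)) : ℝ) : ℂ) := by
      rw [← h4]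
      norm_cast
    rw [h5]
    push_cast
    refine prod_congr rfl fun i _ => ?_
    split_ifs with hi
    · simp
    · rw [h3, if_pos (hall i hi)]
      simp
  · push Not at hall
    obtain ⟨i, hi, hb⟩ := hall
    refine prod_eq_zero (mem_univ i) ?_
    rw [if_neg hi, h3, if_neg hb]

theorem EH_nonneg (E : Finset ι) {f : Gp n → ℝ} (hf : ∀ s, 0 ≤ f s) : 0 ≤ EH E f := by
  unfold EH
  exact div_nonneg (sum_nonneg fun s _ => hf s) (by positivity)

theorem EH_const (E : Finset ι) (c : ℝ) : EH E (fun _ : Gp n => c) = c := by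
  unfold EH
  rw [sum_const, nsmul_eq_mul, mul_comm, mul_div_assoc, div_self (card_HS_pos E).ne', mul_one]

/-- Invariance of the average under translations in `HS E`. -/
theorem EH_shift (E : Finset ι) (f : Gp n → ℝ) {h : Gp n} (hh : h ∈ (HS E : Finset (Gp n))) :
    EH E (fun s => f (s + h)) = EH E f := by
  unfold EH
  congr 1
  refine sum_bij (fun s _ => s + h) (fun s hs => add_mem_HS hs hh) ?_ ?_ (fun _ _ => rfl)
  · intro s _ t _ hst
    exact add_right_cancel hst
  · intro t ht
    exact ⟨t + -h, add_mem_HS ht (neg_mem_HS hh), by rw [neg_add_cancel_right]⟩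

end Pool.Agent.Lib.MP_629a14_nt.Ml
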