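import Pool.Agent.Lib.MP_629a14_nt.Ml.Psi

/-! Product functions with few zeros. -/

set_option autoImplicit false

namespace Pool.Agent.Lib.MP_629a14_nt.Ml

open Finset

variable {ι : Type} [Fintype ι] [DecidableEq ι] {n : ι → ℕ} [∀ i, NeZero (n i)]

open Classical in
/-- The product function vanishing when `s i ∈ S i` for some `i`, with factors `w i`. -/
noncomputable def pun (w : ι → ℝ) (S : ∀ i, Finset (ZMod (n i))) (s : Gp n) : ℝ :=
  ∏ i, (if s i ∈ S i then 0 else w i)

private theorem Pun_orth (m : ℕ) [NeZero m] (b : ZMod m) (hb : b ≠ 0) :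
    ∑ x : ZMod m, (ZMod.stdAddChar (b * x) : ℂ) = 0 := by
  have hp := ZMod.isPrimitive_stdAddChar m hb
  have := AddChar.sum_eq_zero_of_ne_one hp
  simpa [AddChar.mulShift_apply] using this

private theorem Pun_norm (m : ℕ) [NeZero m] (x : ZMod m) : ‖(ZMod.stdAddChar x : ℂ)‖ = 1 :=
  AddChar.norm_apply _ _

open Classical in
private theorem Pun_sum (m : ℕ) [NeZero m] (w : ℝ) (S : Finset (ZMod m)) :
    ∑ x : ZMod m, (if x ∈ S then 0 else w) = w * ((m : ℝ) - (S.card : ℝ)) := by
  have h1 : ∀ x : ZMod m, (if x ∈ S then (0 : ℝ) else w) = w - (if x ∈ S then w else 0) := by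
    intro x
    split_ifs <;> ring
  simp only [h1]
  rw [sum_sub_distrib, sum_const, card_univ, ZMod.card, nsmul_eq_mul, sum_ite_mem, univ_inter,
    sum_const, nsmul_eq_mul]
  ring

open Classical in
private theorem Pun_four (m : ℕ) [NeZero m] (w : ℝ) (hw : 0 ≤ w) (S : Finset (ZMod m))
    (b : ZMod m) (hb : b ≠ 0) :
    ‖∑ x : ZMod m, (((if x ∈ S then 0 else w : ℝ)) : ℂ) * ZMod.stdAddChar (b * x)‖ ≤
      w * S.card := by
  have h1 : ∀ x : ZMod m, (((if x ∈ S then 0 else w : ℝ)) : ℂ) * ZMod.stdAddChar (b * x) =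
      (w : ℂ) * ZMod.stdAddChar (b * x) -
        (if x ∈ S then (w : ℂ) * ZMod.stdAddChar (b * x) else 0) := by
    intro x
    split_ifs <;> simp
  simp only [h1]
  rw [sum_sub_distrib, ← mul_sum, Pun_orth m b hb, mul_zero, zero_sub, norm_neg, sum_ite_mem,
    univ_inter, ← mul_sum, norm_mul, Complex.norm_real, Real.norm_of_nonneg hw]
  refine mul_le_mul_of_nonneg_left ?_ hw
  refine (norm_sum_le _ _).trans ?_
  simp only [Pun_norm, sum_const, nsmul_eq_mul, mul_one]
  exact le_rfl

/-- For `i ∈ sv`, `b ≠ 0`: `∑_{x ∉ S i} stdAddChar (b x) = - ∑_{x ∈ S i} stdAddChar (b x)` has norm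
at most `card (S i) ≤ (8 / n i) (n i - card (S i))` as `card (S i) ≤ 4`, `n i ≥ 8`. For `i ∉ sv` the
sum vanishes. -/
theorem pf_pun (sv : Finset ι) (w : ι → ℝ) (hw : ∀ i, 0 ≤ w i) (S : ∀ i, Finset (ZMod (n i)))
    (h0 : ∀ i, i ∉ sv → S i = ∅) (h4 : ∀ i ∈ sv, (S i).card ≤ 4 ∧ 8 ≤ n i) (E : Finset ι) :
    PF (cw n sv) E (pun w S) := by
  classical
  refine ⟨fun i x => if x ∈ S i then 0 else w i, ?_, ?_, ?_⟩
  · intro i x
    simp only
    split_ifs
    · exact le_rfl
    · exact hw i
  · intro s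
    unfold pun
    refine prod_congr rfl fun i _ => ?_
    rfl
  · intro i _ b hb
    refine (Pun_four (n i) (w i) (hw i) (S i) b hb).trans ?_
    rw [Pun_sum]
    unfold cw
    by_cases hi : i ∈ sv
    · rw [if_pos hi]
      obtain ⟨hc, hn⟩ := h4 i hi
      have hc' : ((S i).card : ℝ) ≤ 4 := by exact_mod_cast hc
      have hn' : (8 : ℝ) ≤ n i := by exact_mod_cast hn
      have h1 : ((S i).card : ℝ) ≤ 8 / (n i : ℝ) * ((n i : ℝ) - (S i).card) := by
        rw [div_mul_eq_mul_div, le_div_iff₀ (by linarith)]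
        nlinarith
      calc w i * ((S i).card : ℝ) ≤ w i * (8 / (n i : ℝ) * ((n i : ℝ) - (S i).card)) :=
            mul_le_mul_of_nonneg_left h1 (hw i)
        _ = _ := by ring
    · rw [if_neg hi, h0 i hi]
      simp

open Classical in
theorem EH_pun (w : ι → ℝ) (S : ∀ i, Finset (ZMod (n i))) (E : Finset ι) :
    EH E (pun w S) = ∏ i, (if i ∈ E then (if (0 : ZMod (n i)) ∈ S i then 0 else w i)
      else w i * (1 - ((S i).card : ℝ) / (n i : ℝ))) := by
  unfold EH pun
  have h := sum_HS_prod_real (n := n) E (fun i x => if x ∈ S i then 0 else w i)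
  rw [h, card_HS, ← prod_div_distrib]
  refine prod_congr rfl fun i _ => ?_
  have hn : (n i : ℝ) ≠ 0 := by
    have := NeZero.ne (n i)
    exact_mod_cast this
  by_cases hi : i ∈ E
  · rw [if_pos hi, if_pos hi, if_pos hi, div_one]
  · rw [if_neg hi, if_neg hi, if_neg hi, Pun_sum]
    field_simp

private theorem Pun_bsum (m : ℕ) [NeZero m] (w : ℝ) (x0 : ZMod m) :
    ∑ x : ZMod m, (if x = x0 then w else 1) = (m : ℝ) + (w - 1) := by
  have h1 : ∀ x : ZMod m, (if x = x0 then w else 1) = 1 + (if x = x0 then w - 1 else 0) := by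
    intro x
    split_ifs <;> ring
  simp only [h1]
  rw [sum_add_distrib, sum_const, card_univ, ZMod.card, nsmul_eq_mul, mul_one, sum_ite_eq',
    if_pos (mem_univ _)]

private theorem Pun_bfour (m : ℕ) [NeZero m] (w : ℝ) (hw : 1 ≤ w) (x0 b : ZMod m) (hb : b ≠ 0) :
    ‖∑ x : ZMod m, (((if x = x0 then w else 1 : ℝ)) : ℂ) * ZMod.stdAddChar (b * x)‖ = w - 1 := by
  have h1 : ∀ x : ZMod m, (((if x = x0 then w else 1 : ℝ)) : ℂ) * ZMod.stdAddChar (b * x) =
      ZMod.stdAddChar (b * x) + (if x = x0 then ((w - 1 : ℝ) : ℂ) * ZMod.stdAddChar (b * x)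
        else 0) := by
    intro x
    split_ifs
    · push_cast
      ring
    · simp
  simp only [h1]
  rw [sum_add_distrib, Pun_orth m b hb, zero_add, sum_ite_eq', if_pos (mem_univ _), norm_mul,
    Complex.norm_real, Pun_norm, mul_one, Real.norm_of_nonneg (by linarith)]

open Classical in
/-- Product functions with one exceptional value: `w i ≥ 1` at `x0 i`, and `1` otherwise
(`i ∈ T`), constant `1` for `i ∉ T`. The condition: `w i - 1 ≤ 8`. -/
theorem pf_bump (sv T : Finset ι) (hT : T ⊆ sv) (w : ι → ℝ) (hw : ∀ i ∈ T, 1 ≤ w i ∧ w i ≤ 9)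
    (x0 : Gp n) (E : Finset ι) :
    PF (cw n sv) E (fun s : Gp n => ∏ i ∈ T, (if s i = x0 i then w i else 1)) := by
  refine ⟨fun i x => if i ∈ T then (if x = x0 i then w i else 1) else 1, ?_, ?_, ?_⟩
  · intro i x
    simp only
    split_ifs with h1 h2
    · linarith [(hw i h1).1]
    · norm_num
    · norm_num
  · intro s
    simp only
    rw [prod_ite_mem, univ_inter]
  · intro i _ b hb
    have hn : (0 : ℝ) < n i := by
      have := NeZero.pos (n i)
      exact_mod_cast this
    by_cases hi : i ∈ T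
    · simp only [hi, if_true]
      have h1 := Pun_bfour (n i) (w i) (hw i hi).1 (x0 i) b hb
      have h2 := Pun_bsum (n i) (w i) (x0 i)
      refine le_trans (le_of_eq ?_) (le_trans (b := w i - 1) le_rfl ?_)
      · rw [← h1]
      · have h3 : ∑ x : ZMod (n i), (if x = x0 i then w i else 1) = (n i : ℝ) + (w i - 1) := by
          rw [← h2]
        unfold cw
        rw [if_pos (hT hi)]
        have h4 : w i - 1 ≤ 8 / (n i : ℝ) * ((n i : ℝ) + (w i - 1)) := by
          rw [div_mul_eq_mul_div, le_div_iff₀ hn]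
          have h5 := (hw i hi).1
          have h6 := (hw i hi).2
          nlinarith
        refine h4.trans (le_of_eq ?_)
        congr 1
        rw [← h2]
    · simp only [hi, if_false]
      have h1 : ∑ x : ZMod (n i), ((1 : ℝ) : ℂ) * ZMod.stdAddChar (b * x) = 0 := by
        simp only [Complex.ofReal_one, one_mul]
        exact Pun_orth (n i) b hb
      rw [h1, norm_zero]
      unfold cw
      have : (0 : ℝ) ≤ ∑ _x : ZMod (n i), (1 : ℝ) := sum_nonneg fun _ _ => by norm_num
      split_ifs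
      · positivity
      · simp

open Classical in
/-- For `T` disjoint from `E`. -/
theorem EH_bump (T : Finset ι) (w : ι → ℝ) (x0 : Gp n) (E : Finset ι) (hTE : Disjoint T E) :
    EH E (fun s : Gp n => ∏ i ∈ T, (if s i = x0 i then w i else 1)) =
      ∏ i ∈ T, (1 + (w i - 1) / (n i : ℝ)) := by
  have h0 : ∀ s : Gp n, ∏ i ∈ T, (if s i = x0 i then w i else 1) =
      ∏ i, (if i ∈ T then (if s i = x0 i then w i else 1) else 1) := by
    intro s
    rw [prod_ite_mem, univ_inter]
  have h1 : ∏ i ∈ T, (1 + (w i - 1) / (n i : ℝ)) =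
      ∏ i, (if i ∈ T then (1 + (w i - 1) / (n i : ℝ)) else 1) := by
    rw [prod_ite_mem, univ_inter]
  unfold EH
  simp only [h0]
  have h := sum_HS_prod_real (n := n) E
    (fun i x => if i ∈ T then (if x = x0 i then w i else 1) else 1)
  rw [h, card_HS, ← prod_div_distrib, h1]
  refine prod_congr rfl fun i _ => ?_
  have hn : (n i : ℝ) ≠ 0 := by
    have := NeZero.ne (n i)
    exact_mod_cast this
  by_cases hi : i ∈ E
  · have hiT : i ∉ T := fun h => (disjoint_left.1 hTE h) hi
    simp [hi, hiT]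
  · by_cases hiT : i ∈ T
    · simp only [hi, if_false, hiT, if_true]
      have h2 := Pun_bsum (n i) (w i) (x0 i)
      have h3 : ∑ x : ZMod (n i), (if x = x0 i then w i else 1) = (n i : ℝ) + (w i - 1) := by
        rw [← h2]
      have h4 : (1 : ℝ) + (w i - 1) / (n i : ℝ) = ((n i : ℝ) + (w i - 1)) / (n i : ℝ) := by
        field_simp
      rw [h4]
      congr 1
    · simp [hi, hiT, ZMod.card, hn]

end Pool.Agent.Lib.MP_629a14_nt.Ml
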