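import Pool.Agent.Lib.MP_629a14_nt.Ml.ParC
import Pool.Agent.Lib.MP_629a14_nt.Ml.Iter

/-! The local lemma. -/

set_option autoImplicit false

namespace Pool.Agent.Lib.MP_629a14_nt.Ml

open Finset

open Classical in
/-- Local lemma: `k ^ 600` is the lower bound for the sieving primes. Take the parameters of
`exists_par` (substitute `k = P.k`) and `D x = 1` if the sum is at most `c0 card`, `D x = 0`
otherwise, in `no_sys`. -/
theorem rlm (k : ℕ) (hk : 2 ≤ k) : ∃ c0 : ℝ, 0 < c0 ∧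
    ∀ (ι : Type) [Fintype ι] [DecidableEq ι] (n : ι → ℕ) [∀ i, NeZero (n i)] (sv : Finset ι)
      (F : Fin k → Gp n → ℝ), (∀ i, Odd (n i)) → (∀ i ∈ sv, (n i).Prime) →
      (∀ i ∈ sv, (k : ℝ) ^ 600 ≤ (n i : ℝ)) →
      (∑ i ∈ sv, 1 / (n i : ℝ) ^ 2 ≤ 1 / (k : ℝ) ^ 600) →
      (∀ i x, 0 ≤ F i x) → (∀ x, ∑ i, F i x = nuS sv x) →
      ((univ.filter (fun m : Gp n => ∑ i, ∑ δ, F i (m + δ) * F i (m - δ) ≤
        c0 * (Fintype.card (Gp n) : ℝ))).card : ℝ) < (Fintype.card (Gp n) : ℝ) / 2 := by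
  obtain ⟨P, hPk, hPy⟩ := exists_par k hk
  subst hPk
  refine ⟨P.c0, P.hc0, ?_⟩
  intro ι _ _ n _ sv F hodd hprime hlarge hsum hF hFs
  have hS : Sys P sv F (fun m : Gp n => if ∑ i, ∑ δ, F i (m + δ) * F i (m - δ) ≤
      P.c0 * (Fintype.card (Gp n) : ℝ) then 1 else 0) := by
    refine ⟨hodd, hprime, ?_, ?_, hF, hFs, ?_, ?_⟩
    · intro i hi
      rw [hPy]
      exact hlarge i hi
    · rw [hPy]
      exact hsum
    · intro x
      split_ifs
      · exact Or.inr rfl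
      · exact Or.inl rfl
    · intro x hx
      split_ifs at hx with h
      · exact h
      · exact absurd hx zero_ne_one
  have h1 := no_sys P hS
  rw [← sum_filter, sum_const, nsmul_eq_mul, mul_one] at h1
  exact h1

end Pool.Agent.Lib.MP_629a14_nt.Ml
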