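import Pool.Agent.Lib.MP_629a14_nt.Ml.Defs

/-! Parameters and configurations of the increment argument. -/

set_option autoImplicit false

namespace Pool.Agent.Lib.MP_629a14_nt.Ml

open Finset

variable {ι : Type} [Fintype ι] [DecidableEq ι] {n : ι → ℕ} [∀ i, NeZero (n i)]

/-- Numerical parameters. -/
structure Par where
  k : ℕ
  T : ℕ
  L : ℕ
  r : ℕ
  Kc : ℕ
  e : ℝ
  B : ℝ
  tau : ℝ
  rho : ℝ
  y0 : ℝ
  Dz : ℝ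
  c0 : ℝ
  hk : 2 ≤ k
  he : 0 < e
  he' : Real.sqrt e ≤ 1 / (10 ^ 7 * (k : ℝ) ^ 4)
  hT : 1 ≤ e * T
  hB : 1 ≤ B
  htau : 0 < tau
  hrho : 0 < rho
  hrho' : rho ≤ e ^ 2 / 100
  hDz : ∀ (J : ℕ) (lam : ℝ), J ≤ T → 1 ≤ lam → lam ≤ B ^ (4 * T) →
    Real.exp (-Dz) ≤ (1 / (⌈Real.sqrt lam⌉₊ : ℝ)) ^ J * Real.exp (-(20 * (J : ℝ)))
  hL : ∀ (J : ℕ) (lam : ℝ), J ≤ T → 0 ≤ lam → lam ≤ B ^ (4 * T) →
    tau + Real.exp (J * lam) / 2 ^ L ≤ rho * Real.exp (-Dz)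
  hr : (2 * r * L + 1) ^ T < 2 ^ r
  hKc : (1 / 2 : ℝ) ^ Kc ≤ tau
  hy0 : 64 ≤ y0
  hq : 9 * Real.sqrt (40 * Dz / B + 4 * rho) ≤ e
  hm : Real.exp (2 * (T * (r * Kc)) / y0) ≤ 1 + e ^ 2 / 100
  hw : 9 / y0 ≤ e ^ 2 / 100
  hu : rho + T * (r * Kc) / y0 ≤ e
  hc0 : 0 < c0
  hc0' : c0 * (8 / tau) ^ (T * (r * Kc)) * Real.exp Dz ≤ 1 / (20 * (k : ℝ))

/-- A colouring `F` of the weight `nuS sv` and a set `D` of elements which are midpoints of few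
monochromatic pairs. -/
structure Sys (P : Par) (sv : Finset ι) (F : Fin P.k → Gp n → ℝ) (D : Gp n → ℝ) : Prop where
  odd : ∀ i, Odd (n i)
  prime : ∀ i ∈ sv, (n i).Prime
  large : ∀ i ∈ sv, P.y0 ≤ (n i : ℝ)
  sum_sq : ∑ i ∈ sv, 1 / (n i : ℝ) ^ 2 ≤ 1 / P.y0
  F_nonneg : ∀ i x, 0 ≤ F i x
  F_sum : ∀ x, ∑ i, F i x = nuS sv x
  D_val : ∀ x, D x = 0 ∨ D x = 1
  D_small : ∀ x, D x = 1 →
    ∑ i, ∑ δ, F i (x + δ) * F i (x - δ) ≤ P.c0 * (Fintype.card (Gp n) : ℝ)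

/-- A configuration of level `j`. -/
structure Cfg (P : Par) (sv : Finset ι) {j : ℕ} (a : Fin j → Gp n) (E : Finset ι) (z : Gp n) :
    Prop where
  sub : E ⊆ sv
  clo : Clo (cw n sv) a P.L P.tau E
  card : E.card ≤ j * (P.r * P.Kc)
  size : ∀ i ∈ E, (n i : ℝ) ≤ 8 / P.tau
  unit : ∀ i ∈ E, z i ≠ 0

/-- The potential of the kernel `κ` at `z`. -/
noncomputable def PP {k : ℕ} (F : Fin k → Gp n → ℝ) (D : Gp n → ℝ) (κ : Gp n → ℝ) (z : Gp n) : ℝ :=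
  Pot (fun i => av κ (F i) z) (av κ D z)

/-- The characters of the next level. -/
noncomputable def nxt {j : ℕ} (a : Fin j → Gp n) (ξ : Gp n) : Fin (j + 1) → Gp n :=
  Fin.cons ξ (fun i => half * a i)

end Pool.Agent.Lib.MP_629a14_nt.Ml
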