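import Pool.Agent.Lib.MP_629a14_nt.Ml.Typ
import Pool.Agent.Lib.MP_629a14_nt.Ml.SBase
import Pool.Agent.Lib.MP_629a14_nt.Ml.AvSh

/-! A typical base point for a configuration. -/

set_option autoImplicit false

namespace Pool.Agent.Lib.MP_629a14_nt.Ml

open Finset

variable {ι : Type} [Fintype ι] [DecidableEq ι] {n : ι → ℕ} [∀ i, NeZero (n i)]

omit [Fintype ι] [DecidableEq ι] [∀ i, NeZero (n i)] in
private theorem tc_q (P : Par) (hD : 0 ≤ P.Dz) (m1 m2 : ℕ) (h : m1 + 1 ≤ m2) :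
    P.B ^ m1 * (P.Dz / P.B ^ m2) ≤ P.Dz / P.B := by
  have hB0 : 0 < P.B := lt_of_lt_of_le one_pos P.hB
  have h1 : P.B ^ (m1 + 1) ≤ P.B ^ m2 := pow_le_pow_right₀ P.hB h
  rw [← mul_div_assoc, div_le_div_iff₀ (by positivity) hB0]
  have h2 : P.B ^ m1 * P.Dz * P.B = P.Dz * P.B ^ (m1 + 1) := by ring
  rw [h2]
  exact mul_le_mul_of_nonneg_left h1 hD

/-- Jensen for several functions. -/
private theorem tc_jensen {k : ℕ} (p : Gp n → ℝ) (hp : ∀ w, 0 ≤ p w) (hp1 : ∑ w, p w = 1)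
    (f : Fin k → Gp n → ℝ) (c : Fin k → ℝ) :
    ∑ i, |(∑ w, p w * f i w) - c i| ≤ ∑ w, p w * ∑ i, |f i w - c i| := by
  have h1 : ∀ i, |(∑ w, p w * f i w) - c i| ≤ ∑ w, p w * |f i w - c i| := by
    intro i
    have e : (∑ w, p w * f i w) - c i = ∑ w, p w * (f i w - c i) := by
      simp only [mul_sub, sum_sub_distrib]
      rw [← sum_mul, hp1, one_mul]
    rw [e]
    refine (abs_sum_le_sum_abs _ _).trans (le_of_eq ?_)
    exact sum_congr rfl fun w _ => by rw [abs_mul, abs_of_nonneg (hp w)]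
  refine (sum_le_sum fun i _ => h1 i).trans (le_of_eq ?_)
  rw [sum_comm]
  exact sum_congr rfl fun w _ => by rw [mul_sum]

private theorem tc_jensen1 (p : Gp n → ℝ) (hp : ∀ w, 0 ≤ p w) (hp1 : ∑ w, p w = 1)
    (f : Gp n → ℝ) (c : ℝ) :
    |(∑ w, p w * f w) - c| ≤ ∑ w, p w * |f w - c| := by
  have e : (∑ w, p w * f w) - c = ∑ w, p w * (f w - c) := by
    simp only [mul_sub, sum_sub_distrib]
    rw [← sum_mul, hp1, one_mul]
  rw [e]
  refine (abs_sum_le_sum_abs _ _).trans (le_of_eq ?_)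
  exact sum_congr rfl fun w _ => by rw [abs_mul, abs_of_nonneg (hp w)]

/-- sums of squares of differences of small nonnegative numbers -/
private theorem tc_sq {k : ℕ} (x y : Fin k → ℝ) (hx : ∀ i, 0 ≤ x i) (hy : ∀ i, 0 ≤ y i)
    (hx2 : ∑ i, x i ≤ 2) (hy2 : ∑ i, y i ≤ 2) : ∑ i, (x i - y i) ^ 2 ≤ 8 := by
  have hx3 : ∀ i, x i ≤ 2 := fun i =>
    (single_le_sum (fun j _ => hx j) (mem_univ i)).trans hx2
  have hy3 : ∀ i, y i ≤ 2 := fun i =>
    (single_le_sum (fun j _ => hy j) (mem_univ i)).trans hy2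
  calc ∑ i, (x i - y i) ^ 2 ≤ ∑ i, 2 * (x i + y i) := by
        refine sum_le_sum fun i _ => ?_
        nlinarith [hx i, hy i, hx3 i, hy3 i, mul_nonneg (hx i) (hy i),
          mul_nonneg (hx i) (sub_nonneg.2 (hx3 i)), mul_nonneg (hy i) (sub_nonneg.2 (hy3 i))]
    _ = 2 * (∑ i, x i + ∑ i, y i) := by rw [← mul_sum, sum_add_distrib]
    _ ≤ 8 := by linarith

/-- Apply `typ` with `κ0, κa, κb, κc` the kernels `ka a (B ^ m) E`, `m = 4j, 4j+1, 4j+2, 4j+3`, and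
`κe = ka (nxt a ξ) (B ^ (4 (j + 1))) E'`, `mu0`, `d0` the averages at `z0` for `κ0`. All elements of the
supports are in `HS E`, so all base points do not vanish on `E`.
`hG`: `av_F_bounds` (the sum of the `F` parts is at most `2`, so the squares sum to at most `(2+2)^2`,
`D` part at most `1`). `h1`, `h2`: `av2_shift` with `p = κe`, `h w = w`, `QQ a (half * w) ≤ QQ (nxt a ξ) w`
(`QQ_nxt`, `EQ_ka`), `shift_num`. `h3`: `av_shift`. `h4`, `h4'`, `h5`: `bdd_shift` with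
`τ = Gp n × Gp n`, `p (t, u) = κa t κb u`, `h = t + (u + u)` (resp. `- t + (u + u)`; resp. `u`):
`QQ a (t + (u + u)) ≤ 2 QQ a t + 8 QQ a u`, `EQ_ka`, so that the average of `B ^ (4j) QQ` is at most
`10 Dz / B`. -/
theorem typ_cfg (P : Par) {sv : Finset ι} {F : Fin P.k → Gp n → ℝ} {D : Gp n → ℝ}
    (hS : Sys P sv F D) {j : ℕ} (hj : j < P.T) {a : Fin j → Gp n} {E : Finset ι} {z0 : Gp n}
    (hC : Cfg P sv a E z0)
    (ξ : Gp n) {E' : Finset ι} (hEE' : E ⊆ E') (hE' : E' ⊆ sv)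
    (hclo : Clo (cw n sv) (nxt a ξ) P.L P.tau E')
    (hc : E'.card ≤ (j + 1) * (P.r * P.Kc))
    (hflat : ∑ s, ka a (P.B ^ (4 * j)) E s *
      ((∑ i, (av (ka (nxt a ξ) (P.B ^ (4 * (j + 1))) E') (F i) (z0 + s) -
        av (ka a (P.B ^ (4 * j)) E) (F i) z0) ^ 2) +
      (av (ka (nxt a ξ) (P.B ^ (4 * (j + 1))) E') D (z0 + s) -
        av (ka a (P.B ^ (4 * j)) E) D z0) ^ 2) ≤ 52 * P.e) :
    ∃ s, ka a (P.B ^ (4 * j)) E s ≠ 0 ∧
      (∑ t, ka a (P.B ^ (4 * j + 1)) E t * ∑ i, (av2 (ka a (P.B ^ (4 * j + 2)) E) (F i)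
        (z0 + s + t) - av (ka a (P.B ^ (4 * j)) E) (F i) z0) ^ 2) +
      (∑ t, ka a (P.B ^ (4 * j + 1)) E t * ∑ i, (av2 (ka a (P.B ^ (4 * j + 3)) E) (F i)
        (z0 + s - t) - av (ka a (P.B ^ (4 * j)) E) (F i) z0) ^ 2) +
      ((∑ i, (av (ka a (P.B ^ (4 * j + 2)) E) (F i) (z0 + s) -
        av (ka a (P.B ^ (4 * j)) E) (F i) z0) ^ 2) +
        (av (ka a (P.B ^ (4 * j + 2)) E) D (z0 + s) -
          av (ka a (P.B ^ (4 * j)) E) D z0) ^ 2) ≤ 480 * P.e := by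
  have hjT : j ≤ P.T := hj.le
  have hj1T : j + 1 ≤ P.T := hj
  have hB0 : 0 < P.B := lt_of_lt_of_le one_pos P.hB
  have hBp : ∀ m : ℕ, 0 ≤ P.B ^ m := fun m => pow_nonneg hB0.le m
  have hr0 : 0 ≤ P.rho := P.hrho.le
  have hr1 : P.rho ≤ 1 := P.rho_le_one
  have he0 : 0 ≤ P.e := P.he.le
  have he1 : P.e ≤ 1 := by
    refine P.e_le.trans ?_
    have hk : (1 : ℝ) ≤ P.k := by exact_mod_cast (by have := P.hk; omega : 1 ≤ P.k)
    have h1 : (1 : ℝ) ≤ (P.k : ℝ) ^ 8 := one_le_pow₀ hk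
    rw [div_le_one (by positivity)]
    nlinarith
  have hsv8 : ∀ i ∈ sv, (n i).Prime ∧ 8 ≤ n i := by
    intro i hi
    refine ⟨hS.prime i hi, ?_⟩
    have h1 := hS.large i hi
    have h2 := P.hy0
    have h3 : (8 : ℝ) ≤ n i := by linarith
    exact_mod_cast h3
  have hF1 : ∀ x, ∑ i, F i x ≤ nuS sv x := fun x => (hS.F_sum x).le
  have hD01 : ∀ x, 0 ≤ D x ∧ D x ≤ 1 := by
    intro x
    rcases hS.D_val x with h | h <;> rw [h] <;> norm_num
  have hcE : E.card ≤ P.T * (P.r * P.Kc) := hC.card.trans (Nat.mul_le_mul_right _ hjT)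
  have hcE' : E'.card ≤ P.T * (P.r * P.Kc) := hc.trans (Nat.mul_le_mul_right _ hj1T)
  obtain ⟨hmE1, hmE2⟩ := mE_bounds P hS.large hC.sub hcE
  have hmE3 : mE n E ≤ 2 := by nlinarith
  have hG0 : ∀ m : ℕ, m ≤ 4 * P.T → GoodK (cw n sv) a (P.B ^ m) E P.rho := fun m hm =>
    good_ka P hS.large hjT hC.clo m hm
  -- the parameter `Dz` is nonnegative
  have hDz : 0 ≤ P.Dz := by
    have h1 := EQ_ka P hjT a 0 (Nat.zero_le _) E
    have h2 : 0 ≤ ∑ s, ka a (P.B ^ 0) E s * QQ a s :=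
      sum_nonneg fun s _ => mul_nonneg (ka_nonneg _ _ _ _) (QQ_nonneg _ _)
    rw [pow_zero, div_one] at h1
    rw [pow_zero] at h2
    exact h2.trans h1
  have hq0 : 0 ≤ P.Dz / P.B := div_nonneg hDz hB0.le
  have hq40 : 40 * P.Dz / P.B = 40 * (P.Dz / P.B) := by ring
  -- energies
  have hE1 : ∀ m1 m2 : ℕ, m1 + 1 ≤ m2 → m2 ≤ 4 * P.T →
      ∑ s, ka a (P.B ^ m2) E s * (P.B ^ m1 * QQ a s) ≤ P.Dz / P.B := by
    intro m1 m2 h12 h2
    have h3 := EQ_ka P hjT a m2 h2 E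
    have h4 : ∑ s, ka a (P.B ^ m2) E s * (P.B ^ m1 * QQ a s) =
        P.B ^ m1 * ∑ s, ka a (P.B ^ m2) E s * QQ a s := by
      rw [mul_sum]
      exact sum_congr rfl fun s _ => by ring
    rw [h4]
    exact (mul_le_mul_of_nonneg_left h3 (hBp m1)).trans (tc_q P hDz m1 m2 h12)
  have hE2 : ∀ m1 : ℕ, m1 + 1 ≤ 4 * (j + 1) →
      ∑ s, ka (nxt a ξ) (P.B ^ (4 * (j + 1))) E' s * (P.B ^ m1 * QQ (nxt a ξ) s) ≤
        P.Dz / P.B := by
    intro m1 h12
    have h3 := EQ_ka P hj1T (nxt a ξ) (4 * (j + 1)) (by omega) E'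
    have h4 : ∑ s, ka (nxt a ξ) (P.B ^ (4 * (j + 1))) E' s * (P.B ^ m1 * QQ (nxt a ξ) s) =
        P.B ^ m1 * ∑ s, ka (nxt a ξ) (P.B ^ (4 * (j + 1))) E' s * QQ (nxt a ξ) s := by
      rw [mul_sum]
      exact sum_congr rfl fun s _ => by ring
    rw [h4]
    exact (mul_le_mul_of_nonneg_left h3 (hBp m1)).trans (tc_q P hDz m1 _ h12)
  -- supports
  have hsup : ∀ (m : ℕ) (s : Gp n), ka a (P.B ^ m) E s ≠ 0 → s ∈ (HS E : Finset (Gp n)) := by
    intro m s hs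
    by_contra h
    exact hs (ka_of_not_mem _ _ _ h)
  have hsup' : ∀ s : Gp n, ka (nxt a ξ) (P.B ^ (4 * (j + 1))) E' s ≠ 0 →
      s ∈ (HS E : Finset (Gp n)) := by
    intro s hs
    by_contra h
    exact hs (ka_of_not_mem _ _ _ fun h2 => h (HS_mono hEE' h2))
  have hz : ∀ s ∈ (HS E : Finset (Gp n)), ∀ i ∈ E, (z0 + s) i ≠ 0 := by
    intro s hs i hi
    rw [Pi.add_apply, (mem_HS E s).1 hs i hi, add_zero]
    exact hC.unit i hi
  have hn0 : ∀ (m : ℕ) (s : Gp n), 0 ≤ ka a (P.B ^ m) E s := fun m s => ka_nonneg _ _ _ _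
  have hs1 : ∀ m : ℕ, ∑ s, ka a (P.B ^ m) E s = 1 := fun m => ka_sum _ _ _
  have hne : ∀ s, 0 ≤ ka (nxt a ξ) (P.B ^ (4 * (j + 1))) E' s := fun s => ka_nonneg _ _ _ _
  have hse : ∑ s, ka (nxt a ξ) (P.B ^ (4 * (j + 1))) E' s = 1 := ka_sum _ _ _
  -- bounds for the averages
  have hGe : ∀ y, (∑ i, (av (ka (nxt a ξ) (P.B ^ (4 * (j + 1))) E') (F i) y -
      av (ka a (P.B ^ (4 * j)) E) (F i) z0) ^ 2) +
      (av (ka (nxt a ξ) (P.B ^ (4 * (j + 1))) E') D y -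
        av (ka a (P.B ^ (4 * j)) E) D z0) ^ 2 ≤ 25 := by
    intro y
    obtain ⟨a1, a2, -, -, a5, a6⟩ := av_F_bounds P hS hj1T hE' hcE' hclo (4 * (j + 1))
      (by omega) y
    obtain ⟨b1, b2, -, -, b5, b6⟩ := av_F_bounds P hS hjT hC.sub hcE hC.clo (4 * j)
      (by omega) z0
    have h1 := tc_sq _ _ a1 b1 (by linarith) (by linarith)
    nlinarith
  -- shifts of the averages of the colour classes over the doubled kernels
  have hav2 : ∀ (m : ℕ), m + 1 ≤ 4 * (j + 1) → ∀ y, (∀ i ∈ E, y i ≠ 0) →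
      ∑ i, |(∑ w, ka (nxt a ξ) (P.B ^ (4 * (j + 1))) E' w *
        av2 (ka a (P.B ^ m) E) (F i) (y + w)) - av2 (ka a (P.B ^ m) E) (F i) y| ≤ P.e := by
    intro m hm y hy
    refine (tc_jensen _ hne hse (fun i w => av2 (ka a (P.B ^ m) E) (F i) (y + w))
      (fun i => av2 (ka a (P.B ^ m) E) (F i) y)).trans ?_
    have h1 := av2_shift hS.odd sv hsv8 hC.sub (hG0 m (by omega)) (hBp m) hr0 hr1 F hS.F_nonneg
      hF1 y hy (fun w => ka (nxt a ξ) (P.B ^ (4 * (j + 1))) E' w) hne hse (fun w => w)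
      (fun w hw => hsup' w hw) (40 * P.Dz / P.B) (by
        have h2 := hE2 m hm
        calc ∑ t, ka (nxt a ξ) (P.B ^ (4 * (j + 1))) E' t * (P.B ^ m * QQ a (half * t))
            ≤ ∑ t, ka (nxt a ξ) (P.B ^ (4 * (j + 1))) E' t * (P.B ^ m * QQ (nxt a ξ) t) := by
              refine sum_le_sum fun t _ => mul_le_mul_of_nonneg_left ?_ (hne t)
              exact mul_le_mul_of_nonneg_left (QQ_nxt hS.odd a ξ t).2.1 (hBp m)
          _ ≤ P.Dz / P.B := h2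
          _ ≤ 40 * P.Dz / P.B := by rw [hq40]; linarith)
    exact h1.trans (shift_num P _ le_rfl _ (by linarith) (by linarith))
  -- bounded functions
  have hbd : ∀ (G : Gp n → ℝ), (∀ x, |G x| ≤ 25) → ∀ {τ : Type} [Fintype τ] (p : τ → ℝ)
      (_ : ∀ t, 0 ≤ p t) (_ : ∑ t, p t = 1) (h : τ → Gp n)
      (_ : ∀ t, p t ≠ 0 → h t ∈ (HS E : Finset (Gp n)))
      (_ : ∑ t, p t * (P.B ^ (4 * j) * QQ a (h t)) ≤ 40 * P.Dz / P.B),
      |(∑ t, p t * av (ka a (P.B ^ (4 * j)) E) G (z0 + h t)) -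
        av (ka a (P.B ^ (4 * j)) E) G z0| ≤ 25 * P.e := by
    intro G hG τ _ p hp hp1 h hh hq
    have h1 := bdd_shift sv (hG0 (4 * j) (by omega)) (hBp (4 * j)) hr0 hr1 G 25 hG z0 p hp hp1 h
      hh (40 * P.Dz / P.B) hq
    have h2 := shift_num P (40 * P.Dz / P.B) le_rfl 1 (by norm_num) zero_le_one
    rw [mul_one] at h2
    linarith
  -- energies of the combined shifts
  have hQ2 : ∀ t u : Gp n, QQ a (t + (u + u)) ≤ 2 * QQ a t + 8 * QQ a u := by
    intro t u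
    have h1 := QQ_add_le a t (u + u)
    have h2 := QQ_two_le a u
    linarith
  have hcomb : ∀ (m : ℕ), 4 * j + 1 ≤ m → m ≤ 4 * P.T → ∀ (g : Gp n → Gp n),
      (∀ t, QQ a (g t) = QQ a t) →
      ∑ x : Gp n × Gp n, (ka a (P.B ^ (4 * j + 1)) E x.1 * ka a (P.B ^ m) E x.2) *
        (P.B ^ (4 * j) * QQ a (g x.1 + (x.2 + x.2))) ≤ 40 * P.Dz / P.B := by
    intro m hm hm' g hg
    have h1 : ∑ x : Gp n × Gp n, (ka a (P.B ^ (4 * j + 1)) E x.1 * ka a (P.B ^ m) E x.2) *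
        (P.B ^ (4 * j) * QQ a (g x.1 + (x.2 + x.2))) ≤
        ∑ x : Gp n × Gp n, (ka a (P.B ^ (4 * j + 1)) E x.1 * ka a (P.B ^ m) E x.2) *
        (P.B ^ (4 * j) * (2 * QQ a x.1 + 8 * QQ a x.2)) := by
      refine sum_le_sum fun x _ => mul_le_mul_of_nonneg_left ?_
        (mul_nonneg (hn0 _ _) (hn0 _ _))
      refine mul_le_mul_of_nonneg_left ?_ (hBp _)
      have := hQ2 (g x.1) x.2
      rw [hg] at this
      exact this
    have h2 : ∑ x : Gp n × Gp n, (ka a (P.B ^ (4 * j + 1)) E x.1 * ka a (P.B ^ m) E x.2) *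
        (P.B ^ (4 * j) * (2 * QQ a x.1 + 8 * QQ a x.2)) =
        2 * (∑ t, ka a (P.B ^ (4 * j + 1)) E t * (P.B ^ (4 * j) * QQ a t)) *
          (∑ u, ka a (P.B ^ m) E u) +
        8 * (∑ t, ka a (P.B ^ (4 * j + 1)) E t) *
          (∑ u, ka a (P.B ^ m) E u * (P.B ^ (4 * j) * QQ a u)) := by
      rw [Fintype.sum_prod_type]
      simp only [mul_sum, sum_mul]
      rw [sum_comm, ← sum_add_distrib]
      refine sum_congr rfl fun u _ => ?_
      rw [← sum_add_distrib]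
      refine sum_congr rfl fun t _ => ?_
      ring
    rw [hs1, hs1, mul_one, mul_one] at h2
    have h3 := hE1 (4 * j) (4 * j + 1) le_rfl (by omega)
    have h4 := hE1 (4 * j) m hm hm'
    rw [h2] at h1
    rw [hq40]
    linarith
  have hprod : ∀ m : ℕ, ∑ x : Gp n × Gp n,
      (ka a (P.B ^ (4 * j + 1)) E x.1 * ka a (P.B ^ m) E x.2) = 1 := by
    intro m
    rw [Fintype.sum_prod_type, ← sum_mul_sum, hs1, hs1, one_mul]
  refine typ F D _ _ _ _ _ ⟨hn0 _, hs1 _⟩ ⟨hn0 _, hs1 _⟩ ⟨hn0 _, hs1 _⟩ ⟨hn0 _, hs1 _⟩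
    ⟨hne, hse⟩ (fun i => av (ka a (P.B ^ (4 * j)) E) (F i) z0)
    (av (ka a (P.B ^ (4 * j)) E) D z0) z0 P.e he0 he1 hGe ?_ ?_ ?_ ?_ ?_ ?_ hflat
  · intro s t hs ht
    refine hav2 (4 * j + 2) (by omega) (z0 + s + t) ?_
    rw [add_assoc]
    exact hz _ (add_mem_HS (hsup _ s hs) (hsup _ t ht))
  · intro s t hs ht
    refine hav2 (4 * j + 3) (by omega) (z0 + s - t) ?_
    rw [sub_eq_add_neg, add_assoc]
    exact hz _ (add_mem_HS (hsup _ s hs) (neg_mem_HS (hsup _ t ht)))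
  · intro s hs
    have hy := hz s (hsup _ s hs)
    have j1 := tc_jensen _ hne hse (fun i w => av (ka a (P.B ^ (4 * j + 2)) E) (F i) (z0 + s + w))
      (fun i => av (ka a (P.B ^ (4 * j + 2)) E) (F i) (z0 + s))
    have j2 := tc_jensen1 _ hne hse (fun w => av (ka a (P.B ^ (4 * j + 2)) E) D (z0 + s + w))
      (av (ka a (P.B ^ (4 * j + 2)) E) D (z0 + s))
    have h1 := av_shift sv hsv8 hC.sub (hG0 (4 * j + 2) (by omega)) (hBp (4 * j + 2)) hr0 hr1 F D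
      hS.F_nonneg hF1 hD01 (z0 + s) hy (fun w => ka (nxt a ξ) (P.B ^ (4 * (j + 1))) E' w) hne hse
      (fun w => w) (fun w hw => hsup' w hw) (40 * P.Dz / P.B) (by
        have h2 := hE2 (4 * j + 2) (by omega)
        calc ∑ t, ka (nxt a ξ) (P.B ^ (4 * (j + 1))) E' t * (P.B ^ (4 * j + 2) * QQ a t)
            ≤ ∑ t, ka (nxt a ξ) (P.B ^ (4 * (j + 1))) E' t *
              (4 * (P.B ^ (4 * j + 2) * QQ (nxt a ξ) t)) := by
              refine sum_le_sum fun t _ => mul_le_mul_of_nonneg_left ?_ (hne t)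
              have := mul_le_mul_of_nonneg_left (QQ_nxt hS.odd a ξ t).1 (hBp (4 * j + 2))
              linarith
          _ = 4 * ∑ t, ka (nxt a ξ) (P.B ^ (4 * (j + 1))) E' t *
              (P.B ^ (4 * j + 2) * QQ (nxt a ξ) t) := by
              rw [mul_sum]
              exact sum_congr rfl fun t _ => by ring
          _ ≤ 40 * P.Dz / P.B := by rw [hq40]; linarith)
    have h3 := h1.trans (shift_num P _ le_rfl (mE n E + 1) (by linarith) (by linarith))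
    refine (add_le_add j1 j2).trans ?_
    refine le_trans (le_of_eq ?_) h3
    rw [← sum_add_distrib]
    exact sum_congr rfl fun t _ => (mul_add _ _ _).symm
  · intro G hG
    have h1 := hbd G hG (fun x : Gp n × Gp n => ka a (P.B ^ (4 * j + 1)) E x.1 *
      ka a (P.B ^ (4 * j + 2)) E x.2) (fun x => mul_nonneg (hn0 _ _) (hn0 _ _)) (hprod _)
      (fun x => x.1 + (x.2 + x.2)) (by
        intro x hx
        have hx1 : x.1 ∈ (HS E : Finset (Gp n)) := hsup _ _ (left_ne_zero_of_mul hx)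
        have hx2 : x.2 ∈ (HS E : Finset (Gp n)) := hsup _ _ (right_ne_zero_of_mul hx)
        exact add_mem_HS hx1 (add_mem_HS hx2 hx2))
      (hcomb (4 * j + 2) (by omega) (by omega) (fun t => t) (fun t => rfl))
    rw [Fintype.sum_prod_type] at h1
    unfold av at h1
    refine le_trans (le_of_eq ?_) h1
    congr 2
    refine sum_congr rfl fun t _ => sum_congr rfl fun u _ => ?_
    congr 1
    refine sum_congr rfl fun s _ => ?_
    congr 2
    abel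
  · intro G hG
    have h1 := hbd G hG (fun x : Gp n × Gp n => ka a (P.B ^ (4 * j + 1)) E x.1 *
      ka a (P.B ^ (4 * j + 3)) E x.2) (fun x => mul_nonneg (hn0 _ _) (hn0 _ _)) (hprod _)
      (fun x => -x.1 + (x.2 + x.2)) (by
        intro x hx
        have hx1 : x.1 ∈ (HS E : Finset (Gp n)) := hsup _ _ (left_ne_zero_of_mul hx)
        have hx2 : x.2 ∈ (HS E : Finset (Gp n)) := hsup _ _ (right_ne_zero_of_mul hx)
        exact add_mem_HS (neg_mem_HS hx1) (add_mem_HS hx2 hx2))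
      (hcomb (4 * j + 3) (by omega) (by omega) (fun t => -t) (fun t => QQ_neg a t))
    rw [Fintype.sum_prod_type] at h1
    unfold av at h1
    refine le_trans (le_of_eq ?_) h1
    congr 2
    refine sum_congr rfl fun t _ => sum_congr rfl fun u _ => ?_
    congr 1
    refine sum_congr rfl fun s _ => ?_
    congr 2
    abel
  · intro G hG
    have h1 := hbd G hG (fun x : Gp n => ka a (P.B ^ (4 * j + 2)) E x) (fun x => hn0 _ _) (hs1 _)
      (fun x => x) (fun x hx => hsup _ x hx) (by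
        have h2 := hE1 (4 * j) (4 * j + 2) (by omega) (by omega)
        rw [hq40]
        linarith)
    unfold av at h1
    refine le_trans (le_of_eq ?_) h1
    congr 2
    refine sum_congr rfl fun u _ => ?_
    congr 1
    refine sum_congr rfl fun s _ => ?_
    congr 2
    abel

end Pool.Agent.Lib.MP_629a14_nt.Ml
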