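import Pool.Agent.Lib.MP_629a14_nt.Ml.Flat
import Pool.Agent.Lib.MP_629a14_nt.Ml.TypC
import Pool.Agent.Lib.MP_629a14_nt.Ml.BigN
import Pool.Agent.Lib.MP_629a14_nt.Ml.Inv
import Pool.Agent.Lib.MP_629a14_nt.Ml.Child

/-! The increment step. -/

set_option autoImplicit false

namespace Pool.Agent.Lib.MP_629a14_nt.Ml

open Finset

private theorem Step_cs {τ : Type} [Fintype τ] (p f : τ → ℝ) (hp : ∀ t, 0 ≤ p t)
    (hp1 : ∑ t, p t = 1) (q : ℝ) (hq : ∑ t, p t * f t ^ 2 ≤ q) :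
    ∑ t, p t * f t ≤ Real.sqrt q := by
  have h1 : (∑ t, p t * f t) ^ 2 ≤ (∑ t, p t) * ∑ t, p t * f t ^ 2 :=
    sum_sq_le_sum_mul_sum_of_sq_le_mul univ (fun t _ => hp t)
      (fun t _ => mul_nonneg (hp t) (sq_nonneg _)) (fun t _ => le_of_eq (by ring))
  rw [hp1, one_mul] at h1
  exact Real.le_sqrt_of_sq_le (h1.trans hq)

private theorem Step_mink {k : ℕ} (x y : Fin k → ℝ) (a b A γ : ℝ)
    (h1 : (∑ i, |x i|) + |a| ≤ A) (h2 : (∑ i, y i ^ 2) + b ^ 2 ≤ γ) :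
    (∑ i, (x i + y i) ^ 2) + (a + b) ^ 2 ≤ (Real.sqrt γ + A) ^ 2 := by
  have hy0 : 0 ≤ ∑ i, y i ^ 2 := sum_nonneg fun i _ => sq_nonneg _
  have hγ : 0 ≤ γ := by nlinarith [sq_nonneg b]
  have hx0 : 0 ≤ ∑ i, |x i| := sum_nonneg fun i _ => abs_nonneg _
  have hs : Real.sqrt γ ^ 2 = γ := Real.sq_sqrt hγ
  have hyi : ∀ i, |y i| ≤ Real.sqrt γ := by
    intro i
    apply Real.abs_le_sqrt
    have : y i ^ 2 ≤ ∑ i, y i ^ 2 := single_le_sum (f := fun i => y i ^ 2)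
      (fun j _ => sq_nonneg _) (mem_univ i)
    nlinarith [sq_nonneg b]
  have hb : |b| ≤ Real.sqrt γ := by
    apply Real.abs_le_sqrt
    linarith
  have hxy : ∑ i, x i * y i ≤ (∑ i, |x i|) * Real.sqrt γ := by
    rw [sum_mul]
    refine sum_le_sum fun i _ => ?_
    calc x i * y i ≤ |x i * y i| := le_abs_self _
      _ = |x i| * |y i| := abs_mul _ _
      _ ≤ |x i| * Real.sqrt γ := mul_le_mul_of_nonneg_left (hyi i) (abs_nonneg _)
  have hab : a * b ≤ |a| * Real.sqrt γ := by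
    calc a * b ≤ |a * b| := le_abs_self _
      _ = |a| * |b| := abs_mul _ _
      _ ≤ |a| * Real.sqrt γ := mul_le_mul_of_nonneg_left hb (abs_nonneg _)
  have hxx : ∑ i, x i ^ 2 ≤ (∑ i, |x i|) ^ 2 := by
    have := sum_sq_le_sq_sum_of_nonneg (s := (univ : Finset (Fin k))) (f := fun i => |x i|)
      (fun i _ => abs_nonneg _)
    simpa only [sq_abs] using this
  have e1 : ∑ i, (x i + y i) ^ 2 = (∑ i, x i ^ 2) + 2 * (∑ i, x i * y i) + ∑ i, y i ^ 2 := by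
    rw [mul_sum, ← sum_add_distrib, ← sum_add_distrib]
    exact sum_congr rfl fun i _ => by ring
  have ha2 : a ^ 2 = |a| ^ 2 := (sq_abs a).symm
  have hA : ((∑ i, |x i|) + |a|) ^ 2 ≤ A ^ 2 :=
    pow_le_pow_left₀ (add_nonneg hx0 (abs_nonneg a)) h1 2
  have hAs : ((∑ i, |x i|) + |a|) * Real.sqrt γ ≤ A * Real.sqrt γ :=
    mul_le_mul_of_nonneg_right h1 (Real.sqrt_nonneg _)
  have hxa : 0 ≤ (∑ i, |x i|) * |a| := mul_nonneg hx0 (abs_nonneg a)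
  rw [e1]
  nlinarith

variable {ι : Type} [Fintype ι] [DecidableEq ι] {n : ι → ℕ} [∀ i, NeZero (n i)]

private theorem Step_e (P : Par) : P.e ≤ 1 / 1000 := by
  have h1 := P.e_le
  have hk : (1 : ℝ) ≤ (P.k : ℝ) := by
    have := P.hk
    exact_mod_cast (by omega : 1 ≤ P.k)
  have h2 : (1 : ℝ) ≤ (P.k : ℝ) ^ 8 := one_le_pow₀ hk
  refine h1.trans ?_
  rw [div_le_div_iff₀ (by positivity) (by norm_num)]
  nlinarith

private theorem Step_Dz (P : Par) {j : ℕ} (hj : j ≤ P.T) (a : Fin j → Gp n) : 0 ≤ P.Dz := by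
  have h1 := EQ_ka P hj a 0 (Nat.zero_le _) (∅ : Finset ι)
  rw [pow_zero, div_one] at h1
  refine le_trans (sum_nonneg fun s _ => ?_) h1
  exact mul_nonneg (ka_nonneg _ _ _ _) (QQ_nonneg _ _)

/-- The average of `QQ a` for the kernel of the next level. -/
private theorem Step_EQ (P : Par) (hodd : ∀ i, Odd (n i)) {j : ℕ} (hj : j < P.T)
    (a : Fin j → Gp n) (ξ : Gp n) (E' : Finset ι) :
    ∑ t, ka (nxt a ξ) (P.B ^ (4 * (j + 1))) E' t * QQ a t ≤ 4 * (P.Dz / P.B ^ (4 * (j + 1))) := by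
  have h1 := EQ_ka P (J := j + 1) hj (nxt a ξ) (4 * (j + 1)) (by omega) E'
  calc ∑ t, ka (nxt a ξ) (P.B ^ (4 * (j + 1))) E' t * QQ a t
      ≤ ∑ t, 4 * (ka (nxt a ξ) (P.B ^ (4 * (j + 1))) E' t * QQ (nxt a ξ) t) := by
        refine sum_le_sum fun t _ => ?_
        have h2 := (QQ_nxt hodd a ξ t).1
        have h3 := mul_le_mul_of_nonneg_left h2 (ka_nonneg (nxt a ξ) (P.B ^ (4 * (j + 1))) E' t)
        linarith
    _ = 4 * ∑ t, ka (nxt a ξ) (P.B ^ (4 * (j + 1))) E' t * QQ (nxt a ξ) t := by rw [mul_sum]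
    _ ≤ _ := by linarith

private theorem Step_mem {J : ℕ} {a : Fin J → Gp n} {lam : ℝ} {E : Finset ι} {s : Gp n}
    (h : ka a lam E s ≠ 0) : s ∈ (HS E : Finset (Gp n)) := by
  by_contra hs
  exact h (ka_of_not_mem a lam E hs)

private theorem Step_unit {E : Finset ι} {z s : Gp n} (hz : ∀ i ∈ E, z i ≠ 0)
    (hs : s ∈ (HS E : Finset (Gp n))) : ∀ i ∈ E, (z + s) i ≠ 0 := by
  intro i hi
  rw [Pi.add_apply, (mem_HS E s).1 hs i hi, add_zero]
  exact hz i hi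

private theorem Step_hone (P : Par) {sv : Finset ι} (hl : ∀ i ∈ sv, P.y0 ≤ (n i : ℝ))
    (hodd : ∀ i, Odd (n i)) {j : ℕ} (hj : j < P.T) {a : Fin j → Gp n} {E E' : Finset ι}
    (hclo : Clo (cw n sv) a P.L P.tau E) (hEE' : E ⊆ E') (ξ : Gp n) :
    ∑ t, ka (nxt a ξ) (P.B ^ (4 * (j + 1))) E' t *
      ∑ v, |ka a (P.B ^ (4 * j + 3)) E (v - t) - ka a (P.B ^ (4 * j + 3)) E v| ≤ P.e := by
  have hB : 0 < P.B := lt_of_lt_of_le one_pos P.hB
  have hD := Step_Dz P hj.le a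
  have hG := good_ka P hl hj.le hclo (4 * j + 3) (by omega)
  have hq : ∑ t, ka (nxt a ξ) (P.B ^ (4 * (j + 1))) E' t * (P.B ^ (4 * j + 3) * QQ a (-t)) ≤
      4 * P.Dz / P.B := by
    have h1 := Step_EQ P hodd hj a ξ E'
    calc ∑ t, ka (nxt a ξ) (P.B ^ (4 * (j + 1))) E' t * (P.B ^ (4 * j + 3) * QQ a (-t))
        = P.B ^ (4 * j + 3) * ∑ t, ka (nxt a ξ) (P.B ^ (4 * (j + 1))) E' t * QQ a t := by
          rw [mul_sum]
          exact sum_congr rfl fun t _ => by rw [QQ_neg]; ring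
      _ ≤ P.B ^ (4 * j + 3) * (4 * (P.Dz / P.B ^ (4 * (j + 1)))) :=
          mul_le_mul_of_nonneg_left h1 (by positivity)
      _ = 4 * P.Dz / P.B := by
          rw [show 4 * (j + 1) = 4 * j + 3 + 1 from by ring, pow_succ P.B (4 * j + 3)]
          field_simp
  have h2 := shift_av hG (by positivity) P.hrho.le P.rho_le_one
    (pf_one (n := n) (cw n sv) (fun i => (cw_bounds P hl i).1) E)
    (ka (nxt a ξ) (P.B ^ (4 * (j + 1))) E') (ka_nonneg _ _ _) (ka_sum _ _ _) (fun t => -t)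
    (fun t ht => neg_mem_HS (HS_mono hEE' (Step_mem ht))) (4 * P.Dz / P.B) hq
  rw [EH_const] at h2
  have h3 := shift_num P (4 * P.Dz / P.B) (by
    rw [div_le_div_iff_of_pos_right hB]; linarith) 1 (by norm_num) (by norm_num)
  refine le_trans (le_of_eq ?_) (h2.trans h3)
  refine sum_congr rfl fun t _ => ?_
  congr 1
  exact sum_congr rfl fun v _ => by rw [mul_one, sub_eq_add_neg v t]

private theorem Step_root (P : Par) {j : ℕ} (hj : j ≤ P.T) (a : Fin j → Gp n) (q : ℝ)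
    (hq : q ≤ 40 * P.Dz / P.B) : Real.sqrt q ≤ P.e := by
  have hB : 0 < P.B := lt_of_lt_of_le one_pos P.hB
  have hD := Step_Dz P hj a
  have h1 : Real.sqrt q ≤ Real.sqrt (40 * P.Dz / P.B + 4 * P.rho) :=
    Real.sqrt_le_sqrt (by linarith [P.hrho])
  have h2 := P.hq
  have h3 := Real.sqrt_nonneg (40 * P.Dz / P.B + 4 * P.rho)
  linarith

private theorem Step_htwo (P : Par) (hodd : ∀ i, Odd (n i)) {j : ℕ} (hj : j < P.T)
    (a : Fin j → Gp n) (ξ : Gp n) (E' : Finset ι) :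
    ∑ t, ka (nxt a ξ) (P.B ^ (4 * (j + 1))) E' t * ‖psi (ξ * t) - 1‖ ≤ P.e := by
  have hB : 0 < P.B := lt_of_lt_of_le one_pos P.hB
  have hD := Step_Dz P hj.le a
  have h1 := EQ_ka P (J := j + 1) hj (nxt a ξ) (4 * (j + 1)) (by omega) E'
  have h2 : ∑ t, ka (nxt a ξ) (P.B ^ (4 * (j + 1))) E' t * ‖psi (ξ * t) - 1‖ ^ 2 ≤
      2 * (P.Dz / P.B ^ (4 * (j + 1))) := by
    calc ∑ t, ka (nxt a ξ) (P.B ^ (4 * (j + 1))) E' t * ‖psi (ξ * t) - 1‖ ^ 2
        ≤ ∑ t, 2 * (ka (nxt a ξ) (P.B ^ (4 * (j + 1))) E' t * QQ (nxt a ξ) t) := by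
          refine sum_le_sum fun t _ => ?_
          rw [norm_psi_sub_sq]
          have h3 := (QQ_nxt hodd a ξ t).2.2
          have h4 := mul_le_mul_of_nonneg_left h3 (ka_nonneg (nxt a ξ) (P.B ^ (4 * (j + 1))) E' t)
          linarith
      _ = 2 * ∑ t, ka (nxt a ξ) (P.B ^ (4 * (j + 1))) E' t * QQ (nxt a ξ) t := by rw [mul_sum]
      _ ≤ _ := by linarith
  have h3 := Step_cs (ka (nxt a ξ) (P.B ^ (4 * (j + 1))) E') (fun t => ‖psi (ξ * t) - 1‖)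
    (ka_nonneg _ _ _) (ka_sum _ _ _) _ h2
  refine h3.trans (Step_root P hj.le a _ ?_)
  have h4 : P.B ≤ P.B ^ (4 * (j + 1)) := by
    calc P.B = P.B ^ 1 := (pow_one _).symm
      _ ≤ P.B ^ (4 * (j + 1)) := pow_le_pow_right₀ P.hB (by omega)
  have h5 : P.Dz / P.B ^ (4 * (j + 1)) ≤ P.Dz / P.B := div_le_div_of_nonneg_left hD hB h4
  have h6 : 0 ≤ P.Dz / P.B := by positivity
  calc 2 * (P.Dz / P.B ^ (4 * (j + 1))) ≤ 40 * (P.Dz / P.B) := by linarith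
    _ = 40 * P.Dz / P.B := by ring

private theorem Step_inv (P : Par) {j : ℕ} (hj : j < P.T) (a : Fin j → Gp n) (E : Finset ι) :
    ∑ v, ka a (P.B ^ (4 * j + 3)) E v * Real.sqrt (P.B ^ (4 * j + 2) * QQ a v) ≤ P.e := by
  have hB : 0 < P.B := lt_of_lt_of_le one_pos P.hB
  have hD := Step_Dz P hj.le a
  have h1 := EQ_ka P hj.le a (4 * j + 3) (by omega) E
  have h2 : ∑ v, ka a (P.B ^ (4 * j + 3)) E v * Real.sqrt (P.B ^ (4 * j + 2) * QQ a v) ^ 2 ≤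
      P.Dz / P.B := by
    calc ∑ v, ka a (P.B ^ (4 * j + 3)) E v * Real.sqrt (P.B ^ (4 * j + 2) * QQ a v) ^ 2
        = P.B ^ (4 * j + 2) * ∑ v, ka a (P.B ^ (4 * j + 3)) E v * QQ a v := by
          rw [mul_sum]
          refine sum_congr rfl fun v _ => ?_
          rw [Real.sq_sqrt (mul_nonneg (by positivity) (QQ_nonneg a v))]
          ring
      _ ≤ P.B ^ (4 * j + 2) * (P.Dz / P.B ^ (4 * j + 3)) :=
          mul_le_mul_of_nonneg_left h1 (by positivity)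
      _ = P.Dz / P.B := by
          rw [pow_succ P.B (4 * j + 2)]
          field_simp
  have h3 := Step_cs (ka a (P.B ^ (4 * j + 3)) E)
    (fun v => Real.sqrt (P.B ^ (4 * j + 2) * QQ a v)) (ka_nonneg _ _ _) (ka_sum _ _ _) _ h2
  refine h3.trans (Step_root P hj.le a _ ?_)
  have h6 : 0 ≤ P.Dz / P.B := by positivity
  calc P.Dz / P.B ≤ 40 * (P.Dz / P.B) := by linarith
    _ = 40 * P.Dz / P.B := by ring

private theorem Step_swap (x y w f : Gp n → ℝ) (z : Gp n) :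
    ∑ ω : Gp n × Gp n, x ω.1 * y ω.2 * av w f (z + ω.1 + ω.2) =
      ∑ ω : Gp n × Gp n, y ω.1 * w ω.2 * av x f (z + (ω.1 + ω.2)) := by
  rw [Fintype.sum_prod_type, Fintype.sum_prod_type]
  unfold av
  simp only [mul_sum]
  rw [sum_comm]
  refine sum_congr rfl fun v _ => ?_
  rw [sum_comm]
  refine sum_congr rfl fun t _ => sum_congr rfl fun u _ => ?_
  have : z + u + v + t = z + (v + t) + u := by abel
  rw [this]
  ring

/-- The `ℓ¹` distance of the averages around `z` for `κb` and for `κb * κc * κ'`. -/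
private theorem Step_near (P : Par) {sv : Finset ι} {F : Fin P.k → Gp n → ℝ} {D : Gp n → ℝ}
    (hS : Sys P sv F D) {j : ℕ} (hj : j < P.T) {a : Fin j → Gp n} {E : Finset ι} {z : Gp n}
    (hE : E ⊆ sv) (hcE : E.card ≤ P.T * (P.r * P.Kc)) (hcloE : Clo (cw n sv) a P.L P.tau E)
    (hz : ∀ i ∈ E, z i ≠ 0) (ξ : Gp n) {E' : Finset ι} (hEE' : E ⊆ E') :
    (∑ i, |∑ ω : Gp n × Gp n, ka a (P.B ^ (4 * j + 2)) E ω.1 * ka a (P.B ^ (4 * j + 3)) E ω.2 *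
        av (ka (nxt a ξ) (P.B ^ (4 * (j + 1))) E') (F i) (z + ω.1 + ω.2) -
        av (ka a (P.B ^ (4 * j + 2)) E) (F i) z|) +
      |∑ ω : Gp n × Gp n, ka a (P.B ^ (4 * j + 2)) E ω.1 * ka a (P.B ^ (4 * j + 3)) E ω.2 *
        av (ka (nxt a ξ) (P.B ^ (4 * (j + 1))) E') D (z + ω.1 + ω.2) -
        av (ka a (P.B ^ (4 * j + 2)) E) D z| ≤ P.e := by
  have hB : 0 < P.B := lt_of_lt_of_le one_pos P.hB
  have hDz := Step_Dz P hj.le a
  have hG := good_ka P hS.large hj.le hcloE (4 * j + 2) (by omega)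
  have hsv : ∀ i ∈ sv, (n i).Prime ∧ 8 ≤ n i := by
    intro i hi
    refine ⟨hS.prime i hi, ?_⟩
    have h1 := hS.large i hi
    have h2 := P.hy0
    have h3 : (8 : ℝ) ≤ (n i : ℝ) := by linarith
    exact_mod_cast h3
  have hD : ∀ x, 0 ≤ D x ∧ D x ≤ 1 := by
    intro x
    rcases hS.D_val x with h | h <;> rw [h] <;> constructor <;> norm_num
  set κb := ka a (P.B ^ (4 * j + 2)) E with hκb
  set κc := ka a (P.B ^ (4 * j + 3)) E with hκc
  set κ' := ka (nxt a ξ) (P.B ^ (4 * (j + 1))) E' with hκ'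
  have hb0 : ∀ u, 0 ≤ κb u := fun u => ka_nonneg _ _ _ _
  have hc0 : ∀ u, 0 ≤ κc u := fun u => ka_nonneg _ _ _ _
  have h0' : ∀ u, 0 ≤ κ' u := fun u => ka_nonneg _ _ _ _
  have hc1 : ∑ u, κc u = 1 := ka_sum _ _ _
  have h1' : ∑ u, κ' u = 1 := ka_sum _ _ _
  have hp0 : ∀ ω : Gp n × Gp n, 0 ≤ κc ω.1 * κ' ω.2 := fun ω => mul_nonneg (hc0 _) (h0' _)
  have hp1 : ∑ ω : Gp n × Gp n, κc ω.1 * κ' ω.2 = 1 := by
    rw [Fintype.sum_prod_type]
    simp only [← mul_sum]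
    rw [h1']
    simp only [mul_one]
    exact hc1
  have hq : ∑ ω : Gp n × Gp n, κc ω.1 * κ' ω.2 * (P.B ^ (4 * j + 2) * QQ a (ω.1 + ω.2)) ≤
      10 * P.Dz / P.B := by
    have g1 := EQ_ka P hj.le a (4 * j + 3) (by omega) E
    have g2 := Step_EQ P hS.odd hj a ξ E'
    rw [← hκc] at g1
    rw [← hκ'] at g2
    have g3 : ∑ ω : Gp n × Gp n, κc ω.1 * κ' ω.2 * (2 * QQ a ω.1 + 2 * QQ a ω.2) =
        2 * (∑ v, κc v * QQ a v) + 2 * ∑ t, κ' t * QQ a t := by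
      rw [Fintype.sum_prod_type]
      calc ∑ v, ∑ t, κc v * κ' t * (2 * QQ a v + 2 * QQ a t)
          = ∑ v, (2 * (κc v * QQ a v) * (∑ t, κ' t) + κc v * (2 * ∑ t, κ' t * QQ a t)) := by
            refine sum_congr rfl fun v _ => ?_
            rw [mul_sum, mul_sum, mul_sum, ← sum_add_distrib]
            exact sum_congr rfl fun t _ => by ring
        _ = (∑ v, 2 * (κc v * QQ a v)) + (∑ v, κc v) * (2 * ∑ t, κ' t * QQ a t) := by
            rw [sum_add_distrib, h1', sum_mul]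
            simp only [mul_one]
        _ = _ := by rw [hc1, one_mul, ← mul_sum]
    have hBp : 0 ≤ P.B ^ (4 * j + 2) := by positivity
    have g4 : ∑ ω : Gp n × Gp n, κc ω.1 * κ' ω.2 * (P.B ^ (4 * j + 2) * QQ a (ω.1 + ω.2)) ≤
        P.B ^ (4 * j + 2) * ∑ ω : Gp n × Gp n, κc ω.1 * κ' ω.2 * (2 * QQ a ω.1 + 2 * QQ a ω.2) := by
      rw [mul_sum]
      refine sum_le_sum fun ω _ => ?_
      have g5 := QQ_add_le a ω.1 ω.2
      have g6 := mul_le_mul_of_nonneg_left g5 (mul_nonneg hBp (hp0 ω))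
      calc κc ω.1 * κ' ω.2 * (P.B ^ (4 * j + 2) * QQ a (ω.1 + ω.2))
          = P.B ^ (4 * j + 2) * (κc ω.1 * κ' ω.2) * QQ a (ω.1 + ω.2) := by ring
        _ ≤ _ := g6
        _ = _ := by ring
    rw [g3] at g4
    refine g4.trans ?_
    have hQ3 : P.B ^ (4 * j + 3) = P.B ^ (4 * j + 2) * P.B := pow_succ P.B (4 * j + 2)
    have hQ4 : P.B ^ (4 * (j + 1)) = P.B ^ (4 * j + 2) * P.B * P.B := by
      rw [show 4 * (j + 1) = 4 * j + 2 + 1 + 1 from by ring, pow_succ, pow_succ]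
    have g7 : P.B ^ (4 * j + 2) * (P.Dz / P.B ^ (4 * j + 3)) = P.Dz / P.B := by
      rw [hQ3]
      field_simp
    have g8 : P.B ^ (4 * j + 2) * (P.Dz / P.B ^ (4 * (j + 1))) ≤ P.Dz / P.B := by
      rw [hQ4]
      have : P.B ^ (4 * j + 2) * (P.Dz / (P.B ^ (4 * j + 2) * P.B * P.B)) = P.Dz / P.B / P.B := by
        field_simp
      rw [this]
      exact div_le_self (by positivity) P.hB
    calc P.B ^ (4 * j + 2) * (2 * (∑ v, κc v * QQ a v) + 2 * ∑ t, κ' t * QQ a t)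
        ≤ P.B ^ (4 * j + 2) * (2 * (P.Dz / P.B ^ (4 * j + 3)) +
          2 * (4 * (P.Dz / P.B ^ (4 * (j + 1))))) := by
          refine mul_le_mul_of_nonneg_left ?_ hBp
          linarith
      _ = 2 * (P.B ^ (4 * j + 2) * (P.Dz / P.B ^ (4 * j + 3))) +
          8 * (P.B ^ (4 * j + 2) * (P.Dz / P.B ^ (4 * (j + 1)))) := by ring
      _ ≤ 2 * (P.Dz / P.B) + 8 * (P.Dz / P.B) := by
          rw [g7]
          linarith
      _ = 10 * P.Dz / P.B := by ring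
  have hsh := av_shift sv hsv hE hG (by positivity) P.hrho.le P.rho_le_one F D hS.F_nonneg
    (fun x => (hS.F_sum x).le) hD z hz (fun ω : Gp n × Gp n => κc ω.1 * κ' ω.2) hp0 hp1
    (fun ω => ω.1 + ω.2) (fun ω hω => add_mem_HS (Step_mem (left_ne_zero_of_mul hω))
      (HS_mono hEE' (Step_mem (right_ne_zero_of_mul hω)))) (10 * P.Dz / P.B) hq
  have hmE := mE_bounds P hS.large hE hcE
  have he := Step_e P
  have he0 := P.he
  have hnum := shift_num P (10 * P.Dz / P.B) (by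
    rw [div_le_div_iff_of_pos_right hB]; linarith) (mE n E + 1) (by nlinarith [hmE.2]) (by
      linarith [hmE.1])
  refine le_trans ?_ (hsh.trans hnum)
  have hf : ∀ f : Gp n → ℝ, |∑ ω : Gp n × Gp n, κb ω.1 * κc ω.2 * av κ' f (z + ω.1 + ω.2) -
      av κb f z| ≤ ∑ ω : Gp n × Gp n, κc ω.1 * κ' ω.2 * |av κb f (z + (ω.1 + ω.2)) - av κb f z| := by
    intro f
    rw [Step_swap]
    have g1 : ∑ ω : Gp n × Gp n, κc ω.1 * κ' ω.2 * av κb f (z + (ω.1 + ω.2)) - av κb f z =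
        ∑ ω : Gp n × Gp n, κc ω.1 * κ' ω.2 * (av κb f (z + (ω.1 + ω.2)) - av κb f z) := by
      simp only [mul_sub, sum_sub_distrib]
      rw [← sum_mul, hp1, one_mul]
    rw [g1]
    refine (abs_sum_le_sum_abs _ _).trans (sum_le_sum fun ω _ => ?_)
    rw [abs_mul, abs_of_nonneg (hp0 ω)]
  calc _ ≤ (∑ i, ∑ ω : Gp n × Gp n, κc ω.1 * κ' ω.2 *
          |av κb (F i) (z + (ω.1 + ω.2)) - av κb (F i) z|) +
        ∑ ω : Gp n × Gp n, κc ω.1 * κ' ω.2 * |av κb D (z + (ω.1 + ω.2)) - av κb D z| :=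
        add_le_add (sum_le_sum fun i _ => hf (F i)) (hf D)
    _ = _ := by
        rw [sum_comm, ← sum_add_distrib]
        refine sum_congr rfl fun ω _ => ?_
        rw [mul_add, mul_sum]

open Classical in
/-- The variance of the averages of `D` for the kernel of the next level. -/
private theorem Step_var (P : Par) {sv : Finset ι} {F : Fin P.k → Gp n → ℝ} {D : Gp n → ℝ}
    (hS : Sys P sv F D) {j : ℕ} (hj : j < P.T) {a : Fin j → Gp n} {E : Finset ι} {z0 z : Gp n}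
    (hC : Cfg P sv a E z0) (hz : ∀ i ∈ E, z i ≠ 0)
    (hno : ∀ (a' : Fin (j + 1) → Gp n) (E' : Finset ι) (z' : Gp n), Cfg P sv a' E' z' →
      PP F D (ka a' (P.B ^ (4 * (j + 1))) E') z' ≤ PP F D (ka a (P.B ^ (4 * j)) E) z0 + P.e)
    (ξ : Gp n) {E' : Finset ι} (hEE' : E ⊆ E') (hE' : E' ⊆ sv)
    (hclo : Clo (cw n sv) (nxt a ξ) P.L P.tau E')
    (hc : E'.card ≤ (j + 1) * (P.r * P.Kc)) (hs : ∀ i ∈ E', (n i : ℝ) ≤ 8 / P.tau)
    (hclose : (∑ i, (av (ka a (P.B ^ (4 * j + 2)) E) (F i) z -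
        av (ka a (P.B ^ (4 * j)) E) (F i) z0) ^ 2) +
        (av (ka a (P.B ^ (4 * j + 2)) E) D z -
          av (ka a (P.B ^ (4 * j)) E) D z0) ^ 2 ≤ 480 * P.e) :
    ∑ u, ∑ v, ka a (P.B ^ (4 * j + 2)) E u * ka a (P.B ^ (4 * j + 3)) E v *
      (av (ka (nxt a ξ) (P.B ^ (4 * (j + 1))) E') D (z + u + v) -
        av (ka a (P.B ^ (4 * j)) E) D z0) ^ 2 ≤
      36 * P.e + 16 * (Real.sqrt (480 * P.e) + P.e) := by
  have hcT : E.card ≤ P.T * (P.r * P.Kc) := hC.card.trans (Nat.mul_le_mul_right _ hj.le)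
  have hcT' : E'.card ≤ P.T * (P.r * P.Kc) := hc.trans (Nat.mul_le_mul_right _ hj)
  have hnear := Step_near P hS hj hC.sub hcT hC.clo hz ξ hEE'
  have hA : ∀ y : Gp n, _ := fun y => av_F_bounds P hS (J := j + 1) hj hE' hcT' hclo (4 * (j + 1))
    (by omega) y
  have hA0 := av_F_bounds P hS hj.le hC.sub hcT hC.clo (4 * j) (by omega) z0
  have hU : ∀ y : Gp n, (∀ i ∈ E, y i ≠ 0) → _ := fun y hy =>
    unit_ka P hS hj.le hEE' hE' hcT' hC.clo (4 * j + 2) (by omega) y hy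
  set κb := ka a (P.B ^ (4 * j + 2)) E with hκb
  set κc := ka a (P.B ^ (4 * j + 3)) E with hκc
  set κ' := ka (nxt a ξ) (P.B ^ (4 * (j + 1))) E' with hκ'
  set κ0 := ka a (P.B ^ (4 * j)) E with hκ0
  have he := Step_e P
  have he0 := P.he
  have hb0 : ∀ u, 0 ≤ κb u := fun u => ka_nonneg _ _ _ _
  have hc0 : ∀ u, 0 ≤ κc u := fun u => ka_nonneg _ _ _ _
  have hb1 : ∑ u, κb u = 1 := ka_sum _ _ _
  have hc1 : ∑ u, κc u = 1 := ka_sum _ _ _
  have hp0 : ∀ ω : Gp n × Gp n, 0 ≤ κb ω.1 * κc ω.2 := fun ω => mul_nonneg (hb0 _) (hc0 _)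
  have hp1 : ∑ ω : Gp n × Gp n, κb ω.1 * κc ω.2 = 1 := by
    rw [Fintype.sum_prod_type]
    simp only [← mul_sum]
    rw [hc1]
    simp only [mul_one]
    exact hb1
  have hsum0 : ∑ i, av κ0 (F i) z0 ^ 2 ≤ (1 + P.e) ^ 2 :=
    (sum_sq_le_sq_sum_of_nonneg fun i _ => hA0.1 i).trans
      (pow_le_pow_left₀ (sum_nonneg fun i _ => hA0.1 i) hA0.2.1 2)
  have hsum0' : 0 ≤ ∑ i, av κ0 (F i) z0 ^ 2 := sum_nonneg fun i _ => sq_nonneg _
  have hd0 := hA0.2.2.2.2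
  have key := incr (Ω := Gp n × Gp n) (fun ω => κb ω.1 * κc ω.2) hp0 hp1
    (fun ω i => av κ' (F i) (z + ω.1 + ω.2)) (fun ω => av κ' D (z + ω.1 + ω.2))
    (fun i => av κ0 (F i) z0) (av κ0 D z0) P.e (Real.sqrt (480 * P.e) + P.e) P.he.le
    (by positivity) (fun ω => if ∀ i ∈ E', (z + ω.1 + ω.2) i ≠ 0 then 0 else 1)
    (fun ω => by
      by_cases h : ∀ i ∈ E', (z + ω.1 + ω.2) i ≠ 0
      · left; simp only [if_pos h]
      · right; simp only [if_neg h]) ?_ ?_ ?_ ?_ ?_ ?_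
  · calc _ ≤ ∑ ω : Gp n × Gp n, κb ω.1 * κc ω.2 *
          ((∑ i, (av κ' (F i) (z + ω.1 + ω.2) - av κ0 (F i) z0) ^ 2) +
            (av κ' D (z + ω.1 + ω.2) - av κ0 D z0) ^ 2) := by
          rw [Fintype.sum_prod_type]
          refine sum_le_sum fun u _ => sum_le_sum fun v _ => ?_
          refine mul_le_mul_of_nonneg_left ?_ (hp0 (u, v))
          have : 0 ≤ ∑ i, (av κ' (F i) (z + u + v) - av κ0 (F i) z0) ^ 2 :=
            sum_nonneg fun i _ => sq_nonneg _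
          linarith
      _ ≤ _ := key
  · have h := Step_mink
      (fun i => ∑ ω : Gp n × Gp n, κb ω.1 * κc ω.2 * av κ' (F i) (z + ω.1 + ω.2) - av κb (F i) z)
      (fun i => av κb (F i) z - av κ0 (F i) z0)
      (∑ ω : Gp n × Gp n, κb ω.1 * κc ω.2 * av κ' D (z + ω.1 + ω.2) - av κb D z)
      (av κb D z - av κ0 D z0) P.e (480 * P.e) hnear hclose
    simpa only [sub_add_sub_cancel] using h
  · intro ω hb hp
    have hunit : ∀ i ∈ E', (z + ω.1 + ω.2) i ≠ 0 := by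
      by_contra h
      simp only [if_neg h] at hb
      exact one_ne_zero hb
    exact hno (nxt a ξ) E' (z + ω.1 + ω.2) ⟨hE', hclo, hc, hs, hunit⟩
  · intro ω hb
    have hunit : ¬ ∀ i ∈ E', (z + ω.1 + ω.2) i ≠ 0 := by
      intro h
      simp only [if_pos h] at hb
      exact zero_ne_one hb
    have h1 := (hA (z + ω.1 + ω.2)).2.2.2.1 hunit
    have h2 := (sum_eq_zero_iff_of_nonneg fun i _ => (hA (z + ω.1 + ω.2)).1 i).1 h1
    have h3 : ∑ i, av κ' (F i) (z + ω.1 + ω.2) ^ 2 = 0 :=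
      sum_eq_zero fun i _ => by rw [h2 i (mem_univ i)]; ring
    have h4 := (hA (z + ω.1 + ω.2)).2.2.2.2
    unfold Pot
    rw [h3]
    nlinarith [h4.1, h4.2]
  · calc ∑ ω : Gp n × Gp n, κb ω.1 * κc ω.2 *
          (if ∀ i ∈ E', (z + ω.1 + ω.2) i ≠ 0 then (0 : ℝ) else 1)
        = ∑ v, κc v * ∑ u, κb u * (if ∀ i ∈ E', (z + v + u) i ≠ 0 then (0 : ℝ) else 1) := by
          rw [Fintype.sum_prod_type, sum_comm]
          refine sum_congr rfl fun v _ => ?_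
          rw [mul_sum]
          refine sum_congr rfl fun u _ => ?_
          rw [add_right_comm z v u]
          ring
      _ ≤ ∑ v, κc v * P.e := by
          refine sum_le_sum fun v _ => ?_
          by_cases hv : κc v = 0
          · rw [hv]; simp
          · exact mul_le_mul_of_nonneg_left (hU (z + v) (Step_unit hz (Step_mem hv))) (hc0 v)
      _ = P.e := by rw [← sum_mul, hc1, one_mul]
  · have h1 : av κ0 D z0 ^ 2 ≤ 1 := by nlinarith [hd0.1, hd0.2]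
    nlinarith
  · unfold Pot
    have : 0 ≤ av κ0 D z0 := hd0.1
    positivity

private theorem Step_num (P : Par) (N A V : ℝ) (h1 : 1 / (2000 * (P.k : ℝ) ^ 4) ≤ N)
    (h2 : N - 2 * P.e ≤ A) (h3 : A ≤ V + 4 * P.e + 4 * P.e ^ 2)
    (h4 : V ≤ 36 * P.e + 16 * (Real.sqrt (480 * P.e) + P.e)) : False := by
  have he := Step_e P
  have he0 := P.he
  have hk : (1 : ℝ) ≤ (P.k : ℝ) := by
    have := P.hk
    exact_mod_cast (by omega : 1 ≤ P.k)
  have hk4 : (0 : ℝ) < (P.k : ℝ) ^ 4 := by positivity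
  have hk1 : (1 : ℝ) ≤ (P.k : ℝ) ^ 4 := one_le_pow₀ hk
  have hs := P.he'
  set t := Real.sqrt P.e with ht
  have ht0 : 0 ≤ t := Real.sqrt_nonneg _
  have htt : P.e = t ^ 2 := (Real.sq_sqrt he0.le).symm
  have hx : 0 < 1 / (P.k : ℝ) ^ 4 := by positivity
  have h5 : 1 / (10 ^ 7 * (P.k : ℝ) ^ 4) = (1 / 10 ^ 7) * (1 / (P.k : ℝ) ^ 4) := by field_simp
  have h6 : 1 / (2000 * (P.k : ℝ) ^ 4) = (1 / 2000) * (1 / (P.k : ℝ) ^ 4) := by field_simp
  rw [h5] at hs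
  rw [h6] at h1
  have hx1 : 1 / (P.k : ℝ) ^ 4 ≤ 1 := by
    rw [div_le_one hk4]
    exact hk1
  have h7 : Real.sqrt (480 * P.e) ≤ 22 * t := by
    apply Real.sqrt_le_iff.2
    refine ⟨by positivity, ?_⟩
    rw [htt]
    nlinarith [sq_nonneg t]
  have ht1 : t ≤ 1 / 10 ^ 7 := by
    calc t ≤ (1 / 10 ^ 7) * (1 / (P.k : ℝ) ^ 4) := hs
      _ ≤ (1 / 10 ^ 7) * 1 := mul_le_mul_of_nonneg_left hx1 (by norm_num)
      _ = 1 / 10 ^ 7 := mul_one _
  have h8 : P.e ≤ t := by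
    rw [htt]
    nlinarith
  have h9 : P.e ^ 2 ≤ t := by nlinarith
  nlinarith

/-- Suppose not: every configuration of level `j + 1` has potential `< PP0 + e`. Let `E₁` be given by
`next_clo` with `ξ = 0`; `flat` and `typ_cfg` give `s`; put `z = z0 + s`, a base point not vanishing on
`E` (`s ∈ HS E`), `mu0 i = av κ0 (F i) z0`, `d0 = av κ0 D z0 ≥ 1/4` (as `PP0 ≥ 1/2` and
`∑ mu0 ^ 2 + d0 ^ 2 ≤ (1+e) ^ 2 + 1 ≤ 3`). `big_N` gives `N ≥ 1/(2000 k ^ 4)`; `inverse_step` (with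
`lb = B ^ (4j+2)`, `lc = B ^ (4j+3)`, `∑ κc √(lb Q) ≤ √(Dz / B) ≤ e`) gives `ξ`; `next_clo` for this `ξ` gives
`E'`; `κ' = ka (nxt a ξ) (B ^ (4j+4)) E'`. `child_var`: the variance
`∑ u v, κb κc (av κ' D (z+u+v) - d0) ^ 2 ≥ 1/(2000 k ^ 4) - 2 e - 4 e - 4 e ^ 2 ≥ 1/(2500 k ^ 4)`
(hypotheses: `shift_av` for `κc` with `Φ = 1`, shifts `- t`, `p = κ'`; `‖psi - 1‖ ≤ √(2 QQ)`, `EQ_ka`).
On the other hand `incr` with `Ω = Gp n × Gp n`, `p (u, v) = κb u κc v`, `mu = av κ' (F i) (z + u + v)`,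
`d = av κ' D (z + u + v)`, `bad` = vanishing somewhere on `E'` (`unit_ka` for `κb` at the base points
`z + v`), `e2 = √(480 e) + e`: `∑ κb κc av κ' f (z + u + v) = ∑_{v, t} κc κ' av κb f (z + v + t)` differs from
`av κb f z` by at most `e` in `ℓ¹` (`av_shift` for `κb` with shifts `v + t`,
`QQ a (v + t) ≤ 2 QQ a v + 2 QQ a t`), and `|V^b(z) - V0| ≤ √(480 e)`; the conclusion
`Var ≤ 36 e + 16 e2 ≤ 352 √e + 52 e` contradicts `P.he'`. -/
theorem step (P : Par) {sv : Finset ι} {F : Fin P.k → Gp n → ℝ} {D : Gp n → ℝ}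
    (hS : Sys P sv F D) {j : ℕ} (hj : j < P.T) (a : Fin j → Gp n) (E : Finset ι) (z0 : Gp n)
    (hC : Cfg P sv a E z0) (h12 : 1 / 2 ≤ PP F D (ka a (P.B ^ (4 * j)) E) z0) :
    ∃ (a' : Fin (j + 1) → Gp n) (E' : Finset ι) (z' : Gp n), Cfg P sv a' E' z' ∧
      PP F D (ka a (P.B ^ (4 * j)) E) z0 + P.e ≤
        PP F D (ka a' (P.B ^ (4 * (j + 1))) E') z' := by
  by_contra hcon
  have hno : ∀ (a' : Fin (j + 1) → Gp n) (E' : Finset ι) (z' : Gp n), Cfg P sv a' E' z' →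
      PP F D (ka a' (P.B ^ (4 * (j + 1))) E') z' ≤ PP F D (ka a (P.B ^ (4 * j)) E) z0 + P.e := by
    intro a' E' z' hC'
    by_contra hlt
    exact hcon ⟨a', E', z', hC', (not_le.1 hlt).le⟩
  have he := Step_e P
  have he0 := P.he
  have hB : 0 < P.B := lt_of_lt_of_le one_pos P.hB
  obtain ⟨E₁, hEE1, hE1, hclo1, hc1, hs1⟩ := next_clo P hS.large hj a E hC.sub hC.card hC.size 0
  have hflat := flat P hS hj hC hno 0 hEE1 hE1 hclo1 hc1 hs1
  obtain ⟨s, hs0, hs⟩ := typ_cfg P hS hj hC 0 hEE1 hE1 hclo1 hc1 hflat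
  have hz : ∀ i ∈ E, (z0 + s) i ≠ 0 := Step_unit hC.unit (Step_mem hs0)
  have hCz : Cfg P sv a E (z0 + s) := ⟨hC.sub, hC.clo, hC.card, hC.size, hz⟩
  have hcT : E.card ≤ P.T * (P.r * P.Kc) := hC.card.trans (Nat.mul_le_mul_right _ hj.le)
  have hA0 := av_F_bounds P hS hj.le hC.sub hcT hC.clo (4 * j) (by omega) z0
  obtain ⟨hm0, hm1, hm2, -, hd0, hd1⟩ := hA0
  have hm2' := hm2 hC.unit
  have hD : ∀ x, 0 ≤ D x ∧ D x ≤ 1 := by
    intro x
    rcases hS.D_val x with h | h <;> rw [h] <;> constructor <;> norm_num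
  have hT1 : 0 ≤ ∑ t, ka a (P.B ^ (4 * j + 1)) E t * ∑ i, (av2 (ka a (P.B ^ (4 * j + 2)) E) (F i)
        (z0 + s + t) - av (ka a (P.B ^ (4 * j)) E) (F i) z0) ^ 2 :=
    sum_nonneg fun t _ => mul_nonneg (ka_nonneg _ _ _ _) (sum_nonneg fun i _ => sq_nonneg _)
  have hT2 : 0 ≤ ∑ t, ka a (P.B ^ (4 * j + 1)) E t * ∑ i, (av2 (ka a (P.B ^ (4 * j + 3)) E) (F i)
        (z0 + s - t) - av (ka a (P.B ^ (4 * j)) E) (F i) z0) ^ 2 :=
    sum_nonneg fun t _ => mul_nonneg (ka_nonneg _ _ _ _) (sum_nonneg fun i _ => sq_nonneg _)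
  have hT3 : 0 ≤ (∑ i, (av (ka a (P.B ^ (4 * j + 2)) E) (F i) (z0 + s) -
        av (ka a (P.B ^ (4 * j)) E) (F i) z0) ^ 2) +
        (av (ka a (P.B ^ (4 * j + 2)) E) D (z0 + s) -
          av (ka a (P.B ^ (4 * j)) E) D z0) ^ 2 :=
    add_nonneg (sum_nonneg fun i _ => sq_nonneg _) (sq_nonneg _)
  have hsum0 : ∑ i, av (ka a (P.B ^ (4 * j)) E) (F i) z0 ^ 2 ≤ (1 + P.e) ^ 2 :=
    (sum_sq_le_sq_sum_of_nonneg fun i _ => hm0 i).trans
      (pow_le_pow_left₀ (sum_nonneg fun i _ => hm0 i) hm1 2)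
  have hd14 : 1 / 4 ≤ av (ka a (P.B ^ (4 * j)) E) D z0 := by
    unfold PP Pot at h12
    nlinarith
  have hN := big_N P hS hj hCz (fun i => av (ka a (P.B ^ (4 * j)) E) (F i) z0) hm0 hm2' hm1
    (av (ka a (P.B ^ (4 * j)) E) D z0) hd14 hd1 (by linarith) (by linarith)
  obtain ⟨ξ, hξ⟩ := inverse_step a (P.B ^ (4 * j + 2)) (P.B ^ (4 * j + 3)) (by positivity) E
    (fun x => D x - av (ka a (P.B ^ (4 * j)) E) D z0) (fun x => by
      rw [abs_le]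
      constructor <;> linarith [(hD x).1, (hD x).2]) (z0 + s) P.e (Step_inv P hj a E)
  obtain ⟨E', hEE', hE', hclo', hc', hs'⟩ :=
    next_clo P hS.large hj a E hC.sub hC.card hC.size ξ
  have hch := child_var a (nxt a ξ) (P.B ^ (4 * j + 2)) (P.B ^ (4 * j + 3))
    (P.B ^ (4 * (j + 1))) E E' D hD (av (ka a (P.B ^ (4 * j)) E) D z0) ⟨hd0, hd1⟩ (z0 + s) ξ P.e
    he0.le (Step_hone P hS.large hS.odd hj hC.clo hEE' ξ) (Step_htwo P hS.odd hj a ξ E')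
  have hvar := Step_var P hS hj hC hz hno ξ hEE' hE' hclo' hc' hs' (by linarith)
  exact Step_num P _ _ _ hN hξ hch hvar

end Pool.Agent.Lib.MP_629a14_nt.Ml
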