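import Pool.Agent.Lib.MP_629a14_nt.Ml.TModel
import Pool.Agent.Lib.MP_629a14_nt.Ml.LTwo
import Pool.Agent.Lib.MP_629a14_nt.Ml.TRes
import Pool.Agent.Lib.MP_629a14_nt.Ml.TSup

/-! Most elements of the product group are midpoints of many monochromatic pairs of primes. -/

set_option autoImplicit false

namespace Pool.Agent.Lib.MP_629a14_nt.Ml

open Finset

private theorem TCore_nuS_one {ι : Type} [Fintype ι] [DecidableEq ι] {n : ι → ℕ}
    [∀ i, NeZero (n i)] (sv : Finset ι) (hsv : ∀ i ∈ sv, (n i).Prime) (g : Gp n)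
    (hg : ∀ i ∈ sv, g i ≠ 0) : 1 ≤ nuS sv g := by
  unfold nuS
  refine le_trans (le_of_eq (prod_const_one (s := sv)).symm) ?_
  refine prod_le_prod (fun _ _ => zero_le_one) fun i hi => ?_
  rw [if_neg (hg i hi)]
  have h2 : (2 : ℝ) ≤ (n i : ℝ) := by exact_mod_cast (hsv i hi).two_le
  have h3 : (0 : ℝ) < (n i : ℝ) - 1 := by linarith
  rw [le_div_iff₀ h3]
  linarith

open Classical in
private theorem TCore_count {α : Type} [Fintype α] (U V : α → ℝ) (c0 η : ℝ) (hc0 : 0 < c0)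
    (hη : η = c0 ^ 2 / 512) (hcard : 0 < (Fintype.card α : ℝ))
    (h1 : ((univ.filter (fun m : α => V m ≤ c0)).card : ℝ) < (Fintype.card α : ℝ) / 2)
    (h2 : (∑ m, (U m - V m) ^ 2) / (Fintype.card α : ℝ) ≤ η) :
    (3 / 8) * (Fintype.card α : ℝ) ≤ ((univ.filter (fun m : α => c0 / 2 ≤ U m)).card : ℝ) := by
  set B := univ.filter (fun m : α => c0 / 2 < |U m - V m|) with hB
  have hBc : (B.card : ℝ) ≤ (Fintype.card α : ℝ) / 8 := by
    rw [div_le_iff₀ hcard] at h2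
    have h3 : (B.card : ℝ) * (c0 / 2) ^ 2 ≤ ∑ m, (U m - V m) ^ 2 := by
      rw [← nsmul_eq_mul]
      refine (card_nsmul_le_sum B (fun m => (U m - V m) ^ 2) _ ?_).trans ?_
      · intro m hm
        have h4 := (mem_filter.1 hm).2
        have h5 := pow_le_pow_left₀ (by positivity) h4.le 2
        rwa [sq_abs] at h5
      · exact sum_le_sum_of_subset_of_nonneg (subset_univ _) fun m _ _ => sq_nonneg _
    have h4 : (B.card : ℝ) * (c0 / 2) ^ 2 ≤ c0 ^ 2 / 512 * (Fintype.card α : ℝ) := by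
      rw [← hη]
      exact h3.trans h2
    have h5 : (B.card : ℝ) * c0 ^ 2 ≤ (Fintype.card α : ℝ) / 128 * c0 ^ 2 := by
      nlinarith
    have h6 := le_of_mul_le_mul_right h5 (by positivity)
    linarith
  have hcov : (univ : Finset α) ⊆ (univ.filter (fun m : α => c0 / 2 ≤ U m)) ∪
      ((univ.filter (fun m : α => V m ≤ c0)) ∪ B) := by
    intro m _
    rw [mem_union, mem_union]
    by_cases ha : c0 / 2 ≤ U m
    · exact Or.inl (mem_filter.2 ⟨mem_univ _, ha⟩)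
    · right
      by_cases hb : V m ≤ c0
      · exact Or.inl (mem_filter.2 ⟨mem_univ _, hb⟩)
      · right
        refine mem_filter.2 ⟨mem_univ _, ?_⟩
        rw [abs_sub_comm]
        refine lt_of_lt_of_le ?_ (le_abs_self _)
        push Not at ha hb
        linarith
  have h7 := (card_le_card hcov).trans (card_union_le _ _)
  have h8 := card_union_le (univ.filter (fun m : α => V m ≤ c0)) B
  have h9 : (Fintype.card α : ℝ) ≤ ((univ.filter (fun m : α => c0 / 2 ≤ U m)).card : ℝ) +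
      (((univ.filter (fun m : α => V m ≤ c0)).card : ℝ) + (B.card : ℝ)) := by
    rw [card_univ] at h7
    exact_mod_cast h7.trans (Nat.add_le_add_left h8 _)
  linarith

open Classical in
private theorem TCore_aux (k : ℕ) (hk : 2 ≤ k) (v : ℕ) (hv : v = k ^ 600) (hv8 : 8 ≤ v) :
    ∃ c1 : ℝ, 0 < c1 ∧ ∃ w N₀ : ℕ, v ≤ w ∧
    ∀ (M : ℕ) [NeZero M], M.Coprime (primorial w) → N₀ ≤ XX w M →
    ∀ r : ℕ, r.Coprime (primorial v) → ∀ χ : ℕ → Fin k,
    (3 / 8) * (Fintype.card (Gp (mo v w M)) : ℝ) ≤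
      ((univ.filter (fun m : Gp (mo v w M) => c1 ≤
        ∑ i, cvm (push v w M r (uc v (XX w M) χ i))
          (push v w M r (uc v (XX w M) χ i)) m)).card : ℝ) := by
  obtain ⟨c0, hc0, hmodel⟩ := t_model k hk
  obtain ⟨C, N₁, hC, hyp⟩ := t_hyp
  obtain ⟨φ, hφ⟩ : ∃ φ : ℝ, φ = ((primorial v).totient : ℝ) := ⟨_, rfl⟩
  have hφ1 : 1 ≤ φ := by
    rw [hφ]
    have h1 : 0 < (primorial v).totient := Nat.totient_pos.2 (primorial_pos v)
    exact_mod_cast h1
  have hK : 1 ≤ C * φ := by nlinarith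
  obtain ⟨J, lam, hlam, hl2⟩ := l_two k (C * φ) (c0 ^ 2 / 512) hK (by positivity)
  obtain ⟨Zm, hZm⟩ : ∃ Zm : ℝ, Zm = (1 / (⌈Real.sqrt lam⌉₊ : ℝ)) ^ J *
    Real.exp (-(20 * (J : ℝ))) := ⟨_, rfl⟩
  have hZm0 : 0 < Zm := by
    rw [hZm]
    have h1 : 0 < ⌈Real.sqrt lam⌉₊ := Nat.ceil_pos.2 (Real.sqrt_pos.2 (by linarith))
    have h2 : (0 : ℝ) < (⌈Real.sqrt lam⌉₊ : ℝ) := by exact_mod_cast h1
    positivity
  obtain ⟨w1, hw1v, hw1⟩ : ∃ w1 : ℕ, v ≤ w1 ∧ 8 / (w1 : ℝ) < 1 / 8 * Zm := by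
    refine ⟨v + (⌊64 / Zm⌋₊ + 1), by omega, ?_⟩
    have h1 := Nat.lt_floor_add_one (64 / Zm)
    have h2 : 64 / Zm < ((v + (⌊64 / Zm⌋₊ + 1) : ℕ) : ℝ) := by
      push_cast
      have : (0 : ℝ) ≤ v := Nat.cast_nonneg v
      linarith
    have h3 : (0 : ℝ) < ((v + (⌊64 / Zm⌋₊ + 1) : ℕ) : ℝ) := lt_trans (by positivity) h2
    rw [div_lt_iff₀ hZm0] at h2
    rw [div_lt_iff₀ h3]
    linarith
  obtain ⟨w, hw1w, hw⟩ : ∃ w : ℕ, w1 ≤ w ∧ 3 * φ / (w : ℝ) * (primorial w1 / Zm) ≤ 1 / 8 := by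
    refine ⟨w1 + (⌊24 * φ * (primorial w1 / Zm)⌋₊ + 1), by omega, ?_⟩
    have h1 := Nat.lt_floor_add_one (24 * φ * (primorial w1 / Zm))
    have h2 : 24 * φ * (primorial w1 / Zm) <
        ((w1 + (⌊24 * φ * (primorial w1 / Zm)⌋₊ + 1) : ℕ) : ℝ) := by
      push_cast
      have : (0 : ℝ) ≤ w1 := Nat.cast_nonneg w1
      linarith
    have h3 : (0 : ℝ) < ((w1 + (⌊24 * φ * (primorial w1 / Zm)⌋₊ + 1) : ℕ) : ℝ) :=
      lt_of_le_of_lt (by positivity) h2
    rw [div_mul_eq_mul_div, div_le_iff₀ h3]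
    linarith
  have hvw : v ≤ w := hw1v.trans hw1w
  obtain ⟨N₂, hsup⟩ := t_sup v w (by omega) hvw
  refine ⟨c0 / 2, by positivity, w, max N₁ N₂, hvw, ?_⟩
  intro M _ hM hN r hr χ
  have hN1 : N₁ ≤ XX w M := (le_max_left _ _).trans hN
  have hN2 : N₂ ≤ XX w M := (le_max_right _ _).trans hN
  set X := XX w M with hX
  set A : Fin k → Gp (mo v w M) → ℝ := fun i => push v w M r (uc v X χ i) with hA
  have hv2 : 2 ≤ v := by omega
  have hodd : ∀ i, Odd (mo v w M i) := fun i => mo_odd v w M hv2 (by omega) hM i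
  have hAhyp : ∀ i, ∀ R : Finset (Gp (mo v w M)), ∑ b ∈ R, ‖ft (A i) b‖ ^ 2 ≤
      (C * φ) ^ 2 * (R.card : ℝ) ^ (1 / 3 : ℝ) := by
    intro i R
    have h1 := hyp v w M r hvw hM hN1 k χ i R
    rw [← hφ] at h1
    exact h1
  obtain ⟨a, ha⟩ := hl2 (Ix v w) (mo v w M) hodd A hAhyp
  set E := svE v w w1 with hE
  have hdiff := ha E
  have hZ : Zm ≤ ZZ a lam E := by
    rw [hZm]
    exact ZZ_lower a lam hlam E
  have hG : GoodK (cw (mo v w M) (svE v w w)) a lam E (1 / 8) := by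
    refine t_good v w w1 M hv8 hw1v hw1w a lam (1 / 8) (by linarith) ?_
    refine lt_of_lt_of_le hw1 ?_
    exact mul_le_mul_of_nonneg_left hZ (by norm_num)
  have hΛ : ∀ b, ‖ft (fun g => (fun x => ∑ i, A i x) g - nuS (svE v w w) g) b‖ ≤
      3 * φ / (w : ℝ) := by
    intro b
    have h1 := hsup M hM hN2 r hr b
    rw [← hφ] at h1
    have h2 : (fun g => (fun x => ∑ i, A i x) g - nuS (svE v w w) g) =
        (fun g => push v w M r (ua v (XX w M)) g - nuS (svE v w w) g) := by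
      funext g
      have h3 := sum_push_uc v w M r χ g
      simp only [hA, hX]
      rw [h3]
    rw [h2]
    exact h1
  have hprime : ∀ i ∈ E, (mo v w M i).Prime := by
    obtain ⟨hsub, hpr, _, _⟩ := svE_facts v w w1 M hw1w
    exact fun i hi => (hpr i (hsub hi)).1
  have hu0 : ∀ i x, 0 ≤ uc v X χ i x := by
    intro i x
    unfold uc
    split_ifs
    · have h1 : 0 ≤ den v := by
        unfold den
        positivity
      exact mul_nonneg h1 (Real.log_natCast_nonneg X)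
    · exact le_rfl
  have hA0 : ∀ i g, 0 ≤ A i g := fun i g => push_nonneg v w M r (hu0 i) g
  have hlow : ∀ g : Gp (mo v w M), (∀ i ∈ E, g i ≠ 0) →
      nuS E g ≤ 2 * av (ka a lam E) (fun x => ∑ i, A i x) g := by
    intro g hg
    have h1 := t_point v w w1 M hv8 hw1v hw1w a lam (1 / 8) (3 * φ / (w : ℝ)) (by linarith)
      (by positivity) hG (fun x => ∑ i, A i x) hΛ g hg
    have h2 : 3 * φ / (w : ℝ) * (primorial w1 / ZZ a lam E) ≤ 1 / 8 := by
      refine le_trans ?_ hw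
      refine mul_le_mul_of_nonneg_left ?_ (by positivity)
      exact div_le_div_of_nonneg_left (by positivity) hZm0 hZ
    have h3 := TCore_nuS_one E hprime g hg
    have h4 := (abs_le.1 h1).1
    linarith
  have hmod := hmodel v w w1 M hv hw1v hw1w hM J a lam A hA0 hlow
  refine TCore_count (fun m => ∑ i, cvm (A i) (A i) m)
    (fun m => ∑ i, cvm (av (ka a lam E) (A i)) (av (ka a lam E) (A i)) m) c0 (c0 ^ 2 / 512)
    hc0 rfl (by exact_mod_cast Fintype.card_pos) hmod ?_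
  refine le_trans (le_of_eq ?_) hdiff
  congr 1
  refine sum_congr rfl fun m _ => ?_
  rw [← sum_sub_distrib]

open Classical in
/-- Let `v = k ^ 600`, `c0` from `t_model`, `C` from `t_hyp`, `K = C φ(primorial v)`,
`η = c0 ^ 2 / 512`, `J, lam` from `l_two`, `Zm = (1 / ⌈√lam⌉₊) ^ J exp (- 20 J)` (a lower bound for all
`ZZ`, `ZZ_lower`), `w1 ≥ v` with `8 / w1 < (1/8) Zm`, and `w ≥ w1` with
`(3 φ(primorial v) / w) * primorial w1 / Zm ≤ 1/8`. For `X` large: `A i = push (uc χ i)`,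
`Λ = ∑ i, A i = push ua` (`sum_push_uc`), `a` from `l_two` (`t_hyp`), `κ = ka a lam (svE v w w1)`.
`t_good` with `rho = 1/8`, `t_sup`, `t_point`: `|av κ Λ g - nuS g| ≤ nuS g / 8 + 1/8 ≤ nuS g / 2` when
`g` does not vanish on `E` (`nuS g ≥ 1` then). By `t_model` at least half of the `m` have
`∑ i, cvm G_i G_i m > c0`, `G_i = av κ (A i)`. By `l_two` and Chebyshev's inequality all but
`card * η / (c0 / 2) ^ 2 ≤ card / 8` of the `m` have `|∑ i, (cvm A_i A_i - cvm G_i G_i)| ≤ c0 / 2`. Take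
`c1 = c0 / 2`. -/
theorem t_core (k : ℕ) (hk : 2 ≤ k) : ∃ c1 : ℝ, 0 < c1 ∧ ∃ w N₀ : ℕ, k ^ 600 ≤ w ∧
    ∀ (M : ℕ) [NeZero M], M.Coprime (primorial w) → N₀ ≤ XX w M →
    ∀ r : ℕ, r.Coprime (primorial (k ^ 600)) → ∀ χ : ℕ → Fin k,
    (3 / 8) * (Fintype.card (Gp (mo (k ^ 600) w M)) : ℝ) ≤
      ((univ.filter (fun m : Gp (mo (k ^ 600) w M) => c1 ≤
        ∑ i, cvm (push (k ^ 600) w M r (uc (k ^ 600) (XX w M) χ i))
          (push (k ^ 600) w M r (uc (k ^ 600) (XX w M) χ i)) m)).card : ℝ) := by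
  refine TCore_aux k hk (k ^ 600) rfl ?_
  calc 8 = 2 ^ 3 := by norm_num
    _ ≤ k ^ 3 := Nat.pow_le_pow_left hk 3
    _ ≤ k ^ 600 := Nat.pow_le_pow_right (by omega) (by norm_num)

end Pool.Agent.Lib.MP_629a14_nt.Ml
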