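import Pool.Agent.Lib.MP_629a14_nt.Ml.TDefs

/-! Chinese remainder theorem. -/

set_option autoImplicit false

namespace Pool.Agent.Lib.MP_629a14_nt.Ml

open Finset

theorem primorial_split (v w : ℕ) (hvw : v ≤ w) :
    primorial w = primorial v * ∏ p ∈ PR v w, p := by
  unfold primorial PR
  rw [← prod_union]
  · refine prod_congr ?_ fun _ _ => rfl
    ext p
    simp only [mem_union, mem_filter, mem_range, mem_Ioc]
    constructor
    · rintro ⟨h1, h2⟩
      by_cases h : p < v + 1
      · exact Or.inl ⟨h, h2⟩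
      · exact Or.inr ⟨⟨by omega, by omega⟩, h2⟩
    · rintro (⟨h1, h2⟩ | ⟨⟨h1, h3⟩, h2⟩)
      · exact ⟨by omega, h2⟩
      · exact ⟨by omega, h2⟩
  · rw [disjoint_left]
    intro p h1 h2
    rw [mem_filter, mem_range] at h1
    rw [mem_filter, mem_Ioc] at h2
    omega

theorem card_Gp_mul (v w M : ℕ) [NeZero M] (hvw : v ≤ w) :
    Fintype.card (Gp (mo v w M)) * primorial v = XX w M := by
  have h1 : Fintype.card (Gp (mo v w M)) = M * ∏ p ∈ PR v w, p := by
    rw [Fintype.card_pi, Fintype.prod_option]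
    congr 1
    · exact ZMod.card M
    · rw [← prod_coe_sort (PR v w) (fun p => p)]
      refine prod_congr rfl fun p _ => ?_
      exact ZMod.card (mo v w M (some p))
  rw [h1]
  unfold XX
  rw [primorial_split v w hvw]
  ring

/-- The difference of two integers with the same residues. -/
private theorem TCrt_dvd (v w M : ℕ) [NeZero M] (hM : M.Coprime (primorial w)) {x y : ℕ}
    (hxy : x ≤ y) (h1 : x ≡ y [MOD primorial v]) (h2 : red v w M x = red v w M y) :
    XX w M ∣ y - x := by
  have hMd : M ∣ y - x := by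
    have h3 := congrFun h2 none
    have h4 : ((x : ℕ) : ZMod M) = ((y : ℕ) : ZMod M) := h3
    rw [ZMod.natCast_eq_natCast_iff] at h4
    exact (Nat.modEq_iff_dvd' hxy).1 h4
  have hwd : primorial w ∣ y - x := by
    unfold primorial
    apply Finset.prod_primes_dvd
    · intro p hp
      rw [mem_filter] at hp
      exact hp.2.prime
    · intro p hp
      rw [mem_filter, mem_range] at hp
      by_cases hpv : p < v + 1
      · have h3 : p ∣ primorial v := by
          unfold primorial
          exact dvd_prod_of_mem _ (by rw [mem_filter, mem_range]; exact ⟨hpv, hp.2⟩)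
        exact h3.trans ((Nat.modEq_iff_dvd' hxy).1 h1)
      · have hmem : p ∈ PR v w := by
          unfold PR
          rw [mem_filter, mem_Ioc]
          exact ⟨⟨by omega, by omega⟩, hp.2⟩
        have h3 := congrFun h2 (some ⟨p, hmem⟩)
        have h4 : ((x : ℕ) : ZMod p) = ((y : ℕ) : ZMod p) := h3
        rw [ZMod.natCast_eq_natCast_iff] at h4
        exact (Nat.modEq_iff_dvd' hxy).1 h4
  exact (hM.symm).mul_dvd_of_dvd_of_dvd hwd hMd

private theorem TCrt_inj (v w M : ℕ) [NeZero M] (hM : M.Coprime (primorial w)) {x y : ℕ}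
    (hx : x ∈ Icc 1 (XX w M)) (hy : y ∈ Icc 1 (XX w M)) (h1 : x ≡ y [MOD primorial v])
    (h2 : red v w M x = red v w M y) : x = y := by
  rw [mem_Icc] at hx hy
  rcases le_total x y with h | h
  · have h3 := TCrt_dvd v w M hM h h1 h2
    have h4 := Nat.eq_zero_of_dvd_of_lt h3 (by omega)
    omega
  · have h3 := TCrt_dvd v w M hM h h1.symm h2.symm
    have h4 := Nat.eq_zero_of_dvd_of_lt h3 (by omega)
    omega

/-- The moduli `primorial v`, `p` (`p ∈ PR v w`), `M` are pairwise coprime with product `XX w M`. -/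
theorem crt_unique (v w M r : ℕ) [NeZero M] (hvw : v ≤ w) (hM : M.Coprime (primorial w))
    (g : Gp (mo v w M)) : ∃! x, x ∈ fib v w M r ∧ red v w M x = g := by
  have hpv : NeZero (primorial v) := ⟨(primorial_pos v).ne'⟩
  set Φ : ℕ → Gp (mo v w M) × ZMod (primorial v) := fun x => (red v w M x, (x : ZMod (primorial v)))
    with hΦ
  have hinj : Set.InjOn Φ (Icc 1 (XX w M) : Finset ℕ) := by
    intro x hx y hy hxy
    rw [hΦ, Prod.mk.injEq, ZMod.natCast_eq_natCast_iff] at hxy
    exact TCrt_inj v w M hM hx hy hxy.2 hxy.1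
  have himg : (Icc 1 (XX w M)).image Φ = univ := by
    apply eq_univ_of_card
    rw [card_image_of_injOn hinj, Nat.card_Icc, Fintype.card_prod, ZMod.card,
      card_Gp_mul v w M hvw]
    omega
  have hmem : (g, (r : ZMod (primorial v))) ∈ (Icc 1 (XX w M)).image Φ := by
    rw [himg]
    exact mem_univ _
  rw [mem_image] at hmem
  obtain ⟨x, hx, hxg⟩ := hmem
  rw [hΦ, Prod.mk.injEq, ZMod.natCast_eq_natCast_iff] at hxg
  refine ⟨x, ⟨?_, hxg.1⟩, ?_⟩
  · unfold fib
    rw [mem_filter]
    exact ⟨hx, hxg.2⟩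
  · rintro y ⟨hy, hyg⟩
    unfold fib at hy
    rw [mem_filter] at hy
    exact TCrt_inj v w M hM hy.1 hx (hy.2.trans hxg.2.symm) (hyg.trans hxg.1.symm)

theorem sum_fib (v w M r : ℕ) [NeZero M] (hvw : v ≤ w) (hM : M.Coprime (primorial w))
    (f : Gp (mo v w M) → ℂ) : ∑ x ∈ fib v w M r, f (red v w M x) = ∑ g, f g := by
  refine sum_bij (fun x _ => red v w M x) (fun _ _ => mem_univ _) ?_ ?_ (fun _ _ => rfl)
  · intro x hx y hy hxy
    obtain ⟨z, _, hz⟩ := crt_unique v w M r hvw hM (red v w M y)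
    rw [hz x ⟨hx, hxy⟩, hz y ⟨hy, rfl⟩]
  · intro g _
    obtain ⟨z, hz, _⟩ := crt_unique v w M r hvw hM g
    exact ⟨z, hz.1, hz.2⟩

/-- Grouping the sum according to the value of `red`. -/
theorem sum_push (v w M r : ℕ) [NeZero M] (u : ℕ → ℝ) (h : Gp (mo v w M) → ℂ) :
    ∑ g, (push v w M r u g : ℂ) * h g = ∑ x ∈ fib v w M r, (u x : ℂ) * h (red v w M x) := by
  classical
  rw [← sum_fiberwise (fib v w M r) (fun x => red v w M x)
    (fun x => (u x : ℂ) * h (red v w M x))]
  refine sum_congr rfl fun g _ => ?_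
  unfold push
  rw [Complex.ofReal_sum, sum_mul]
  refine sum_congr ?_ fun x hx => ?_
  · ext x
    simp only [mem_filter]
  · rw [mem_filter] at hx
    rw [hx.2]

theorem push_red (v w M r : ℕ) [NeZero M] (hvw : v ≤ w) (hM : M.Coprime (primorial w))
    (u : ℕ → ℝ) {x : ℕ} (hx : x ∈ fib v w M r) : push v w M r u (red v w M x) = u x := by
  classical
  obtain ⟨z, _, hz⟩ := crt_unique v w M r hvw hM (red v w M x)
  have h1 : (fib v w M r).filter (fun y => red v w M y = red v w M x) = {x} := by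
    ext y
    rw [mem_filter, mem_singleton]
    constructor
    · rintro ⟨h1, h2⟩
      rw [hz y ⟨h1, h2⟩, hz x ⟨hx, rfl⟩]
    · rintro rfl
      exact ⟨hx, rfl⟩
  unfold push
  have h2 : ∀ (inst : DecidablePred fun y => red v w M y = red v w M x),
      @Finset.filter ℕ (fun y => red v w M y = red v w M x) inst (fib v w M r) = {x} := by
    intro inst
    rw [← h1]
    congr
  rw [h2, sum_singleton]

theorem push_nonneg (v w M r : ℕ) {u : ℕ → ℝ} (hu : ∀ x, 0 ≤ u x) (g : Gp (mo v w M)) :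
    0 ≤ push v w M r u g := by
  unfold push
  exact sum_nonneg fun x _ => hu x

/-- `∑ i, uc χ i x = ua x`. -/
theorem sum_push_uc {k : ℕ} (v w M r : ℕ) (χ : ℕ → Fin k) (g : Gp (mo v w M)) :
    ∑ i, push v w M r (uc v (XX w M) χ i) g = push v w M r (ua v (XX w M)) g := by
  classical
  unfold push
  rw [sum_comm]
  refine sum_congr rfl fun x _ => ?_
  unfold uc ua
  by_cases h : x.Prime ∧ ⌊((XX w M : ℕ) : ℝ) ^ (1 / 4 : ℝ)⌋₊ < x
  · rw [if_pos h, sum_eq_single (χ x)]
    · rw [if_pos ⟨h.1, h.2, rfl⟩]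
    · intro i _ hi
      rw [if_neg]
      rintro ⟨_, _, h3⟩
      exact hi h3.symm
    · intro h3
      exact absurd (mem_univ _) h3
  · rw [if_neg h]
    refine sum_eq_zero fun i _ => ?_
    rw [if_neg]
    rintro ⟨h1, h2, _⟩
    exact h ⟨h1, h2⟩

end Pool.Agent.Lib.MP_629a14_nt.Ml
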