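import Pool.Agent.Lib.MP_629a14_nt.Ml.FDefs
import Pool.Agent.Lib.MP_629a14_nt.Rob.SDefs

/-! Definitions for the transference from the primes to the product group. -/

set_option autoImplicit false

namespace Pool.Agent.Lib.MP_629a14_nt.Ml

open Finset

/-- The primes in `(v, w]`. -/
def PR (v w : ℕ) : Finset ℕ := (Ioc v w).filter Nat.Prime

/-- The index type: the primes in `(v, w]` and one more index. -/
abbrev Ix (v w : ℕ) : Type := Option {p : ℕ // p ∈ PR v w}

/-- The moduli. -/
def mo (v w M : ℕ) : Ix v w → ℕ
  | none => M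
  | some p => p.1

instance mo_neZero (v w M : ℕ) [NeZero M] (i : Ix v w) : NeZero (mo v w M i) := by
  cases i with
  | none => exact inferInstanceAs (NeZero M)
  | some p =>
    refine ⟨?_⟩
    have hp := p.2
    unfold PR at hp
    rw [mem_filter] at hp
    exact hp.2.ne_zero

/-- The total modulus. -/
def XX (w M : ℕ) : ℕ := primorial w * M

/-- Reduction of the integers. -/
def red (v w M : ℕ) (x : ℕ) : Gp (mo v w M) := fun i => (x : ZMod (mo v w M i))

/-- The integers in `[1, XX w M]` congruent to `r` modulo the product of the primes up to `v`. -/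
def fib (v w M r : ℕ) : Finset ℕ :=
  (Icc 1 (XX w M)).filter (fun x => x ≡ r [MOD primorial v])

open Classical in
/-- Push forward of a function on the integers in `fib`. -/
noncomputable def push (v w M r : ℕ) (u : ℕ → ℝ) (g : Gp (mo v w M)) : ℝ :=
  ∑ x ∈ (fib v w M r).filter (fun x => red v w M x = g), u x

/-- The frequency of a character. -/
noncomputable def theta (v w M : ℕ) (b : Gp (mo v w M)) : ℝ :=
  ∑ i, ((b i).val : ℝ) / (mo v w M i : ℝ)

open Classical in
/-- The indices of the primes in `(v, w]` which are at most `w1`. -/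
noncomputable def svE (v w w1 : ℕ) : Finset (Ix v w) :=
  univ.filter (fun i => ∃ p : {p : ℕ // p ∈ PR v w}, i = some p ∧ p.1 ≤ w1)

/-- The density of the reduced classes modulo the product of the primes up to `v`. -/
noncomputable def den (v : ℕ) : ℝ := ((primorial v).totient : ℝ) / (primorial v : ℝ)

open Classical in
/-- The normalised indicator function of the primes larger than `X ^ (1/4)` of colour `i`. -/
noncomputable def uc {k : ℕ} (v X : ℕ) (χ : ℕ → Fin k) (i : Fin k) (x : ℕ) : ℝ :=
  if x.Prime ∧ ⌊(X : ℝ) ^ (1 / 4 : ℝ)⌋₊ < x ∧ χ x = i then den v * Real.log X else 0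

open Classical in
/-- The normalised indicator function of the primes larger than `X ^ (1/4)`. -/
noncomputable def ua (v X : ℕ) (x : ℕ) : ℝ :=
  if x.Prime ∧ ⌊(X : ℝ) ^ (1 / 4 : ℝ)⌋₊ < x then den v * Real.log X else 0

open Classical in
/-- The number of monochromatic representations `n = p + q` as a sum of two primes. -/
noncomputable def mono {k : ℕ} (χ : ℕ → Fin k) (n : ℕ) : ℕ :=
  ((range (n + 1)).filter (fun p => p.Prime ∧ (n - p).Prime ∧ χ p = χ (n - p))).card

end Pool.Agent.Lib.MP_629a14_nt.Ml
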