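import Pool.Agent.Lib.MP_629a14_nt.Ml.TCrt

/-! The characters as exponentials with well spaced frequencies. -/

set_option autoImplicit false

namespace Pool.Agent.Lib.MP_629a14_nt.Ml

open Finset Pool.Agent.Lib.MP_629a14_nt

private theorem tfreq_ee_sum {ι : Type} (s : Finset ι) (f : ι → ℝ) :
    ee (∑ i ∈ s, f i) = ∏ i ∈ s, ee (f i) := by
  classical
  induction s using Finset.induction_on with
  | empty => simp [ee_zero]
  | insert a s ha ih => rw [sum_insert ha, prod_insert ha, ee_add, ih]

/-- `ZMod.stdAddChar (j : ZMod N) = exp (2 π i j / N)` (`ZMod.stdAddChar_coe`). -/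
theorem psi_red (v w M : ℕ) [NeZero M] (b : Gp (mo v w M)) (x : ℕ) :
    psi (b * red v w M x) = ee (x * theta v w M b) := by
  unfold psi theta
  rw [mul_sum, tfreq_ee_sum]
  refine prod_congr rfl fun i _ => ?_
  have h1 : (b * red v w M x) i = (((((b i).val : ℤ) * (x : ℤ)) : ℤ) : ZMod (mo v w M i)) := by
    rw [Pi.mul_apply]
    unfold red
    push_cast
    rw [ZMod.natCast_zmod_val]
  rw [h1, ZMod.stdAddChar_coe]
  unfold ee
  congr 1
  push_cast
  ring

theorem ft_push (v w M r : ℕ) [NeZero M] (u : ℕ → ℝ) (b : Gp (mo v w M)) :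
    ft (push v w M r u) b =
      (∑ x ∈ fib v w M r, (u x : ℂ) * ee (x * theta v w M b)) /
        (Fintype.card (Gp (mo v w M)) : ℂ) := by
  unfold ft
  rw [sum_push v w M r u (fun g => psi (b * g))]
  congr 1
  exact sum_congr rfl fun x _ => by rw [psi_red]

private theorem tfreq_dvd (v w M : ℕ) (i : Ix v w) : mo v w M i ∣ XX w M := by
  cases i with
  | none => exact dvd_mul_left _ _
  | some p =>
    obtain ⟨p, hp⟩ := p
    change p ∣ primorial w * M
    apply Dvd.dvd.mul_right
    unfold PR at hp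
    rw [mem_filter, mem_Ioc] at hp
    unfold primorial
    apply dvd_prod_of_mem
    rw [mem_filter, mem_range]
    exact ⟨by omega, hp.2⟩

private theorem tfreq_int (v w M : ℕ) [NeZero M] (b : Gp (mo v w M)) :
    ∃ k : ℤ, (XX w M : ℝ) * theta v w M b = k := by
  unfold theta
  rw [mul_sum]
  have h : ∀ i, ∃ k : ℤ, (XX w M : ℝ) * (((b i).val : ℝ) / (mo v w M i : ℝ)) = k := by
    intro i
    obtain ⟨c, hc⟩ := tfreq_dvd v w M i
    have hne : ((mo v w M i : ℕ) : ℝ) ≠ 0 := by
      exact_mod_cast (mo_neZero v w M i).out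
    refine ⟨(c : ℤ) * ((b i).val : ℤ), ?_⟩
    rw [hc]
    push_cast
    field_simp
  choose k hk using h
  refine ⟨∑ i, k i, ?_⟩
  push_cast
  exact sum_congr rfl fun i _ => hk i

/-- `XX * (theta b - theta b' - m)` is an integer. It is not zero: if `theta b - theta b'` is an
integer then `psi (b * red x) = psi (b' * red x)` for all `x`, hence `psi ((b - b') * g) = 1` for all `g`
(`crt_unique`), and `b = b'` by `sum_psi_HS` with `E = ∅`. -/
theorem theta_sep (v w M : ℕ) [NeZero M] (hvw : v ≤ w) (hM : M.Coprime (primorial w))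
    (b b' : Gp (mo v w M)) (hb : b ≠ b') (m : ℤ) :
    1 / (XX w M : ℝ) ≤ |theta v w M b - theta v w M b' - m| := by
  have hXpos : 0 < XX w M := by
    unfold XX
    exact Nat.mul_pos (primorial_pos w) (NeZero.pos M)
  have hX : (0 : ℝ) < (XX w M : ℝ) := by exact_mod_cast hXpos
  obtain ⟨k, hk⟩ := tfreq_int v w M b
  obtain ⟨k', hk'⟩ := tfreq_int v w M b'
  have h1 : (XX w M : ℝ) * (theta v w M b - theta v w M b' - m) =
      ((k - k' - (XX w M : ℤ) * m : ℤ) : ℝ) := by
    push_cast
    rw [← hk, ← hk']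
    ring
  have hne : k - k' - (XX w M : ℤ) * m ≠ 0 := by
    intro h0
    rw [h0, Int.cast_zero] at h1
    have h2 : theta v w M b = theta v w M b' + m := by
      rcases mul_eq_zero.1 h1 with h | h
      · exact absurd h hX.ne'
      · linarith
    have h3 : ∀ x : ℕ, psi (b * red v w M x) = psi (b' * red v w M x) := by
      intro x
      rw [psi_red, psi_red, h2, mul_add, ee_add]
      have : (x : ℝ) * (m : ℝ) = (((x : ℤ) * m : ℤ) : ℝ) := by push_cast; ring
      rw [this, ee_int, mul_one]
    have h4 : ∀ g : Gp (mo v w M), psi (b * g) = psi (b' * g) := by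
      intro g
      obtain ⟨x, hx, _⟩ := crt_unique v w M 0 hvw hM g
      rw [← hx.2]
      exact h3 x
    have h5 : ∀ g : Gp (mo v w M), psi ((b - b') * g) = 1 := by
      intro g
      rw [sub_mul, sub_eq_add_neg, psi_add, psi_neg, h4 g, Complex.mul_conj,
        Complex.normSq_eq_norm_sq, norm_psi]
      norm_num
    have h6 := sum_psi_HS (n := mo v w M) ∅ (b - b')
    have h7 := card_HS_pos (n := mo v w M) ∅
    have h8 : ((HS ∅ : Finset (Gp (mo v w M))).card : ℂ) ≠ 0 := by
      intro h
      have : ((HS ∅ : Finset (Gp (mo v w M))).card : ℝ) = 0 := by exact_mod_cast h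
      exact h7.ne' this
    simp only [h5, sum_const, nsmul_eq_mul, mul_one] at h6
    split_ifs at h6 with hz
    · apply hb
      funext i
      have := hz i (by simp)
      rw [Pi.sub_apply] at this
      exact sub_eq_zero.1 this
    · exact h8 h6
  have h9 : (1 : ℝ) ≤ |((k - k' - (XX w M : ℤ) * m : ℤ) : ℝ)| := by
    have := Int.one_le_abs hne
    rw [← Int.cast_abs]
    exact_mod_cast this
  rw [← h1, abs_mul, abs_of_pos hX] at h9
  rw [div_le_iff₀ hX]
  linarith

end Pool.Agent.Lib.MP_629a14_nt.Ml
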