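import Pool.Agent.Lib.MP_629a14_nt.Ml.TKer
import Pool.Agent.Lib.MP_629a14_nt.Ml.Rlm

/-! The local lemma for the dense model. -/

set_option autoImplicit false

namespace Pool.Agent.Lib.MP_629a14_nt.Ml

open Finset

private theorem TModel_nuS_pos {ι : Type} [Fintype ι] [DecidableEq ι] {n : ι → ℕ}
    [∀ i, NeZero (n i)] (sv : Finset ι) (hsv : ∀ i ∈ sv, (n i).Prime) (g : Gp n)
    (hg : ∀ i ∈ sv, g i ≠ 0) : 0 < nuS sv g := by
  unfold nuS
  refine prod_pos fun i hi => ?_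
  rw [if_neg (hg i hi)]
  have h2 : (2 : ℝ) ≤ (n i : ℝ) := by exact_mod_cast (hsv i hi).two_le
  have h3 : (0 : ℝ) < (n i : ℝ) - 1 := by linarith
  positivity

private theorem TModel_nuS_zero {ι : Type} [Fintype ι] [DecidableEq ι] {n : ι → ℕ}
    [∀ i, NeZero (n i)] (sv : Finset ι) (g : Gp n)
    (hg : ¬ ∀ i ∈ sv, g i ≠ 0) : nuS sv g = 0 := by
  push Not at hg
  obtain ⟨i, hi, h0⟩ := hg
  unfold nuS
  refine prod_eq_zero hi ?_
  rw [if_pos h0]

open Classical in
/-- With `E = svE v w w1`, `κ = ka a lam E`, `Λ = ∑ i, A i` apply `rlm` with `sv = E` to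
`F i g = nuS E g * av κ (A i) g / av κ Λ g` if `g` does not vanish on `E`, and `0` otherwise. Then
`∑ i, F i = nuS E` and `0 ≤ F i ≤ 2 av κ (A i)`. (`svE_facts`, `svE_sum`, `mo_odd`.) -/
theorem t_model (k : ℕ) (hk : 2 ≤ k) : ∃ c0 : ℝ, 0 < c0 ∧
    ∀ (v w w1 M : ℕ) [NeZero M], v = k ^ 600 → v ≤ w1 → w1 ≤ w → M.Coprime (primorial w) →
      ∀ (J : ℕ) (a : Fin J → Gp (mo v w M)) (lam : ℝ) (A : Fin k → Gp (mo v w M) → ℝ),
      (∀ i g, 0 ≤ A i g) →
      (∀ g : Gp (mo v w M), (∀ i ∈ svE v w w1, g i ≠ 0) →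
        nuS (svE v w w1) g ≤ 2 * av (ka a lam (svE v w w1)) (fun x => ∑ i, A i x) g) →
      ((univ.filter (fun m : Gp (mo v w M) =>
        ∑ i, cvm (av (ka a lam (svE v w w1)) (A i)) (av (ka a lam (svE v w w1)) (A i)) m ≤
          c0)).card : ℝ) < (Fintype.card (Gp (mo v w M)) : ℝ) / 2 := by
  obtain ⟨c0, hc0, hr⟩ := rlm k hk
  refine ⟨c0 / 4, by positivity, ?_⟩
  intro v w w1 M _ hv hv1 hw1 hM J a lam A hA hlow
  set E := svE v w w1 with hE
  set κ : Gp (mo v w M) → ℝ := ka a lam E with hκ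
  have hv2 : 2 ≤ v := by
    rw [hv]
    calc 2 ≤ k := hk
      _ = k ^ 1 := (pow_one k).symm
      _ ≤ k ^ 600 := Nat.pow_le_pow_right (by omega) (by norm_num)
  obtain ⟨hsub, hprime, hbig, hsmall⟩ := svE_facts v w w1 M hw1
  have hpr : ∀ i ∈ E, (mo v w M i).Prime := fun i hi => (hprime i (hsub hi)).1
  have hκ0 : ∀ s, 0 ≤ κ s := fun s => ka_nonneg a lam E s
  have hav0 : ∀ i g, 0 ≤ av κ (A i) g := by
    intro i g
    unfold av
    exact sum_nonneg fun s _ => mul_nonneg (hκ0 s) (hA i _)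
  have havs : ∀ g, av κ (fun x => ∑ i, A i x) g = ∑ i, av κ (A i) g := by
    intro g
    unfold av
    rw [sum_comm]
    refine sum_congr rfl fun s _ => ?_
    rw [mul_sum]
  set F : Fin k → Gp (mo v w M) → ℝ := fun i g =>
    if ∀ i ∈ E, g i ≠ 0 then nuS E g * av κ (A i) g / (∑ j, av κ (A j) g) else 0 with hF
  have hF0 : ∀ i g, 0 ≤ F i g := by
    intro i g
    simp only [hF]
    split_ifs
    · exact div_nonneg (mul_nonneg (nuS_nonneg E g) (hav0 i g)) (sum_nonneg fun j _ => hav0 j g)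
    · exact le_rfl
  have hFs : ∀ g, ∑ i, F i g = nuS E g := by
    intro g
    simp only [hF]
    split_ifs with hg
    · have h1 := hlow g hg
      rw [havs] at h1
      have h2 := TModel_nuS_pos E hpr g hg
      have h3 : 0 < ∑ j, av κ (A j) g := by linarith
      rw [← sum_div, ← mul_sum]
      field_simp
    · rw [sum_const_zero, TModel_nuS_zero E g hg]
  have hF2 : ∀ i g, F i g ≤ 2 * av κ (A i) g := by
    intro i g
    simp only [hF]
    split_ifs with hg
    · have h1 := hlow g hg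
      rw [havs] at h1
      have h2 := TModel_nuS_pos E hpr g hg
      have h3 : 0 < ∑ j, av κ (A j) g := by linarith
      rw [div_le_iff₀ h3]
      calc nuS E g * av κ (A i) g ≤ (2 * ∑ j, av κ (A j) g) * av κ (A i) g :=
            mul_le_mul_of_nonneg_right h1 (hav0 i g)
        _ = _ := by ring
    · have := hav0 i g
      linarith
  have hlarge : ∀ i ∈ E, (k : ℝ) ^ 600 ≤ (mo v w M i : ℝ) := by
    intro i hi
    have h1 := (hprime i (hsub hi)).2
    have h2 : k ^ 600 ≤ mo v w M i := by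
      rw [← hv]
      exact h1.le
    exact_mod_cast h2
  have hsum : ∑ i ∈ E, 1 / (mo v w M i : ℝ) ^ 2 ≤ 1 / (k : ℝ) ^ 600 := by
    have h1 := svE_sum v w w1 M (by omega)
    have h2 : (v : ℝ) = (k : ℝ) ^ 600 := by
      rw [hv]
      push_cast
      rfl
    rw [h2] at h1
    exact h1
  have hmain := hr (Ix v w) (mo v w M) E F
    (fun i => mo_odd v w M hv2 (by omega) hM i) hpr hlarge hsum hF0 hFs
  refine lt_of_le_of_lt ?_ hmain
  have hcard : (0 : ℝ) < (Fintype.card (Gp (mo v w M)) : ℝ) := by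
    exact_mod_cast Fintype.card_pos
  have hsubset : (univ.filter (fun m : Gp (mo v w M) =>
        ∑ i, cvm (av κ (A i)) (av κ (A i)) m ≤ c0 / 4)) ⊆
      (univ.filter (fun m : Gp (mo v w M) => ∑ i, ∑ δ, F i (m + δ) * F i (m - δ) ≤
        c0 * (Fintype.card (Gp (mo v w M)) : ℝ))) := by
    intro m hm
    rw [mem_filter] at hm ⊢
    refine ⟨mem_univ _, ?_⟩
    have h1 := hm.2
    have h2 : ∑ i, ∑ δ, F i (m + δ) * F i (m - δ) ≤
        ∑ i, ∑ δ, (2 * av κ (A i) (m + δ)) * (2 * av κ (A i) (m - δ)) := by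
      refine sum_le_sum fun i _ => sum_le_sum fun δ _ => ?_
      exact mul_le_mul (hF2 i _) (hF2 i _) (hF0 i _) (by have := hav0 i (m + δ); linarith)
    have h3 : ∑ i, ∑ δ, (2 * av κ (A i) (m + δ)) * (2 * av κ (A i) (m - δ)) =
        4 * (Fintype.card (Gp (mo v w M)) : ℝ) * ∑ i, cvm (av κ (A i)) (av κ (A i)) m := by
      rw [mul_sum]
      refine sum_congr rfl fun i _ => ?_
      unfold cvm
      rw [mul_assoc, mul_div_cancel₀ _ hcard.ne', mul_sum]
      refine sum_congr rfl fun δ _ => ?_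
      ring
    rw [h3] at h2
    refine h2.trans ?_
    calc 4 * (Fintype.card (Gp (mo v w M)) : ℝ) * ∑ i, cvm (av κ (A i)) (av κ (A i)) m
        ≤ 4 * (Fintype.card (Gp (mo v w M)) : ℝ) * (c0 / 4) :=
          mul_le_mul_of_nonneg_left h1 (by positivity)
      _ = _ := by ring
  exact_mod_cast card_le_card hsubset

end Pool.Agent.Lib.MP_629a14_nt.Ml
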