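import Pool.Agent.Lib.MP_629a14_nt.Ml.Defs

/-! A typical base point. -/

set_option autoImplicit false

namespace Pool.Agent.Lib.MP_629a14_nt.Ml

open Finset

variable {ι : Type} [Fintype ι] [DecidableEq ι] {n : ι → ℕ} [∀ i, NeZero (n i)]

private theorem typ_jensen (κ : Gp n → ℝ) (h0 : ∀ s, 0 ≤ κ s) (h1 : ∑ s, κ s = 1)
    (g : Gp n → ℝ) (m : ℝ) :
    (∑ u, κ u * g u - m) ^ 2 ≤ ∑ u, κ u * (g u - m) ^ 2 := by
  set a : ℝ := ∑ u, κ u * g u - m with ha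
  have hnn : 0 ≤ ∑ u, κ u * (g u - m - a) ^ 2 :=
    sum_nonneg fun u _ => mul_nonneg (h0 u) (sq_nonneg _)
  have e1 : ∀ u, κ u * (g u - m - a) ^ 2 =
      κ u * (g u - m) ^ 2 - 2 * a * (κ u * g u) + (2 * a * m + a ^ 2) * κ u := fun u => by ring
  rw [sum_congr rfl fun u _ => e1 u, sum_add_distrib, sum_sub_distrib, ← mul_sum, ← mul_sum, h1]
    at hnn
  have e2 : ∑ u, κ u * g u = a + m := by rw [ha]; ring
  rw [e2] at hnn
  nlinarith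

/-- The exchange of the two averages, dilated version. -/
private theorem typ_swap2 (κe κb f : Gp n → ℝ) (y : Gp n) :
    ∑ w, κe w * av2 κb f (y + w) = ∑ u, κb u * av κe f (y + (u + u)) := by
  unfold av2 av
  simp only [mul_sum]
  rw [sum_comm]
  refine sum_congr rfl fun u _ => sum_congr rfl fun w _ => ?_
  rw [show y + w + (u + u) = y + (u + u) + w by abel]
  ring

private theorem typ_swap1 (κe κb f : Gp n → ℝ) (y : Gp n) :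
    ∑ w, κe w * av κb f (y + w) = ∑ u, κb u * av κe f (y + u) := by
  unfold av
  simp only [mul_sum]
  rw [sum_comm]
  refine sum_congr rfl fun u _ => sum_congr rfl fun w _ => ?_
  rw [show y + w + u = y + u + w by abel]
  ring

/-- A sum of squares is at most the square of the sum of the absolute values. -/
private theorem typ_sq_le {k : ℕ} (x : Fin k → ℝ) : ∑ i, x i ^ 2 ≤ (∑ i, |x i|) ^ 2 := by
  have h : ∀ i, x i ^ 2 = |x i| * |x i| := fun i => by rw [← sq, sq_abs]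
  rw [sum_congr rfl fun i _ => h i, sq, sum_mul]
  refine sum_le_sum fun i _ => mul_le_mul_of_nonneg_left ?_ (abs_nonneg _)
  exact single_le_sum (f := fun i => |x i|) (fun j _ => abs_nonneg (x j)) (mem_univ i)

private theorem typ_core {k : ℕ} (A B m : Fin k → ℝ) :
    ∑ i, (A i - m i) ^ 2 ≤ 2 * ∑ i, (B i - m i) ^ 2 + 2 * (∑ i, |B i - A i|) ^ 2 := by
  have h := typ_sq_le (fun i => B i - A i)
  have h2 : ∑ i, (A i - m i) ^ 2 ≤ ∑ i, (2 * (B i - m i) ^ 2 + 2 * (B i - A i) ^ 2) :=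
    sum_le_sum fun i _ => by nlinarith [sq_nonneg ((B i - m i) + (B i - A i))]
  rw [sum_add_distrib, ← mul_sum, ← mul_sum] at h2
  linarith

/-- The dilated estimate at one point. -/
private theorem typ_pt2 {k : ℕ} (F : Fin k → Gp n → ℝ) (D : Gp n → ℝ) (κb κe : Gp n → ℝ)
    (hb : (∀ s, 0 ≤ κb s) ∧ ∑ s, κb s = 1) (mu0 : Fin k → ℝ) (d0 e : ℝ) (y : Gp n)
    (h : ∑ i, |(∑ w, κe w * av2 κb (F i) (y + w)) - av2 κb (F i) y| ≤ e) :
    ∑ i, (av2 κb (F i) y - mu0 i) ^ 2 ≤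
      2 * (∑ u, κb u * ((∑ i, (av κe (F i) (y + (u + u)) - mu0 i) ^ 2) +
        (av κe D (y + (u + u)) - d0) ^ 2)) + 2 * e ^ 2 := by
  have h1 := typ_core (fun i => av2 κb (F i) y)
    (fun i => ∑ w, κe w * av2 κb (F i) (y + w)) mu0
  have hn : 0 ≤ ∑ i, |(∑ w, κe w * av2 κb (F i) (y + w)) - av2 κb (F i) y| :=
    sum_nonneg fun i _ => abs_nonneg _
  have h2 : ∑ i, ((∑ w, κe w * av2 κb (F i) (y + w)) - mu0 i) ^ 2 ≤
      ∑ u, κb u * ((∑ i, (av κe (F i) (y + (u + u)) - mu0 i) ^ 2) +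
        (av κe D (y + (u + u)) - d0) ^ 2) := by
    calc ∑ i, ((∑ w, κe w * av2 κb (F i) (y + w)) - mu0 i) ^ 2
        = ∑ i, ((∑ u, κb u * av κe (F i) (y + (u + u))) - mu0 i) ^ 2 :=
          sum_congr rfl fun i _ => by rw [typ_swap2]
      _ ≤ ∑ i, ∑ u, κb u * (av κe (F i) (y + (u + u)) - mu0 i) ^ 2 :=
          sum_le_sum fun i _ => typ_jensen κb hb.1 hb.2 _ _
      _ = ∑ u, κb u * ∑ i, (av κe (F i) (y + (u + u)) - mu0 i) ^ 2 := by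
          rw [sum_comm]
          exact sum_congr rfl fun u _ => by rw [mul_sum]
      _ ≤ _ := sum_le_sum fun u _ => mul_le_mul_of_nonneg_left
          (le_add_of_nonneg_right (sq_nonneg _)) (hb.1 u)
  have h3 : (∑ i, |(∑ w, κe w * av2 κb (F i) (y + w)) - av2 κb (F i) y|) ^ 2 ≤ e ^ 2 :=
    pow_le_pow_left₀ hn h 2
  linarith

/-- The undilated estimate at one point. -/
private theorem typ_pt1 {k : ℕ} (F : Fin k → Gp n → ℝ) (D : Gp n → ℝ) (κb κe : Gp n → ℝ)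
    (hb : (∀ s, 0 ≤ κb s) ∧ ∑ s, κb s = 1) (mu0 : Fin k → ℝ) (d0 e : ℝ) (y : Gp n)
    (h : (∑ i, |(∑ w, κe w * av κb (F i) (y + w)) - av κb (F i) y|) +
        |(∑ w, κe w * av κb D (y + w)) - av κb D y| ≤ e) :
    (∑ i, (av κb (F i) y - mu0 i) ^ 2) + (av κb D y - d0) ^ 2 ≤
      2 * (∑ u, κb u * ((∑ i, (av κe (F i) (y + u) - mu0 i) ^ 2) +
        (av κe D (y + u) - d0) ^ 2)) + 2 * e ^ 2 := by
  have h1 := typ_core (fun i => av κb (F i) y)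
    (fun i => ∑ w, κe w * av κb (F i) (y + w)) mu0
  set X := ∑ i, |(∑ w, κe w * av κb (F i) (y + w)) - av κb (F i) y| with hX
  have hn : 0 ≤ X := sum_nonneg fun i _ => abs_nonneg _
  have h2 : ∑ i, ((∑ w, κe w * av κb (F i) (y + w)) - mu0 i) ^ 2 ≤
      ∑ u, κb u * (∑ i, (av κe (F i) (y + u) - mu0 i) ^ 2) := by
    calc ∑ i, ((∑ w, κe w * av κb (F i) (y + w)) - mu0 i) ^ 2
        = ∑ i, ((∑ u, κb u * av κe (F i) (y + u)) - mu0 i) ^ 2 :=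
          sum_congr rfl fun i _ => by rw [typ_swap1]
      _ ≤ ∑ i, ∑ u, κb u * (av κe (F i) (y + u) - mu0 i) ^ 2 :=
          sum_le_sum fun i _ => typ_jensen κb hb.1 hb.2 _ _
      _ = ∑ u, κb u * ∑ i, (av κe (F i) (y + u) - mu0 i) ^ 2 := by
          rw [sum_comm]
          exact sum_congr rfl fun u _ => by rw [mul_sum]
  have h4 : ((∑ w, κe w * av κb D (y + w)) - d0) ^ 2 ≤
      ∑ u, κb u * (av κe D (y + u) - d0) ^ 2 := by
    rw [typ_swap1]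
    exact typ_jensen κb hb.1 hb.2 _ _
  set B := ∑ w, κe w * av κb D (y + w) with hB
  have h5 : (av κb D y - d0) ^ 2 ≤ 2 * (B - d0) ^ 2 + 2 * |B - av κb D y| ^ 2 := by
    rw [sq_abs]
    nlinarith [sq_nonneg ((B - d0) + (B - av κb D y))]
  have h6 : X ^ 2 + |B - av κb D y| ^ 2 ≤ e ^ 2 := by
    have hn2 := abs_nonneg (B - av κb D y)
    nlinarith [mul_nonneg hn hn2, mul_self_le_mul_self (add_nonneg hn hn2) h]
  have h7 : ∑ u, κb u * ((∑ i, (av κe (F i) (y + u) - mu0 i) ^ 2) +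
        (av κe D (y + u) - d0) ^ 2) =
      ∑ u, κb u * (∑ i, (av κe (F i) (y + u) - mu0 i) ^ 2) +
      ∑ u, κb u * (av κe D (y + u) - d0) ^ 2 := by
    rw [← sum_add_distrib]
    exact sum_congr rfl fun u _ => by ring
  rw [h7]
  linarith

/-- Averages are monotone on the support. -/
private theorem typ_mono (κ : Gp n → ℝ) (h0 : ∀ s, 0 ≤ κ s) (f g : Gp n → ℝ)
    (h : ∀ s, κ s ≠ 0 → f s ≤ g s) : ∑ s, κ s * f s ≤ ∑ s, κ s * g s := by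
  refine sum_le_sum fun s _ => ?_
  by_cases hs : κ s = 0
  · rw [hs, zero_mul, zero_mul]
  · exact mul_le_mul_of_nonneg_left (h s hs) (h0 s)

/-- The average of the first two terms. -/
private theorem typ_avg2 {k : ℕ} (F : Fin k → Gp n → ℝ) (D : Gp n → ℝ) (κ0 κa κb κe : Gp n → ℝ)
    (h0 : (∀ s, 0 ≤ κ0 s) ∧ ∑ s, κ0 s = 1) (ha : (∀ s, 0 ≤ κa s) ∧ ∑ s, κa s = 1)
    (hb : (∀ s, 0 ≤ κb s) ∧ ∑ s, κb s = 1)
    (mu0 : Fin k → ℝ) (d0 : ℝ) (Z : Gp n → Gp n → Gp n) (W : Gp n → Gp n) (e : ℝ)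
    (h1 : ∀ s t, κ0 s ≠ 0 → κa t ≠ 0 →
      ∑ i, |(∑ w, κe w * av2 κb (F i) (Z s t + w)) - av2 κb (F i) (Z s t)| ≤ e)
    (h4 : |(∑ t, ∑ u, κa t * κb u * ∑ s, κ0 s *
        ((∑ i, (av κe (F i) (Z s t + (u + u)) - mu0 i) ^ 2) +
          (av κe D (Z s t + (u + u)) - d0) ^ 2)) -
        ∑ s, κ0 s * ((∑ i, (av κe (F i) (W s) - mu0 i) ^ 2) +
          (av κe D (W s) - d0) ^ 2)| ≤ 25 * e)
    (h6 : ∑ s, κ0 s * ((∑ i, (av κe (F i) (W s) - mu0 i) ^ 2) +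
      (av κe D (W s) - d0) ^ 2) ≤ 52 * e) :
    ∑ s, κ0 s * (∑ t, κa t * ∑ i, (av2 κb (F i) (Z s t) - mu0 i) ^ 2) ≤
      154 * e + 2 * e ^ 2 := by
  set G : Gp n → ℝ := fun y => (∑ i, (av κe (F i) y - mu0 i) ^ 2) + (av κe D y - d0) ^ 2 with hG
  have step1 : ∑ s, κ0 s * (∑ t, κa t * ∑ i, (av2 κb (F i) (Z s t) - mu0 i) ^ 2) ≤
      ∑ s, κ0 s * (∑ t, κa t * (2 * (∑ u, κb u * G (Z s t + (u + u))) + 2 * e ^ 2)) := by
    refine typ_mono κ0 h0.1 _ _ fun s hs => typ_mono κa ha.1 _ _ fun t ht => ?_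
    exact typ_pt2 F D κb κe hb mu0 d0 e (Z s t) (h1 s t hs ht)
  have step2 : ∑ s, κ0 s * (∑ t, κa t * (2 * (∑ u, κb u * G (Z s t + (u + u))) + 2 * e ^ 2)) =
      2 * (∑ t, ∑ u, κa t * κb u * ∑ s, κ0 s * G (Z s t + (u + u))) + 2 * e ^ 2 := by
    have e1 : ∀ s, ∑ t, κa t * (2 * (∑ u, κb u * G (Z s t + (u + u))) + 2 * e ^ 2) =
        2 * (∑ t, κa t * ∑ u, κb u * G (Z s t + (u + u))) + 2 * e ^ 2 := by
      intro s
      have : (2 : ℝ) * e ^ 2 = ∑ t, κa t * (2 * e ^ 2) := by rw [← sum_mul, ha.2, one_mul]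
      rw [sum_congr rfl fun t _ => mul_add (κa t) _ _, sum_add_distrib, ← this, mul_sum]
      congr 1
      exact sum_congr rfl fun t _ => by ring
    rw [sum_congr rfl fun s _ => by rw [e1 s]]
    have e2 : ∑ s, κ0 s * (2 * (∑ t, κa t * ∑ u, κb u * G (Z s t + (u + u))) + 2 * e ^ 2) =
        2 * (∑ s, κ0 s * ∑ t, κa t * ∑ u, κb u * G (Z s t + (u + u))) + 2 * e ^ 2 := by
      have : (2 : ℝ) * e ^ 2 = ∑ s, κ0 s * (2 * e ^ 2) := by rw [← sum_mul, h0.2, one_mul]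
      rw [sum_congr rfl fun s _ => mul_add (κ0 s) _ _, sum_add_distrib, ← this, mul_sum]
      congr 1
      exact sum_congr rfl fun s _ => by ring
    rw [e2]
    congr 2
    simp only [mul_sum]
    rw [sum_comm]
    refine sum_congr rfl fun t _ => ?_
    rw [sum_comm]
    refine sum_congr rfl fun u _ => sum_congr rfl fun s _ => ?_
    ring
  have h4' := (abs_le.1 h4).2
  have h6' : ∑ s, κ0 s * G (W s) ≤ 52 * e := h6
  have h4'' : (∑ t, ∑ u, κa t * κb u * ∑ s, κ0 s * G (Z s t + (u + u))) -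
      ∑ s, κ0 s * G (W s) ≤ 25 * e := h4'
  rw [step2] at step1
  linarith

/-- For `y = z0 + s + t` in `h1`: `∑ w, κe(w) av2 κb f (y + w) = ∑ u, κb(u) av κe f (y + (u + u))`, so with
`Gf(y) = ∑ i, (av κe (F i) y - mu0 i) ^ 2 + (av κe D y - d0) ^ 2` we get (Jensen)
`∑ i, (av2 κb (F i) y - mu0 i) ^ 2 ≤ 2 ∑ u, κb(u) Gf(y + (u + u)) + 2 e ^ 2`. Average over
`s ~ κ0`, `t ~ κa`: at most `2 (52 e + 25 e) + 2 e ^ 2` by `h4` and `h6`. Similarly for the two other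
terms; the total average is at most `462 e + 6 e ^ 2 ≤ 480 e`, so some `s` with `κ0 s ≠ 0` works. -/
theorem typ {k : ℕ} (F : Fin k → Gp n → ℝ) (D : Gp n → ℝ) (κ0 κa κb κc κe : Gp n → ℝ)
    (h0 : (∀ s, 0 ≤ κ0 s) ∧ ∑ s, κ0 s = 1) (ha : (∀ s, 0 ≤ κa s) ∧ ∑ s, κa s = 1)
    (hb : (∀ s, 0 ≤ κb s) ∧ ∑ s, κb s = 1) (hc : (∀ s, 0 ≤ κc s) ∧ ∑ s, κc s = 1)
    (hke : (∀ s, 0 ≤ κe s) ∧ ∑ s, κe s = 1)
    (mu0 : Fin k → ℝ) (d0 : ℝ) (z0 : Gp n) (e : ℝ) (he : 0 ≤ e) (he1 : e ≤ 1)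
    (hG : ∀ y, (∑ i, (av κe (F i) y - mu0 i) ^ 2) + (av κe D y - d0) ^ 2 ≤ 25)
    (h1 : ∀ s t, κ0 s ≠ 0 → κa t ≠ 0 →
      ∑ i, |(∑ w, κe w * av2 κb (F i) (z0 + s + t + w)) - av2 κb (F i) (z0 + s + t)| ≤ e)
    (h2 : ∀ s t, κ0 s ≠ 0 → κa t ≠ 0 →
      ∑ i, |(∑ w, κe w * av2 κc (F i) (z0 + s - t + w)) - av2 κc (F i) (z0 + s - t)| ≤ e)
    (h3 : ∀ s, κ0 s ≠ 0 →
      (∑ i, |(∑ w, κe w * av κb (F i) (z0 + s + w)) - av κb (F i) (z0 + s)|) +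
        |(∑ w, κe w * av κb D (z0 + s + w)) - av κb D (z0 + s)| ≤ e)
    (h4 : ∀ G : Gp n → ℝ, (∀ x, |G x| ≤ 25) →
      |(∑ t, ∑ u, κa t * κb u * ∑ s, κ0 s * G (z0 + s + t + (u + u))) -
        ∑ s, κ0 s * G (z0 + s)| ≤ 25 * e)
    (h4' : ∀ G : Gp n → ℝ, (∀ x, |G x| ≤ 25) →
      |(∑ t, ∑ u, κa t * κc u * ∑ s, κ0 s * G (z0 + s - t + (u + u))) -
        ∑ s, κ0 s * G (z0 + s)| ≤ 25 * e)
    (h5 : ∀ G : Gp n → ℝ, (∀ x, |G x| ≤ 25) →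
      |(∑ u, κb u * ∑ s, κ0 s * G (z0 + s + u)) - ∑ s, κ0 s * G (z0 + s)| ≤ 25 * e)
    (h6 : ∑ s, κ0 s * ((∑ i, (av κe (F i) (z0 + s) - mu0 i) ^ 2) +
      (av κe D (z0 + s) - d0) ^ 2) ≤ 52 * e) :
    ∃ s, κ0 s ≠ 0 ∧
      (∑ t, κa t * ∑ i, (av2 κb (F i) (z0 + s + t) - mu0 i) ^ 2) +
      (∑ t, κa t * ∑ i, (av2 κc (F i) (z0 + s - t) - mu0 i) ^ 2) +
      ((∑ i, (av κb (F i) (z0 + s) - mu0 i) ^ 2) + (av κb D (z0 + s) - d0) ^ 2) ≤ 480 * e := by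
  set G : Gp n → ℝ := fun y => (∑ i, (av κe (F i) y - mu0 i) ^ 2) + (av κe D y - d0) ^ 2 with hGd
  have hGa : ∀ x, |G x| ≤ 25 := by
    intro x
    rw [abs_of_nonneg (add_nonneg (sum_nonneg fun i _ => sq_nonneg _) (sq_nonneg _))]
    exact hG x
  have A1 := typ_avg2 F D κ0 κa κb κe h0 ha hb mu0 d0 (fun s t => z0 + s + t)
    (fun s => z0 + s) e h1 (h4 G hGa) h6
  have A2 := typ_avg2 F D κ0 κa κc κe h0 ha hc mu0 d0 (fun s t => z0 + s - t)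
    (fun s => z0 + s) e h2 (h4' G hGa) h6
  have A3 : ∑ s, κ0 s * ((∑ i, (av κb (F i) (z0 + s) - mu0 i) ^ 2) +
      (av κb D (z0 + s) - d0) ^ 2) ≤ 154 * e + 2 * e ^ 2 := by
    have s1 : ∑ s, κ0 s * ((∑ i, (av κb (F i) (z0 + s) - mu0 i) ^ 2) +
        (av κb D (z0 + s) - d0) ^ 2) ≤
        ∑ s, κ0 s * (2 * (∑ u, κb u * G (z0 + s + u)) + 2 * e ^ 2) :=
      typ_mono κ0 h0.1 _ _ fun s hs => typ_pt1 F D κb κe hb mu0 d0 e (z0 + s) (h3 s hs)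
    have s2 : ∑ s, κ0 s * (2 * (∑ u, κb u * G (z0 + s + u)) + 2 * e ^ 2) =
        2 * (∑ u, κb u * ∑ s, κ0 s * G (z0 + s + u)) + 2 * e ^ 2 := by
      have : (2 : ℝ) * e ^ 2 = ∑ s, κ0 s * (2 * e ^ 2) := by rw [← sum_mul, h0.2, one_mul]
      rw [sum_congr rfl fun s _ => mul_add (κ0 s) _ _, sum_add_distrib, ← this]
      congr 1
      simp only [mul_sum]
      rw [sum_comm]
      exact sum_congr rfl fun u _ => sum_congr rfl fun s _ => by ring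
    have s3 := (abs_le.1 (h5 G hGa)).2
    have s4 : ∑ s, κ0 s * G (z0 + s) ≤ 52 * e := h6
    rw [s2] at s1
    linarith
  by_contra hcon
  push Not at hcon
  have hlow : ∑ s, κ0 s * (480 * e) ≤ ∑ s, κ0 s *
      ((∑ t, κa t * ∑ i, (av2 κb (F i) (z0 + s + t) - mu0 i) ^ 2) +
      (∑ t, κa t * ∑ i, (av2 κc (F i) (z0 + s - t) - mu0 i) ^ 2) +
      ((∑ i, (av κb (F i) (z0 + s) - mu0 i) ^ 2) + (av κb D (z0 + s) - d0) ^ 2)) :=
    typ_mono κ0 h0.1 _ _ fun s hs => (hcon s hs).le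
  have hex : ∃ s, κ0 s ≠ 0 := by
    by_contra hne
    push Not at hne
    have : ∑ s, κ0 s = 0 := sum_eq_zero fun s _ => hne s
    rw [h0.2] at this
    exact one_ne_zero this
  have hlow2 : ∑ s, κ0 s * (480 * e) < ∑ s, κ0 s *
      ((∑ t, κa t * ∑ i, (av2 κb (F i) (z0 + s + t) - mu0 i) ^ 2) +
      (∑ t, κa t * ∑ i, (av2 κc (F i) (z0 + s - t) - mu0 i) ^ 2) +
      ((∑ i, (av κb (F i) (z0 + s) - mu0 i) ^ 2) + (av κb D (z0 + s) - d0) ^ 2)) := by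
    obtain ⟨s, hs⟩ := hex
    refine sum_lt_sum (fun s _ => ?_) ⟨s, mem_univ s, ?_⟩
    · by_cases hs : κ0 s = 0
      · rw [hs, zero_mul, zero_mul]
      · exact mul_le_mul_of_nonneg_left (hcon s hs).le (h0.1 s)
    · exact mul_lt_mul_of_pos_left (hcon s hs) (lt_of_le_of_ne (h0.1 s) (Ne.symm hs))
  rw [← sum_mul, h0.2, one_mul] at hlow2
  simp only [mul_add, sum_add_distrib] at hlow2 A3
  nlinarith [mul_nonneg he (sub_nonneg.2 he1)]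

end Pool.Agent.Lib.MP_629a14_nt.Ml
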