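import Pool.Agent.Lib.MP_629a14_nt.Ml.Ker

/-! Correlation of product functions with words in the characters. -/

set_option autoImplicit false

namespace Pool.Agent.Lib.MP_629a14_nt.Ml

open Finset

variable {ι : Type} [Fintype ι] [DecidableEq ι] {n : ι → ℕ} [∀ i, NeZero (n i)]

/-- `‖∑_{HS E} Φ psi (b s)‖ ≤ ∑_{HS E} Φ`. -/
theorem word_triv {Φ : Gp n → ℝ} (hΦ : ∀ s, 0 ≤ Φ s) (E : Finset ι) (b : Gp n) :
    ‖∑ s ∈ (HS E : Finset (Gp n)), (Φ s : ℂ) * psi (b * s)‖ ≤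
      ∑ s ∈ (HS E : Finset (Gp n)), Φ s := by
  refine (norm_sum_le _ _).trans (sum_le_sum fun s _ => ?_)
  rw [norm_mul, norm_psi, mul_one, Complex.norm_real, Real.norm_of_nonneg (hΦ s)]

/-- With `b = ∑ j, m j • a j` and `Φ s = ∏ φ i (s i)`, the sum is
`∏_{i ∈ E} φ i 0 * ∏_{i ∉ E} ∑ x, φ i x * stdAddChar (b i * x)` (`sum_HS_prod`); the factor at
`i ∉ E` has norm at most `∑ x, φ i x`, and at most `c i * ∑ x, φ i x` when `b i ≠ 0`; by `Clo` the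
product of these `c i` is at most `tau`. -/
theorem word_le {c : ι → ℝ} (hc : ∀ i, 0 ≤ c i ∧ c i ≤ 1) {J : ℕ} {a : Fin J → Gp n} {L : ℕ}
    {tau : ℝ} {E : Finset ι} (hclo : Clo c a L tau E) {Φ : Gp n → ℝ} (hΦ : PF c E Φ)
    (m : Fin J → ℤ) (hm : ∀ j, |m j| ≤ (L : ℤ)) (hb : ¬ ∀ i, i ∉ E → (∑ j, m j • a j) i = 0) :
    ‖∑ s ∈ (HS E : Finset (Gp n)), (Φ s : ℂ) * psi ((∑ j, m j • a j) * s)‖ ≤
      tau * ∑ s ∈ (HS E : Finset (Gp n)), Φ s := by
  classical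
  obtain ⟨φ, hφ0, hφ, hφc⟩ := hΦ
  set b : Gp n := ∑ j, m j • a j with hbdef
  have h1 : ∑ s ∈ (HS E : Finset (Gp n)), (Φ s : ℂ) * psi (b * s) =
      ∏ i, (if i ∈ E then ((φ i 0 : ℝ) : ℂ) * ZMod.stdAddChar (b i * 0) else
        ∑ x, ((φ i x : ℝ) : ℂ) * ZMod.stdAddChar (b i * x)) := by
    rw [← sum_HS_prod (n := n) E (fun i x => ((φ i x : ℝ) : ℂ) * ZMod.stdAddChar (b i * x))]
    refine sum_congr rfl fun s _ => ?_
    rw [hφ s, Complex.ofReal_prod]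
    unfold psi
    rw [← prod_mul_distrib]
    rfl
  have h2 : ∑ s ∈ (HS E : Finset (Gp n)), Φ s = ∏ i, (if i ∈ E then φ i 0 else ∑ x, φ i x) := by
    rw [← sum_HS_prod_real (n := n) E φ]
    exact sum_congr rfl fun s _ => hφ s
  have h3 : ‖∑ s ∈ (HS E : Finset (Gp n)), (Φ s : ℂ) * psi (b * s)‖ ≤
      ∏ i, ((if i ∉ E ∧ b i ≠ 0 then c i else 1) * (if i ∈ E then φ i 0 else ∑ x, φ i x)) := by
    rw [h1, norm_prod]
    refine prod_le_prod (fun i _ => norm_nonneg _) fun i _ => ?_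
    by_cases hi : i ∈ E
    · rw [if_pos hi, if_pos hi, if_neg (fun h => h.1 hi), one_mul, mul_zero, AddChar.map_zero_eq_one, mul_one,
        Complex.norm_real, Real.norm_of_nonneg (hφ0 i 0)]
    · rw [if_neg hi, if_neg hi]
      by_cases hbi : b i = 0
      · rw [if_neg (fun h => h.2 hbi), one_mul]
        refine (norm_sum_le _ _).trans (sum_le_sum fun x _ => ?_)
        rw [norm_mul, AddChar.norm_apply, mul_one, Complex.norm_real, Real.norm_of_nonneg (hφ0 i x)]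
      · rw [if_pos ⟨hi, hbi⟩]
        exact hφc i hi (b i) hbi
  refine h3.trans ?_
  rw [prod_mul_distrib, ← h2]
  have h4 : ∏ i, (if i ∉ E ∧ b i ≠ 0 then c i else 1) =
      ∏ i ∈ univ.filter (fun i => i ∉ E ∧ b i ≠ 0), c i := by
    rw [prod_filter]
  have h5 : 0 ≤ ∑ s ∈ (HS E : Finset (Gp n)), Φ s := by
    refine sum_nonneg fun s _ => ?_
    rw [hφ s]
    exact prod_nonneg fun i _ => hφ0 i _
  rw [h4]
  refine mul_le_mul_of_nonneg_right ?_ h5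
  rcases hclo m hm with h | h
  · exact absurd h hb
  · exact h

end Pool.Agent.Lib.MP_629a14_nt.Ml
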